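import Pool.Agent.Lib.H51L.D0

/-!
# H51L, chunk A1: the two branches
-/

set_option autoImplicit false

namespace H51L

open Set Metric Topology Filter MeasureTheory

theorem a1_im (s : ℂ) : ((1 - s) / s).im = - s.im / Complex.normSq s := by
  rw [Complex.div_im]
  simp only [Complex.sub_im, Complex.one_im, Complex.sub_re, Complex.one_re]
  ring

theorem a1_ne {s : ℂ} (h : s.im ≠ 0) : s ≠ 0 := by
  rintro rfl
  simp at h

theorem a1_eq {s : ℂ} (h : s ≠ 0) : 1 - 1 / s = - ((1 - s) / s) := by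
  field_simp
  ring

/-- PROOF.  `1 - 1 / s = - w`, `w = (1 - s) / s`, `w.im = - s.im / ‖s‖² < 0`, so `Complex.log (-w) = Complex.log w + π i`. -/
theorem a1_upper {s : ℂ} (hs : 0 < s.im) : b s = bh s := by
  have h0 : s ≠ 0 := a1_ne hs.ne'
  have h1 : ((1 - s) / s).im < 0 := by
    rw [a1_im]
    exact div_neg_of_neg_of_pos (by linarith) (Complex.normSq_pos.2 h0)
  unfold b bh
  rw [a1_eq h0]
  congr 2
  unfold Complex.log
  rw [norm_neg, Complex.arg_neg_eq_arg_add_pi_of_im_neg h1]
  push_cast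
  ring

/-- PROOF.  As `a1_upper` with `w.im > 0` and `Complex.log (-w) = Complex.log w - π i`. -/
theorem a1_lower {s : ℂ} (hs : s.im < 0) :
    b s = bh s - 2 * Real.pi * Complex.I * pol s := by
  have h0 : s ≠ 0 := a1_ne hs.ne
  have h1 : 0 < ((1 - s) / s).im := by
    rw [a1_im]
    exact div_pos (by linarith) (Complex.normSq_pos.2 h0)
  unfold b bh
  rw [a1_eq h0]
  have h2 : Complex.log (-((1 - s) / s)) = Complex.log ((1 - s) / s) - Real.pi * Complex.I := by
    unfold Complex.log
    rw [norm_neg, Complex.arg_neg_eq_arg_sub_pi_of_im_pos h1]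
    push_cast
    ring
  rw [h2]
  ring

/-- PROOF.  `w = (1 - s) / s` is a positive real number, `1 - 1 / s = - w`, `log (-w) = log w + π i`. -/
theorem a1_real {s : ℂ} (hs : s.im = 0) (h0 : 0 < s.re) (h1 : s.re < 1) : b s = bh s := by
  have h00 : s ≠ 0 := by
    rintro rfl
    simp at h0
  have hsr : s = ((s.re : ℝ) : ℂ) := by
    apply Complex.ext
    · simp
    · simp [hs]
  have h2 : (1 - s) / s = (((1 - s.re) / s.re : ℝ) : ℂ) := by
    rw [hsr]
    push_cast
    simp
  have h3 : 0 < (1 - s.re) / s.re := div_pos (by linarith) h0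
  unfold b bh
  rw [a1_eq h00]
  congr 2
  rw [h2]
  unfold Complex.log
  rw [norm_neg, Complex.arg_ofReal_of_nonneg h3.le, ← Complex.ofReal_neg,
    Complex.arg_ofReal_of_neg (by linarith)]
  push_cast
  ring

theorem a1_zero : b 0 = bh 0 := by
  simp [b, bh, pol]

theorem a1_one : b 1 = bh 1 := by
  simp [b, bh, pol]

end H51L
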