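import Pool.Agent.Lib.H51L.D0

/-!
# H51L, chunk A2: the function `b` off `[0, 1]`
-/

set_option autoImplicit false

namespace H51L

open Set Metric Topology Filter MeasureTheory

theorem a2_slit {s : ℂ} (hs : ¬(s.im = 0 ∧ 0 ≤ s.re ∧ s.re ≤ 1)) :
    s ≠ 0 ∧ s ≠ 1 ∧ 1 - 1 / s ∈ Complex.slitPlane := by
  have h0 : s ≠ 0 := by
    rintro rfl
    exact hs ⟨rfl, le_rfl, zero_le_one⟩
  have h1 : s ≠ 1 := by
    rintro rfl
    exact hs ⟨rfl, zero_le_one, le_rfl⟩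
  refine ⟨h0, h1, ?_⟩
  rw [Complex.mem_slitPlane_iff]
  by_cases him : s.im = 0
  · left
    have hsr : s = ((s.re : ℝ) : ℂ) := by
      apply Complex.ext
      · simp
      · simp [him]
    have h2 : (1 - 1 / s).re = 1 - 1 / s.re := by
      rw [hsr]
      have : (1 : ℂ) - 1 / ((s.re : ℝ) : ℂ) = ((1 - 1 / s.re : ℝ) : ℂ) := by push_cast; ring
      rw [this]
      simp
    rw [h2]
    rcases lt_or_ge s.re 0 with h3 | h3
    · have : 1 / s.re < 0 := one_div_neg.2 h3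
      linarith
    · have h4 : 1 < s.re := by
        by_contra hcon
        push Not at hcon
        exact hs ⟨him, h3, hcon⟩
      have : 1 / s.re < 1 := by
        rw [div_lt_one (by linarith)]
        exact h4
      linarith
  · right
    have h2 : (1 - 1 / s).im = s.im / Complex.normSq s := by
      rw [Complex.sub_im, Complex.one_im, Complex.div_im]
      simp
    rw [h2]
    exact div_ne_zero him (Complex.normSq_pos.2 h0).ne'

theorem a2_log {t : ℝ} (ht : 0 ≤ t) : t * |Real.log t| ≤ 1 + t ^ 2 := by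
  rcases ht.eq_or_lt with h | h
  · rw [← h]; simp
  rcases le_or_gt t 1 with h1 | h1
  · have := Real.abs_log_mul_self_lt t h h1
    rw [abs_mul, abs_of_pos h, mul_comm] at this
    nlinarith [sq_nonneg t]
  · have h2 : Real.log t ≤ t - 1 := Real.log_le_sub_one_of_pos h
    rw [abs_of_nonneg (Real.log_nonneg h1.le)]
    nlinarith

theorem a2_norm_log (w : ℂ) : ‖Complex.log w‖ ≤ |Real.log ‖w‖| + Real.pi := by
  have h1 : ‖Complex.log w‖ ≤ |(Complex.log w).re| + |(Complex.log w).im| :=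
    Complex.norm_le_abs_re_add_abs_im _
  rw [Complex.log_re, Complex.log_im] at h1
  exact h1.trans (by linarith [Complex.abs_arg_le_pi w])

/-- the basic bound -/
theorem a2_key (s : ℂ) : ‖s * (1 - s) * Complex.log (1 - 1 / s)‖ ≤
    ‖s‖ * (1 + ‖1 - s‖ ^ 2) + ‖1 - s‖ * (1 + ‖s‖ ^ 2) + Real.pi * (‖s‖ * ‖1 - s‖) := by
  by_cases h0 : s = 0
  · subst h0
    simp
  by_cases h1 : s = 1
  · subst h1
    simp
  have hs : 0 < ‖s‖ := norm_pos_iff.2 h0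
  have hs1 : 0 < ‖1 - s‖ := norm_pos_iff.2 (sub_ne_zero.2 (Ne.symm h1))
  have h2 : ‖1 - 1 / s‖ = ‖1 - s‖ / ‖s‖ := by
    rw [← norm_div, ← norm_neg]
    congr 1
    field_simp
    ring
  have h3 := a2_norm_log (1 - 1 / s)
  rw [h2, Real.log_div hs1.ne' hs.ne'] at h3
  have h4 : |Real.log ‖1 - s‖ - Real.log ‖s‖| ≤ |Real.log ‖1 - s‖| + |Real.log ‖s‖| := abs_sub _ _
  have h5 : ‖Complex.log (1 - 1 / s)‖ ≤ |Real.log ‖1 - s‖| + |Real.log ‖s‖| + Real.pi := by linarith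
  rw [norm_mul, norm_mul]
  calc ‖s‖ * ‖1 - s‖ * ‖Complex.log (1 - 1 / s)‖
      ≤ ‖s‖ * ‖1 - s‖ * (|Real.log ‖1 - s‖| + |Real.log ‖s‖| + Real.pi) := by gcongr
    _ = ‖s‖ * (‖1 - s‖ * |Real.log ‖1 - s‖|) + ‖1 - s‖ * (‖s‖ * |Real.log ‖s‖|)
        + Real.pi * (‖s‖ * ‖1 - s‖) := by ring
    _ ≤ _ := by
        have h6 := a2_log hs.le
        have h7 := a2_log hs1.le
        gcongr

theorem a2_key' (s : ℂ) : ‖pol s * Complex.log (1 - 1 / s)‖ ≤ ‖s‖ * ‖1 - s‖ *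
    (‖s‖ * (1 + ‖1 - s‖ ^ 2) + ‖1 - s‖ * (1 + ‖s‖ ^ 2) + Real.pi * (‖s‖ * ‖1 - s‖)) := by
  have h1 : pol s * Complex.log (1 - 1 / s) =
      s * (1 - s) * (s * (1 - s) * Complex.log (1 - 1 / s)) := by
    unfold pol; ring
  rw [h1, norm_mul, norm_mul]
  exact mul_le_mul_of_nonneg_left (a2_key s) (by positivity)

theorem a2_cont_at {s₀ : ℂ} (h : s₀ = 0 ∨ s₀ = 1) : ContinuousAt b s₀ := by
  have hq : ContinuousAt qq s₀ := by
    unfold qq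
    fun_prop
  have hp : ContinuousAt (fun s => pol s * Complex.log (1 - 1 / s)) s₀ := by
    have h0 : pol s₀ * Complex.log (1 - 1 / s₀) = 0 := by
      rcases h with rfl | rfl
      · simp [pol]
      · simp [pol]
    have hc : Continuous fun s : ℂ => ‖s‖ * ‖1 - s‖ *
        (‖s‖ * (1 + ‖1 - s‖ ^ 2) + ‖1 - s‖ * (1 + ‖s‖ ^ 2) + Real.pi * (‖s‖ * ‖1 - s‖)) := by
      fun_prop
    have hz : ‖s₀‖ * ‖1 - s₀‖ *
        (‖s₀‖ * (1 + ‖1 - s₀‖ ^ 2) + ‖1 - s₀‖ * (1 + ‖s₀‖ ^ 2) + Real.pi * (‖s₀‖ * ‖1 - s₀‖)) = 0 := by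
      rcases h with rfl | rfl <;> simp
    show Tendsto (fun s => pol s * Complex.log (1 - 1 / s)) (𝓝 s₀)
      (𝓝 (pol s₀ * Complex.log (1 - 1 / s₀)))
    rw [h0]
    have hc2 := hc.tendsto s₀
    rw [hz] at hc2
    exact squeeze_zero_norm a2_key' hc2
  exact hp.add hq

theorem a2_far {s : ℂ} (h : 1 < ‖s‖) : ¬(s.im = 0 ∧ 0 ≤ s.re ∧ s.re ≤ 1) := by
  rintro ⟨h1, h2, h3⟩
  have hsr : s = ((s.re : ℝ) : ℂ) := by
    apply Complex.ext
    · simp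
    · simp [h1]
  rw [hsr, Complex.norm_real, Real.norm_of_nonneg h2] at h
  linarith

theorem a2_asym_bd {s : ℂ} (h : 2 ≤ ‖s‖) : ‖s * b s - (-1 / 30)‖ ≤ 2 / ‖s‖ := by
  have hs : 0 < ‖s‖ := by linarith
  have h0 : s ≠ 0 := norm_pos_iff.1 hs
  have hz : ‖(-(1 / s))‖ = 1 / ‖s‖ := by
    rw [norm_neg, norm_div, norm_one]
  have hz1 : ‖(-(1 / s))‖ < 1 := by
    rw [hz, div_lt_one hs]
    linarith
  have h1 := Complex.norm_log_sub_logTaylor_le 5 hz1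
  set E := Complex.log (1 + -(1 / s)) - Complex.logTaylor (5 + 1) (-(1 / s)) with hE
  have hT : Complex.logTaylor (5 + 1) (-(1 / s)) =
      -(1 / s + 1 / (2 * s ^ 2) + 1 / (3 * s ^ 3) + 1 / (4 * s ^ 4) + 1 / (5 * s ^ 5)) := by
    simp only [Complex.logTaylor, Finset.sum_range_succ, Finset.sum_range_zero]
    push_cast
    field_simp
    ring
  have h2 : s * b s - (-1 / 30) = s * pol s * E + 3 / 20 / s - 1 / 5 / s ^ 2 := by
    have hlog : Complex.log (1 - 1 / s) = E +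
        -(1 / s + 1 / (2 * s ^ 2) + 1 / (3 * s ^ 3) + 1 / (4 * s ^ 4) + 1 / (5 * s ^ 5)) := by
      rw [hE, hT, sub_eq_add_neg 1 (1 / s)]
      ring
    unfold b
    rw [hlog]
    unfold pol qq
    field_simp
    ring
  rw [hz] at h1
  have h3 : ‖E‖ ≤ (1 / ‖s‖) ^ 6 / 3 := by
    refine h1.trans ?_
    have h4 : (1 - 1 / ‖s‖)⁻¹ ≤ 2 := by
      rw [inv_le_comm₀ _ (by norm_num)]
      · have : 1 / ‖s‖ ≤ 1 / 2 := one_div_le_one_div_of_le (by norm_num) h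
        linarith
      · have : 1 / ‖s‖ ≤ 1 / 2 := one_div_le_one_div_of_le (by norm_num) h
        linarith
    have h5 : 0 ≤ (1 / ‖s‖) ^ 6 := by positivity
    calc (1 / ‖s‖) ^ (5 + 1) * (1 - 1 / ‖s‖)⁻¹ / ((5 : ℕ) + 1)
        ≤ (1 / ‖s‖) ^ (5 + 1) * 2 / ((5 : ℕ) + 1) := by gcongr
      _ = (1 / ‖s‖) ^ 6 / 3 := by push_cast; ring
  have h6 : ‖1 - s‖ ≤ 3 / 2 * ‖s‖ := by
    calc ‖1 - s‖ ≤ ‖(1 : ℂ)‖ + ‖s‖ := norm_sub_le _ _
      _ ≤ 3 / 2 * ‖s‖ := by rw [norm_one]; linarith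
  have h7 : ‖s * pol s * E‖ ≤ 3 / 4 / ‖s‖ := by
    unfold pol
    rw [norm_mul, norm_mul, norm_mul, norm_pow, norm_pow]
    calc ‖s‖ * (‖s‖ ^ 2 * ‖1 - s‖ ^ 2) * ‖E‖
        ≤ ‖s‖ * (‖s‖ ^ 2 * (3 / 2 * ‖s‖) ^ 2) * ((1 / ‖s‖) ^ 6 / 3) := by gcongr
      _ = 3 / 4 / ‖s‖ := by
          field_simp
          ring
  have h8 : ‖(3 / 20 / s : ℂ)‖ = 3 / 20 / ‖s‖ := by
    rw [norm_div]
    congr 1
    norm_num
  have h9 : ‖(1 / 5 / s ^ 2 : ℂ)‖ ≤ 1 / 10 / ‖s‖ := by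
    rw [norm_div, norm_pow]
    have : ‖(1 / 5 : ℂ)‖ = 1 / 5 := by norm_num
    rw [this, div_le_div_iff₀ (by positivity) hs]
    nlinarith
  rw [h2]
  calc ‖s * pol s * E + 3 / 20 / s - 1 / 5 / s ^ 2‖
      ≤ ‖s * pol s * E + 3 / 20 / s‖ + ‖(1 / 5 / s ^ 2 : ℂ)‖ := norm_sub_le _ _
    _ ≤ ‖s * pol s * E‖ + ‖(3 / 20 / s : ℂ)‖ + ‖(1 / 5 / s ^ 2 : ℂ)‖ := by
        gcongr
        exact norm_add_le _ _
    _ ≤ 3 / 4 / ‖s‖ + 3 / 20 / ‖s‖ + 1 / 10 / ‖s‖ := by rw [h8]; gcongr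
    _ = 1 / ‖s‖ := by ring
    _ ≤ 2 / ‖s‖ := by gcongr; norm_num

theorem a2_deriv_eq {s : ℂ} (hs : ¬(s.im = 0 ∧ 0 ≤ s.re ∧ s.re ≤ 1)) :
    HasDerivAt b (2 * (1 - 2 * s) * (s * (1 - s) * Complex.log (1 - 1 / s)) - s * (1 - s) +
      (3 * s ^ 2 - 3 * s + 1 / 3)) s := by
  obtain ⟨h0, h1, h2⟩ := a2_slit hs
  have hd1 : HasDerivAt (fun z : ℂ => 1 - 1 / z) (1 / s ^ 2) s := by
    have e := (hasDerivAt_inv h0).const_sub 1
    have e2 : HasDerivAt (fun z : ℂ => 1 - z⁻¹) (1 / s ^ 2) s := e.congr_deriv (by ring)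
    simp only [one_div] at e2 ⊢
    exact e2
  have hd2 : HasDerivAt (fun z : ℂ => Complex.log (1 - 1 / z)) (1 / s ^ 2 / (1 - 1 / s)) s :=
    hd1.clog h2
  have hd3 : HasDerivAt pol (2 * s * (1 - s) ^ 2 - s ^ 2 * (2 * (1 - s))) s := by
    have e1 : HasDerivAt (fun z : ℂ => z ^ 2) (2 * s) s :=
      (hasDerivAt_pow 2 s).congr_deriv (by simp)
    have e0 : HasDerivAt (fun z : ℂ => 1 - z) (-1) s := (hasDerivAt_id s).const_sub 1
    have e2 : HasDerivAt (fun z : ℂ => (1 - z) ^ 2) (2 * (1 - s) * (-1)) s :=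
      (e0.fun_pow 2).congr_deriv (by simp)
    exact (e1.fun_mul e2).congr_deriv (by ring)
  have hd4 : HasDerivAt qq (3 * s ^ 2 - 3 * s + 1 / 3) s := by
    have e1 : HasDerivAt (fun z : ℂ => z ^ 3) (3 * s ^ 2) s :=
      (hasDerivAt_pow 3 s).congr_deriv (by simp)
    have e2 : HasDerivAt (fun z : ℂ => z ^ 2) (2 * s) s :=
      (hasDerivAt_pow 2 s).congr_deriv (by simp)
    have e3 : HasDerivAt (fun z : ℂ => z / 3) (1 / 3) s := (hasDerivAt_id s).div_const 3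
    exact (((e1.fun_sub (e2.const_mul (3 / 2))).fun_add e3).add_const (1 / 12)).congr_deriv
      (by ring)
  have hd5 : HasDerivAt b _ s := (hd3.fun_mul hd2).fun_add hd4
  refine hd5.congr_deriv ?_
  have h3 : s - 1 ≠ 0 := sub_ne_zero.2 h1
  have h4 : pol s * (1 / s ^ 2 / (1 - 1 / s)) = - (s * (1 - s)) := by
    unfold pol
    have : 1 - 1 / s = (s - 1) / s := by field_simp
    rw [this]
    field_simp
    ring
  rw [h4]
  ring

/-- PROOF.  `1 - 1 / s` is not in `(-∞, 0]` (`Complex.slitPlane`) if `s ∉ [0, 1]`. -/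
theorem a2_diff {s : ℂ} (hs : ¬(s.im = 0 ∧ 0 ≤ s.re ∧ s.re ≤ 1)) : DifferentiableAt ℂ b s := by
  exact (a2_deriv_eq hs).differentiableAt

/-- PROOF.  By `a2_diff` at the points off `[0, 1]`; at `0` and `1`: `‖pol s‖ ‖log (1 - 1/s)‖ → 0`
(`‖log w‖ ≤ |log ‖w‖| + π`, `‖s‖ |log ‖s‖| → 0`), and `pol 0 = pol 1 = 0`. -/
theorem a2_cont : ContinuousOn b {s : ℂ | ¬(s.im = 0 ∧ 0 < s.re ∧ s.re < 1)} := by
  intro s hs
  by_cases h : s = 0 ∨ s = 1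
  · exact (a2_cont_at h).continuousWithinAt
  · push Not at h
    refine (a2_diff (s := s) ?_).continuousAt.continuousWithinAt
    rintro ⟨h1, h2, h3⟩
    apply hs
    refine ⟨h1, lt_of_le_of_ne h2 ?_, lt_of_le_of_ne h3 ?_⟩
    · intro h4
      exact h.1 (Complex.ext h4.symm h1)
    · intro h4
      exact h.2 (Complex.ext h4 h1)

/-- The asymptotics at infinity.  PROOF.  `Complex.norm_log_sub_logTaylor_le` for `log (1 + (-1/s))` with the Taylor polynomial of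
degree five: `log (1 - 1/s) = - (1/s + 1/(2 s²) + 1/(3 s³) + 1/(4 s⁴) + 1/(5 s⁵)) + O(1/‖s‖⁶)`;
`s² (1-s)² = s⁴ - 2 s³ + s²`; so `b s = - 1 / (30 s) + O(1 / ‖s‖²)`. -/
theorem a2_asym : Tendsto (fun s : ℂ => s * b s) (Bornology.cobounded ℂ) (𝓝 (-1 / 30)) := by
  rw [tendsto_iff_norm_sub_tendsto_zero]
  have h1 : Tendsto (fun s : ℂ => 2 / ‖s‖) (Bornology.cobounded ℂ) (𝓝 0) :=
    tendsto_norm_cobounded_atTop.const_div_atTop 2
  refine squeeze_zero' (Eventually.of_forall fun s => norm_nonneg _) ?_ h1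
  have h2 : ∀ᶠ s : ℂ in Bornology.cobounded ℂ, 2 ≤ ‖s‖ :=
    tendsto_norm_cobounded_atTop.eventually_ge_atTop 2
  filter_upwards [h2] with s hs
  exact a2_asym_bd hs

/-- PROOF.  Near infinity by `a2_asym`; on a ball `‖s‖ ≤ T`: `‖s‖² |log ‖s‖|` etc. are bounded. -/
theorem a2_bdd : ∃ C : ℝ, ∀ s : ℂ, ‖b s‖ ≤ C := by
  have hc : Continuous fun s : ℂ => ‖s‖ * ‖1 - s‖ *
      (‖s‖ * (1 + ‖1 - s‖ ^ 2) + ‖1 - s‖ * (1 + ‖s‖ ^ 2) + Real.pi * (‖s‖ * ‖1 - s‖)) + ‖qq s‖ := by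
    unfold qq
    fun_prop
  obtain ⟨C, hC⟩ := (isCompact_closedBall (0 : ℂ) 2).bddAbove_image hc.continuousOn
  refine ⟨max C 2, fun s => ?_⟩
  rcases le_or_gt ‖s‖ 2 with h | h
  · refine le_trans ?_ (le_max_left _ _)
    have h1 := hC (mem_image_of_mem _ (mem_closedBall_zero_iff.2 h))
    refine le_trans ?_ h1
    unfold b
    exact (norm_add_le _ _).trans (add_le_add (a2_key' s) le_rfl)
  · refine le_trans ?_ (le_max_right _ _)
    have h1 := a2_asym_bd h.le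
    have h2 : ‖s * b s‖ ≤ 2 := by
      calc ‖s * b s‖ = ‖(s * b s - (-1 / 30)) + (-1 / 30)‖ := by ring_nf
        _ ≤ ‖s * b s - (-1 / 30)‖ + ‖(-1 / 30 : ℂ)‖ := norm_add_le _ _
        _ ≤ 2 / ‖s‖ + 1 / 30 := by
            gcongr
            norm_num
        _ ≤ 2 := by
            have : 2 / ‖s‖ ≤ 1 := by rw [div_le_one (by linarith)]; exact h.le
            linarith
    rw [norm_mul] at h2
    nlinarith [norm_nonneg (b s)]

/-- PROOF.  `b' s = 2 s (1 - s) (1 - 2 s) log (1 - 1/s) - s (1 - s) + 3 s² - 3 s + 1/3` off `[0, 1]`.  For `‖s‖ ≤ 3` it is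
bounded: `‖log (1 - 1/s)‖ ≤ π + |log ‖s - 1‖| + |log ‖s‖|` and `t |log t|` is bounded on `(0, 4]`.  For `‖s‖ ≥ 3` by the Cauchy estimate
on `ball s 1` (`Complex.norm_deriv_le_of_forall_mem_sphere_norm_le`) and `a2_bdd`. -/
theorem a2_deriv : ∃ C : ℝ, 0 ≤ C ∧
    ∀ s : ℂ, ¬(s.im = 0 ∧ 0 ≤ s.re ∧ s.re ≤ 1) → ‖deriv b s‖ ≤ C := by
  obtain ⟨C, hC⟩ := a2_bdd
  have hc : Continuous fun s : ℂ => ‖2 * (1 - 2 * s)‖ *
      (‖s‖ * (1 + ‖1 - s‖ ^ 2) + ‖1 - s‖ * (1 + ‖s‖ ^ 2) + Real.pi * (‖s‖ * ‖1 - s‖)) +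
      ‖s * (1 - s)‖ + ‖3 * s ^ 2 - 3 * s + 1 / 3‖ := by
    fun_prop
  obtain ⟨C', hC'⟩ := (isCompact_closedBall (0 : ℂ) 3).bddAbove_image hc.continuousOn
  refine ⟨max (max C C') 0, le_max_right _ _, fun s hs => ?_⟩
  refine le_trans ?_ (le_max_left _ _)
  rcases le_or_gt ‖s‖ 3 with h | h
  · refine le_trans ?_ (le_max_right _ _)
    have h1 := hC' (mem_image_of_mem _ (mem_closedBall_zero_iff.2 h))
    refine le_trans ?_ h1
    rw [(a2_deriv_eq hs).deriv]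
    refine (norm_add_le _ _).trans (add_le_add ?_ le_rfl)
    refine (norm_sub_le _ _).trans (add_le_add ?_ le_rfl)
    rw [norm_mul]
    exact mul_le_mul_of_nonneg_left (a2_key s) (norm_nonneg _)
  · refine le_trans ?_ (le_max_left _ _)
    have hdist : ∀ z ∈ closedBall s 1, 1 < ‖z‖ := by
      intro z hz
      rw [mem_closedBall, dist_eq_norm] at hz
      have : ‖s‖ ≤ ‖z‖ + ‖z - s‖ := by
        calc ‖s‖ = ‖z - (z - s)‖ := by ring_nf
          _ ≤ ‖z‖ + ‖z - s‖ := norm_sub_le _ _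
      linarith
    have hd : DifferentiableOn ℂ b (closedBall s 1) := fun z hz =>
      (a2_diff (a2_far (hdist z hz))).differentiableWithinAt
    have h2 := Complex.norm_deriv_le_of_forall_mem_sphere_norm_le (c := s) (R := 1) (C := C)
      (f := b) one_pos (hd.diffContOnCl_ball subset_rfl) (fun z _ => hC z)
    simpa using h2

end H51L
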