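import Pool.Agent.Lib.H51L.D0

/-!
# H51L, chunk A3: the function `bh`
-/

set_option autoImplicit false

namespace H51L

open Set Metric Topology Filter MeasureTheory

theorem a3_slit {s : ℂ} (hs : ¬(s.im = 0 ∧ (s.re ≤ 0 ∨ 1 ≤ s.re))) :
    s ≠ 0 ∧ s ≠ 1 ∧ (1 - s) / s ∈ Complex.slitPlane := by
  have h0 : s ≠ 0 := by
    rintro rfl
    exact hs ⟨rfl, Or.inl le_rfl⟩
  have h1 : s ≠ 1 := by
    rintro rfl
    exact hs ⟨rfl, Or.inr le_rfl⟩
  refine ⟨h0, h1, ?_⟩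
  rw [Complex.mem_slitPlane_iff]
  by_cases him : s.im = 0
  · left
    have h3 : 0 < s.re := by
      by_contra hcon
      exact hs ⟨him, Or.inl (not_lt.1 hcon)⟩
    have h4 : s.re < 1 := by
      by_contra hcon
      exact hs ⟨him, Or.inr (not_lt.1 hcon)⟩
    have hsr : s = ((s.re : ℝ) : ℂ) := by
      apply Complex.ext
      · simp
      · simp [him]
    have h2 : (1 - s) / s = (((1 - s.re) / s.re : ℝ) : ℂ) := by
      rw [hsr]
      push_cast
      simp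
    rw [h2, Complex.ofReal_re]
    exact div_pos (by linarith) h3
  · right
    have h2 : ((1 - s) / s).im = - s.im / Complex.normSq s := by
      rw [Complex.div_im]
      simp only [Complex.sub_im, Complex.one_im, Complex.sub_re, Complex.one_re]
      ring
    rw [h2]
    exact div_ne_zero (neg_ne_zero.2 him) (Complex.normSq_pos.2 h0).ne'

theorem a3_log {t : ℝ} (ht : 0 ≤ t) : t * |Real.log t| ≤ 1 + t ^ 2 := by
  rcases ht.eq_or_lt with h | h
  · rw [← h]; simp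
  rcases le_or_gt t 1 with h1 | h1
  · have := Real.abs_log_mul_self_lt t h h1
    rw [abs_mul, abs_of_pos h, mul_comm] at this
    nlinarith [sq_nonneg t]
  · have h2 : Real.log t ≤ t - 1 := Real.log_le_sub_one_of_pos h
    rw [abs_of_nonneg (Real.log_nonneg h1.le)]
    nlinarith

/-- the basic bound -/
theorem a3_key (s : ℂ) : ‖s * (1 - s) * (Complex.log ((1 - s) / s) + Real.pi * Complex.I)‖ ≤
    ‖s‖ * (1 + ‖1 - s‖ ^ 2) + ‖1 - s‖ * (1 + ‖s‖ ^ 2) + 2 * Real.pi * (‖s‖ * ‖1 - s‖) := by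
  by_cases h0 : s = 0
  · subst h0
    simp
  by_cases h1 : s = 1
  · subst h1
    simp
  have hs : 0 < ‖s‖ := norm_pos_iff.2 h0
  have hs1 : 0 < ‖1 - s‖ := norm_pos_iff.2 (sub_ne_zero.2 (Ne.symm h1))
  have h3 : ‖Complex.log ((1 - s) / s)‖ ≤ |Real.log ‖(1 - s) / s‖| + Real.pi := by
    have h1 : ‖Complex.log ((1 - s) / s)‖ ≤ |(Complex.log ((1 - s) / s)).re| + |(Complex.log ((1 - s) / s)).im| :=
      Complex.norm_le_abs_re_add_abs_im _
    rw [Complex.log_re, Complex.log_im] at h1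
    exact h1.trans (by linarith [Complex.abs_arg_le_pi ((1 - s) / s)])
  rw [norm_div, Real.log_div hs1.ne' hs.ne'] at h3
  have h4 : |Real.log ‖1 - s‖ - Real.log ‖s‖| ≤ |Real.log ‖1 - s‖| + |Real.log ‖s‖| := abs_sub _ _
  have h6 : ‖(Real.pi : ℂ) * Complex.I‖ = Real.pi := by
    rw [norm_mul, Complex.norm_I, mul_one, Complex.norm_real, Real.norm_eq_abs, abs_of_pos Real.pi_pos]
  have h5 : ‖Complex.log ((1 - s) / s) + Real.pi * Complex.I‖ ≤ |Real.log ‖1 - s‖| + |Real.log ‖s‖| + 2 * Real.pi := by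
    refine (norm_add_le _ _).trans ?_
    rw [h6]
    linarith
  rw [norm_mul, norm_mul]
  calc ‖s‖ * ‖1 - s‖ * ‖Complex.log ((1 - s) / s) + Real.pi * Complex.I‖
      ≤ ‖s‖ * ‖1 - s‖ * (|Real.log ‖1 - s‖| + |Real.log ‖s‖| + 2 * Real.pi) := by gcongr
    _ = ‖s‖ * (‖1 - s‖ * |Real.log ‖1 - s‖|) + ‖1 - s‖ * (‖s‖ * |Real.log ‖s‖|)
        + 2 * Real.pi * (‖s‖ * ‖1 - s‖) := by ring
    _ ≤ _ := by
        have h6 := a3_log hs.le
        have h7 := a3_log hs1.le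
        gcongr

theorem a3_key' (s : ℂ) : ‖pol s * (Complex.log ((1 - s) / s) + Real.pi * Complex.I)‖ ≤ ‖s‖ * ‖1 - s‖ *
    (‖s‖ * (1 + ‖1 - s‖ ^ 2) + ‖1 - s‖ * (1 + ‖s‖ ^ 2) + 2 * Real.pi * (‖s‖ * ‖1 - s‖)) := by
  have h1 : pol s * (Complex.log ((1 - s) / s) + Real.pi * Complex.I) =
      s * (1 - s) * (s * (1 - s) * (Complex.log ((1 - s) / s) + Real.pi * Complex.I)) := by
    unfold pol; ring
  rw [h1, norm_mul, norm_mul]
  exact mul_le_mul_of_nonneg_left (a3_key s) (by positivity)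

theorem a3_cont_at {s₀ : ℂ} (h : s₀ = 0 ∨ s₀ = 1) : ContinuousAt bh s₀ := by
  have hq : ContinuousAt qq s₀ := by
    unfold qq
    fun_prop
  have hp : ContinuousAt (fun s => pol s * (Complex.log ((1 - s) / s) + Real.pi * Complex.I)) s₀ := by
    have h0 : pol s₀ * (Complex.log ((1 - s₀) / s₀) + Real.pi * Complex.I) = 0 := by
      rcases h with rfl | rfl
      · simp [pol]
      · simp [pol]
    have hc : Continuous fun s : ℂ => ‖s‖ * ‖1 - s‖ *
        (‖s‖ * (1 + ‖1 - s‖ ^ 2) + ‖1 - s‖ * (1 + ‖s‖ ^ 2) + 2 * Real.pi * (‖s‖ * ‖1 - s‖)) := by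
      fun_prop
    have hz : ‖s₀‖ * ‖1 - s₀‖ *
        (‖s₀‖ * (1 + ‖1 - s₀‖ ^ 2) + ‖1 - s₀‖ * (1 + ‖s₀‖ ^ 2) + 2 * Real.pi * (‖s₀‖ * ‖1 - s₀‖)) = 0 := by
      rcases h with rfl | rfl <;> simp
    show Tendsto (fun s => pol s * (Complex.log ((1 - s) / s) + Real.pi * Complex.I)) (𝓝 s₀)
      (𝓝 (pol s₀ * (Complex.log ((1 - s₀) / s₀) + Real.pi * Complex.I)))
    rw [h0]
    have hc2 := hc.tendsto s₀
    rw [hz] at hc2
    exact squeeze_zero_norm a3_key' hc2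
  exact hp.add hq

theorem a3_hd {s : ℂ} (hs : ¬(s.im = 0 ∧ (s.re ≤ 0 ∨ 1 ≤ s.re))) :
    HasDerivAt bh (2 * (1 - 2 * s) * (s * (1 - s) * (Complex.log ((1 - s) / s) + Real.pi * Complex.I)) - s * (1 - s) +
      (3 * s ^ 2 - 3 * s + 1 / 3)) s := by
  obtain ⟨h0, h1, h2⟩ := a3_slit hs
  have hd1 : HasDerivAt (fun z : ℂ => (1 - z) / z) (-1 / s ^ 2) s := by
    have e0 : HasDerivAt (fun z : ℂ => 1 - z) (-1) s := (hasDerivAt_id s).const_sub 1
    exact (e0.fun_div (hasDerivAt_id s) h0).congr_deriv (by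
      simp only [id]
      congr 1
      ring)
  have hd2 : HasDerivAt (fun z : ℂ => Complex.log ((1 - z) / z) + Real.pi * Complex.I) (-1 / s ^ 2 / ((1 - s) / s)) s :=
    (hd1.clog h2).add_const _
  have hd3 : HasDerivAt pol (2 * s * (1 - s) ^ 2 - s ^ 2 * (2 * (1 - s))) s := by
    have e1 : HasDerivAt (fun z : ℂ => z ^ 2) (2 * s) s :=
      (hasDerivAt_pow 2 s).congr_deriv (by simp)
    have e0 : HasDerivAt (fun z : ℂ => 1 - z) (-1) s := (hasDerivAt_id s).const_sub 1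
    have e2 : HasDerivAt (fun z : ℂ => (1 - z) ^ 2) (2 * (1 - s) * (-1)) s :=
      (e0.fun_pow 2).congr_deriv (by simp)
    exact (e1.fun_mul e2).congr_deriv (by ring)
  have hd4 : HasDerivAt qq (3 * s ^ 2 - 3 * s + 1 / 3) s := by
    have e1 : HasDerivAt (fun z : ℂ => z ^ 3) (3 * s ^ 2) s :=
      (hasDerivAt_pow 3 s).congr_deriv (by simp)
    have e2 : HasDerivAt (fun z : ℂ => z ^ 2) (2 * s) s :=
      (hasDerivAt_pow 2 s).congr_deriv (by simp)
    have e3 : HasDerivAt (fun z : ℂ => z / 3) (1 / 3) s := (hasDerivAt_id s).div_const 3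
    exact (((e1.fun_sub (e2.const_mul (3 / 2))).fun_add e3).add_const (1 / 12)).congr_deriv
      (by ring)
  have hd5 : HasDerivAt bh _ s := (hd3.fun_mul hd2).fun_add hd4
  refine hd5.congr_deriv ?_
  have h3 : 1 - s ≠ 0 := sub_ne_zero.2 (Ne.symm h1)
  have h4 : pol s * (-1 / s ^ 2 / ((1 - s) / s)) = - (s * (1 - s)) := by
    unfold pol
    field_simp
  rw [h4]
  ring

/-- PROOF.  `(1 - s) / s` is in `Complex.slitPlane`. -/
theorem a3_diff {s : ℂ} (hs : ¬(s.im = 0 ∧ (s.re ≤ 0 ∨ 1 ≤ s.re))) : DifferentiableAt ℂ bh s := by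
  exact (a3_hd hs).differentiableAt


/-- PROOF.  As `a2_cont`. -/
theorem a3_cont : ContinuousOn bh {s : ℂ | ¬(s.im = 0 ∧ (s.re < 0 ∨ 1 < s.re))} := by
  intro s hs
  by_cases h : s = 0 ∨ s = 1
  · exact (a3_cont_at h).continuousWithinAt
  · push Not at h
    refine (a3_diff (s := s) ?_).continuousAt.continuousWithinAt
    rintro ⟨h1, h2⟩
    apply hs
    refine ⟨h1, h2.imp (fun h3 => lt_of_le_of_ne h3 ?_) (fun h3 => lt_of_le_of_ne h3 ?_)⟩
    · intro h4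
      exact h.1 (Complex.ext h4 h1)
    · intro h4
      exact h.2 (Complex.ext h4.symm h1)


/-- PROOF.  The formula of `a2_deriv` with `log ((1 - s) / s) + π i` in place of `log (1 - 1/s)`, on the bounded set. -/
theorem a3_deriv (T : ℝ) : ∃ C : ℝ, 0 ≤ C ∧
    ∀ s : ℂ, ‖s‖ ≤ T → ¬(s.im = 0 ∧ (s.re ≤ 0 ∨ 1 ≤ s.re)) → ‖deriv bh s‖ ≤ C := by
  have hc : Continuous fun s : ℂ => ‖2 * (1 - 2 * s)‖ *
      (‖s‖ * (1 + ‖1 - s‖ ^ 2) + ‖1 - s‖ * (1 + ‖s‖ ^ 2) + 2 * Real.pi * (‖s‖ * ‖1 - s‖)) +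
      ‖s * (1 - s)‖ + ‖3 * s ^ 2 - 3 * s + 1 / 3‖ := by
    fun_prop
  obtain ⟨C', hC'⟩ := (isCompact_closedBall (0 : ℂ) T).bddAbove_image hc.continuousOn
  refine ⟨max C' 0, le_max_right _ _, fun s h hs => ?_⟩
  refine le_trans ?_ (le_max_left _ _)
  have h1 := hC' (mem_image_of_mem _ (mem_closedBall_zero_iff.2 h))
  refine le_trans ?_ h1
  rw [(a3_hd hs).deriv]
  refine (norm_add_le _ _).trans (add_le_add ?_ le_rfl)
  refine (norm_sub_le _ _).trans (add_le_add ?_ le_rfl)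
  rw [norm_mul]
  exact mul_le_mul_of_nonneg_left (a3_key s) (norm_nonneg _)


end H51L
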