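import Pool.Agent.Lib.H51L.A1

/-!
# H51L, chunk B1: formulas for `v`
-/

set_option autoImplicit false

namespace H51L

open Set Metric Topology Filter MeasureTheory

theorem b1_mem0 : (0 : ℝ) ∈ Icc (0 : ℝ) 1 := ⟨le_rfl, zero_le_one⟩
theorem b1_mem1 : (1 : ℝ) ∈ Icc (0 : ℝ) 1 := ⟨zero_le_one, le_rfl⟩

/-- the scale factor is near `i`: with `θ = u 1 - u 0`, `pt u 1 - pt u 0 = θ + i` and `|θ| ≤ 1/10` -/
theorem b1_scale {R : ℝ} {u : ℝ → ℝ} (h : Leaf R u) :
    pt u 1 - pt u 0 = ((u 1 - u 0 : ℝ) : ℂ) + Complex.I ∧ |u 1 - u 0| ≤ 1 / 10 ∧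
      1 ≤ ‖pt u 1 - pt u 0‖ ∧ ‖pt u 1 - pt u 0‖ ≤ 2 := by
  have h1 : |u 1 - u 0| ≤ 1 / 10 := by
    have := h.lip 1 b1_mem1 0 b1_mem0
    simpa using this
  have h2 : pt u 1 - pt u 0 = ((u 1 - u 0 : ℝ) : ℂ) + Complex.I := by
    unfold pt
    push_cast
    ring
  have h3 : ‖pt u 1 - pt u 0‖ ^ 2 = (u 1 - u 0) ^ 2 + 1 := by
    rw [h2, ← Complex.normSq_eq_norm_sq, Complex.normSq_apply]
    simp
    ring
  have h4 := norm_nonneg (pt u 1 - pt u 0)
  have h5 := sq_le_sq' (abs_le.1 h1).1 (abs_le.1 h1).2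
  refine ⟨h2, h1, ?_, ?_⟩
  · nlinarith [sq_nonneg (u 1 - u 0)]
  · nlinarith


theorem b1_ne {R : ℝ} {u : ℝ → ℝ} (h : Leaf R u) : pt u 1 - pt u 0 ≠ 0 :=
  norm_pos_iff.1 (lt_of_lt_of_le one_pos (b1_scale h).2.2.1)

theorem b1_sc {R : ℝ} {u : ℝ → ℝ} (h : Leaf R u) (z : ℂ) :
    sc u z = ((((z.re - u 0) * (u 1 - u 0) + z.im) / (1 + (u 1 - u 0) ^ 2) : ℝ) : ℂ) +
      (((u 0 + z.im * (u 1 - u 0) - z.re) / (1 + (u 1 - u 0) ^ 2) : ℝ) : ℂ) * Complex.I := by
  have h0 := b1_ne h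
  have h1 : (1 + (u 1 - u 0) ^ 2 : ℝ) ≠ 0 := by positivity
  have h1' : (1 + ((u 1 : ℂ) - u 0) ^ 2) ≠ 0 := by exact_mod_cast h1
  unfold sc
  rw [div_eq_iff h0, (b1_scale h).1]
  have hz : z = (z.re : ℂ) + z.im * Complex.I := (Complex.re_add_im z).symm
  have hp : pt u 0 = (u 0 : ℂ) := by
    unfold pt
    simp
  rw [hp]
  push_cast
  field_simp
  conv_lhs => rw [hz]
  ring_nf
  simp only [Complex.I_sq]
  ring

/-- `A u z = (q - p)⁴ pol (sc u z)` -/
theorem b1_A {R : ℝ} {u : ℝ → ℝ} (h : Leaf R u) (z : ℂ) :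
    A u z = (pt u 1 - pt u 0) ^ 4 * pol (sc u z) := by
  have h0 := b1_ne h
  unfold A pol sc
  have h1 : 1 - (z - pt u 0) / (pt u 1 - pt u 0) = (pt u 1 - z) / (pt u 1 - pt u 0) := by
    field_simp
    ring
  rw [h1]
  field_simp


/-- The sign of `(sc u z).im` is opposite to the side of the chord: with `θ = u 1 - u 0`,
`(sc u z).im = (u 0 + z.im * θ - z.re) / (1 + θ²)`.  -/
theorem b1_im {R : ℝ} {u : ℝ → ℝ} (h : Leaf R u) (z : ℂ) :
    (sc u z).im = (u 0 + z.im * (u 1 - u 0) - z.re) / (1 + (u 1 - u 0) ^ 2) := by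
  rw [b1_sc h z]
  simp only [Complex.add_im, Complex.ofReal_im, Complex.mul_im, Complex.I_re, mul_zero, Complex.ofReal_re,
    Complex.I_im, mul_one, add_zero, zero_add]


/-- If `(sc u z).im = 0` then `(sc u z).re = z.im`. -/
theorem b1_re {R : ℝ} {u : ℝ → ℝ} (h : Leaf R u) {z : ℂ} (hz : (sc u z).im = 0) :
    (sc u z).re = z.im := by
  rw [b1_im h z] at hz
  have h1 : (1 + (u 1 - u 0) ^ 2 : ℝ) ≠ 0 := by positivity
  rw [div_eq_zero_iff] at hz
  have h2 : z.re - u 0 = z.im * (u 1 - u 0) := by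
    rcases hz with h3 | h3
    · linarith
    · exact absurd h3 h1
  rw [b1_sc h z]
  simp only [Complex.add_re, Complex.ofReal_re, Complex.mul_re, Complex.I_re, mul_zero, Complex.ofReal_im,
    Complex.I_im, mul_one, sub_self, add_zero]
  rw [h2, div_eq_iff h1]
  ring


theorem b1_chord {R : ℝ} {u : ℝ → ℝ} (h : Leaf R u) {y : ℝ} (hy : y ∈ Icc (0 : ℝ) 1) :
    |u 0 + y * (u 1 - u 0)| ≤ R := by
  have h0 := abs_le.1 (h.bdd 0 b1_mem0)
  have h1 := abs_le.1 (h.bdd 1 b1_mem1)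
  rw [abs_le]
  constructor <;> nlinarith [hy.1, hy.2]

theorem b1_pi : (2 * Real.pi * Complex.I : ℂ) ≠ 0 := by
  have h1 : (Real.pi : ℂ) ≠ 0 := by exact_mod_cast Real.pi_ne_zero
  exact mul_ne_zero (mul_ne_zero two_ne_zero h1) Complex.I_ne_zero

/-- Formula in the open strip.  PROOF.  If `(sc u z).im > 0`: `rhos = 0` and `a1_upper`; if `= 0`: `rhos = 0`, `b1_re` and
`a1_real`; if `< 0`: `rhos = 1`, `a1_lower` and `b1_A`. -/
theorem b1_strip {R : ℝ} {u : ℝ → ℝ} (h : Leaf R u) {z : ℂ} (hz : z ∈ strip) :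
    v u z = A u z * (rho u z : ℂ) -
      1 / (2 * Real.pi * Complex.I) * (pt u 1 - pt u 0) ^ 4 * bh (sc u z) := by
  have hpi := b1_pi
  have hd : 0 < 1 + (u 1 - u 0) ^ 2 := by positivity
  have him := b1_im h z
  unfold v
  rcases lt_trichotomy (sc u z).im 0 with h1 | h1 | h1
  · have h2 : u 0 + z.im * (u 1 - u 0) < z.re := by
      rw [him, div_neg_iff] at h1
      rcases h1 with h1 | h1
      · linarith [h1.2]
      · linarith [h1.1]
    have h3 : rhos u z = 1 := by
      unfold rhos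
      rw [if_pos ⟨hz, h2⟩]
    rw [h3, a1_lower h1, b1_A h z]
    push_cast
    field_simp
    ring
  · have h2 : ¬ (u 0 + z.im * (u 1 - u 0) < z.re) := by
      rw [him, div_eq_zero_iff] at h1
      rcases h1 with h1 | h1
      · linarith
      · linarith
    have h3 : rhos u z = 0 := by
      unfold rhos
      rw [if_neg (fun hc => h2 hc.2)]
    have h4 := b1_re h h1
    rw [h3, a1_real h1 (by rw [h4]; exact hz.1) (by rw [h4]; exact hz.2)]
    push_cast
    ring
  · have h2 : ¬ (u 0 + z.im * (u 1 - u 0) < z.re) := by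
      rw [him] at h1
      have h5 := (div_pos_iff_of_pos_right hd).1 h1
      linarith
    have h3 : rhos u z = 0 := by
      unfold rhos
      rw [if_neg (fun hc => h2 hc.2)]
    rw [h3, a1_upper h1]
    push_cast
    ring


/-- Formula off the strip. -/
theorem b1_out {R : ℝ} {u : ℝ → ℝ} (h : Leaf R u) {z : ℂ} (hz : z ∉ strip) :
    v u z = -(1 / (2 * Real.pi * Complex.I)) * (pt u 1 - pt u 0) ^ 4 * b (sc u z) := by
  have h1 : rho u z = 0 := by
    unfold rho
    rw [if_neg (fun hc => hz hc.1)]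
  have h2 : rhos u z = 0 := by
    unfold rhos
    rw [if_neg (fun hc => hz hc.1)]
  unfold v
  rw [h1, h2]
  simp


/-- Far away on the left or on the right, `rho = rhos`. -/
theorem b1_far {R : ℝ} {u : ℝ → ℝ} (h : Leaf R u) {z : ℂ} (hz : R < |z.re|) :
    v u z = -(1 / (2 * Real.pi * Complex.I)) * (pt u 1 - pt u 0) ^ 4 * b (sc u z) := by
  by_cases hs : z ∈ strip
  · have hy : z.im ∈ Icc (0 : ℝ) 1 := ⟨hs.1.le, hs.2.le⟩
    have h1 := abs_le.1 (h.bdd z.im hy)
    have h2 := abs_le.1 (b1_chord h hy)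
    have h3 : rho u z = rhos u z := by
      unfold rho rhos
      rcases lt_abs.1 hz with h4 | h4
      · rw [if_pos ⟨hs, by linarith [h1.2]⟩, if_pos ⟨hs, by linarith [h2.2]⟩]
      · rw [if_neg (fun hc => by linarith [hc.2, h1.1]), if_neg (fun hc => by linarith [hc.2, h2.1])]
    unfold v
    rw [h3]
    simp
  · exact b1_out h hs


/-- The formula of the strip holds at height `0`, with the obvious value of `rho`.  PROOF.  `z.im = 0`: if
`z.re > u 0`, then `(sc u z).im < 0` and `a1_lower`; if `z.re < u 0`: `a1_upper`; if `z.re = u 0`: `sc u z = 0`, `a1_zero`. -/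
theorem b1_line0 {R : ℝ} {u : ℝ → ℝ} (h : Leaf R u) {z : ℂ} (hz : z.im = 0) :
    v u z = A u z * ((if u 0 < z.re then (1 : ℝ) else 0 : ℝ) : ℂ) -
      1 / (2 * Real.pi * Complex.I) * (pt u 1 - pt u 0) ^ 4 * bh (sc u z) := by
  have hpi := b1_pi
  have hd : 0 < 1 + (u 1 - u 0) ^ 2 := by positivity
  have him := b1_im h z
  rw [hz, zero_mul, add_zero] at him
  rw [b1_out h (fun hc => by linarith [hc.1])]
  rcases lt_trichotomy (u 0) z.re with h1 | h1 | h1
  · have h2 : (sc u z).im < 0 := by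
      rw [him]
      exact div_neg_of_neg_of_pos (by linarith) hd
    rw [if_pos h1, a1_lower h2, b1_A h z]
    push_cast
    field_simp
    ring
  · have h2 : sc u z = 0 := by
      unfold sc
      have h3 : z = pt u 0 := by
        unfold pt
        apply Complex.ext
        · simp [h1]
        · simp [hz]
      rw [h3, sub_self, zero_div]
    rw [if_neg (by linarith), h2, a1_zero]
    push_cast
    ring
  · have h2 : 0 < (sc u z).im := by
      rw [him]
      exact div_pos (by linarith) hd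
    rw [if_neg (by linarith), a1_upper h2]
    push_cast
    ring


/-- The same at height `1`. -/
theorem b1_line1 {R : ℝ} {u : ℝ → ℝ} (h : Leaf R u) {z : ℂ} (hz : z.im = 1) :
    v u z = A u z * ((if u 1 < z.re then (1 : ℝ) else 0 : ℝ) : ℂ) -
      1 / (2 * Real.pi * Complex.I) * (pt u 1 - pt u 0) ^ 4 * bh (sc u z) := by
  have hpi := b1_pi
  have hd : 0 < 1 + (u 1 - u 0) ^ 2 := by positivity
  have him := b1_im h z
  rw [hz] at him
  rw [b1_out h (fun hc => by linarith [hc.2])]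
  rcases lt_trichotomy (u 1) z.re with h1 | h1 | h1
  · have h2 : (sc u z).im < 0 := by
      rw [him]
      exact div_neg_of_neg_of_pos (by linarith) hd
    rw [if_pos h1, a1_lower h2, b1_A h z]
    push_cast
    field_simp
    ring
  · have h2 : sc u z = 1 := by
      unfold sc
      have h3 : z = pt u 1 := by
        unfold pt
        apply Complex.ext
        · simp [h1]
        · simp [hz]
      rw [h3, div_self (b1_ne h)]
    rw [if_neg (by linarith), h2, a1_one]
    push_cast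
    ring
  · have h2 : 0 < (sc u z).im := by
      rw [him]
      exact div_pos (by linarith) hd
    rw [if_neg (by linarith), a1_upper h2]
    push_cast
    ring


end H51L
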