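import Pool.Agent.Lib.H51L.A2
import Pool.Agent.Lib.H51L.A3
import Pool.Agent.Lib.H51L.B1

/-!
# H51L, chunk B2: Lipschitz estimates for `v`, first part
-/

set_option autoImplicit false

namespace H51L

open Set Metric Topology Filter MeasureTheory

/-- a Lipschitz estimate from a bounded derivative on the interior and continuity -/
theorem b2_lip {g : ℂ → ℂ} {K S K' : Set ℂ} {C : ℝ} {c : ℂ} (hC : 0 ≤ C) (hS : Convex ℝ S)
    (hc : ∀ z ∈ K, ∀ t : ℝ, 0 < t → t ≤ 1 → z + (t : ℂ) * (c - z) ∈ S)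
    (hd : ∀ z ∈ S, DifferentiableAt ℂ g z) (hb : ∀ z ∈ S, ‖deriv g z‖ ≤ C) (hg : ContinuousOn g K')
    (hK : S ⊆ K') (hK2 : K ⊆ K') {z w : ℂ} (hz : z ∈ K) (hw : w ∈ K) : ‖g z - g w‖ ≤ C * ‖z - w‖ := by
  have h1 : ∀ z ∈ K, ContinuousWithinAt (fun t : ℝ => g (z + (t : ℂ) * (c - z))) (Ioc 0 1) 0 := by
    intro z hz
    have h2 : ContinuousWithinAt g K' (z + ((0 : ℝ) : ℂ) * (c - z)) := by
      have h3 := hg z (hK2 hz)
      rwa [Complex.ofReal_zero, zero_mul, add_zero]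
    refine ContinuousWithinAt.comp (t := K') (f := fun t : ℝ => z + (t : ℂ) * (c - z)) h2 ?_ ?_
    · exact (by fun_prop : Continuous fun t : ℝ => z + (t : ℂ) * (c - z)).continuousWithinAt
    · intro t ht
      exact hK (hc z hz t ht.1 ht.2)
  have h3 : ∀ t ∈ Ioc (0 : ℝ) 1,
      ‖g (z + (t : ℂ) * (c - z)) - g (w + (t : ℂ) * (c - w))‖ ≤ C * ‖z - w‖ := by
    intro t ht
    have h4 := Convex.norm_image_sub_le_of_norm_deriv_le hd hb hS (hc w hw t ht.1 ht.2) (hc z hz t ht.1 ht.2)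
    refine h4.trans ?_
    have e : (z + (t : ℂ) * (c - z)) - (w + (t : ℂ) * (c - w)) = ((1 - t : ℝ) : ℂ) * (z - w) := by
      push_cast
      ring
    rw [e, norm_mul, Complex.norm_real, Real.norm_eq_abs, abs_of_nonneg (by linarith [ht.2])]
    have h5 := norm_nonneg (z - w)
    apply mul_le_mul_of_nonneg_left _ hC
    nlinarith [ht.1]
  have h4 := ContinuousWithinAt.closure_le (s := Ioc (0 : ℝ) 1) (x := 0)
    (by rw [closure_Ioc zero_ne_one]; exact ⟨le_rfl, zero_le_one⟩)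
    ((h1 z hz).sub (h1 w hw)).norm continuousWithinAt_const h3
  simpa using h4

theorem b2_comp {R : ℝ} {u : ℝ → ℝ} (h : Leaf R u) {f : ℂ → ℂ} {z : ℂ} {C : ℝ}
    (hd : DifferentiableAt ℂ f (sc u z)) (hb : ‖deriv f (sc u z)‖ ≤ C) :
    DifferentiableAt ℂ (fun z => f (sc u z)) z ∧ ‖deriv (fun z => f (sc u z)) z‖ ≤ C := by
  have h1 : HasDerivAt (sc u) (1 / (pt u 1 - pt u 0)) z := by
    unfold sc
    exact ((hasDerivAt_id z).sub_const _).div_const _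
  have h2 : HasDerivAt (fun z => f (sc u z)) (deriv f (sc u z) * (1 / (pt u 1 - pt u 0))) z :=
    hd.hasDerivAt.comp z h1
  refine ⟨h2.differentiableAt, ?_⟩
  rw [h2.deriv, norm_mul, norm_div, norm_one]
  have h3 := (b1_scale h).2.2.1
  have h4 : 1 / ‖pt u 1 - pt u 0‖ ≤ 1 := by
    rw [div_le_one (by linarith)]
    exact h3
  calc ‖deriv f (sc u z)‖ * (1 / ‖pt u 1 - pt u 0‖) ≤ ‖deriv f (sc u z)‖ * 1 :=
        mul_le_mul_of_nonneg_left h4 (norm_nonneg _)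
    _ ≤ C := by linarith

theorem b2_sc_cont (u : ℝ → ℝ) : Continuous (sc u) := by
  unfold sc
  fun_prop

theorem b2_k {R : ℝ} {u : ℝ → ℝ} (h : Leaf R u) :
    ‖-(1 / (2 * Real.pi * Complex.I)) * (pt u 1 - pt u 0) ^ 4‖ ≤ 16 := by
  rw [norm_mul, norm_neg, norm_pow]
  have h1 : ‖(1 / (2 * Real.pi * Complex.I) : ℂ)‖ ≤ 1 := by
    rw [norm_div, norm_one, norm_mul, norm_mul, Complex.norm_I, mul_one, Complex.norm_real, Real.norm_eq_abs,
      abs_of_pos Real.pi_pos, Complex.norm_ofNat, div_le_one (by positivity)]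
    linarith [Real.pi_gt_three]
  have h2 : ‖pt u 1 - pt u 0‖ ^ 4 ≤ 2 ^ 4 := pow_le_pow_left₀ (norm_nonneg _) (b1_scale h).2.2.2 4
  calc ‖(1 / (2 * Real.pi * Complex.I) : ℂ)‖ * ‖pt u 1 - pt u 0‖ ^ 4 ≤ 1 * 2 ^ 4 :=
        mul_le_mul h1 h2 (by positivity) one_pos.le
    _ = 16 := by norm_num

theorem b2_dom {R : ℝ} {u : ℝ → ℝ} (h : Leaf R u) {z : ℂ} (hz : R < |z.re|) :
    ¬((sc u z).im = 0 ∧ 0 ≤ (sc u z).re ∧ (sc u z).re ≤ 1) := by
  rintro ⟨h1, h2, h3⟩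
  have h4 := b1_re h h1
  rw [h4] at h2 h3
  have h5 := b1_im h z
  rw [h1] at h5
  have hd : (0 : ℝ) < 1 + (u 1 - u 0) ^ 2 := by positivity
  have h6 : u 0 + z.im * (u 1 - u 0) - z.re = 0 := by
    rcases div_eq_zero_iff.1 h5.symm with h | h
    · exact h
    · exact absurd h hd.ne'
  have h7 := b1_chord h (y := z.im) ⟨h2, h3⟩
  have h8 : u 0 + z.im * (u 1 - u 0) = z.re := by linarith
  rw [h8] at h7
  linarith

theorem b2_R {R : ℝ} {u : ℝ → ℝ} (h : Leaf R u) : 0 ≤ R :=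
  (abs_nonneg _).trans (h.bdd 0 b1_mem0)

theorem b2_dist {R T : ℝ} {u : ℝ → ℝ} (h : Leaf R u) {z : ℂ} (hz : |z.re| ≤ T) (h0 : 0 ≤ z.im)
    (h1 : z.im ≤ 1) : ‖z - pt u 0‖ ≤ R + T + 1 ∧ ‖pt u 1 - z‖ ≤ R + T + 1 := by
  have a0 := abs_le.1 (h.bdd 0 b1_mem0)
  have a1 := abs_le.1 (h.bdd 1 b1_mem1)
  have a2 := abs_le.1 hz
  constructor
  · refine (Complex.norm_le_abs_re_add_abs_im _).trans ?_
    have e1 : (z - pt u 0).re = z.re - u 0 := by
      unfold pt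
      simp
    have e2 : (z - pt u 0).im = z.im := by
      unfold pt
      simp
    rw [e1, e2, abs_of_nonneg h0]
    have : |z.re - u 0| ≤ R + T := abs_le.2 ⟨by linarith [a0.2, a2.1], by linarith [a0.1, a2.2]⟩
    linarith
  · refine (Complex.norm_le_abs_re_add_abs_im _).trans ?_
    have e1 : (pt u 1 - z).re = u 1 - z.re := by
      unfold pt
      simp
    have e2 : (pt u 1 - z).im = 1 - z.im := by
      unfold pt
      simp
    rw [e1, e2, abs_of_nonneg (by linarith : (0 : ℝ) ≤ 1 - z.im)]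
    have : |u 1 - z.re| ≤ R + T := abs_le.2 ⟨by linarith [a1.1, a2.2], by linarith [a1.2, a2.1]⟩
    linarith

theorem b2_box (T : ℝ) : Convex ℝ {z : ℂ | |z.re| ≤ T ∧ 0 < z.im ∧ z.im < 1} := by
  have h1 : {z : ℂ | |z.re| ≤ T ∧ 0 < z.im ∧ z.im < 1} =
      Complex.reLm ⁻¹' Icc (-T) T ∩ Complex.imLm ⁻¹' Ioo 0 1 := by
    ext z
    simp only [mem_setOf_eq, mem_inter_iff, mem_preimage, mem_Icc, mem_Ioo, Complex.reLm_coe,
      Complex.imLm_coe, abs_le]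
  rw [h1]
  exact ((convex_Icc _ _).linear_preimage _).inter ((convex_Ioo _ _).linear_preimage _)

/-- PROOF.  `a2_bdd`; `‖q - p‖ ≤ 2`; if `rho ≠ rhos` then `z` is in the strip and `|z.re| ≤ R` (`b1_far` idea), so `‖A u z‖` is bounded. -/
theorem b2_bdd (R : ℝ) : ∃ C : ℝ, ∀ u, Leaf R u → ∀ z, ‖v u z‖ ≤ C := by
  obtain ⟨C, hC⟩ := a2_bdd
  refine ⟨16 * C + (2 * R + 1) ^ 4, fun u h z => ?_⟩
  have hR := b2_R h
  have h1 : ‖-(1 / (2 * Real.pi * Complex.I)) * (pt u 1 - pt u 0) ^ 4 * b (sc u z)‖ ≤ 16 * C := by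
    rw [norm_mul]
    exact mul_le_mul (b2_k h) (hC _) (norm_nonneg _) (by norm_num)
  have h2 : 0 ≤ (2 * R + 1) ^ 4 := by positivity
  by_cases hz : z ∈ strip ∧ |z.re| ≤ R
  · unfold v
    refine (norm_add_le _ _).trans (add_le_add h1 ?_)
    rw [norm_mul]
    have h3 : ‖((rho u z : ℂ) - (rhos u z : ℂ))‖ ≤ 1 := by
      unfold rho rhos
      split_ifs <;> simp
    obtain ⟨d1, d2⟩ := b2_dist h hz.2 hz.1.1.le hz.1.2.le
    have h4 : ‖A u z‖ ≤ (2 * R + 1) ^ 4 := by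
      unfold A
      rw [norm_mul, norm_pow, norm_pow]
      have e1 : ‖z - pt u 0‖ ^ 2 ≤ (2 * R + 1) ^ 2 := pow_le_pow_left₀ (norm_nonneg _) (by linarith) 2
      have e2 : ‖pt u 1 - z‖ ^ 2 ≤ (2 * R + 1) ^ 2 := pow_le_pow_left₀ (norm_nonneg _) (by linarith) 2
      calc ‖z - pt u 0‖ ^ 2 * ‖pt u 1 - z‖ ^ 2 ≤ (2 * R + 1) ^ 2 * (2 * R + 1) ^ 2 :=
            mul_le_mul e1 e2 (by positivity) (by positivity)
        _ = (2 * R + 1) ^ 4 := by ring
    calc ‖A u z‖ * ‖((rho u z : ℂ) - (rhos u z : ℂ))‖ ≤ (2 * R + 1) ^ 4 * 1 :=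
          mul_le_mul h4 h3 (norm_nonneg _) h2
      _ = (2 * R + 1) ^ 4 := mul_one _
  · have h3 : v u z = -(1 / (2 * Real.pi * Complex.I)) * (pt u 1 - pt u 0) ^ 4 * b (sc u z) := by
      by_cases hs : z ∈ strip
      · exact b1_far h (not_le.1 (fun hc => hz ⟨hs, hc⟩))
      · exact b1_out h hs
    rw [h3]
    linarith


/-- `v` is Lipschitz on `{z.im ≤ 0}` and on `{1 ≤ z.im}`.  PROOF.  `b1_out`; `sc u` is affine; the image of the convex set
`{z.im ≤ 0}` under `sc u` meets `[0, 1]` only in `0` (`b1_re`); `b` is continuous there (`a2_cont`) and has bounded derivative in the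
open half-plane (`a2_diff`, `a2_deriv`); mean value inequality on segments (`Convex.norm_image_sub_le_of_norm_deriv_le` on the interior and
continuity). -/
theorem b2_half (R : ℝ) : ∃ C : ℝ, 0 ≤ C ∧ ∀ u, Leaf R u →
    (∀ z w : ℂ, z.im ≤ 0 → w.im ≤ 0 → ‖v u z - v u w‖ ≤ C * ‖z - w‖) ∧
    (∀ z w : ℂ, 1 ≤ z.im → 1 ≤ w.im → ‖v u z - v u w‖ ≤ C * ‖z - w‖) := by
  obtain ⟨C, hC, hC'⟩ := a2_deriv
  refine ⟨16 * C, by positivity, fun u h => ⟨fun z w hz hw => ?_, fun z w hz hw => ?_⟩⟩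
  · rw [b1_out h (z := z) (fun hc => by linarith [hc.1]), b1_out h (z := w) (fun hc => by linarith [hc.1]),
      ← mul_sub, norm_mul, mul_assoc 16]
    refine mul_le_mul (b2_k h) ?_ (norm_nonneg _) (by norm_num)
    have hdom : ∀ z : ℂ, z.im < 0 → ¬((sc u z).im = 0 ∧ 0 ≤ (sc u z).re ∧ (sc u z).re ≤ 1) := by
      rintro z hz ⟨h1, h2, h3⟩
      rw [b1_re h h1] at h2
      linarith
    refine b2_lip (g := fun z => b (sc u z)) (K := {z | z.im ≤ 0}) (S := {z | z.im < 0}) (K' := {z | z.im ≤ 0})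
      (c := -Complex.I) hC (convex_halfSpace_im_lt 0) ?_ ?_ ?_ ?_ ?_ Subset.rfl hz hw
    · intro z hz t ht ht1
      show (z + (t : ℂ) * (-Complex.I - z)).im < 0
      have e : (z + (t : ℂ) * (-Complex.I - z)).im = (1 - t) * z.im - t := by
        simp
        ring
      rw [e]
      have hz' : z.im ≤ 0 := hz
      have : (1 - t) * z.im ≤ 0 := mul_nonpos_of_nonneg_of_nonpos (by linarith) hz'
      linarith
    · intro z hz
      exact (b2_comp h (a2_diff (hdom z hz)) (hC' _ (hdom z hz))).1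
    · intro z hz
      exact (b2_comp h (a2_diff (hdom z hz)) (hC' _ (hdom z hz))).2
    · refine a2_cont.comp (b2_sc_cont u).continuousOn ?_
      rintro z hz ⟨h1, h2, h3⟩
      rw [b1_re h h1] at h2
      have hz' : z.im ≤ 0 := hz
      linarith
    · intro z hz
      exact le_of_lt (show z.im < 0 from hz)
  · rw [b1_out h (z := z) (fun hc => by linarith [hc.2]), b1_out h (z := w) (fun hc => by linarith [hc.2]),
      ← mul_sub, norm_mul, mul_assoc 16]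
    refine mul_le_mul (b2_k h) ?_ (norm_nonneg _) (by norm_num)
    have hdom : ∀ z : ℂ, 1 < z.im → ¬((sc u z).im = 0 ∧ 0 ≤ (sc u z).re ∧ (sc u z).re ≤ 1) := by
      rintro z hz ⟨h1, h2, h3⟩
      rw [b1_re h h1] at h3
      linarith
    refine b2_lip (g := fun z => b (sc u z)) (K := {z | 1 ≤ z.im}) (S := {z | 1 < z.im}) (K' := {z | 1 ≤ z.im})
      (c := 2 * Complex.I) hC (convex_halfSpace_im_gt 1) ?_ ?_ ?_ ?_ ?_ Subset.rfl hz hw
    · intro z hz t ht ht1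
      show 1 < (z + (t : ℂ) * (2 * Complex.I - z)).im
      have e : (z + (t : ℂ) * (2 * Complex.I - z)).im = (1 - t) * z.im + 2 * t := by
        simp
        ring
      rw [e]
      have hz' : 1 ≤ z.im := hz
      have : (1 - t) * 1 ≤ (1 - t) * z.im := mul_le_mul_of_nonneg_left hz' (by linarith)
      linarith
    · intro z hz
      exact (b2_comp h (a2_diff (hdom z hz)) (hC' _ (hdom z hz))).1
    · intro z hz
      exact (b2_comp h (a2_diff (hdom z hz)) (hC' _ (hdom z hz))).2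
    · refine a2_cont.comp (b2_sc_cont u).continuousOn ?_
      rintro z hz ⟨h1, h2, h3⟩
      rw [b1_re h h1] at h3
      have hz' : 1 ≤ z.im := hz
      linarith
    · intro z hz
      exact le_of_lt (show 1 < z.im from hz)


/-- `v` is Lipschitz on `{R < z.re}` and on `{z.re < -R}`.  PROOF.  `b1_far`, and the image of this half-plane under `sc u` does not
meet `[0, 1]` (a point of the chord has real part in `[-R, R]`). -/
theorem b2_far (R : ℝ) : ∃ C : ℝ, 0 ≤ C ∧ ∀ u, Leaf R u →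
    (∀ z w : ℂ, R < z.re → R < w.re → ‖v u z - v u w‖ ≤ C * ‖z - w‖) ∧
    (∀ z w : ℂ, z.re < -R → w.re < -R → ‖v u z - v u w‖ ≤ C * ‖z - w‖) := by
  obtain ⟨C, hC, hC'⟩ := a2_deriv
  refine ⟨16 * C, by positivity, fun u h => ⟨fun z w hz hw => ?_, fun z w hz hw => ?_⟩⟩
  · have hR := b2_R h
    have hdom : ∀ z : ℂ, R < z.re → ¬((sc u z).im = 0 ∧ 0 ≤ (sc u z).re ∧ (sc u z).re ≤ 1) := fun z hz =>
      b2_dom h (lt_of_lt_of_le hz (le_abs_self _))
    rw [b1_far h (lt_of_lt_of_le hz (le_abs_self _)), b1_far h (lt_of_lt_of_le hw (le_abs_self _)),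
      ← mul_sub, norm_mul, mul_assoc 16]
    refine mul_le_mul (b2_k h) ?_ (norm_nonneg _) (by norm_num)
    exact Convex.norm_image_sub_le_of_norm_deriv_le (f := fun z => b (sc u z)) (s := {z : ℂ | R < z.re})
      (fun z hz => (b2_comp h (a2_diff (hdom z hz)) (hC' _ (hdom z hz))).1)
      (fun z hz => (b2_comp h (a2_diff (hdom z hz)) (hC' _ (hdom z hz))).2) (convex_halfSpace_re_gt R) hw hz
  · have hR := b2_R h
    have habs : ∀ z : ℂ, z.re < -R → R < |z.re| := fun z hz => by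
      rw [lt_abs]
      right
      linarith
    have hdom : ∀ z : ℂ, z.re < -R → ¬((sc u z).im = 0 ∧ 0 ≤ (sc u z).re ∧ (sc u z).re ≤ 1) := fun z hz =>
      b2_dom h (habs z hz)
    rw [b1_far h (habs z hz), b1_far h (habs w hw), ← mul_sub, norm_mul, mul_assoc 16]
    refine mul_le_mul (b2_k h) ?_ (norm_nonneg _) (by norm_num)
    exact Convex.norm_image_sub_le_of_norm_deriv_le (f := fun z => b (sc u z)) (s := {z : ℂ | z.re < -R})
      (fun z hz => (b2_comp h (a2_diff (hdom z hz)) (hC' _ (hdom z hz))).1)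
      (fun z hz => (b2_comp h (a2_diff (hdom z hz)) (hC' _ (hdom z hz))).2) (convex_halfSpace_re_lt (-R)) hw hz


/-- The second branch is Lipschitz on the bounded part of the closed strip.  PROOF.  `sc u` maps the closed strip into
`{s | ¬ (s.im = 0 ∧ (s.re < 0 ∨ 1 < s.re))}` and the open strip into the domain of `a3_diff`, `a3_deriv` (`b1_re`); bounded set;
convexity. -/
theorem b2_bh (R : ℝ) : ∃ C : ℝ, 0 ≤ C ∧ ∀ u, Leaf R u → ∀ z w : ℂ,
    |z.re| ≤ R + 4 → |w.re| ≤ R + 4 → 0 ≤ z.im → z.im ≤ 1 → 0 ≤ w.im → w.im ≤ 1 →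
    ‖bh (sc u z) - bh (sc u w)‖ ≤ C * ‖z - w‖ := by
  obtain ⟨C, hC, hC'⟩ := a3_deriv (2 * R + 5)
  refine ⟨C, hC, fun u h z w hz hw hz0 hz1 hw0 hw1 => ?_⟩
  have hR := b2_R h
  have hT : ∀ z : ℂ, |z.re| ≤ R + 4 → 0 ≤ z.im → z.im ≤ 1 → ‖sc u z‖ ≤ 2 * R + 5 := by
    intro z h1 h2 h3
    have h4 := (b2_dist h h1 h2 h3).1
    have h5 := (b1_scale h).2.2.1
    unfold sc
    rw [norm_div, div_le_iff₀ (by linarith)]
    nlinarith [norm_nonneg (z - pt u 0)]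
  have hdom : ∀ z : ℂ, 0 < z.im → z.im < 1 → ¬((sc u z).im = 0 ∧ ((sc u z).re ≤ 0 ∨ 1 ≤ (sc u z).re)) := by
    rintro z h1 h2 ⟨h3, h4⟩
    rw [b1_re h h3] at h4
    rcases h4 with h4 | h4 <;> linarith
  refine b2_lip (g := fun z => bh (sc u z)) (K := {z | |z.re| ≤ R + 4 ∧ 0 ≤ z.im ∧ z.im ≤ 1})
    (S := {z : ℂ | |z.re| ≤ R + 4 ∧ 0 < z.im ∧ z.im < 1}) (K' := {z | |z.re| ≤ R + 4 ∧ 0 ≤ z.im ∧ z.im ≤ 1})
    (c := Complex.I / 2) hC (b2_box _) ?_ ?_ ?_ ?_ ?_ Subset.rfl ⟨hz, hz0, hz1⟩ ⟨hw, hw0, hw1⟩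
  · rintro z ⟨a1, a2, a3⟩ t ht ht1
    show |(z + (t : ℂ) * (Complex.I / 2 - z)).re| ≤ R + 4 ∧ 0 < (z + (t : ℂ) * (Complex.I / 2 - z)).im ∧
      (z + (t : ℂ) * (Complex.I / 2 - z)).im < 1
    have hI : (Complex.I / 2 : ℂ) = ((1 / 2 : ℝ) : ℂ) * Complex.I := by
      push_cast
      ring
    have e1 : (z + (t : ℂ) * (Complex.I / 2 - z)).re = (1 - t) * z.re := by
      rw [hI]
      simp
      ring
    have e2 : (z + (t : ℂ) * (Complex.I / 2 - z)).im = (1 - t) * z.im + t / 2 := by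
      rw [hI]
      simp
      ring
    rw [e1, e2]
    have ht2 : 0 ≤ 1 - t := by linarith
    have b1 : 0 ≤ (1 - t) * z.im := mul_nonneg ht2 a2
    have b2 : (1 - t) * z.im ≤ (1 - t) * 1 := mul_le_mul_of_nonneg_left a3 ht2
    refine ⟨?_, by linarith, by linarith⟩
    rw [abs_mul, abs_of_nonneg ht2]
    calc (1 - t) * |z.re| ≤ 1 * |z.re| := mul_le_mul_of_nonneg_right (by linarith) (abs_nonneg _)
      _ ≤ R + 4 := by linarith
  · rintro z ⟨a1, a2, a3⟩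
    exact (b2_comp h (a3_diff (hdom z a2 a3)) (hC' _ (hT z a1 a2.le a3.le) (hdom z a2 a3))).1
  · rintro z ⟨a1, a2, a3⟩
    exact (b2_comp h (a3_diff (hdom z a2 a3)) (hC' _ (hT z a1 a2.le a3.le) (hdom z a2 a3))).2
  · refine a3_cont.comp (b2_sc_cont u).continuousOn ?_
    rintro z ⟨a1, a2, a3⟩ ⟨h3, h4⟩
    rw [b1_re h h3] at h4
    rcases h4 with h4 | h4 <;> linarith
  · rintro z ⟨a1, a2, a3⟩
    exact ⟨a1, a2.le, a3.le⟩


/-- `A` is Lipschitz on the bounded part of the closed strip. -/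
theorem b2_A (R : ℝ) : ∃ C : ℝ, 0 ≤ C ∧ ∀ u, Leaf R u → ∀ z w : ℂ,
    |z.re| ≤ R + 4 → |w.re| ≤ R + 4 → 0 ≤ z.im → z.im ≤ 1 → 0 ≤ w.im → w.im ≤ 1 →
    ‖A u z - A u w‖ ≤ C * ‖z - w‖ := by
  refine ⟨4 * (2 * |R| + 5) ^ 3, by positivity, fun u h z w hz hw hz0 hz1 hw0 hw1 => ?_⟩
  have hR := b2_R h
  rw [abs_of_nonneg hR]
  obtain ⟨a1, a2⟩ := b2_dist h hz hz0 hz1
  obtain ⟨c1, c2⟩ := b2_dist h hw hw0 hw1
  have hT : R + (R + 4) + 1 = 2 * R + 5 := by ring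
  rw [hT] at a1 a2 c1 c2
  set T := 2 * R + 5 with hTdef
  have hT0 : 0 ≤ T := by positivity
  have e : A u z - A u w = (z - w) * ((pt u 1 - z) - (w - pt u 0)) *
      ((z - pt u 0) * (pt u 1 - z) + (w - pt u 0) * (pt u 1 - w)) := by
    unfold A
    ring
  rw [e, norm_mul, norm_mul]
  have f1 : ‖(pt u 1 - z) - (w - pt u 0)‖ ≤ 2 * T := by
    refine (norm_sub_le _ _).trans ?_
    linarith
  have f2 : ‖(z - pt u 0) * (pt u 1 - z) + (w - pt u 0) * (pt u 1 - w)‖ ≤ 2 * T ^ 2 := by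
    refine (norm_add_le _ _).trans ?_
    rw [norm_mul, norm_mul]
    have g1 := mul_le_mul a1 a2 (norm_nonneg _) hT0
    have g2 := mul_le_mul c1 c2 (norm_nonneg _) hT0
    linarith
  have hn := norm_nonneg (z - w)
  calc ‖z - w‖ * ‖(pt u 1 - z) - (w - pt u 0)‖ * ‖(z - pt u 0) * (pt u 1 - z) + (w - pt u 0) * (pt u 1 - w)‖
      ≤ (‖z - w‖ * (2 * T)) * (2 * T ^ 2) :=
        mul_le_mul (mul_le_mul_of_nonneg_left f1 hn) f2 (norm_nonneg _) (by positivity)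
    _ = 4 * T ^ 3 * ‖z - w‖ := by ring


end H51L
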