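import Pool.Agent.Lib.H51L.B2

/-!
# H51L, chunk B3: Lipschitz estimates for `v`, second part
-/

set_option autoImplicit false

namespace H51L

open Set Metric Topology Filter MeasureTheory

theorem b3_sq {a b : ℝ} (h : a ^ 2 ≤ b ^ 2) (hb : 0 ≤ b) : a ≤ b :=
  (abs_le_of_sq_le_sq' h hb).2

theorem b3_norm {a b : ℂ} (h1 : a.re ^ 2 ≤ b.re ^ 2) (h2 : a.im ^ 2 ≤ b.im ^ 2) : ‖a‖ ≤ ‖b‖ := by
  apply b3_sq _ (norm_nonneg _)
  rw [← Complex.normSq_eq_norm_sq, ← Complex.normSq_eq_norm_sq, Complex.normSq_apply, Complex.normSq_apply]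
  nlinarith

theorem b3_rho_le {u : ℝ → ℝ} (z : ℂ) : ‖(rho u z : ℂ)‖ ≤ 1 := by
  unfold rho
  split_ifs <;> simp

theorem b3_farR {R : ℝ} {u : ℝ → ℝ} (h : Leaf R u) {z : ℂ} (hz : z ∈ strip) (hR : R < z.re) : rho u z = 1 := by
  have h1 := abs_le.1 (h.bdd z.im ⟨hz.1.le, hz.2.le⟩)
  unfold rho
  rw [if_pos ⟨hz, by linarith [h1.2]⟩]

theorem b3_farL {R : ℝ} {u : ℝ → ℝ} (h : Leaf R u) {z : ℂ} (hz : z ∈ strip) (hR : z.re < -R) : rho u z = 0 := by
  have h1 := abs_le.1 (h.bdd z.im ⟨hz.1.le, hz.2.le⟩)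
  unfold rho
  rw [if_neg (fun hc => by linarith [h1.1, hc.2])]

theorem b3_k {R : ℝ} {u : ℝ → ℝ} (h : Leaf R u) :
    ‖1 / (2 * Real.pi * Complex.I) * (pt u 1 - pt u 0) ^ 4‖ ≤ 16 := by
  have h1 := b2_k h
  rwa [neg_mul, norm_neg] at h1

theorem b3_edge {R : ℝ} {u : ℝ → ℝ} (h : Leaf R u) {z m : ℂ} {ρ δ CA Cb C0 : ℝ} (hz : z ∈ strip)
    (hv : v u m = A u m * (ρ : ℂ) - 1 / (2 * Real.pi * Complex.I) * (pt u 1 - pt u 0) ^ 4 * bh (sc u m))
    (hρ : |ρ| ≤ 1) (hCA : 0 ≤ CA) (hCb : 0 ≤ Cb) (hC0 : 0 ≤ C0) (hδ0 : 0 ≤ δ)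
    (hLA : ‖A u z - A u m‖ ≤ CA * ‖z - m‖) (hLb : ‖bh (sc u z) - bh (sc u m)‖ ≤ Cb * ‖z - m‖)
    (hδ : ‖z - m‖ ≤ δ) (hA : rho u z ≠ ρ → ‖A u z‖ ≤ C0 * δ) (hd : |rho u z - ρ| ≤ 1) :
    ‖v u z - v u m‖ ≤ (CA + 16 * Cb + C0) * δ := by
  have e : v u z - v u m = A u z * ((rho u z - ρ : ℝ) : ℂ) + (A u z - A u m) * (ρ : ℂ) -
      1 / (2 * Real.pi * Complex.I) * (pt u 1 - pt u 0) ^ 4 * (bh (sc u z) - bh (sc u m)) := by
    rw [b1_strip h hz, hv]
    push_cast
    ring
  have f1 : ‖A u z * ((rho u z - ρ : ℝ) : ℂ)‖ ≤ C0 * δ := by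
    by_cases hc : rho u z = ρ
    · rw [hc, sub_self, Complex.ofReal_zero, mul_zero, norm_zero]
      positivity
    · rw [norm_mul, Complex.norm_real, Real.norm_eq_abs]
      calc ‖A u z‖ * |rho u z - ρ| ≤ ‖A u z‖ * 1 := mul_le_mul_of_nonneg_left hd (norm_nonneg _)
        _ ≤ C0 * δ := by linarith [hA hc]
  have f2 : ‖(A u z - A u m) * (ρ : ℂ)‖ ≤ CA * δ := by
    rw [norm_mul, Complex.norm_real, Real.norm_eq_abs]
    calc ‖A u z - A u m‖ * |ρ| ≤ ‖A u z - A u m‖ * 1 := mul_le_mul_of_nonneg_left hρ (norm_nonneg _)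
      _ ≤ CA * ‖z - m‖ := by linarith
      _ ≤ CA * δ := mul_le_mul_of_nonneg_left hδ hCA
  have f3 : ‖1 / (2 * Real.pi * Complex.I) * (pt u 1 - pt u 0) ^ 4 * (bh (sc u z) - bh (sc u m))‖ ≤
      16 * (Cb * δ) := by
    rw [norm_mul]
    exact mul_le_mul (b3_k h) (hLb.trans (mul_le_mul_of_nonneg_left hδ hCb)) (norm_nonneg _) (by norm_num)
  rw [e]
  refine (norm_sub_le _ _).trans ?_
  have f4 := norm_add_le (A u z * ((rho u z - ρ : ℝ) : ℂ)) ((A u z - A u m) * (ρ : ℂ))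
  linarith

/-- Both points in the strip.  PROOF.  If `|z.re| > R + 2`, then `z.re, w.re` are both `> R` or both `< -R` (`‖z - w‖ < 1`), the two
values of `rho` are equal and `b2_far` applies.  Otherwise `|z.re|, |w.re| ≤ R + 4` and by `b1_strip` the difference is
`(A u z - A u w) * rho u w - (..) (bh (sc u z) - bh (sc u w))`: `b2_A`, `b2_bh`, `b1_scale`. -/
theorem b3_strip (R : ℝ) (hR : 0 ≤ R) : ∃ C : ℝ, 0 ≤ C ∧ ∀ u, Leaf R u → ∀ z w : ℂ, ‖z - w‖ < 1 → z ∈ strip →
    w ∈ strip → ‖v u z - v u w - A u z * ((rho u z - rho u w : ℝ) : ℂ)‖ ≤ C * ‖z - w‖ := by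
  obtain ⟨Cf, hCf, hf⟩ := b2_far R
  obtain ⟨Cb, hCb, hb⟩ := b2_bh R
  obtain ⟨CA, hCA, hA⟩ := b2_A R
  refine ⟨Cf + CA + 16 * Cb, by positivity, fun u h z w hzw hz hw => ?_⟩
  have hn := norm_nonneg (z - w)
  have hre := abs_lt.1 ((Complex.abs_re_le_norm (z - w)).trans_lt hzw)
  rw [Complex.sub_re] at hre
  have hfar : Cf * ‖z - w‖ ≤ (Cf + CA + 16 * Cb) * ‖z - w‖ :=
    mul_le_mul_of_nonneg_right (by linarith) hn
  by_cases hz2 : R + 2 < |z.re|
  · rcases lt_abs.1 hz2 with h1 | h1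
    · have hz3 : R < z.re := by linarith
      have hw3 : R < w.re := by linarith [hre.2]
      rw [b3_farR h hz hz3, b3_farR h hw hw3, sub_self, Complex.ofReal_zero, mul_zero, sub_zero]
      exact ((hf u h).1 z w hz3 hw3).trans hfar
    · have hz3 : z.re < -R := by linarith
      have hw3 : w.re < -R := by linarith [hre.1]
      rw [b3_farL h hz hz3, b3_farL h hw hw3, sub_self, Complex.ofReal_zero, mul_zero, sub_zero]
      exact ((hf u h).2 z w hz3 hw3).trans hfar
  · rw [not_lt] at hz2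
    have hz3 : |z.re| ≤ R + 4 := by linarith
    have hz4 := abs_le.1 hz2
    have hw3 : |w.re| ≤ R + 4 := abs_le.2 ⟨by linarith [hz4.1, hre.2], by linarith [hz4.2, hre.1]⟩
    have e : v u z - v u w - A u z * ((rho u z - rho u w : ℝ) : ℂ) = (A u z - A u w) * (rho u w : ℂ) -
        1 / (2 * Real.pi * Complex.I) * (pt u 1 - pt u 0) ^ 4 * (bh (sc u z) - bh (sc u w)) := by
      rw [b1_strip h hz, b1_strip h hw]
      push_cast
      ring
    rw [e]
    have f1 := hA u h z w hz3 hw3 hz.1.le hz.2.le hw.1.le hw.2.le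
    have f2 := hb u h z w hz3 hw3 hz.1.le hz.2.le hw.1.le hw.2.le
    have f3 : ‖(A u z - A u w) * (rho u w : ℂ)‖ ≤ CA * ‖z - w‖ := by
      rw [norm_mul]
      calc ‖A u z - A u w‖ * ‖(rho u w : ℂ)‖ ≤ ‖A u z - A u w‖ * 1 :=
            mul_le_mul_of_nonneg_left (b3_rho_le w) (norm_nonneg _)
        _ ≤ CA * ‖z - w‖ := by linarith
    have f4 : ‖1 / (2 * Real.pi * Complex.I) * (pt u 1 - pt u 0) ^ 4 * (bh (sc u z) - bh (sc u w))‖ ≤
        16 * (Cb * ‖z - w‖) := by
      rw [norm_mul]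
      exact mul_le_mul (b3_k h) f2 (norm_nonneg _) (by norm_num)
    refine (norm_sub_le _ _).trans ?_
    have f5 : 0 ≤ Cf * ‖z - w‖ := by positivity
    linarith


/-- Not both points in the strip.  PROOF.  If both have `im ≤ 0` or both `im ≥ 1`: `b2_half`.  Otherwise, say, `w.im ≤ 0` and
`z ∈ strip` (`w.im ≤ 0`, `z.im ≥ 1` is impossible since `‖z - w‖ < 1`).  If `|z.re| > R + 2`: `b2_far`.  Otherwise let `m = z.re`
(height `0`): `‖v u m - v u w‖ ≤ C ‖m - w‖ ≤ C ‖z - w‖` by `b2_half`, and with `y = z.im ≤ ‖z - w‖` the formulas `b1_strip` and `b1_line0`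
give `‖v u z - v u m‖ ≤ C y + ‖A u z‖ |rho u z - rho' m|`, where the last term is `0` unless `u 0` and `u y` are on different sides of
`z.re`, and then `|z.re - u 0| ≤ y / 10`, `‖z - pt u 0‖ ≤ 2 y`, so `‖A u z‖ ≤ C y² ≤ C y`.  The case of height `1` is similar
(`b1_line1`). -/
theorem b3_out (R : ℝ) (hR : 0 ≤ R) : ∃ C : ℝ, 0 ≤ C ∧ ∀ u, Leaf R u → ∀ z w : ℂ, ‖z - w‖ < 1 →
    ¬(z ∈ strip ∧ w ∈ strip) → ‖v u z - v u w‖ ≤ C * ‖z - w‖ := by
  obtain ⟨Cf, hCf, hf⟩ := b2_far R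
  obtain ⟨Ch, hCh, hh⟩ := b2_half R
  obtain ⟨Cb, hCb, hb⟩ := b2_bh R
  obtain ⟨CA, hCA, hA⟩ := b2_A R
  obtain ⟨T, hT⟩ : ∃ T, T = 2 * R + 5 := ⟨_, rfl⟩
  have hT0 : 0 ≤ T := by linarith
  refine ⟨Cf + Ch + (CA + 16 * Cb + 4 * T ^ 2), by positivity, ?_⟩
  intro u h
  have hlip := h.lip
  have far : ∀ z w : ℂ, ‖z - w‖ < 1 → R + 2 < |z.re| →
      ‖v u z - v u w‖ ≤ (Cf + Ch + (CA + 16 * Cb + 4 * T ^ 2)) * ‖z - w‖ := by
    intro z w hzw hz2
    have hn := norm_nonneg (z - w)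
    have hre := abs_lt.1 ((Complex.abs_re_le_norm (z - w)).trans_lt hzw)
    rw [Complex.sub_re] at hre
    have hfar : Cf * ‖z - w‖ ≤ (Cf + Ch + (CA + 16 * Cb + 4 * T ^ 2)) * ‖z - w‖ := by
      apply mul_le_mul_of_nonneg_right _ hn
      have : 0 ≤ Ch + (CA + 16 * Cb + 4 * T ^ 2) := by positivity
      linarith
    rcases lt_abs.1 hz2 with h1 | h1
    · exact ((hf u h).1 z w (by linarith) (by linarith [hre.2])).trans hfar
    · exact ((hf u h).2 z w (by linarith) (by linarith [hre.1])).trans hfar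
  have comb : ∀ z w m : ℂ, ‖v u m - v u w‖ ≤ Ch * ‖m - w‖ → ‖m - w‖ ≤ ‖z - w‖ →
      ‖v u z - v u m‖ ≤ (CA + 16 * Cb + 4 * T ^ 2) * ‖z - w‖ →
      ‖v u z - v u w‖ ≤ (Cf + Ch + (CA + 16 * Cb + 4 * T ^ 2)) * ‖z - w‖ := by
    intro z w m h1 h2 h3
    have hn := norm_nonneg (z - w)
    have h4 := norm_sub_le_norm_sub_add_norm_sub (v u z) (v u m) (v u w)
    have h5 : Ch * ‖m - w‖ ≤ Ch * ‖z - w‖ := mul_le_mul_of_nonneg_left h2 hCh
    have h6 : 0 ≤ Cf * ‖z - w‖ := by positivity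
    linarith
  have low : ∀ z w : ℂ, ‖z - w‖ < 1 → z ∈ strip → w.im ≤ 0 →
      ‖v u z - v u w‖ ≤ (Cf + Ch + (CA + 16 * Cb + 4 * T ^ 2)) * ‖z - w‖ := by
    intro z w hzw hz hw
    by_cases hz2 : R + 2 < |z.re|
    · exact far z w hzw hz2
    rw [not_lt] at hz2
    have hz3 : |z.re| ≤ R + 4 := by linarith
    have him := (le_abs_self _).trans (Complex.abs_im_le_norm (z - w))
    rw [Complex.sub_im] at him
    have hm1 : ((z.re : ℝ) : ℂ).im = 0 := Complex.ofReal_im _
    have hm2 : ((z.re : ℝ) : ℂ).re = z.re := Complex.ofReal_re _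
    have hzm : ‖z - ((z.re : ℝ) : ℂ)‖ ≤ z.im := by
      have e1 : z - ((z.re : ℝ) : ℂ) = (z.im : ℂ) * Complex.I := by
        nth_rewrite 1 [← Complex.re_add_im z]
        ring
      rw [e1, norm_mul, Complex.norm_I, mul_one, Complex.norm_real, Real.norm_eq_abs, abs_of_pos hz.1]
    have hzy : z.im ≤ ‖z - w‖ := by linarith
    refine comb z w ((z.re : ℝ) : ℂ) ((hh u h).1 _ _ (by rw [hm1]) hw) ?_ ?_
    · apply b3_norm
      · rw [Complex.sub_re, Complex.sub_re, hm2]
      · rw [Complex.sub_im, Complex.sub_im, hm1]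
        have := hz.1
        nlinarith
    · have hline := b1_line0 h hm1
      rw [hm2] at hline
      have key := b3_edge h (z := z) (m := ((z.re : ℝ) : ℂ)) (ρ := if u 0 < z.re then (1 : ℝ) else 0)
        (δ := z.im) (CA := CA) (Cb := Cb) (C0 := 4 * T ^ 2) hz hline (by split_ifs <;> simp) hCA hCb
        (by positivity) hz.1.le (hA u h _ _ hz3 (by rw [hm2]; exact hz3) hz.1.le hz.2.le (by rw [hm1])
        (by rw [hm1]; exact zero_le_one)) (hb u h _ _ hz3 (by rw [hm2]; exact hz3) hz.1.le hz.2.le (by rw [hm1])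
        (by rw [hm1]; exact zero_le_one)) hzm ?_ (by unfold rho; split_ifs <;> simp)
      · refine key.trans (mul_le_mul_of_nonneg_left hzy (by positivity))
      · intro hne
        have l1 := abs_le.1 (hlip z.im ⟨hz.1.le, hz.2.le⟩ 0 b1_mem0)
        rw [sub_zero, abs_of_pos hz.1] at l1
        have l2 : |z.re - u 0| ≤ 1 / 10 * z.im := by
          unfold rho at hne
          rw [abs_le]
          by_cases c1 : u z.im < z.re
          · by_cases c2 : u 0 < z.re
            · rw [if_pos ⟨hz, c1⟩, if_pos c2] at hne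
              exact absurd rfl hne
            · rw [not_lt] at c2
              constructor <;> linarith [l1.1, l1.2, hz.1]
          · by_cases c2 : u 0 < z.re
            · rw [not_lt] at c1
              constructor <;> linarith [l1.1, l1.2, hz.1]
            · rw [if_neg (fun hc => c1 hc.2), if_neg c2] at hne
              exact absurd rfl hne
        have l3 : ‖z - pt u 0‖ ≤ 2 * z.im := by
          refine (Complex.norm_le_abs_re_add_abs_im _).trans ?_
          have e1 : (z - pt u 0).re = z.re - u 0 := by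
            unfold pt
            simp
          have e2 : (z - pt u 0).im = z.im := by
            unfold pt
            simp
          rw [e1, e2, abs_of_pos hz.1]
          linarith [hz.1]
        have l4 := (b2_dist h hz3 hz.1.le hz.2.le).2
        have hT' : R + (R + 4) + 1 = T := by
          rw [hT]
          ring
        rw [hT'] at l4
        unfold A
        rw [norm_mul, norm_pow, norm_pow]
        have l5 : ‖z - pt u 0‖ ^ 2 ≤ (2 * z.im) ^ 2 := pow_le_pow_left₀ (norm_nonneg _) l3 2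
        have l6 : ‖pt u 1 - z‖ ^ 2 ≤ T ^ 2 := pow_le_pow_left₀ (norm_nonneg _) l4 2
        have l7 : (2 * z.im) ^ 2 ≤ 4 * z.im := by nlinarith [hz.1, hz.2]
        calc ‖z - pt u 0‖ ^ 2 * ‖pt u 1 - z‖ ^ 2 ≤ (4 * z.im) * T ^ 2 :=
              mul_le_mul (l5.trans l7) l6 (by positivity) (by linarith [hz.1])
          _ = 4 * T ^ 2 * z.im := by ring
  have high : ∀ z w : ℂ, ‖z - w‖ < 1 → z ∈ strip → 1 ≤ w.im →
      ‖v u z - v u w‖ ≤ (Cf + Ch + (CA + 16 * Cb + 4 * T ^ 2)) * ‖z - w‖ := by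
    intro z w hzw hz hw
    by_cases hz2 : R + 2 < |z.re|
    · exact far z w hzw hz2
    rw [not_lt] at hz2
    have hz3 : |z.re| ≤ R + 4 := by linarith
    have him := (neg_le_abs _).trans (Complex.abs_im_le_norm (z - w))
    rw [Complex.sub_im] at him
    have hz1 : 0 < 1 - z.im := by linarith [hz.2]
    obtain ⟨m, hm⟩ : ∃ m : ℂ, m = (z.re : ℂ) + Complex.I := ⟨_, rfl⟩
    have hm1 : m.im = 1 := by
      rw [hm]
      simp
    have hm2 : m.re = z.re := by
      rw [hm]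
      simp
    have hzm : ‖z - m‖ ≤ 1 - z.im := by
      have e1 : z - m = ((z.im - 1 : ℝ) : ℂ) * Complex.I := by
        rw [hm]
        nth_rewrite 1 [← Complex.re_add_im z]
        push_cast
        ring
      rw [e1, norm_mul, Complex.norm_I, mul_one, Complex.norm_real, Real.norm_eq_abs, abs_sub_comm,
        abs_of_pos hz1]
    have hzy : 1 - z.im ≤ ‖z - w‖ := by linarith
    refine comb z w m ((hh u h).2 _ _ (by rw [hm1]) hw) ?_ ?_
    · apply b3_norm
      · rw [Complex.sub_re, Complex.sub_re, hm2]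
      · rw [Complex.sub_im, Complex.sub_im, hm1]
        nlinarith
    · have hline := b1_line1 h hm1
      rw [hm2] at hline
      have key := b3_edge h (z := z) (m := m) (ρ := if u 1 < z.re then (1 : ℝ) else 0)
        (δ := 1 - z.im) (CA := CA) (Cb := Cb) (C0 := 4 * T ^ 2) hz hline (by split_ifs <;> simp) hCA hCb
        (by positivity) hz1.le (hA u h _ _ hz3 (by rw [hm2]; exact hz3) hz.1.le hz.2.le
        (by rw [hm1]; exact zero_le_one) (by rw [hm1])) (hb u h _ _ hz3 (by rw [hm2]; exact hz3) hz.1.le hz.2.le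
        (by rw [hm1]; exact zero_le_one) (by rw [hm1])) hzm ?_ (by unfold rho; split_ifs <;> simp)
      · refine key.trans (mul_le_mul_of_nonneg_left hzy (by positivity))
      · intro hne
        have l1 := hlip 1 b1_mem1 z.im ⟨hz.1.le, hz.2.le⟩
        rw [abs_of_pos hz1] at l1
        have l1 := abs_le.1 l1
        have l2 : |u 1 - z.re| ≤ 1 / 10 * (1 - z.im) := by
          unfold rho at hne
          rw [abs_le]
          by_cases c1 : u z.im < z.re
          · by_cases c2 : u 1 < z.re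
            · rw [if_pos ⟨hz, c1⟩, if_pos c2] at hne
              exact absurd rfl hne
            · rw [not_lt] at c2
              constructor <;> linarith [l1.1, l1.2]
          · by_cases c2 : u 1 < z.re
            · rw [not_lt] at c1
              constructor <;> linarith [l1.1, l1.2]
            · rw [if_neg (fun hc => c1 hc.2), if_neg c2] at hne
              exact absurd rfl hne
        have l3 : ‖pt u 1 - z‖ ≤ 2 * (1 - z.im) := by
          refine (Complex.norm_le_abs_re_add_abs_im _).trans ?_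
          have e1 : (pt u 1 - z).re = u 1 - z.re := by
            unfold pt
            simp
          have e2 : (pt u 1 - z).im = 1 - z.im := by
            unfold pt
            simp
          rw [e1, e2, abs_of_pos hz1]
          linarith
        have l4 := (b2_dist h hz3 hz.1.le hz.2.le).1
        have hT' : R + (R + 4) + 1 = T := by
          rw [hT]
          ring
        rw [hT'] at l4
        unfold A
        rw [norm_mul, norm_pow, norm_pow]
        have l5 : ‖pt u 1 - z‖ ^ 2 ≤ (2 * (1 - z.im)) ^ 2 := pow_le_pow_left₀ (norm_nonneg _) l3 2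
        have l6 : ‖z - pt u 0‖ ^ 2 ≤ T ^ 2 := pow_le_pow_left₀ (norm_nonneg _) l4 2
        have l7 : (2 * (1 - z.im)) ^ 2 ≤ 4 * (1 - z.im) := by nlinarith [hz.1, hz.2]
        calc ‖z - pt u 0‖ ^ 2 * ‖pt u 1 - z‖ ^ 2 ≤ T ^ 2 * (4 * (1 - z.im)) :=
              mul_le_mul l6 (l5.trans l7) (by positivity) (by positivity)
          _ = 4 * T ^ 2 * (1 - z.im) := by ring
  have hout : ∀ z : ℂ, z ∉ strip → z.im ≤ 0 ∨ 1 ≤ z.im := by
    intro z hz
    by_contra hcon
    push Not at hcon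
    exact hz ⟨hcon.1, hcon.2⟩
  intro z w hzw hns
  have himz := abs_lt.1 ((Complex.abs_im_le_norm (z - w)).trans_lt hzw)
  rw [Complex.sub_im] at himz
  have hn := norm_nonneg (z - w)
  have hhalf : Ch * ‖z - w‖ ≤ (Cf + Ch + (CA + 16 * Cb + 4 * T ^ 2)) * ‖z - w‖ := by
    apply mul_le_mul_of_nonneg_right _ hn
    have : 0 ≤ Cf + (CA + 16 * Cb + 4 * T ^ 2) := by positivity
    linarith
  by_cases hz : z ∈ strip
  · have hw : w ∉ strip := fun hc => hns ⟨hz, hc⟩
    rcases hout w hw with h1 | h1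
    · exact low z w hzw hz h1
    · exact high z w hzw hz h1
  · by_cases hw : w ∈ strip
    · rw [norm_sub_rev (v u z), norm_sub_rev z]
      rw [norm_sub_rev z] at hzw
      rcases hout z hz with h1 | h1
      · exact low w z hzw hw h1
      · exact high w z hzw hw h1
    · rcases hout z hz with h1 | h1 <;> rcases hout w hw with h2 | h2
      · exact ((hh u h).1 z w h1 h2).trans hhalf
      · linarith
      · linarith
      · exact ((hh u h).2 z w h1 h2).trans hhalf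


end H51L
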