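import Pool.Agent.Lib.H51L.B1

/-!
# H51L, chunk B4: the cone and the geometric lemma
-/

set_option autoImplicit false

namespace H51L

open Set Metric Topology Filter MeasureTheory

theorem b4_sq {a b : ℝ} (h : a ^ 2 ≤ b ^ 2) (hb : 0 ≤ b) : a ≤ b :=
  (abs_le_of_sq_le_sq' h hb).2

/-- On the leaf, `A` is in a sector around the positive axis.  PROOF.  With `ζ = pt u y`: `ζ - p = i y (1 - i θ₁)`,
`q - ζ = i (1 - y) (1 - i θ₂)`, `|θ₁|, |θ₂| ≤ 1/10` (`y θ₁ = u y - u 0`, `(1 - y) θ₂ = u 1 - u y`), so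
`A u ζ = y² (1-y)² ((1 - i θ₁) (1 - i θ₂))²`; with `c = 1 - θ₁ θ₂ ≥ 99/100`, `d = θ₁ + θ₂`, `|d| ≤ 1/5`:
`((c - i d))² = c² - d² - 2 i c d`, and `2 c |d| ≤ (c² - d²) / 2`. -/
theorem b4_cone {R : ℝ} {u : ℝ → ℝ} (h : Leaf R u) {y : ℝ} (hy : y ∈ Icc (0 : ℝ) 1) :
    0 ≤ (A u (pt u y)).re ∧ |(A u (pt u y)).im| ≤ 1 / 2 * (A u (pt u y)).re := by
  have h1 := h.lip y hy 0 b1_mem0
  have h2 := h.lip 1 b1_mem1 y hy
  rw [sub_zero, abs_of_nonneg hy.1] at h1
  rw [abs_of_nonneg (by linarith [hy.2] : (0 : ℝ) ≤ 1 - y)] at h2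
  set a := u y - u 0 with ha
  set c := u 1 - u y with hc
  have e1 : (pt u y - pt u 0) * (pt u 1 - pt u y) =
      ((a * c - y * (1 - y) : ℝ) : ℂ) + ((a * (1 - y) + c * y : ℝ) : ℂ) * Complex.I := by
    unfold pt
    rw [ha, hc]
    push_cast
    linear_combination ((y : ℂ) * (1 - y)) * Complex.I_sq
  have e2 : A u (pt u y) = ((pt u y - pt u 0) * (pt u 1 - pt u y)) ^ 2 := by
    unfold A
    ring
  have e3 : A u (pt u y) = ((((a * c - y * (1 - y)) ^ 2 - (a * (1 - y) + c * y) ^ 2 : ℝ)) : ℂ) +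
      ((2 * (a * c - y * (1 - y)) * (a * (1 - y) + c * y) : ℝ) : ℂ) * Complex.I := by
    rw [e2, e1]
    push_cast
    linear_combination ((a * (1 - y) + c * y : ℂ)) ^ 2 * Complex.I_sq
  have er : (A u (pt u y)).re = (a * c - y * (1 - y)) ^ 2 - (a * (1 - y) + c * y) ^ 2 := by
    rw [e3]
    simp only [Complex.add_re, Complex.ofReal_re, Complex.mul_re, Complex.I_re, mul_zero, Complex.ofReal_im,
      Complex.I_im, mul_one, sub_self, add_zero]
  have ei : (A u (pt u y)).im = 2 * (a * c - y * (1 - y)) * (a * (1 - y) + c * y) := by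
    rw [e3]
    simp only [Complex.add_im, Complex.ofReal_im, Complex.mul_im, Complex.I_re, mul_zero, Complex.ofReal_re,
      Complex.I_im, mul_one, add_zero, zero_add]
  have hy0 := hy.1
  have hy1 : 0 ≤ 1 - y := by linarith [hy.2]
  set m := y * (1 - y) with hm
  have hm0 : 0 ≤ m := mul_nonneg hy0 hy1
  have f1 : |a * c| ≤ 1 / 100 * m := by
    rw [abs_mul, hm]
    calc |a| * |c| ≤ (1 / 10 * y) * (1 / 10 * (1 - y)) := mul_le_mul h1 h2 (abs_nonneg _) (by positivity)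
      _ = _ := by ring
  have f2 : |a * (1 - y) + c * y| ≤ 1 / 5 * m := by
    refine (abs_add_le _ _).trans ?_
    rw [abs_mul, abs_mul, abs_of_nonneg hy1, abs_of_nonneg hy0, hm]
    nlinarith [mul_le_mul_of_nonneg_right h1 hy1, mul_le_mul_of_nonneg_right h2 hy0]
  set Y := a * (1 - y) + c * y with hY
  set X := m - a * c with hX
  have f3 : 99 / 100 * m ≤ X := by
    rw [hX]
    linarith [(abs_le.1 f1).2]
  have hX0 : 0 ≤ X := by linarith
  have f4 : |Y| ≤ 21 / 100 * X := by linarith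
  have f5 : a * c - m = -X := by rw [hX]; ring
  have f6 : Y ^ 2 ≤ (21 / 100 * X) * |Y| := by
    rw [← sq_abs, sq]
    exact mul_le_mul_of_nonneg_right f4 (abs_nonneg _)
  have f7 : (21 / 100 * X) * |Y| ≤ (21 / 100 * X) * (21 / 100 * X) := mul_le_mul_of_nonneg_left f4 (by positivity)
  have f8 : X * |Y| ≤ X * (21 / 100 * X) := mul_le_mul_of_nonneg_left f4 hX0
  rw [er, ei, f5]
  constructor
  · nlinarith
  · rw [abs_mul, abs_mul, abs_neg, abs_two, abs_of_nonneg hX0]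
    nlinarith


/-- PROOF.  Let `N = |z + J|`, `ξ = z.re`, `η = z.im`, `T = J.re`.  If `T ≤ |η|`: `|η + J.im| ≥ |η| / 2`; if moreover `|ξ| ≤ |η|`, then
`‖z‖ ≤ √2 |η| ≤ 2 √2 N`; if `ξ > |η|`, then `ξ + T ≥ ξ ≥ ‖z‖ / √2`.  If `T > |η|`: for `ξ ≥ 0`, `ξ + T ≥ max ξ |η| ≥ ‖z‖ / √2`; for
`ξ < 0`, `ξ + T ≥ (9/10) |η|` and `‖z‖ ≤ (11/10) |η|`. -/
theorem b4_geom {z J : ℂ} (hz : -(1 / 10) * |z.im| ≤ z.re) (hJ : 0 ≤ J.re)
    (hJ' : |J.im| ≤ 1 / 2 * J.re) : 1 / 3 * ‖z‖ ≤ ‖z + J‖ := by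
  have hN := norm_nonneg (z + J)
  have hz0 := norm_nonneg z
  have e1 : ‖z + J‖ ^ 2 = (z.re + J.re) ^ 2 + (z.im + J.im) ^ 2 := by
    rw [← Complex.normSq_eq_norm_sq, Complex.normSq_apply]
    simp
    ring
  have e2 : ‖z‖ ^ 2 = z.re ^ 2 + z.im ^ 2 := by
    rw [← Complex.normSq_eq_norm_sq, Complex.normSq_apply]
    ring
  have key : z.re ^ 2 + z.im ^ 2 ≤ 9 * ((z.re + J.re) ^ 2 + (z.im + J.im) ^ 2) := by
    have hη : |z.im| ^ 2 = z.im ^ 2 := sq_abs _
    have hη0 := abs_nonneg z.im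
    obtain ⟨hJ1, hJ2⟩ := abs_le.1 hJ'
    rcases le_or_gt J.re |z.im| with hT | hT
    · rcases le_or_gt z.re |z.im| with hξ | hξ
      · -- `|η + S| ≥ |η|/2`
        have h1 : |z.im| / 2 ≤ |z.im + J.im| := by
          have h2 : |z.im| ≤ |z.im + J.im| + |J.im| := by
            have := abs_sub (z.im + J.im) J.im
            rwa [add_sub_cancel_right] at this
          linarith
        have h3 : |z.im + J.im| ^ 2 = (z.im + J.im) ^ 2 := sq_abs _
        have h4 : (|z.im| / 2) ^ 2 ≤ |z.im + J.im| ^ 2 := pow_le_pow_left₀ (by positivity) h1 2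
        have h5 : z.re ^ 2 ≤ |z.im| ^ 2 := sq_le_sq' (by linarith) hξ
        nlinarith [sq_nonneg (z.re + J.re)]
      · have h1 : z.re ≤ z.re + J.re := by linarith
        have h2 : z.re ^ 2 ≤ (z.re + J.re) ^ 2 := pow_le_pow_left₀ (by linarith) h1 2
        have h3 : |z.im| ^ 2 ≤ z.re ^ 2 := pow_le_pow_left₀ hη0 hξ.le 2
        nlinarith [sq_nonneg (z.im + J.im)]
    · rcases le_or_gt 0 z.re with hξ | hξ
      · have h2 : z.re ^ 2 ≤ (z.re + J.re) ^ 2 := pow_le_pow_left₀ hξ (by linarith) 2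
        have h3 : |z.im| ^ 2 ≤ (z.re + J.re) ^ 2 := pow_le_pow_left₀ hη0 (by linarith) 2
        nlinarith [sq_nonneg (z.im + J.im)]
      · have h2 : (9 / 10 * |z.im|) ^ 2 ≤ (z.re + J.re) ^ 2 := pow_le_pow_left₀ (by positivity) (by linarith) 2
        have h3 : z.re ^ 2 ≤ (1 / 10 * |z.im|) ^ 2 := by
          apply sq_le_sq'
          · linarith
          · linarith
        nlinarith [sq_nonneg (z.im + J.im)]
  have h9 : (1 / 3 * ‖z‖) ^ 2 ≤ ‖z + J‖ ^ 2 := by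
    rw [mul_pow, e1, e2]
    linarith
  exact b4_sq h9 hN


/-- If `z` is to the right and `w` is not to the right of the leaf, then `z - w` is in the cone and `z` is close to the leaf.
PROOF.  `u (z.im) < z.re`, `w.re ≤ u (w.im)`; Lipschitz. -/
theorem b4_side {R : ℝ} {u : ℝ → ℝ} (h : Leaf R u) {z w : ℂ} (hz : z ∈ strip) (hw : w ∈ strip)
    (h1 : rho u z = 1) (h0 : rho u w = 0) :
    -(1 / 10) * |(z - w).im| ≤ (z - w).re ∧ ‖z - pt u z.im‖ ≤ 2 * ‖z - w‖ := by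
  have g1 : u z.im < z.re := by
    by_contra hcon
    unfold rho at h1
    rw [if_neg (fun hc => hcon hc.2)] at h1
    exact zero_ne_one h1
  have g2 : w.re ≤ u w.im := by
    by_contra hcon
    unfold rho at h0
    rw [if_pos ⟨hw, not_le.1 hcon⟩] at h0
    exact one_ne_zero h0
  have hl := h.lip z.im ⟨hz.1.le, hz.2.le⟩ w.im ⟨hw.1.le, hw.2.le⟩
  obtain ⟨l1, l2⟩ := abs_le.1 hl
  have him : |(z - w).im| = |z.im - w.im| := by rw [Complex.sub_im]
  have n1 := Complex.abs_re_le_norm (z - w)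
  have n2 := Complex.abs_im_le_norm (z - w)
  rw [him] at n2 ⊢
  constructor
  · rw [Complex.sub_re]
    linarith
  · have e1 : z - pt u z.im = ((z.re - u z.im : ℝ) : ℂ) := by
      unfold pt
      apply Complex.ext <;> simp
    rw [e1, Complex.norm_real, Real.norm_eq_abs, abs_of_pos (by linarith)]
    have n3 := le_abs_self (z - w).re
    rw [Complex.sub_re] at n3 n1
    linarith


end H51L
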