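import Pool.Agent.Lib.H51L.B3
import Pool.Agent.Lib.H51L.B4

/-!
# H51L, chunk C1: the average `V`
-/

set_option autoImplicit false

namespace H51L

open Set Metric Topology Filter MeasureTheory

variable {Ω : Type*} [MeasurableSpace Ω] {μ : Measure Ω} {R : ℝ} {u : Ω → ℝ → ℝ}

theorem c1_measb : Measurable b := by
  unfold b pol qq
  have h1 : Measurable fun s : ℂ => Complex.log (1 - 1 / s) := by
    refine Complex.measurable_log.comp ?_
    fun_prop
  fun_prop

theorem c1_mp (h : Lam μ R u) {y : ℝ} (hy : y ∈ Icc (0 : ℝ) 1) :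
    Measurable fun ω => pt (u ω) y := by
  unfold pt
  exact (Complex.measurable_ofReal.comp (h.meas y hy)).add_const _

theorem c1_m0 (h : Lam μ R u) : Measurable fun ω => pt (u ω) 0 :=
  c1_mp h ⟨le_rfl, zero_le_one⟩

theorem c1_m1 (h : Lam μ R u) : Measurable fun ω => pt (u ω) 1 :=
  c1_mp h ⟨zero_le_one, le_rfl⟩

theorem c1_mA (h : Lam μ R u) {g : Ω → ℂ} (hg : Measurable g) :
    Measurable fun ω => A (u ω) (g ω) := by
  unfold A
  exact ((hg.sub (c1_m0 h)).pow_const 2).mul (((c1_m1 h).sub hg).pow_const 2)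

theorem c1_mrho (h : Lam μ R u) (z : ℂ) : Measurable fun ω => rho (u ω) z := by
  unfold rho
  by_cases hz : z ∈ strip
  · have hy : z.im ∈ Icc (0 : ℝ) 1 := ⟨hz.1.le, hz.2.le⟩
    have h1 : MeasurableSet {ω | z ∈ strip ∧ u ω z.im < z.re} := by
      have : {ω | z ∈ strip ∧ u ω z.im < z.re} = {ω | u ω z.im < z.re} := by
        ext ω
        simp [hz]
      rw [this]
      exact measurableSet_lt (h.meas _ hy) measurable_const
    exact Measurable.ite h1 measurable_const measurable_const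
  · simp [hz]

theorem c1_mrhos (h : Lam μ R u) (z : ℂ) : Measurable fun ω => rhos (u ω) z := by
  unfold rhos
  by_cases hz : z ∈ strip
  · have h1 : MeasurableSet {ω | z ∈ strip ∧ u ω 0 + z.im * (u ω 1 - u ω 0) < z.re} := by
      have : {ω | z ∈ strip ∧ u ω 0 + z.im * (u ω 1 - u ω 0) < z.re} =
          {ω | u ω 0 + z.im * (u ω 1 - u ω 0) < z.re} := by
        ext ω
        simp [hz]
      rw [this]
      have m0 := h.meas 0 ⟨le_rfl, zero_le_one⟩
      have m1 := h.meas 1 ⟨zero_le_one, le_rfl⟩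
      exact measurableSet_lt (m0.add ((m1.sub m0).const_mul _)) measurable_const
    exact Measurable.ite h1 measurable_const measurable_const
  · simp [hz]

theorem c1_rho01 (f : ℝ → ℝ) (z : ℂ) : rho f z = 0 ∨ rho f z = 1 := by
  unfold rho
  split_ifs
  · exact Or.inr rfl
  · exact Or.inl rfl

theorem c1_rho1 {f : ℝ → ℝ} {z : ℂ} (hz : z ∈ strip) : rho f z = 1 ↔ f z.im < z.re := by
  unfold rho
  constructor
  · intro h
    by_contra hcon
    rw [if_neg (fun hh => hcon hh.2)] at h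
    exact zero_ne_one h
  · intro h
    rw [if_pos ⟨hz, h⟩]

theorem c1_rho0 {f : ℝ → ℝ} {z : ℂ} (hz : z ∈ strip) : rho f z = 0 ↔ z.re ≤ f z.im := by
  rcases c1_rho01 f z with h | h
  · refine ⟨fun _ => ?_, fun _ => h⟩
    by_contra hcon
    push Not at hcon
    rw [(c1_rho1 hz).2 hcon] at h
    exact one_ne_zero h
  · refine ⟨fun h' => ?_, fun h' => ?_⟩
    · rw [h] at h'
      exact absurd h' one_ne_zero
    · exact absurd ((c1_rho1 hz).1 h) (not_lt.2 h')

/-- PROOF.  `u ω 0`, `u ω 1`, `u ω z.im` are measurable (if `z` is in the strip; otherwise `rho = rhos = 0`); `b` is measurable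
(a formula in `Complex.log` and polynomials); indicator functions of measurable sets. -/
theorem c1_meas (h : Lam μ R u) (z : ℂ) : Measurable fun ω => v (u ω) z := by
  have h1 : Measurable fun ω => b (sc (u ω) z) := by
    refine c1_measb.comp ?_
    unfold sc
    exact ((c1_m0 h).const_sub z).div ((c1_m1 h).sub (c1_m0 h))
  unfold v
  refine Measurable.add ?_ ?_
  · exact ((((c1_m1 h).sub (c1_m0 h)).pow_const 4).const_mul _).mul h1
  · refine (c1_mA h measurable_const).mul ?_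
    exact (Complex.measurable_ofReal.comp (c1_mrho h z)).sub
      (Complex.measurable_ofReal.comp (c1_mrhos h z))

/-- PROOF.  `c1_meas` and `b2_bdd`. -/
theorem c1_int [IsProbabilityMeasure μ] (h : Lam μ R u) (z : ℂ) : Integrable (fun ω => v (u ω) z) μ := by
  obtain ⟨C, hC⟩ := b2_bdd R
  exact (integrable_const C).mono' (c1_meas h z).aestronglyMeasurable
    (Eventually.of_forall fun ω => hC (u ω) (h.leaf ω) z)

theorem c1_bdd [IsProbabilityMeasure μ] (h : Lam μ R u) : ∃ C : ℝ, ∀ z, ‖V μ u z‖ ≤ C := by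
  obtain ⟨C, hC⟩ := b2_bdd R
  refine ⟨C, fun z => ?_⟩
  unfold V
  have := norm_integral_le_of_norm_le_const (μ := μ)
    (Eventually.of_forall fun ω => hC (u ω) (h.leaf ω) z)
  simpa using this

theorem c1_ptdist {f : ℝ → ℝ} (h : Leaf R f) {y : ℝ} (hy : y ∈ Icc (0 : ℝ) 1) :
    ‖pt f y - pt f 0‖ ≤ 2 := by
  have h1 := h.lip y hy 0 ⟨le_rfl, zero_le_one⟩
  have h2 : pt f y - pt f 0 = ((f y - f 0 : ℝ) : ℂ) + (y : ℂ) * Complex.I := by
    unfold pt
    push_cast
    ring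
  rw [h2]
  calc ‖((f y - f 0 : ℝ) : ℂ) + (y : ℂ) * Complex.I‖
      ≤ ‖((f y - f 0 : ℝ) : ℂ)‖ + ‖(y : ℂ) * Complex.I‖ := norm_add_le _ _
    _ = |f y - f 0| + |y| := by
        rw [Complex.norm_real, norm_mul, Complex.norm_I, mul_one, Complex.norm_real,
          Real.norm_eq_abs, Real.norm_eq_abs]
    _ ≤ 1 / 10 * |y - 0| + |y| := by gcongr
    _ ≤ 2 := by
        rw [sub_zero, abs_of_nonneg hy.1]
        linarith [hy.2]

/-- the case of nested sets -/
theorem c1_aux [IsProbabilityMeasure μ] (h : Lam μ R u) (hR : 0 ≤ R) {C1 C3 : ℝ}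
    (hC3 : 0 ≤ C3)
    (h1 : ∀ f, Leaf R f → ∀ z w : ℂ, ‖z - w‖ < 1 → z ∈ strip →
      w ∈ strip → ‖v f z - v f w - A f z * ((rho f z - rho f w : ℝ) : ℂ)‖ ≤ C1 * ‖z - w‖)
    (h3 : ∀ f, Leaf R f → ∀ z w : ℂ,
      |z.re| ≤ R + 4 → |w.re| ≤ R + 4 → 0 ≤ z.im → z.im ≤ 1 → 0 ≤ w.im → w.im ≤ 1 →
      ‖A f z - A f w‖ ≤ C3 * ‖z - w‖)
    {z w : ℂ} (hzw : ‖z - w‖ < 1) (hz : z ∈ strip) (hw : w ∈ strip)
    (hn : ∀ ω, rho (u ω) w = 1 → rho (u ω) z = 1) :
    ∃ J : ℂ, ‖V μ u z - V μ u w - J‖ ≤ (C1 + 2 * C3) * ‖z - w‖ ∧ (J = 0 ∨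
        (-(1 / 10) * |(z - w).im| ≤ (z - w).re ∧ 0 ≤ J.re ∧ |J.im| ≤ 1 / 2 * J.re)) := by
  have hy : z.im ∈ Icc (0 : ℝ) 1 := ⟨hz.1.le, hz.2.le⟩
  set F : Ω → ℂ := fun ω => A (u ω) (pt (u ω) z.im) * ((rho (u ω) z - rho (u ω) w : ℝ) : ℂ) with hF
  have hD : ∀ ω, (rho (u ω) z - rho (u ω) w = 0) ∨ (rho (u ω) z = 1 ∧ rho (u ω) w = 0) := by
    intro ω
    rcases c1_rho01 (u ω) z with e1 | e1 <;> rcases c1_rho01 (u ω) w with e2 | e2
    · left; rw [e1, e2]; ring
    · exfalso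
      have := hn ω e2
      rw [e1] at this
      exact zero_ne_one this
    · right; exact ⟨e1, e2⟩
    · left; rw [e1, e2]; ring
  have hptre : ∀ ω, (pt (u ω) z.im).re = u ω z.im := by
    intro ω; simp [pt]
  have hptim : ∀ ω, (pt (u ω) z.im).im = z.im := by
    intro ω; simp [pt]
  have hAb : ∀ ω, ‖A (u ω) (pt (u ω) z.im)‖ ≤ C3 * 2 := by
    intro ω
    have hl := h.leaf ω
    have e0 : A (u ω) (pt (u ω) 0) = 0 := by
      unfold A
      rw [sub_self]
      ring
    have e1 := h3 (u ω) hl (pt (u ω) z.im) (pt (u ω) 0)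
      (by rw [hptre]; linarith [hl.bdd _ hy])
      (by
        have : (pt (u ω) 0).re = u ω 0 := by simp [pt]
        rw [this]; linarith [hl.bdd 0 ⟨le_rfl, zero_le_one⟩])
      (by rw [hptim]; exact hy.1) (by rw [hptim]; exact hy.2)
      (by simp [pt]) (by simp [pt])
    rw [e0, sub_zero] at e1
    exact e1.trans (mul_le_mul_of_nonneg_left (c1_ptdist hl hy) hC3)
  have hFm : Measurable F := by
    refine (c1_mA h (c1_mp h hy)).mul ?_
    exact Complex.measurable_ofReal.comp ((c1_mrho h z).sub (c1_mrho h w))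
  have hFb : ∀ ω, ‖F ω‖ ≤ C3 * 2 := by
    intro ω
    rcases hD ω with e | ⟨e1, e2⟩
    · rw [hF]
      simp only [e]
      simp only [Complex.ofReal_zero, mul_zero, norm_zero]
      positivity
    · rw [hF]
      simp only [e1, e2]
      simp only [sub_zero, Complex.ofReal_one, mul_one]
      exact hAb ω
  have hFi : Integrable F μ :=
    (integrable_const (C3 * 2)).mono' hFm.aestronglyMeasurable (Eventually.of_forall hFb)
  refine ⟨∫ ω, F ω ∂μ, ?_, ?_⟩
  · unfold V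
    have hint : Integrable (fun ω => v (u ω) z - v (u ω) w) μ := (c1_int h z).sub (c1_int h w)
    rw [← integral_sub (c1_int h z) (c1_int h w), ← integral_sub hint hFi]
    have hb : ∀ ω, ‖v (u ω) z - v (u ω) w - F ω‖ ≤ (C1 + 2 * C3) * ‖z - w‖ := by
      intro ω
      have hl := h.leaf ω
      have e1 := h1 (u ω) hl z w hzw hz hw
      have e2 : ‖A (u ω) z * ((rho (u ω) z - rho (u ω) w : ℝ) : ℂ) - F ω‖ ≤
          2 * C3 * ‖z - w‖ := by
        rcases hD ω with e | ⟨e3, e4⟩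
        · rw [hF]
          simp only [e]
          simp only [Complex.ofReal_zero, mul_zero, sub_zero, norm_zero]
          positivity
        · obtain ⟨_, e5⟩ := b4_side hl hz hw e3 e4
          rw [hF]
          simp only [e3, e4]
          simp only [sub_zero, Complex.ofReal_one, mul_one]
          have e6 : |z.re - u ω z.im| ≤ 2 * ‖z - w‖ := by
            have := (Complex.abs_re_le_norm (z - pt (u ω) z.im)).trans e5
            rwa [Complex.sub_re, hptre] at this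
          have e7 := hl.bdd _ hy
          have e8 : |z.re| ≤ R + 4 := by
            have := abs_sub_abs_le_abs_sub z.re (u ω z.im)
            linarith
          have e9 := h3 (u ω) hl z (pt (u ω) z.im) e8 (by rw [hptre]; linarith)
            hy.1 hy.2 (by rw [hptim]; exact hy.1) (by rw [hptim]; exact hy.2)
          refine e9.trans ?_
          calc C3 * ‖z - pt (u ω) z.im‖ ≤ C3 * (2 * ‖z - w‖) := by gcongr
            _ = 2 * C3 * ‖z - w‖ := by ring
      have e10 : v (u ω) z - v (u ω) w - F ω =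
          (v (u ω) z - v (u ω) w - A (u ω) z * ((rho (u ω) z - rho (u ω) w : ℝ) : ℂ)) +
          (A (u ω) z * ((rho (u ω) z - rho (u ω) w : ℝ) : ℂ) - F ω) := by ring
      rw [e10]
      refine (norm_add_le _ _).trans ?_
      linarith
    have := norm_integral_le_of_norm_le_const (μ := μ) (Eventually.of_forall hb)
    simpa using this
  · by_cases hS : ∃ ω, rho (u ω) z = 1 ∧ rho (u ω) w = 0
    · right
      obtain ⟨ω₀, e1, e2⟩ := hS
      refine ⟨(b4_side (h.leaf ω₀) hz hw e1 e2).1, ?_⟩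
      have hre : (∫ ω, F ω ∂μ).re = ∫ ω, (F ω).re ∂μ := (integral_re hFi).symm
      have him : (∫ ω, F ω ∂μ).im = ∫ ω, (F ω).im ∂μ := (integral_im hFi).symm
      have hcone : ∀ ω, 0 ≤ (F ω).re ∧ |(F ω).im| ≤ 1 / 2 * (F ω).re := by
        intro ω
        rcases hD ω with e | ⟨e3, e4⟩
        · rw [hF]
          simp only [e]
          simp
        · rw [hF]
          simp only [e3, e4]
          simp only [sub_zero, Complex.ofReal_one, mul_one]
          exact b4_cone (h.leaf ω) hy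
      rw [hre, him]
      refine ⟨integral_nonneg fun ω => (hcone ω).1, ?_⟩
      calc |∫ ω, (F ω).im ∂μ| ≤ ∫ ω, |(F ω).im| ∂μ := abs_integral_le_integral_abs
        _ ≤ ∫ ω, 1 / 2 * (F ω).re ∂μ := by
            refine integral_mono_of_nonneg (Eventually.of_forall fun ω => abs_nonneg _) ?_
              (Eventually.of_forall fun ω => (hcone ω).2)
            exact hFi.re.const_mul _
        _ = 1 / 2 * ∫ ω, (F ω).re ∂μ := integral_const_mul _ _
    · left
      have : ∀ ω, F ω = 0 := by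
        intro ω
        rcases hD ω with e | e
        · rw [hF]
          simp only [e]
          simp
        · exact absurd ⟨ω, e⟩ hS
      simp [this]

/-- The main estimate.  PROOF.  `z ∈ strip`, `w ∈ strip`: the sets `S_z = {ω | rho (u ω) z = 1}` and `S_w` are nested: if
`ω ∈ S_z \ S_w` and `ω' ∈ S_w \ S_z`, then `u ω (z.im) < z.re ≤ u ω' (z.im)` and `u ω' (w.im) < w.re ≤ u ω (w.im)`, against `Lam.ord`.
Suppose `S_w ⊆ S_z` (otherwise exchange `z` and `w`, `J` becomes `-J`), `S = S_z \ S_w` (measurable by `Lam.meas`).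
`J = ∫ ω in S, A (u ω) (pt (u ω) z.im)`: in the cone by `b4_cone`.  By `b3_strip`, `V z - V w = ∫ ω in S, A (u ω) z + O(‖z - w‖)` and
`‖A (u ω) z - A (u ω) (pt (u ω) z.im)‖ ≤ C ‖z - pt ..‖ ≤ 2 C ‖z - w‖` on `S` (`b4_side`, `b2_A`; `|z.re| ≤ R + 2` since
`z` is within `2` of the leaf).  If `S` is empty then `J = 0`.  If it is not empty `b4_side` gives the cone condition for `z - w`.
If not both are in the strip: `J = 0` and `b3_out`. -/
theorem c1_main [IsProbabilityMeasure μ] (h : Lam μ R u) (hR : 0 ≤ R) : ∃ C : ℝ, 0 ≤ C ∧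
    ∀ z w : ℂ, ‖z - w‖ < 1 → ∃ J : ℂ, ‖V μ u z - V μ u w - J‖ ≤ C * ‖z - w‖ ∧
      (J = 0 ∨
        (-(1 / 10) * |(z - w).im| ≤ (z - w).re ∧ 0 ≤ J.re ∧ |J.im| ≤ 1 / 2 * J.re) ∨
        (-(1 / 10) * |(w - z).im| ≤ (w - z).re ∧ 0 ≤ (-J).re ∧ |(-J).im| ≤ 1 / 2 * (-J).re)) := by
  obtain ⟨C1, hC1, h1⟩ := b3_strip R hR
  obtain ⟨C2, hC2, h2⟩ := b3_out R hR
  obtain ⟨C3, hC3, h3⟩ := b2_A R
  refine ⟨C1 + 2 * C3 + C2, by positivity, fun z w hzw => ?_⟩
  have hn0 : 0 ≤ ‖z - w‖ := norm_nonneg _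
  by_cases hs : z ∈ strip ∧ w ∈ strip
  · obtain ⟨hz, hw⟩ := hs
    have hnest : (∀ ω, rho (u ω) w = 1 → rho (u ω) z = 1) ∨
        (∀ ω, rho (u ω) z = 1 → rho (u ω) w = 1) := by
      by_contra hcon
      push Not at hcon
      obtain ⟨⟨ω, a1, a2⟩, ⟨ω', a3, a4⟩⟩ := hcon
      rw [c1_rho1 hw] at a1
      rw [c1_rho1 hz] at a3
      rw [Ne, c1_rho1 hz, not_lt] at a2
      rw [Ne, c1_rho1 hw, not_lt] at a4
      rcases h.ord ω ω' with o | o
      · have := o z.im ⟨hz.1.le, hz.2.le⟩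
        linarith
      · have := o w.im ⟨hw.1.le, hw.2.le⟩
        linarith
    rcases hnest with hn | hn
    · obtain ⟨J, hJ1, hJ2⟩ := c1_aux h hR hC3 h1 h3 hzw hz hw hn
      refine ⟨J, hJ1.trans (mul_le_mul_of_nonneg_right (by linarith) hn0), ?_⟩
      rcases hJ2 with hJ | hJ
      · exact Or.inl hJ
      · exact Or.inr (Or.inl hJ)
    · obtain ⟨J, hJ1, hJ2⟩ := c1_aux h hR hC3 h1 h3 (by rw [norm_sub_rev]; exact hzw) hw hz hn
      refine ⟨-J, ?_, ?_⟩
      · have : V μ u z - V μ u w - -J = -(V μ u w - V μ u z - J) := by ring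
        rw [this, norm_neg]
        rw [norm_sub_rev w z] at hJ1
        exact hJ1.trans (mul_le_mul_of_nonneg_right (by linarith) hn0)
      · rcases hJ2 with hJ | hJ
        · left; rw [hJ, neg_zero]
        · right; right
          rw [neg_neg]
          exact hJ
  · refine ⟨0, ?_, Or.inl rfl⟩
    rw [sub_zero]
    unfold V
    rw [← integral_sub (c1_int h z) (c1_int h w)]
    have hb := norm_integral_le_of_norm_le_const (μ := μ)
      (Eventually.of_forall fun ω => h2 (u ω) (h.leaf ω) z w hzw hs)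
    have hb2 : ‖∫ ω, (v (u ω) z - v (u ω) w) ∂μ‖ ≤ C2 * ‖z - w‖ := by simpa using hb
    exact hb2.trans (mul_le_mul_of_nonneg_right (by linarith) hn0)

/-- Injectivity.  PROOF.  Let `C` be the constant of `c1_main`, `B` a bound for `‖V‖` (`c1_bdd`), `ε > 0` with `ε C ≤ 1/12` and
`4 ε B < 1`.  If `‖z - w‖ ≥ 4 ε B` then `‖z - w + ε (V z - V w)‖ ≥ ‖z - w‖ - 2 ε B ≥ ‖z - w‖ / 2`.  Otherwise `‖z - w‖ < 1` and
`c1_main` with `b4_geom` for `z - w` and `ε J` (or for `w - z` and `- ε J`): `≥ ‖z - w‖ / 3 - ε C ‖z - w‖ ≥ ‖z - w‖ / 4`. -/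
theorem c1_inj [IsProbabilityMeasure μ] (h : Lam μ R u) (hR : 0 ≤ R) : ∃ ε : ℝ, 0 < ε ∧
    ∀ z w : ℂ, 1 / 4 * ‖z - w‖ ≤ ‖(z + ε * V μ u z) - (w + ε * V μ u w)‖ := by
  obtain ⟨C, hC, hm⟩ := c1_main h hR
  obtain ⟨B₀, hB₀⟩ := c1_bdd h
  set B := max B₀ 0 with hB
  have hB0 : 0 ≤ B := le_max_right _ _
  have hBb : ∀ z, ‖V μ u z‖ ≤ B := fun z => (hB₀ z).trans (le_max_left _ _)
  have hpos : 0 < 12 * (C + B + 1) := by positivity
  set ε : ℝ := 1 / (12 * (C + B + 1)) with hε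
  have hε0 : 0 < ε := by positivity
  have hεe : ε * (12 * (C + B + 1)) = 1 := by
    rw [hε]
    field_simp
  have hεC : ε * C ≤ 1 / 12 := by nlinarith [mul_nonneg hε0.le hB0]
  have hεB : 4 * ε * B < 1 := by nlinarith [mul_nonneg hε0.le hB0, mul_nonneg hε0.le hC]
  refine ⟨ε, hε0, fun z w => ?_⟩
  have hn0 : 0 ≤ ‖z - w‖ := norm_nonneg _
  have hrw : (z + ε * V μ u z) - (w + ε * V μ u w) = (z - w) + ε * (V μ u z - V μ u w) := by ring
  rw [hrw]
  rcases le_or_gt (4 * ε * B) ‖z - w‖ with hc | hc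
  · have h1 : ‖(ε : ℂ) * (V μ u z - V μ u w)‖ ≤ ε * (2 * B) := by
      rw [norm_mul, Complex.norm_real, Real.norm_of_nonneg hε0.le]
      gcongr
      calc ‖V μ u z - V μ u w‖ ≤ ‖V μ u z‖ + ‖V μ u w‖ := norm_sub_le _ _
        _ ≤ 2 * B := by linarith [hBb z, hBb w]
    have h2 : ‖z - w‖ ≤ ‖(z - w) + ε * (V μ u z - V μ u w)‖ + ‖(ε : ℂ) * (V μ u z - V μ u w)‖ := by
      calc ‖z - w‖ = ‖((z - w) + ε * (V μ u z - V μ u w)) - (ε : ℂ) * (V μ u z - V μ u w)‖ := by
            ring_nf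
        _ ≤ _ := norm_sub_le _ _
    nlinarith
  · obtain ⟨J, hJ, hJc⟩ := hm z w (by linarith)
    have hsplit : ‖(z - w) + ε * J‖ ≤ ‖(z - w) + ε * (V μ u z - V μ u w)‖ + ε * (C * ‖z - w‖) := by
      calc ‖(z - w) + ε * J‖ = ‖((z - w) + ε * (V μ u z - V μ u w)) -
            (ε : ℂ) * (V μ u z - V μ u w - J)‖ := by ring_nf
        _ ≤ ‖(z - w) + ε * (V μ u z - V μ u w)‖ + ‖(ε : ℂ) * (V μ u z - V μ u w - J)‖ :=
            norm_sub_le _ _
        _ ≤ _ := by
            rw [norm_mul, Complex.norm_real, Real.norm_of_nonneg hε0.le]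
            gcongr
    have hεC2 : ε * (C * ‖z - w‖) ≤ 1 / 12 * ‖z - w‖ := by
      rw [← mul_assoc]
      exact mul_le_mul_of_nonneg_right hεC hn0
    have hlow : 1 / 3 * ‖z - w‖ ≤ ‖(z - w) + ε * J‖ := by
      rcases hJc with rfl | ⟨a1, a2, a3⟩ | ⟨a1, a2, a3⟩
      · rw [mul_zero, add_zero]
        linarith
      · refine b4_geom a1 ?_ ?_
        · rw [Complex.re_ofReal_mul]
          positivity
        · rw [Complex.re_ofReal_mul, Complex.im_ofReal_mul, abs_mul, abs_of_pos hε0]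
          nlinarith
      · have := b4_geom (z := w - z) (J := (ε : ℂ) * (-J)) a1 (by
          rw [Complex.re_ofReal_mul]
          positivity) (by
          rw [Complex.re_ofReal_mul, Complex.im_ofReal_mul, abs_mul, abs_of_pos hε0]
          nlinarith)
        rw [norm_sub_rev w z] at this
        refine this.trans (le_of_eq ?_)
        rw [← norm_neg]
        congr 1
        ring
    linarith

theorem c1_contAt {f : ℂ → ℂ} {z₀ : ℂ} {C : ℝ}
    (h : ∀ᶠ z in 𝓝 z₀, ‖f z - f z₀‖ ≤ C * ‖z - z₀‖) : ContinuousAt f z₀ := by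
  unfold ContinuousAt
  rw [tendsto_iff_norm_sub_tendsto_zero]
  have h1 : Tendsto (fun z : ℂ => C * ‖z - z₀‖) (𝓝 z₀) (𝓝 0) := by
    have hc : Continuous fun z : ℂ => C * ‖z - z₀‖ := by fun_prop
    have := hc.tendsto z₀
    simpa using this
  exact squeeze_zero' (Eventually.of_forall fun z => norm_nonneg _) h h1

theorem c1_strip_open : IsOpen strip := by
  unfold strip
  exact (isOpen_lt continuous_const Complex.continuous_im).inter
    (isOpen_lt Complex.continuous_im continuous_const)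

theorem c1_rho_const {f : ℝ → ℝ} (h : Leaf R f) {z₀ : ℂ} (hz : z₀ ∈ strip)
    (hne : f z₀.im ≠ z₀.re) : ∀ᶠ z in 𝓝 z₀, z ∈ strip ∧ rho f z = rho f z₀ := by
  have hy0 : z₀.im ∈ Icc (0 : ℝ) 1 := ⟨hz.1.le, hz.2.le⟩
  have hδ : 0 < |f z₀.im - z₀.re| / 3 := by
    have := abs_pos.2 (sub_ne_zero.2 hne)
    positivity
  filter_upwards [c1_strip_open.mem_nhds hz, Metric.ball_mem_nhds z₀ hδ] with z h1 h2
  refine ⟨h1, ?_⟩
  have hy : z.im ∈ Icc (0 : ℝ) 1 := ⟨h1.1.le, h1.2.le⟩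
  rw [mem_ball, dist_eq_norm] at h2
  have h3 := h.lip _ hy _ hy0
  have h4 : |z.im - z₀.im| ≤ ‖z - z₀‖ := by
    have := Complex.abs_im_le_norm (z - z₀)
    rwa [Complex.sub_im] at this
  have h5 : |z.re - z₀.re| ≤ ‖z - z₀‖ := by
    have := Complex.abs_re_le_norm (z - z₀)
    rwa [Complex.sub_re] at this
  have h6 := abs_le.1 (h3.trans (mul_le_mul_of_nonneg_left h4 (by norm_num)))
  have h7 := abs_le.1 h5
  have h8 : 0 ≤ ‖z - z₀‖ := norm_nonneg _
  rcases lt_or_gt_of_ne hne with e | e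
  · have e1 : |f z₀.im - z₀.re| = z₀.re - f z₀.im := by
      rw [abs_of_neg (by linarith)]
      ring
    rw [e1] at h2
    rw [(c1_rho1 hz).2 e, (c1_rho1 h1).2 (by linarith [h6.2, h7.1])]
  · have e1 : |f z₀.im - z₀.re| = f z₀.im - z₀.re := abs_of_pos (by linarith)
    rw [e1] at h2
    rw [(c1_rho0 hz).2 e.le, (c1_rho0 h1).2 (by linarith [h6.1, h7.2])]

/-- Continuity.  PROOF.  Dominated convergence (`b2_bdd`): for every `z₀` and almost every `ω`, `v (u ω)` is continuous at `z₀`: if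
`z₀ ∉ strip` by `b3_out` (for every `ω`); if `z₀ ∈ strip` and `u ω z₀.im ≠ z₀.re` (almost every `ω` by `Lam.null`), then
`rho (u ω)` is constant near `z₀` (`u ω` is continuous) and `b3_strip` applies. -/
theorem c1_cont [IsProbabilityMeasure μ] (h : Lam μ R u) (hR : 0 ≤ R) : Continuous (V μ u) := by
  obtain ⟨C1, hC1, h1⟩ := b3_strip R hR
  obtain ⟨C2, hC2, h2⟩ := b3_out R hR
  obtain ⟨C, hC⟩ := b2_bdd R
  rw [continuous_iff_continuousAt]
  intro z₀
  unfold V
  refine continuousAt_of_dominated (bound := fun _ => C)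
    (Eventually.of_forall fun z => (c1_meas h z).aestronglyMeasurable)
    (Eventually.of_forall fun z => Eventually.of_forall fun ω => hC (u ω) (h.leaf ω) z)
    (integrable_const C) ?_
  have hball : ∀ᶠ z in 𝓝 z₀, ‖z - z₀‖ < 1 := by
    filter_upwards [Metric.ball_mem_nhds z₀ one_pos] with z hz
    rwa [mem_ball, dist_eq_norm] at hz
  by_cases hz : z₀ ∈ strip
  · have hnull : ∀ᵐ ω ∂μ, u ω z₀.im ≠ z₀.re := by
      rw [ae_iff]
      simpa using h.null z₀.im ⟨hz.1.le, hz.2.le⟩ z₀.re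
    filter_upwards [hnull] with ω hω
    refine c1_contAt (C := C1) ?_
    filter_upwards [hball, c1_rho_const (h.leaf ω) hz hω] with z hz1 hz2
    have := h1 (u ω) (h.leaf ω) z z₀ hz1 hz2.1 hz
    rw [hz2.2, sub_self, Complex.ofReal_zero, mul_zero, sub_zero] at this
    exact this
  · refine Eventually.of_forall fun ω => c1_contAt (C := C2) ?_
    filter_upwards [hball] with z hz1
    exact h2 (u ω) (h.leaf ω) z z₀ hz1 (fun hh => hz hh.2)

end H51L
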