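import Pool.Agent.Lib.H51L.C1

/-!
# H51L, chunk C2: `V` is holomorphic off the leaves and not constant
-/

set_option autoImplicit false

namespace H51L

open Set Metric Topology Filter MeasureTheory

variable {Ω : Type*} [MeasurableSpace Ω] {μ : Measure Ω} {R : ℝ} {u : Ω → ℝ → ℝ}

theorem c2_ne_of {f : ℝ → ℝ} {z : ℂ} (hz : z ∉ gr f) (hy : z.im ∈ Icc (0 : ℝ) 1) :
    f z.im ≠ z.re := by
  intro hh
  apply hz
  refine ⟨z.im, hy, ?_⟩
  unfold pt
  rw [hh]
  exact Complex.re_add_im z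

theorem c2_sc (f : ℝ → ℝ) : Differentiable ℂ (sc f) := by
  unfold sc
  fun_prop

theorem c2_A (f : ℝ → ℝ) : Differentiable ℂ (A f) := by
  unfold A
  fun_prop

/-- the formula with `b` near a point -/
theorem c2_formb {f : ℝ → ℝ} {z : ℂ}
    (h1 : ∀ᶠ w in 𝓝 z, v f w = -(1 / (2 * Real.pi * Complex.I)) * (pt f 1 - pt f 0) ^ 4 * b (sc f w))
    (h2 : ¬((sc f z).im = 0 ∧ 0 ≤ (sc f z).re ∧ (sc f z).re ≤ 1)) : DifferentiableAt ℂ (v f) z := by
  have h3 : DifferentiableAt ℂ (fun w => b (sc f w)) z :=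
    (a2_diff h2).comp z (c2_sc f z)
  exact (h3.const_mul (-(1 / (2 * Real.pi * Complex.I)) * (pt f 1 - pt f 0) ^ 4)).congr_of_eventuallyEq h1

/-- the case of the boundary lines -/
theorem c2_line {f : ℝ → ℝ} (h : Leaf R f) {z : ℂ} (hy : z.im = 0 ∨ z.im = 1)
    (hne : f z.im ≠ z.re) : DifferentiableAt ℂ (v f) z := by
  have hyI : z.im ∈ Icc (0 : ℝ) 1 := by
    rcases hy with hy | hy <;> rw [hy] <;> constructor <;> norm_num
  have hchord : f 0 + z.im * (f 1 - f 0) = f z.im := by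
    rcases hy with hy | hy <;> rw [hy] <;> ring
  have hδ : 0 < |f z.im - z.re| / 3 := by
    have := abs_pos.2 (sub_ne_zero.2 hne)
    positivity
  refine c2_formb ?_ ?_
  · filter_upwards [Metric.ball_mem_nhds z hδ] with w hw
    by_cases hws : w ∈ strip
    · have hwI : w.im ∈ Icc (0 : ℝ) 1 := ⟨hws.1.le, hws.2.le⟩
      rw [mem_ball, dist_eq_norm] at hw
      have h4 : |w.im - z.im| ≤ ‖w - z‖ := by
        have := Complex.abs_im_le_norm (w - z)
        rwa [Complex.sub_im] at this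
      have h5 : |w.re - z.re| ≤ ‖w - z‖ := by
        have := Complex.abs_re_le_norm (w - z)
        rwa [Complex.sub_re] at this
      have h8 : 0 ≤ ‖w - z‖ := norm_nonneg _
      have h6 := abs_le.1 ((h.lip _ hwI _ hyI).trans (mul_le_mul_of_nonneg_left h4 (by norm_num)))
      have h7 := abs_le.1 h5
      have h9 : |(w.im - z.im) * (f 1 - f 0)| ≤ 1 / 10 * ‖w - z‖ := by
        rw [abs_mul]
        calc |w.im - z.im| * |f 1 - f 0| ≤ ‖w - z‖ * (1 / 10) := by
              gcongr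
              have := (b1_scale h).2.1
              linarith
          _ = 1 / 10 * ‖w - z‖ := by ring
      have h10 := abs_le.1 h9
      have h11 : f 0 + w.im * (f 1 - f 0) = f z.im + (w.im - z.im) * (f 1 - f 0) := by
        rw [← hchord]; ring
      have hrr : rho f w = rhos f w := by
        unfold rho rhos
        rcases lt_or_gt_of_ne hne with e | e
        · have e1 : |f z.im - z.re| = z.re - f z.im := by
            rw [abs_of_neg (by linarith)]
            ring
          rw [e1] at hw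
          rw [if_pos ⟨hws, by linarith [h6.2, h7.1]⟩,
            if_pos ⟨hws, by rw [h11]; linarith [h10.2, h7.1]⟩]
        · have e1 : |f z.im - z.re| = f z.im - z.re := abs_of_pos (by linarith)
          rw [e1] at hw
          rw [if_neg, if_neg]
          · rintro ⟨_, e2⟩
            rw [h11] at e2
            linarith [h10.1, h7.2]
          · rintro ⟨_, e2⟩
            linarith [h6.1, h7.2]
      unfold v
      rw [hrr, sub_self, mul_zero, add_zero]
    · exact b1_out h hws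
  · rintro ⟨h1, -, -⟩
    rw [b1_im h z, hchord] at h1
    have h2 : (1 + (f 1 - f 0) ^ 2) ≠ 0 := by positivity
    rw [div_eq_zero_iff] at h1
    rcases h1 with h1 | h1
    · exact hne (by linarith)
    · exact h2 h1

theorem c2_L (θ : ℝ) : -(1 / (2 * Real.pi * Complex.I)) * (((θ : ℂ) + Complex.I) ^ 4) *
    (((θ : ℂ) + Complex.I) * (-1 / 30)) =
    (((5 * θ ^ 4 - 10 * θ ^ 2 + 1) / (60 * Real.pi) : ℝ) : ℂ) -
      (((θ ^ 5 - 10 * θ ^ 3 + 5 * θ) / (60 * Real.pi) : ℝ) : ℂ) * Complex.I := by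
  have hpi : (Real.pi : ℂ) ≠ 0 := Complex.ofReal_ne_zero.2 Real.pi_ne_zero
  have h1 : (1 / (2 * Real.pi * Complex.I) : ℂ) = - Complex.I / (2 * Real.pi) := by
    rw [div_eq_div_iff (by simp [hpi]) (by simp [hpi])]
    linear_combination (2 * Real.pi : ℂ) * Complex.I_sq
  rw [h1]
  push_cast
  have h2 : ((θ : ℂ) + Complex.I) ^ 5 = (θ ^ 5 - 10 * θ ^ 3 + 5 * θ) +
      (5 * θ ^ 4 - 10 * θ ^ 2 + 1) * Complex.I := by
    linear_combination (10 * (θ : ℂ) ^ 3 + 10 * θ ^ 2 * Complex.I + 5 * θ * (Complex.I ^ 2 - 1) +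
      Complex.I * (Complex.I ^ 2 - 1)) * Complex.I_sq
  have h3 : -(-Complex.I / (2 * (Real.pi : ℂ))) * ((θ : ℂ) + Complex.I) ^ 4 *
      (((θ : ℂ) + Complex.I) * (-1 / 30)) = -(Complex.I * ((θ : ℂ) + Complex.I) ^ 5) / (60 * Real.pi) := by
    field_simp
    ring
  rw [h3, h2]
  field_simp
  linear_combination (-(5 * (θ : ℂ) ^ 4 - 10 * θ ^ 2 + 1)) * Complex.I_sq

/-- PROOF.  In the open strip: `b1_strip`, `rho` is constant near `z` (`z.re ≠ u z.im`, continuity), `bh` is differentiable at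
`sc u z` (`a3_diff`; `b1_re`).  If `z.im < 0` or `1 < z.im`: `b1_out` near `z` and `a2_diff` (`b1_re`).  If `z.im = 0`: `z.re ≠ u 0`, and near
`z` the values of `rho` and `rhos` are equal (both `1` if `z.re > u 0`, both `0` if `z.re < u 0`, on the part in the strip, by
continuity of `u` and of the chord; both `0` off the strip), so `v = -(..) b (sc u ·)` near `z`, and `(sc u z).im ≠ 0` (`b1_im`).  If
`z.im = 1` similarly. -/
theorem c2_v {u : ℝ → ℝ} (h : Leaf R u) {z : ℂ} (hz : z ∉ gr u) : DifferentiableAt ℂ (v u) z := by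
  by_cases hs : z ∈ strip
  · have hy : z.im ∈ Icc (0 : ℝ) 1 := ⟨hs.1.le, hs.2.le⟩
    have hne := c2_ne_of hz hy
    have h1 : ∀ᶠ w in 𝓝 z, v u w = A u w * (rho u z : ℂ) -
        1 / (2 * Real.pi * Complex.I) * (pt u 1 - pt u 0) ^ 4 * bh (sc u w) := by
      filter_upwards [c1_rho_const h hs hne] with w hw
      rw [b1_strip h hw.1, hw.2]
    have h2 : DifferentiableAt ℂ bh (sc u z) := by
      refine a3_diff ?_
      rintro ⟨h3, h4⟩
      rw [b1_re h h3] at h4
      rcases h4 with h4 | h4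
      · linarith [hs.1]
      · linarith [hs.2]
    have h3 : DifferentiableAt ℂ (fun w => bh (sc u w)) z := h2.comp z (c2_sc u z)
    have h4 : DifferentiableAt ℂ (fun w => A u w * (rho u z : ℂ)) z :=
      (c2_A u z).mul_const _
    exact (h4.sub (h3.const_mul (1 / (2 * Real.pi * Complex.I) * (pt u 1 - pt u 0) ^ 4))).congr_of_eventuallyEq h1
  · by_cases h01 : z.im = 0 ∨ z.im = 1
    · refine c2_line h h01 (c2_ne_of hz ?_)
      rcases h01 with hy | hy <;> rw [hy] <;> constructor <;> norm_num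
    · push Not at h01
      have hout : z.im < 0 ∨ 1 < z.im := by
        by_contra hcon
        push Not at hcon
        exact hs ⟨lt_of_le_of_ne hcon.1 (Ne.symm h01.1), lt_of_le_of_ne hcon.2 h01.2⟩
      refine c2_formb ?_ ?_
      · rcases hout with ho | ho
        · filter_upwards [(isOpen_lt Complex.continuous_im continuous_const).mem_nhds
            (show z ∈ {w : ℂ | w.im < 0} from ho)] with w hw
          refine b1_out h (fun hh => ?_)
          have e1 : w.im < 0 := hw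
          linarith [hh.1]
        · filter_upwards [(isOpen_lt continuous_const Complex.continuous_im).mem_nhds
            (show z ∈ {w : ℂ | 1 < w.im} from ho)] with w hw
          refine b1_out h (fun hh => ?_)
          have e1 : 1 < w.im := hw
          linarith [hh.2]
      · rintro ⟨h1, h2, h3⟩
        rw [b1_re h h1] at h2 h3
        rcases hout with ho | ho <;> linarith

/-- PROOF.  `c2_v` gives that `v (u ω)` is holomorphic on `ball z r` for every `ω`, bounded by a constant (`b2_bdd`), so its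
derivative is bounded on `ball z (r/2)` (Cauchy estimate); `hasDerivAt_integral_of_dominated_loc_of_deriv_le`.  (The measurability of
`ω ↦ deriv (v (u ω)) z`: limit of difference quotients, `measurable_deriv`-type lemmas or `AEStronglyMeasurable` of limits.)
Alternative: `V` is continuous (`c1_cont`) and satisfies the Morera condition by Fubini. -/
theorem c2_V [IsProbabilityMeasure μ] (h : Lam μ R u) {z : ℂ} {r : ℝ} (hr : 0 < r)
    (hz : ∀ ω, Disjoint (ball z r) (gr (u ω))) : DifferentiableAt ℂ (V μ u) z := by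
  obtain ⟨C, hC⟩ := b2_bdd R
  have hdiff : ∀ ω, ∀ x ∈ ball z r, DifferentiableAt ℂ (v (u ω)) x := fun ω x hx =>
    c2_v (h.leaf ω) (fun hh => Set.disjoint_left.1 (hz ω) hx hh)
  have hd0 : ∀ ω, HasDerivAt (v (u ω)) (deriv (v (u ω)) z) z := fun ω =>
    (hdiff ω z (mem_ball_self hr)).hasDerivAt
  have hmeas : Measurable fun ω => deriv (v (u ω)) z := by
    refine measurable_of_tendsto_metrizable (f := fun (n : ℕ) ω =>
      (1 / ((n : ℂ) + 1))⁻¹ * (v (u ω) (z + 1 / ((n : ℂ) + 1)) - v (u ω) z)) ?_ ?_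
    · intro n
      exact ((c1_meas h _).sub (c1_meas h _)).const_mul _
    · rw [tendsto_pi_nhds]
      intro ω
      have h1 := hasDerivAt_iff_tendsto_slope_zero.1 (hd0 ω)
      have h2 : Tendsto (fun n : ℕ => 1 / ((n : ℂ) + 1)) atTop (𝓝[≠] 0) := by
        rw [tendsto_nhdsWithin_iff]
        refine ⟨tendsto_one_div_add_atTop_nhds_zero_nat, Eventually.of_forall fun n => ?_⟩
        have : (n : ℂ) + 1 ≠ 0 := Nat.cast_add_one_ne_zero n
        simp only [mem_compl_iff, mem_singleton_iff]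
        exact one_div_ne_zero this
      exact h1.comp h2
  have hb : ∀ ω, ∀ x ∈ ball z (r / 2), ‖deriv (v (u ω)) x‖ ≤ C / (r / 2) := by
    intro ω x hx
    refine Complex.norm_deriv_le_of_forall_mem_sphere_norm_le (half_pos hr) ?_
      (fun w _ => hC (u ω) (h.leaf ω) w)
    have hsub : closedBall x (r / 2) ⊆ ball z r := by
      intro w hw
      rw [mem_closedBall] at hw
      rw [mem_ball] at hx ⊢
      calc dist w z ≤ dist w x + dist x z := dist_triangle _ _ _
        _ < r := by linarith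
    exact DifferentiableOn.diffContOnCl_ball
      (fun w hw => (hdiff ω w (hsub hw)).differentiableWithinAt) subset_rfl
  have key := hasDerivAt_integral_of_dominated_loc_of_deriv_le (μ := μ)
    (F := fun x ω => v (u ω) x) (F' := fun x ω => deriv (v (u ω)) x) (x₀ := z)
    (s := ball z (r / 2)) (bound := fun _ => C / (r / 2)) (ball_mem_nhds z (half_pos hr))
    (Eventually.of_forall fun x => (c1_meas h x).aestronglyMeasurable) (c1_int h z)
    hmeas.aestronglyMeasurable (Eventually.of_forall fun ω x hx => hb ω x hx)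
    (integrable_const _)
    (Eventually.of_forall fun ω x hx =>
      (hdiff ω x (ball_subset_ball (by linarith) hx)).hasDerivAt)
  exact key.2.differentiableAt

/-- `V` is not constant.  PROOF.  Let `V = c`.  For every `ω`, as `z → ∞`, by `b1_far`, `b1_out` (for `‖z‖ > R + 2`, `z` is off the strip
or `|z.re| > R`) and `a2_asym`, `z * v (u ω) z → (1 / (60 π i)) (q - p)⁵` (`sc u z * b (sc u z) → -1/30`,
`z / sc u z → q - p`), uniformly bounded in `ω` (`‖z * b (sc u z)‖ ≤ C` for `‖z‖` large), so by dominated convergence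
`z * V z → ∫ ω, (1 / (60 π i)) (q - p)⁵ =: L` along `z = n → ∞`.  So `c = 0` and `L = 0`.  But `q - p = i (1 - i θ)`, `|θ| ≤ 1/10`,
`(q - p)⁵ / i = (1 - i θ)⁵` has real part `1 - 10 θ² + 5 θ⁴ ≥ 9/10`, so `(60 π) L.re ≥ 9/10`. -/
theorem c2_ne [IsProbabilityMeasure μ] (h : Lam μ R u) : ¬∃ c : ℂ, ∀ z, V μ u z = c := by
  rintro ⟨c, hc⟩
  obtain ⟨B, hB⟩ := a2_bdd
  have hB0 : 0 ≤ B := (norm_nonneg _).trans (hB 0)
  have hI0 : (0 : ℝ) ∈ Icc (0 : ℝ) 1 := ⟨le_rfl, zero_le_one⟩
  set G : Ω → ℂ := fun ω => -(1 / (2 * Real.pi * Complex.I)) * (pt (u ω) 1 - pt (u ω) 0) ^ 4 *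
    ((pt (u ω) 1 - pt (u ω) 0) * (-1 / 30)) with hG
  have hvn : ∀ ω (n : ℕ), v (u ω) (n : ℂ) =
      -(1 / (2 * Real.pi * Complex.I)) * (pt (u ω) 1 - pt (u ω) 0) ^ 4 * b (sc (u ω) n) := by
    intro ω n
    refine b1_out (h.leaf ω) ?_
    intro hh
    have := hh.1
    simp at this
  have hqp : ∀ ω, pt (u ω) 1 - pt (u ω) 0 ≠ 0 := by
    intro ω hh
    have := (b1_scale (h.leaf ω)).2.2.1
    rw [hh, norm_zero] at this
    linarith
  have hn : ∀ ω (n : ℕ), (n : ℂ) = (pt (u ω) 1 - pt (u ω) 0) * sc (u ω) n + pt (u ω) 0 := by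
    intro ω n
    unfold sc
    rw [mul_div_cancel₀ _ (hqp ω)]
    ring
  have hexp : ∀ ω (n : ℕ), (n : ℂ) * v (u ω) n = -(1 / (2 * Real.pi * Complex.I)) *
      (pt (u ω) 1 - pt (u ω) 0) ^ 4 * ((pt (u ω) 1 - pt (u ω) 0) * (sc (u ω) n * b (sc (u ω) n)) +
        pt (u ω) 0 * b (sc (u ω) n)) := by
    intro ω n
    rw [hvn ω n]
    have e := hn ω n
    linear_combination (-(1 / (2 * Real.pi * Complex.I)) * (pt (u ω) 1 - pt (u ω) 0) ^ 4 *
      b (sc (u ω) n)) * e
  have hp0 : ∀ ω, ‖pt (u ω) 0‖ ≤ R := by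
    intro ω
    have e := (h.leaf ω).bdd 0 hI0
    have : pt (u ω) 0 = ((u ω 0 : ℝ) : ℂ) := by simp [pt]
    rw [this, Complex.norm_real, Real.norm_eq_abs]
    exact e
  have hscn : ∀ ω (n : ℕ), ((n : ℝ) - R) / 2 ≤ ‖sc (u ω) n‖ := by
    intro ω n
    have e1 : (n : ℝ) ≤ 2 * ‖sc (u ω) n‖ + R := by
      calc (n : ℝ) = ‖(n : ℂ)‖ := by simp
        _ = ‖(pt (u ω) 1 - pt (u ω) 0) * sc (u ω) n + pt (u ω) 0‖ := by rw [← hn ω n]
        _ ≤ ‖(pt (u ω) 1 - pt (u ω) 0) * sc (u ω) n‖ + ‖pt (u ω) 0‖ := norm_add_le _ _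
        _ ≤ 2 * ‖sc (u ω) n‖ + R := by
            rw [norm_mul]
            have := (b1_scale (h.leaf ω)).2.2.2
            exact add_le_add (mul_le_mul_of_nonneg_right this (norm_nonneg _)) (hp0 ω)
    linarith
  have hR0 : ∀ ω : Ω, 0 ≤ R := fun ω => (norm_nonneg _).trans (hp0 ω)
  -- pointwise limit
  have hlim : ∀ ω, Tendsto (fun n : ℕ => (n : ℂ) * v (u ω) n) atTop (𝓝 (G ω)) := by
    intro ω
    have hcob : Tendsto (fun n : ℕ => sc (u ω) (n : ℂ)) atTop (Bornology.cobounded ℂ) := by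
      rw [← tendsto_norm_atTop_iff_cobounded]
      refine tendsto_atTop_mono (hscn ω) ?_
      have e1 : Tendsto (fun n : ℕ => (n : ℝ) - R) atTop atTop :=
        tendsto_atTop_add_const_right _ _ tendsto_natCast_atTop_atTop
      exact e1.atTop_div_const (by norm_num)
    have e2 : Tendsto (fun n : ℕ => sc (u ω) n * b (sc (u ω) n)) atTop (𝓝 (-1 / 30)) :=
      a2_asym.comp hcob
    have e3 : Tendsto (fun n : ℕ => b (sc (u ω) n)) atTop (𝓝 0) := by
      have e4 : Tendsto (fun s : ℂ => s⁻¹ * (s * b s)) (Bornology.cobounded ℂ) (𝓝 (0 * (-1 / 30))) :=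
        tendsto_inv₀_cobounded.mul a2_asym
      rw [zero_mul] at e4
      refine (e4.comp hcob).congr' ?_
      have e5 : ∀ᶠ n : ℕ in atTop, sc (u ω) n ≠ 0 :=
        hcob.eventually (Bornology.eventually_ne_cobounded 0)
      filter_upwards [e5] with n hn'
      show (sc (u ω) n)⁻¹ * (sc (u ω) n * b (sc (u ω) n)) = b (sc (u ω) n)
      rw [inv_mul_cancel_left₀ hn']
    have e6 := ((e2.const_mul (pt (u ω) 1 - pt (u ω) 0)).add
      (e3.const_mul (pt (u ω) 0))).const_mul
      (-(1 / (2 * Real.pi * Complex.I)) * (pt (u ω) 1 - pt (u ω) 0) ^ 4)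
    rw [mul_zero, add_zero] at e6
    exact e6.congr fun n => (hexp ω n).symm
  -- domination
  set K : ℝ := ‖(-(1 / (2 * Real.pi * Complex.I)) : ℂ)‖ with hK
  have hbound : ∀ᶠ n : ℕ in atTop, ∀ᵐ ω ∂μ, ‖(n : ℂ) * v (u ω) n‖ ≤ K * 2 ^ 4 * (2 * 2 + R * B) := by
    have e1 : ∀ᶠ n : ℕ in atTop, R + 4 ≤ (n : ℝ) :=
      tendsto_natCast_atTop_atTop.eventually_ge_atTop (R + 4)
    filter_upwards [e1] with n hnR
    refine Eventually.of_forall fun ω => ?_
    rw [hexp ω n, norm_mul, norm_mul, norm_pow]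
    have e2 := (b1_scale (h.leaf ω)).2.2.2
    have e3 : 2 ≤ ‖sc (u ω) n‖ := by
      have := hscn ω n
      linarith
    have e4 : ‖sc (u ω) n * b (sc (u ω) n)‖ ≤ 2 := by
      have e5 := a2_asym_bd e3
      calc ‖sc (u ω) n * b (sc (u ω) n)‖
          = ‖(sc (u ω) n * b (sc (u ω) n) - (-1 / 30)) + (-1 / 30)‖ := by ring_nf
        _ ≤ ‖sc (u ω) n * b (sc (u ω) n) - (-1 / 30)‖ + ‖(-1 / 30 : ℂ)‖ := norm_add_le _ _
        _ ≤ 2 / ‖sc (u ω) n‖ + 1 / 30 := by
            gcongr
            norm_num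
        _ ≤ 2 := by
            have : 2 / ‖sc (u ω) n‖ ≤ 1 := by
              rw [div_le_one (by linarith)]
              exact e3
            linarith
    have e6 : ‖(pt (u ω) 1 - pt (u ω) 0) * (sc (u ω) n * b (sc (u ω) n)) +
        pt (u ω) 0 * b (sc (u ω) n)‖ ≤ 2 * 2 + R * B := by
      refine (norm_add_le _ _).trans ?_
      rw [norm_mul, norm_mul (pt (u ω) 0)]
      exact add_le_add (mul_le_mul e2 e4 (norm_nonneg _) (by norm_num))
        (mul_le_mul (hp0 ω) (hB _) (norm_nonneg _) (hR0 ω))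
    refine mul_le_mul (mul_le_mul_of_nonneg_left ?_ (norm_nonneg _)) e6 (norm_nonneg _) (by positivity)
    exact pow_le_pow_left₀ (norm_nonneg _) e2 4
  have hDCT : Tendsto (fun n : ℕ => ∫ ω, (n : ℂ) * v (u ω) n ∂μ) atTop (𝓝 (∫ ω, G ω ∂μ)) := by
    refine tendsto_integral_filter_of_dominated_convergence
      (fun _ => K * 2 ^ 4 * (2 * 2 + R * B)) ?_ hbound (integrable_const _)
      (Eventually.of_forall hlim)
    exact Eventually.of_forall fun n => ((c1_meas h _).const_mul _).aestronglyMeasurable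
  have hDCT2 : Tendsto (fun n : ℕ => (n : ℂ) * c) atTop (𝓝 (∫ ω, G ω ∂μ)) := by
    refine hDCT.congr fun n => ?_
    rw [integral_const_mul]
    congr 1
    exact hc n
  have hc0 : c = 0 := by
    have e1 : Tendsto (fun n : ℕ => ((n : ℂ))⁻¹) atTop (𝓝 0) :=
      tendsto_inv_atTop_nhds_zero_nat (𝕜 := ℂ)
    have e2 := e1.mul hDCT2
    rw [zero_mul] at e2
    have e3 : Tendsto (fun n : ℕ => ((n : ℂ))⁻¹ * ((n : ℂ) * c)) atTop (𝓝 c) := by
      refine tendsto_const_nhds.congr' ?_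
      filter_upwards [eventually_ge_atTop 1] with n hn1
      have : (n : ℂ) ≠ 0 := by
        have : n ≠ 0 := by omega
        exact_mod_cast this
      rw [inv_mul_cancel_left₀ this]
    exact tendsto_nhds_unique e3 e2
  have hL0 : ∫ ω, G ω ∂μ = 0 := by
    rw [hc0] at hDCT2
    simp only [mul_zero] at hDCT2
    exact (tendsto_nhds_unique hDCT2 tendsto_const_nhds)
  -- real part
  have hGm : Measurable G := by
    refine Measurable.mul ?_ ?_
    · exact ((((c1_m1 h).sub (c1_m0 h)).pow_const 4).const_mul _)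
    · exact ((c1_m1 h).sub (c1_m0 h)).mul_const _
  have hGb : ∀ ω, ‖G ω‖ ≤ K * 2 ^ 4 * (2 * 1) := by
    intro ω
    rw [hG]
    simp only [norm_mul, norm_pow]
    have e2 := (b1_scale (h.leaf ω)).2.2.2
    have e3 : ‖(-1 / 30 : ℂ)‖ ≤ 1 := by norm_num
    refine mul_le_mul (mul_le_mul_of_nonneg_left ?_ (norm_nonneg _)) ?_ (by positivity) (by positivity)
    · exact pow_le_pow_left₀ (norm_nonneg _) e2 4
    · exact mul_le_mul e2 e3 (norm_nonneg _) (by norm_num)
  have hGi : Integrable G μ :=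
    (integrable_const _).mono' hGm.aestronglyMeasurable (Eventually.of_forall hGb)
  have hre : (∫ ω, G ω ∂μ).re = ∫ ω, (G ω).re ∂μ := (integral_re hGi).symm
  have hge : ∀ ω, 9 / 10 / (60 * Real.pi) ≤ (G ω).re := by
    intro ω
    obtain ⟨e1, e2, -, -⟩ := b1_scale (h.leaf ω)
    rw [hG]
    simp only
    rw [e1, c2_L]
    simp only [Complex.sub_re, Complex.ofReal_re, Complex.re_ofReal_mul, Complex.I_re, mul_zero,
      sub_zero]
    gcongr
    have e3 : (u ω 1 - u ω 0) ^ 2 ≤ (1 / 10) ^ 2 := by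
      rw [← sq_abs]
      exact pow_le_pow_left₀ (abs_nonneg _) e2 2
    nlinarith [sq_nonneg ((u ω 1 - u ω 0) ^ 2)]
  have hfin : 9 / 10 / (60 * Real.pi) ≤ ∫ ω, (G ω).re ∂μ := by
    have := integral_mono (μ := μ) (integrable_const (9 / 10 / (60 * Real.pi))) hGi.re hge
    simpa using this
  rw [← hre, hL0] at hfin
  have hpp : 0 < 9 / 10 / (60 * Real.pi) := by positivity
  simp only [Complex.zero_re] at hfin
  linarith

end H51L
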