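import Pool.Agent.Lib.H51L.C2
import Pool.Agent.Lib.H51R.A1
import Pool.Agent.Lib.H51R.E1

/-!
# H51L, chunk C3: a set that contains a lamination is not removable
-/

set_option autoImplicit false

namespace H51L

open Set Metric Topology Filter MeasureTheory

variable {Ω : Type*} [MeasurableSpace Ω] {μ : Measure Ω} {R : ℝ} {u : Ω → ℝ → ℝ}

/-- PROOF.  A continuous map `g` of the plane with `c ‖z - w‖ ≤ ‖g z - g w‖`, `c > 0`, is a homeomorphism: injective, closed
range (complete), open range (`H51R.a1_open`), so surjective by connectedness; the inverse is Lipschitz. -/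
theorem c3_homeo {g : ℂ → ℂ} (hg : Continuous g) {c : ℝ} (hc : 0 < c)
    (h : ∀ z w, c * ‖z - w‖ ≤ ‖g z - g w‖) : ∃ G : ℂ ≃ₜ ℂ, ∀ z, G z = g z := by
  have hinj : Function.Injective g := by
    intro z w hzw
    have h1 := h z w
    rw [hzw, sub_self, norm_zero] at h1
    have h2 : ‖z - w‖ ≤ 0 := by
      by_contra h3
      push Not at h3
      have := mul_pos hc h3
      linarith
    exact sub_eq_zero.1 (norm_le_zero_iff.1 h2)
  have hanti : AntilipschitzWith (Real.toNNReal c⁻¹) g := by
    refine AntilipschitzWith.of_le_mul_dist fun z w => ?_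
    rw [Real.coe_toNNReal _ (inv_nonneg.2 hc.le), dist_eq_norm, dist_eq_norm]
    rw [← div_eq_inv_mul, le_div_iff₀ hc, mul_comm]
    exact h z w
  have hprop : IsProperMap g := by
    rw [isProperMap_iff_tendsto_cocompact]
    refine ⟨hg, ?_⟩
    rw [← Metric.cobounded_eq_cocompact]
    exact hanti.tendsto_cobounded
  have hcl : IsClosed (range g) := hprop.isClosedMap.isClosed_range
  have hop : IsOpenMap g := fun U hU => H51R.a1_open hU hg.continuousOn hinj.injOn
  have hopr : IsOpen (range g) := hop.isOpen_range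
  have huniv : range g = univ := IsClopen.eq_univ ⟨hcl, hopr⟩ ⟨g 0, mem_range_self 0⟩
  have hsurj : Function.Surjective g := range_eq_univ.1 huniv
  exact ⟨(Equiv.ofBijective g ⟨hinj, hsurj⟩).toHomeomorphOfContinuousOpen hg hop, fun z => rfl⟩

/-- PROOF.  `G z = z + ε V z` (`c1_inj`, `c1_cont`, `c3_homeo`) is holomorphic off the closed set `E` (`c2_V`), so entire; then
`V = (G - id) / ε` is entire and bounded (`c1_bdd`), so constant (Liouville), against `c2_ne`. -/
theorem c3_not [IsProbabilityMeasure μ] (h : Lam μ R u) (hR : 0 ≤ R) {E : Set ℂ} (hE : IsClosed E)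
    (hsub : ∀ ω, gr (u ω) ⊆ E) : ¬H51R.Removable E := by
  intro hrem
  obtain ⟨ε, hε, hinj⟩ := c1_inj h hR
  have hVc := c1_cont h hR
  obtain ⟨G, hG⟩ := c3_homeo (g := fun z => z + ε * V μ u z) (by fun_prop)
    (show (0 : ℝ) < 1 / 4 by norm_num) hinj
  have hGf : (G : ℂ → ℂ) = fun z => z + ε * V μ u z := funext hG
  have hd : DifferentiableOn ℂ G Eᶜ := by
    intro z hz
    obtain ⟨r, hr, hb⟩ := Metric.isOpen_iff.1 hE.isOpen_compl z hz
    have h1 : DifferentiableAt ℂ (V μ u) z := c2_V h hr fun ω =>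
      disjoint_left.2 fun w hw hw2 => hb hw (hsub ω hw2)
    rw [hGf]
    exact (differentiableAt_id.add (h1.const_mul _)).differentiableWithinAt
  have hent := hrem G hd
  have hεc : (ε : ℂ) ≠ 0 := by exact_mod_cast hε.ne'
  have hV : V μ u = fun z => (G z - z) / ε := by
    funext z
    rw [hG]
    field_simp
    ring
  have hVd : Differentiable ℂ (V μ u) := by
    rw [hV]
    exact (hent.sub differentiable_id).div_const _
  obtain ⟨C, hC⟩ := c1_bdd h
  have hb : Bornology.IsBounded (range (V μ u)) := by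
    rw [isBounded_iff_forall_norm_le]
    refine ⟨C, ?_⟩
    rintro _ ⟨z, rfl⟩
    exact hC z
  obtain ⟨c, hc⟩ := hVd.exists_const_forall_eq_of_bounded hb
  exact c2_ne h ⟨c, hc⟩

end H51L
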