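import Mathlib

/-!
# H51L (MP_699e20_an): laminations by flat arcs are not removable.  Definitions.

See PROOF.md.
-/

set_option autoImplicit false

namespace H51L

open Set Metric Topology Filter MeasureTheory

/-- `s² (1 - s)²` -/
noncomputable def pol (s : ℂ) : ℂ := s ^ 2 * (1 - s) ^ 2

noncomputable def qq (s : ℂ) : ℂ := s ^ 3 - 3 / 2 * s ^ 2 + s / 3 + 1 / 12

/-- `∫ t in 0..1, t² (1-t)² / (t - s)`, in closed form; the cut is `[0, 1]` -/
noncomputable def b (s : ℂ) : ℂ := pol s * Complex.log (1 - 1 / s) + qq s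

/-- the branch of `b` with cuts `(-∞, 0]` and `[1, ∞)` -/
noncomputable def bh (s : ℂ) : ℂ := pol s * (Complex.log ((1 - s) / s) + Real.pi * Complex.I) + qq s

/-- a leaf: the graph `{u y + i y | 0 ≤ y ≤ 1}` of a function with small Lipschitz constant, bounded by `R` -/
structure Leaf (R : ℝ) (u : ℝ → ℝ) : Prop where
  lip : ∀ y ∈ Icc (0 : ℝ) 1, ∀ y' ∈ Icc (0 : ℝ) 1, |u y - u y'| ≤ 1 / 10 * |y - y'|
  bdd : ∀ y ∈ Icc (0 : ℝ) 1, |u y| ≤ R

/-- the point of the leaf at height `y` -/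
noncomputable def pt (u : ℝ → ℝ) (y : ℝ) : ℂ := (u y : ℂ) + y * Complex.I

/-- the leaf as a set -/
def gr (u : ℝ → ℝ) : Set ℂ := pt u '' Icc 0 1

/-- `(z - p)² (q - z)²`, `p` and `q` the end points of the leaf -/
noncomputable def A (u : ℝ → ℝ) (z : ℂ) : ℂ := (z - pt u 0) ^ 2 * (pt u 1 - z) ^ 2

/-- the coordinate in which the end points are `0` and `1` -/
noncomputable def sc (u : ℝ → ℝ) (z : ℂ) : ℂ := (z - pt u 0) / (pt u 1 - pt u 0)

/-- the open strip -/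
def strip : Set ℂ := {z | 0 < z.im ∧ z.im < 1}

open Classical in
/-- indicator of the part of the strip to the right of the leaf -/
noncomputable def rho (u : ℝ → ℝ) (z : ℂ) : ℝ := if z ∈ strip ∧ u z.im < z.re then 1 else 0

open Classical in
/-- indicator of the part of the strip to the right of the chord of the leaf -/
noncomputable def rhos (u : ℝ → ℝ) (z : ℂ) : ℝ :=
  if z ∈ strip ∧ u 0 + z.im * (u 1 - u 0) < z.re then 1 else 0

/-- the function with the jump `A` along the leaf -/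
noncomputable def v (u : ℝ → ℝ) (z : ℂ) : ℂ :=
  -(1 / (2 * Real.pi * Complex.I)) * (pt u 1 - pt u 0) ^ 4 * b (sc u z) +
    A u z * ((rho u z : ℂ) - (rhos u z : ℂ))

/-- A family of leaves parametrised by a probability space. -/
structure Lam {Ω : Type*} [MeasurableSpace Ω] (μ : Measure Ω) (R : ℝ) (u : Ω → ℝ → ℝ) : Prop where
  leaf : ∀ ω, Leaf R (u ω)
  meas : ∀ y ∈ Icc (0 : ℝ) 1, Measurable fun ω => u ω y
  ord : ∀ ω ω', (∀ y ∈ Icc (0 : ℝ) 1, u ω y ≤ u ω' y) ∨ (∀ y ∈ Icc (0 : ℝ) 1, u ω' y ≤ u ω y)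
  null : ∀ y ∈ Icc (0 : ℝ) 1, ∀ x : ℝ, μ {ω | u ω y = x} = 0

/-- the average of the functions `v` -/
noncomputable def V {Ω : Type*} [MeasurableSpace Ω] (μ : Measure Ω) (u : Ω → ℝ → ℝ) (z : ℂ) : ℂ :=
  ∫ ω, v (u ω) z ∂μ

/-- A flat arc: an affine image of the graph of a function on `[0, 1]` with Lipschitz constant `1/20`. -/
def FlatArc (F : Set ℂ) : Prop :=
  ∃ (α β : ℂ) (u : ℝ → ℝ), α ≠ 0 ∧
    (∀ y ∈ Icc (0 : ℝ) 1, ∀ y' ∈ Icc (0 : ℝ) 1, |u y - u y'| ≤ 1 / 20 * |y - y'|) ∧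
    ∀ y ∈ Icc (0 : ℝ) 1, α * pt u y + β ∈ F

end H51L
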