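import Pool.Agent.Lib.H51L.C3

/-!
# H51L, chunk D1: uncountably many disjoint leaves
-/

set_option autoImplicit false

namespace H51L

open Set Metric Topology Filter MeasureTheory

theorem d1_ev (y : Icc (0 : ℝ) 1) : Continuous fun f : C(Icc (0 : ℝ) 1, ℝ) => f y := by
  fun_prop

theorem d1_le {X : Set C(Icc (0 : ℝ) 1, ℝ)} {f : C(Icc (0 : ℝ) 1, ℝ)} (g : C(Icc (0 : ℝ) 1, ℝ))
    (hf : f ∈ closure X) (h : ∀ w ∈ X, ∀ t, w t ≤ g t) (t : Icc (0 : ℝ) 1) : f t ≤ g t := by
  have hc : IsClosed {w : C(Icc (0 : ℝ) 1, ℝ) | w t ≤ g t} :=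
    isClosed_le (d1_ev t) continuous_const
  exact closure_minimal (fun w hw => h w hw t) hc hf

theorem d1_ge {X : Set C(Icc (0 : ℝ) 1, ℝ)} {f : C(Icc (0 : ℝ) 1, ℝ)} (g : C(Icc (0 : ℝ) 1, ℝ))
    (hf : f ∈ closure X) (h : ∀ w ∈ X, ∀ t, g t ≤ w t) (t : Icc (0 : ℝ) 1) : g t ≤ f t := by
  have hc : IsClosed {w : C(Icc (0 : ℝ) 1, ℝ) | g t ≤ w t} :=
    isClosed_le continuous_const (d1_ev t)
  exact closure_minimal (fun w hw => h w hw t) hc hf

/-- the part of the closure near an open set -/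
theorem d1_inter {X O : Set C(Icc (0 : ℝ) 1, ℝ)} {f : C(Icc (0 : ℝ) 1, ℝ)} (hf : f ∈ closure X)
    (hO : IsOpen O) (hfO : f ∈ O) : f ∈ closure (X ∩ O) := by
  rw [_root_.mem_closure_iff] at hf ⊢
  intro W hW hfW
  obtain ⟨w, hw1, hw2⟩ := hf (W ∩ O) (hW.inter hO) ⟨hfW, hfO⟩
  exact ⟨w, hw1.1, hw2, hw1.2⟩

/-- At most three elements of the closure of a strictly ordered set of functions pass through a given point.  PROOF.  Let `K` be the
closure of `X` and `f ∈ K` with `f y = x`; `f` is a limit of a sequence `w n ∈ X`.  At most one element `f₀` of `X` takes the value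
`x` at `y`.  If `w n = f₀` infinitely often then `f = f₀`; otherwise `w n y < x` infinitely often or `w n y > x` infinitely often.
Two elements `f, f'` of the first kind (limits of `w n`, `w' n` with values `< x` at `y`) are equal: for fixed `n`,
`w' m y → x > w n y`, so `w' m y > w n y` and hence `w' m > w n` everywhere for large `m`, so `f' ≥ w n`, and `n → ∞`: `f' ≥ f`; and
symmetrically.  The same for the second kind.  So there are at most three such `f`. -/
theorem d1_finite {X : Set C(Icc (0 : ℝ) 1, ℝ)}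
    (hX : ∀ f ∈ X, ∀ g ∈ X, f ≠ g → (∀ y, f y < g y) ∨ (∀ y, g y < f y))
    (y : Icc (0 : ℝ) 1) (x : ℝ) : {f ∈ closure X | f y = x}.Finite := by
  set L : Set C(Icc (0 : ℝ) 1, ℝ) := {w ∈ X | w y < x} with hL
  set M : Set C(Icc (0 : ℝ) 1, ℝ) := {w ∈ X | w y = x} with hM
  set H : Set C(Icc (0 : ℝ) 1, ℝ) := {w ∈ X | x < w y} with hH
  have hord : ∀ f ∈ X, ∀ g ∈ X, f y < g y → ∀ t, f t < g t := by
    intro f hf g hg hfg
    have hne : f ≠ g := by rintro rfl; exact lt_irrefl _ hfg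
    rcases hX f hf g hg hne with h | h
    · exact h
    · exact absurd (h y) (not_lt.2 hfg.le)
  have hMs : M.Subsingleton := by
    intro f hf g hg
    by_contra hne
    rcases hX f hf.1 g hg.1 hne with h | h
    · have := h y
      rw [hf.2, hg.2] at this
      exact lt_irrefl _ this
    · have := h y
      rw [hf.2, hg.2] at this
      exact lt_irrefl _ this
  have hcl : closure X ⊆ closure L ∪ M ∪ closure H := by
    have h1 : X ⊆ L ∪ M ∪ H := by
      intro w hw
      rcases lt_trichotomy (w y) x with h | h | h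
      · exact Or.inl (Or.inl ⟨hw, h⟩)
      · exact Or.inl (Or.inr ⟨hw, h⟩)
      · exact Or.inr ⟨hw, h⟩
    refine (closure_mono h1).trans ?_
    rw [closure_union, closure_union, hMs.isClosed.closure_eq]
  have hLs : {f ∈ closure L | f y = x}.Subsingleton := by
    have key : ∀ f ∈ closure L, f y = x → ∀ w ∈ L, ∀ t, w t ≤ f t := by
      intro f hf hfy w hw t
      have hO : IsOpen {g : C(Icc (0 : ℝ) 1, ℝ) | w y < g y} :=
        isOpen_lt continuous_const (d1_ev y)
      have hf2 := d1_inter hf hO (show w y < f y by rw [hfy]; exact hw.2)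
      exact d1_ge w hf2 (fun g hg t => (hord w hw.1 g hg.1.1 hg.2 t).le) t
    intro f hf g hg
    ext t
    exact le_antisymm (d1_le g hf.1 (key g hg.1 hg.2) t) (d1_le f hg.1 (key f hf.1 hf.2) t)
  have hHs : {f ∈ closure H | f y = x}.Subsingleton := by
    have key : ∀ f ∈ closure H, f y = x → ∀ w ∈ H, ∀ t, f t ≤ w t := by
      intro f hf hfy w hw t
      have hO : IsOpen {g : C(Icc (0 : ℝ) 1, ℝ) | g y < w y} :=
        isOpen_lt (d1_ev y) continuous_const
      have hf2 := d1_inter hf hO (show f y < w y by rw [hfy]; exact hw.2)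
      exact d1_le w hf2 (fun g hg t => (hord g hg.1.1 w hw.1 hg.2 t).le) t
    intro f hf g hg
    ext t
    exact le_antisymm (d1_ge f hg.1 (key f hf.1 hf.2) t) (d1_ge g hf.1 (key g hg.1 hg.2) t)
  refine ((hLs.finite.union hMs.finite).union hHs.finite).subset ?_
  rintro f ⟨hf, hfy⟩
  rcases hcl hf with (h | h) | h
  · exact Or.inl (Or.inl ⟨h, hfy⟩)
  · exact Or.inl (Or.inr h)
  · exact Or.inr ⟨h, hfy⟩

/-- PROOF.  Let `K = closure X`: a closed subset of the Polish space `C(Icc 0 1, ℝ)`, not countable, so there is a measurable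
equivalence `e : Icc (0:ℝ) 1 ≃ᵐ K` (`PolishSpace.measurableEquivOfNotCountable`; give `C(Icc 0 1, ℝ)` and `K` their Borel
σ-algebras with `borel`).  `Ω = Icc 0 1` with `volume` (a probability measure), `u ω y = e ω (projection of y)`
(`ContinuousMap` evaluated at `Set.projIcc 0 1`).  `Lam` with `R = max 0 (bound of E)`: `leaf`: the Lipschitz condition and
`pt f y ∈ E` (closed) pass to the closure; `meas`: evaluation is continuous; `ord`: passes to the closure (a weak inequality; for two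
elements of the closure take approximating sequences, one of the two alternatives holds infinitely often); `null`: by
`d1_finite` and injectivity of `e` the set is finite.  Apply `c3_not`. -/
theorem d1_not {E : Set ℂ} (hE : IsCompact E) {X : Set C(Icc (0 : ℝ) 1, ℝ)} (hc : ¬X.Countable)
    (hX : ∀ f ∈ X, ∀ g ∈ X, f ≠ g → (∀ y, f y < g y) ∨ (∀ y, g y < f y))
    (hl : ∀ f ∈ X, ∀ y y', |f y - f y'| ≤ 1 / 10 * |(y : ℝ) - y'|)
    (hs : ∀ f ∈ X, ∀ y : Icc (0 : ℝ) 1, (f y : ℂ) + (y : ℝ) * Complex.I ∈ E) :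
    ¬H51R.Removable E := by
  let _ : MeasurableSpace C(Icc (0 : ℝ) 1, ℝ) := borel _
  have : BorelSpace C(Icc (0 : ℝ) 1, ℝ) := ⟨rfl⟩
  set K : Set C(Icc (0 : ℝ) 1, ℝ) := closure X with hK
  have hKc : IsClosed K := isClosed_closure
  have : PolishSpace K := hKc.polishSpace
  have hnc : ¬Countable K := fun h => hc ((countable_coe_iff.1 h).mono subset_closure)
  have hncR : ¬Countable ℝ := not_countable
  obtain ⟨e⟩ : Nonempty (ℝ ≃ᵐ K) := ⟨PolishSpace.measurableEquivOfNotCountable hncR hnc⟩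
  set μ : Measure ℝ := volume.restrict (Icc (0 : ℝ) 1) with hμ
  have hμp : IsProbabilityMeasure μ := ⟨by
    rw [hμ, Measure.restrict_apply_univ, Real.volume_Icc]; simp⟩
  have hl' : ∀ f ∈ K, ∀ y y', |f y - f y'| ≤ 1 / 10 * |(y : ℝ) - y'| := by
    intro f hf y y'
    have hcl : IsClosed {w : C(Icc (0 : ℝ) 1, ℝ) | |w y - w y'| ≤ 1 / 10 * |(y : ℝ) - y'|} :=
      isClosed_le (((d1_ev y).sub
        (d1_ev y')).abs) continuous_const
    exact closure_minimal (fun w hw => hl w hw y y') hcl hf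
  have hs' : ∀ f ∈ K, ∀ y : Icc (0 : ℝ) 1, (f y : ℂ) + (y : ℝ) * Complex.I ∈ E := by
    intro f hf y
    have hcl : IsClosed {w : C(Icc (0 : ℝ) 1, ℝ) | (w y : ℂ) + (y : ℝ) * Complex.I ∈ E} := by
      refine hE.isClosed.preimage ?_
      exact (Complex.continuous_ofReal.comp (d1_ev y)).add
        continuous_const
    exact closure_minimal (fun w hw => hs w hw y) hcl hf
  have hord : ∀ f ∈ K, ∀ g ∈ K, (∀ y, f y ≤ g y) ∨ (∀ y, g y ≤ f y) := by
    intro f hf g hg
    have hcl : IsClosed ({p : C(Icc (0 : ℝ) 1, ℝ) × C(Icc (0 : ℝ) 1, ℝ) | ∀ y, p.1 y ≤ p.2 y} ∪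
        {p | ∀ y, p.2 y ≤ p.1 y}) := by
      have h1 : ∀ y, Continuous fun p : C(Icc (0 : ℝ) 1, ℝ) × C(Icc (0 : ℝ) 1, ℝ) => p.1 y :=
        fun y => (d1_ev y).comp continuous_fst
      have h2 : ∀ y, Continuous fun p : C(Icc (0 : ℝ) 1, ℝ) × C(Icc (0 : ℝ) 1, ℝ) => p.2 y :=
        fun y => (d1_ev y).comp continuous_snd
      refine IsClosed.union ?_ ?_
      · rw [ofPred_forall]
        exact isClosed_iInter fun y => isClosed_le (h1 y) (h2 y)
      · rw [ofPred_forall]
        exact isClosed_iInter fun y => isClosed_le (h2 y) (h1 y)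
    have h3 : X ×ˢ X ⊆ ({p : C(Icc (0 : ℝ) 1, ℝ) × C(Icc (0 : ℝ) 1, ℝ) | ∀ y, p.1 y ≤ p.2 y} ∪
        {p | ∀ y, p.2 y ≤ p.1 y}) := by
      rintro ⟨p, q⟩ ⟨hp, hq⟩
      by_cases hpq : p = q
      · left
        intro y
        change p y ≤ q y
        rw [hpq]
      · rcases hX p hp q hq hpq with h | h
        · exact Or.inl fun y => (h y).le
        · exact Or.inr fun y => (h y).le
    have h4 : (f, g) ∈ closure (X ×ˢ X) := by
      rw [closure_prod_eq]
      exact ⟨hf, hg⟩
    exact closure_minimal h3 hcl h4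
  obtain ⟨R, hR⟩ := isBounded_iff_forall_norm_le.1 hE.isBounded
  set u : ℝ → ℝ → ℝ := fun ω t => (e ω : C(Icc (0 : ℝ) 1, ℝ)) (projIcc 0 1 zero_le_one t) with hu
  have hu' : ∀ ω t (ht : t ∈ Icc (0 : ℝ) 1), u ω t = (e ω : C(Icc (0 : ℝ) 1, ℝ)) ⟨t, ht⟩ := by
    intro ω t ht
    rw [hu]
    simp only
    rw [projIcc_of_mem zero_le_one ht]
  have hlam : Lam μ (max R 0) u := by
    refine ⟨fun ω => ⟨fun y hy y' hy' => ?_, fun y hy => ?_⟩, fun y hy => ?_, fun ω ω' => ?_,
      fun y hy x => ?_⟩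
    · rw [hu' ω y hy, hu' ω y' hy']
      exact hl' _ (e ω).2 _ _
    · rw [hu' ω y hy]
      have h1 := hR _ (hs' _ (e ω).2 ⟨y, hy⟩)
      have h2 := (Complex.abs_re_le_norm _).trans h1
      simp at h2
      exact le_max_of_le_left h2
    · exact (d1_ev (projIcc 0 1 zero_le_one y)).measurable.comp
        (measurable_subtype_coe.comp e.measurable)
    · rcases hord _ (e ω).2 _ (e ω').2 with h | h
      · exact Or.inl fun y hy => by rw [hu' ω y hy, hu' ω' y hy]; exact h _
      · exact Or.inr fun y hy => by rw [hu' ω y hy, hu' ω' y hy]; exact h _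
    · have h1 : {ω | u ω y = x}.Finite := by
        have h2 := d1_finite hX ⟨y, hy⟩ x
        have h3 : InjOn (fun ω => (e ω : C(Icc (0 : ℝ) 1, ℝ))) {ω | u ω y = x} :=
          fun a _ b _ hab => e.injective (Subtype.val_injective hab)
        refine Finite.of_finite_image (h2.subset ?_) h3
        rintro _ ⟨ω, hω, rfl⟩
        refine ⟨(e ω).2, ?_⟩
        have h4 : u ω y = x := hω
        rwa [hu' ω y hy] at h4
      exact h1.measure_zero μ
  refine c3_not hlam (le_max_right _ _) hE.isClosed fun ω => ?_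
  rintro _ ⟨y, hy, rfl⟩
  unfold pt
  rw [hu' ω y hy]
  exact hs' _ (e ω).2 ⟨y, hy⟩

end H51L
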