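import Pool.Agent.Lib.H51L.D1

/-!
# H51L, chunk D2: flat arcs
-/

set_option autoImplicit false

namespace H51L

open Set Metric Topology Filter MeasureTheory

/-- the geometric part -/
theorem d2_curve {γ δ : ℂ} {u : ℝ → ℝ}
    (hu : ∀ y ∈ Icc (0 : ℝ) 1, ∀ y' ∈ Icc (0 : ℝ) 1, |u y - u y'| ≤ 1 / 20 * |y - y'|)
    (hγ : ‖γ - 5 / 2‖ ≤ 1 / 100) (hδ : ‖δ - (-γ * pt u (1 / 4) - Complex.I / 8)‖ ≤ 1 / 100) :
    ∃ u' : ℝ → ℝ,
      (∀ y ∈ Icc (0 : ℝ) 1, ∀ y' ∈ Icc (0 : ℝ) 1, |u' y - u' y'| ≤ 1 / 10 * |y - y'|) ∧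
      ∀ y ∈ Icc (0 : ℝ) 1, ∃ t ∈ Icc (0 : ℝ) 1, pt u' y = γ * pt u t + δ := by
  have hr : |γ.re - 5 / 2| ≤ 1 / 100 := by
    have := (Complex.abs_re_le_norm (γ - 5 / 2)).trans hγ
    have e : (γ - 5 / 2).re = γ.re - 5 / 2 := by
      rw [Complex.sub_re]
      norm_num
    rwa [e] at this
  have hi : |γ.im| ≤ 1 / 100 := by
    have := (Complex.abs_im_le_norm (γ - 5 / 2)).trans hγ
    have e : (γ - 5 / 2).im = γ.im := by
      rw [Complex.sub_im]
      norm_num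
    rwa [e] at this
  have hr' := abs_le.1 hr
  have hi' := abs_le.1 hi
  set m : ℝ → ℝ := fun t => γ.re * t + γ.im * u t + δ.im with hm
  have him : ∀ t, (γ * pt u t + δ).im = m t := by
    intro t
    simp [pt, hm]
  have hre : ∀ t, (γ * pt u t + δ).re = γ.re * u t - γ.im * t + δ.re := by
    intro t
    simp [pt]
  have hm14 : |m (1 / 4) + 1 / 8| ≤ 1 / 100 := by
    have := (Complex.abs_im_le_norm (δ - (-γ * pt u (1 / 4) - Complex.I / 8))).trans hδ
    have e : (δ - (-γ * pt u (1 / 4) - Complex.I / 8)).im = m (1 / 4) + 1 / 8 := by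
      have e1 : δ - (-γ * pt u (1 / 4) - Complex.I / 8) = (γ * pt u (1 / 4) + δ) + Complex.I / 8 := by
        ring
      rw [e1, Complex.add_im, him]
      congr 1
      rw [Complex.div_im]
      norm_num [Complex.normSq]
    rwa [e] at this
  have hm14' := abs_le.1 hm14
  have hinc : ∀ t ∈ Icc (0 : ℝ) 1, ∀ t' ∈ Icc (0 : ℝ) 1, 2.48 * |t - t'| ≤ |m t - m t'| := by
    intro t ht t' ht'
    have e1 : m t - m t' = γ.re * (t - t') + γ.im * (u t - u t') := by
      rw [hm]; ring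
    have e2 := hu t ht t' ht'
    have e3 : |γ.re * (t - t')| - |γ.im * (u t - u t')| ≤ |m t - m t'| := by
      rw [e1]
      have := abs_sub_abs_le_abs_sub (γ.re * (t - t')) (-(γ.im * (u t - u t')))
      rw [abs_neg, sub_neg_eq_add] at this
      exact this
    rw [abs_mul, abs_mul] at e3
    have e4 : |γ.im| * |u t - u t'| ≤ 1 / 100 * (1 / 20 * |t - t'|) :=
      mul_le_mul hi e2 (abs_nonneg _) (by norm_num)
    have e5 : 2.49 * |t - t'| ≤ |γ.re| * |t - t'| := by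
      refine mul_le_mul_of_nonneg_right ?_ (abs_nonneg _)
      rw [abs_of_nonneg (by linarith [hr'.1])]
      linarith [hr'.1]
    nlinarith [abs_nonneg (t - t')]
  have hm34 : 1 < m (3 / 4) := by
    have e1 : m (3 / 4) = m (1 / 4) + γ.re * (1 / 2) + γ.im * (u (3 / 4) - u (1 / 4)) := by
      rw [hm]; ring
    have e2 := hu (3 / 4) (by constructor <;> norm_num) (1 / 4) (by constructor <;> norm_num)
    have e3 : |γ.im * (u (3 / 4) - u (1 / 4))| ≤ 1 / 100 * (1 / 20 * |(3 / 4 : ℝ) - 1 / 4|) := by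
      rw [abs_mul]
      exact mul_le_mul hi e2 (abs_nonneg _) (by norm_num)
    have e4 : |(3 / 4 : ℝ) - 1 / 4| = 1 / 2 := by
      rw [abs_of_pos (by norm_num)]; norm_num
    rw [e4] at e3
    have e5 := (abs_le.1 e3).1
    rw [e1]
    linarith [hr'.1, hm14'.1]
  have huc : ContinuousOn u (Icc (0 : ℝ) 1) := by
    have : LipschitzOnWith (1 / 20) u (Icc (0 : ℝ) 1) := by
      refine LipschitzOnWith.of_dist_le_mul fun x hx y hy => ?_
      rw [Real.dist_eq, Real.dist_eq]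
      have := hu x hx y hy
      simpa using this
    exact this.continuousOn
  have hsub : Icc (1 / 4 : ℝ) (3 / 4) ⊆ Icc (0 : ℝ) 1 := Icc_subset_Icc (by norm_num) (by norm_num)
  have hmc : ContinuousOn m (Icc (1 / 4 : ℝ) (3 / 4)) := by
    have h1 := huc.mono hsub
    rw [hm]
    exact ((continuousOn_const.mul continuousOn_id).add (continuousOn_const.mul h1)).add
      continuousOn_const
  have hex : ∀ y : ℝ, ∃ t, y ∈ Icc (0 : ℝ) 1 → (t ∈ Icc (1 / 4 : ℝ) (3 / 4) ∧ m t = y) := by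
    intro y
    by_cases hy : y ∈ Icc (0 : ℝ) 1
    · have h1 := intermediate_value_Icc (by norm_num : (1 / 4 : ℝ) ≤ 3 / 4) hmc
      have h2 : y ∈ Icc (m (1 / 4)) (m (3 / 4)) := by
        constructor
        · linarith [hm14'.2, hy.1]
        · linarith [hy.2]
      obtain ⟨t, ht, hty⟩ := h1 h2
      exact ⟨t, fun _ => ⟨ht, hty⟩⟩
    · exact ⟨0, fun h => absurd h hy⟩
  choose T hT using hex
  refine ⟨fun y => γ.re * u (T y) - γ.im * T y + δ.re, ?_, ?_⟩
  · intro y hy y' hy'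
    obtain ⟨h1, h2⟩ := hT y hy
    obtain ⟨h3, h4⟩ := hT y' hy'
    have e1 := hinc _ (hsub h1) _ (hsub h3)
    rw [h2, h4] at e1
    have e2 := hu _ (hsub h1) _ (hsub h3)
    have e3 : (γ.re * u (T y) - γ.im * T y + δ.re) - (γ.re * u (T y') - γ.im * T y' + δ.re) =
        γ.re * (u (T y) - u (T y')) - γ.im * (T y - T y') := by ring
    simp only
    rw [e3]
    have e4 : |γ.re * (u (T y) - u (T y'))| ≤ 2.51 * (1 / 20 * |T y - T y'|) := by
      rw [abs_mul]
      refine mul_le_mul ?_ e2 (abs_nonneg _) (by norm_num)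
      rw [abs_of_nonneg (by linarith [hr'.1])]
      linarith [hr'.2]
    have e5 : |γ.im * (T y - T y')| ≤ 1 / 100 * |T y - T y'| := by
      rw [abs_mul]
      exact mul_le_mul_of_nonneg_right hi (abs_nonneg _)
    have e6 := abs_sub (γ.re * (u (T y) - u (T y'))) (γ.im * (T y - T y'))
    nlinarith [abs_nonneg (T y - T y')]
  · intro y hy
    obtain ⟨h1, h2⟩ := hT y hy
    refine ⟨T y, hsub h1, ?_⟩
    apply Complex.ext
    · rw [hre]
      simp [pt]
    · rw [him, h2]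
      simp [pt]

/-- A flat arc contains a leaf for parameters in a countable set.  PROOF.  Let `α, β, u` be as in `FlatArc`.  Choose
`α' ∈ ℚ(i)`, `α' ≠ 0`, such that `γ = α / α'` is close to `5/2` (`|γ - 5/2| ≤ 1/100`), and `β' ∈ ℚ(i)` such that `δ = (β - β') / α'` is close
to `- γ pt u (1/4) - i / 8` (within `1/100`).  The curve `t ↦ γ pt u t + δ`, `t ∈ [1/4, 3/4]`, has imaginary part
`m t = γ.re t + γ.im u t + δ.im` which is strictly increasing with `m t' - m t ≥ (γ.re - |γ.im| / 20) (t' - t)`, `m (1/4) < 0`,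
`m (3/4) > 1`.  So for `y ∈ [0, 1]` there is a unique `t y` with `m (t y) = y` (intermediate value theorem), and `u' y =` the real part
`γ.re u (t y) - γ.im t y + δ.re` satisfies `|u' y - u' y'| ≤ (γ.re / 20 + |γ.im|) / (γ.re - |γ.im| / 20) |y - y'| ≤ |y - y'| / 10`.
`α' * pt u' y + β' = α * pt u (t y) + β ∈ F`. -/
theorem d2_rational : ∃ Q : Set (ℂ × ℂ), Q.Countable ∧ (∀ p ∈ Q, p.1 ≠ 0) ∧
    ∀ F : Set ℂ, FlatArc F → ∃ p ∈ Q, ∃ u : ℝ → ℝ,
      (∀ y ∈ Icc (0 : ℝ) 1, ∀ y' ∈ Icc (0 : ℝ) 1, |u y - u y'| ≤ 1 / 10 * |y - y'|) ∧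
      ∀ y ∈ Icc (0 : ℝ) 1, p.1 * pt u y + p.2 ∈ F := by
  obtain ⟨D, hDc, hDd⟩ := TopologicalSpace.exists_countable_dense ℂ
  refine ⟨{p : ℂ × ℂ | p.1 ∈ D ∧ p.2 ∈ D ∧ p.1 ≠ 0}, ?_, fun p hp => hp.2.2, ?_⟩
  · exact (hDc.prod hDc).mono (fun p hp => Set.mem_prod.2 ⟨hp.1, hp.2.1⟩)
  · rintro F ⟨α, β, u, hα, hu, hF⟩
    -- choice of `α'`
    have h52 : (2 / 5 * α : ℂ) ≠ 0 := mul_ne_zero (by norm_num) hα
    have hcont : ContinuousAt (fun x : ℂ => α / x) (2 / 5 * α) :=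
      continuousAt_const.div continuousAt_id h52
    have hval : α / (2 / 5 * α) = 5 / 2 := by
      field_simp
    have hev : ∀ᶠ x in 𝓝 (2 / 5 * α), ‖α / x - 5 / 2‖ < 1 / 100 ∧ x ≠ 0 := by
      refine Filter.Eventually.and ?_ ?_
      · have := Metric.continuousAt_iff'.1 hcont (1 / 100) (by norm_num)
        filter_upwards [this] with x hx
        rw [hval, dist_eq_norm] at hx
        exact hx
      · exact isOpen_ne.mem_nhds h52
    obtain ⟨U, hU, hUo, hmem⟩ := _root_.eventually_nhds_iff.1 hev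
    obtain ⟨α', hα'D, hα'U⟩ := hDd.exists_mem_open hUo ⟨_, hmem⟩
    obtain ⟨hγ, hα'0⟩ := hU α' (by first | exact hα'U | exact hα'D)
    have hpos : 0 < ‖α'‖ / 100 := by
      have := norm_pos_iff.2 hα'0
      positivity
    set δ₀ : ℂ := -(α / α') * pt u (1 / 4) - Complex.I / 8 with hδ₀
    obtain ⟨β', h1, h2⟩ := hDd.exists_mem_open (isOpen_ball (x := β - α' * δ₀) (ε := ‖α'‖ / 100))
      ⟨_, mem_ball_self hpos⟩
    have hβD : β' ∈ D := by first | exact h1 | exact h2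
    have hβb : β' ∈ ball (β - α' * δ₀) (‖α'‖ / 100) := by first | exact h2 | exact h1
    have hδ : ‖(β - β') / α' - δ₀‖ ≤ 1 / 100 := by
      have e1 : (β - β') / α' - δ₀ = -(β' - (β - α' * δ₀)) / α' := by
        field_simp
        ring
      rw [e1, norm_div, norm_neg, div_le_iff₀ (norm_pos_iff.2 hα'0)]
      rw [mem_ball, dist_eq_norm] at hβb
      linarith
    obtain ⟨u', hu', hc⟩ := d2_curve hu hγ.le hδ
    refine ⟨(α', β'), ⟨by first | exact hα'D | exact hα'U, hβD, hα'0⟩, u', hu', ?_⟩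
    intro y hy
    obtain ⟨t, ht, hpt⟩ := hc y hy
    have e : α' * pt u' y + β' = α * pt u t + β := by
      rw [hpt]
      field_simp
      ring
    show α' * pt u' y + β' ∈ F
    rw [e]
    exact hF t ht

/-- Uncountably many disjoint flat arcs.  PROOF.  By `d2_rational` and countability of `Q` there is `p ∈ Q` such that uncountably many
`F ∈ 𝓕` contain the arc `p.1 * pt u_F y + p.2`.  `E' = {z | p.1 * z + p.2 ∈ E}` is compact, and removable if `E` is
(`H51R.e1_affine` with `a = p.1⁻¹`).  `X = {u_F restricted to Icc 0 1}` (continuous since Lipschitz) is not countable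
(`F ↦ u_F` is injective because the `F` are disjoint), and two different elements have disjoint graphs, so their difference has no
zero on the connected set `Icc 0 1` and constant sign.  Apply `d1_not`. -/
theorem d2_not {E : Set ℂ} (hE : IsCompact E) {𝓕 : Set (Set ℂ)} (hc : ¬𝓕.Countable)
    (hd : 𝓕.PairwiseDisjoint id) (hf : ∀ F ∈ 𝓕, FlatArc F ∧ F ⊆ E) : ¬H51R.Removable E := by
  intro hrem
  obtain ⟨Q, hQc, hQ0, hQ⟩ := d2_rational
  -- the classes
  set P : ℂ × ℂ → Set (Set ℂ) := fun p => {F | F ∈ 𝓕 ∧ ∃ f : C(Icc (0 : ℝ) 1, ℝ),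
    (∀ y y', |f y - f y'| ≤ 1 / 10 * |(y : ℝ) - y'|) ∧
    ∀ y : Icc (0 : ℝ) 1, p.1 * ((f y : ℂ) + (y : ℝ) * Complex.I) + p.2 ∈ F} with hP
  have hcov : 𝓕 ⊆ ⋃ p ∈ Q, P p := by
    intro F hF
    obtain ⟨p, hp, u, hu, hFu⟩ := hQ F (hf F hF).1
    rw [mem_iUnion₂]
    have hlip : LipschitzOnWith (1 / 10) u (Icc (0 : ℝ) 1) := by
      refine LipschitzOnWith.of_dist_le_mul fun x hx y hy => ?_
      rw [Real.dist_eq, Real.dist_eq]
      have := hu x hx y hy
      simpa using this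
    refine ⟨p, hp, hF, ⟨fun y => u y, hlip.continuousOn.domRestrict⟩, ?_, ?_⟩
    · intro y y'
      exact hu y y.2 y' y'.2
    · intro y
      have := hFu y y.2
      unfold pt at this
      exact this
  have hex : ∃ p ∈ Q, ¬ (P p).Countable := by
    by_contra hcon
    push Not at hcon
    exact hc ((hQc.biUnion hcon).mono hcov)
  obtain ⟨p, hpQ, hPc⟩ := hex
  have hp0 := hQ0 p hpQ
  have hch : ∀ F : Set ℂ, ∃ f : C(Icc (0 : ℝ) 1, ℝ), F ∈ P p →
      (∀ y y', |f y - f y'| ≤ 1 / 10 * |(y : ℝ) - y'|) ∧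
      ∀ y : Icc (0 : ℝ) 1, p.1 * ((f y : ℂ) + (y : ℝ) * Complex.I) + p.2 ∈ F := by
    intro F
    by_cases hF : F ∈ P p
    · obtain ⟨_, f, h1, h2⟩ := hF
      exact ⟨f, fun _ => ⟨h1, h2⟩⟩
    · exact ⟨0, fun h => absurd h hF⟩
  choose Φ hΦ using hch
  have hne : ∀ F ∈ P p, ∀ G ∈ P p, F ≠ G → ∀ y, Φ F y ≠ Φ G y := by
    intro F hF G hG hFG y hy
    have h1 := (hΦ F hF).2 y
    have h2 := (hΦ G hG).2 y
    rw [hy] at h1
    exact Set.disjoint_left.1 (hd hF.1 hG.1 hFG) h1 h2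
  have hinj : InjOn Φ (P p) := by
    intro F hF G hG hFG
    by_contra hcon
    exact hne F hF G hG hcon ⟨0, le_rfl, zero_le_one⟩ (by rw [hFG])
  have hXc : ¬ (Φ '' P p).Countable := fun h =>
    hPc (Set.countable_of_injective_of_countable_image hinj h)
  have hcomp : IsCompact ((fun z => p.1⁻¹ * z + -p.1⁻¹ * p.2) '' E) :=
    hE.image (by fun_prop)
  refine d1_not hcomp hXc ?_ ?_ ?_ (H51R.e1_affine hrem (inv_ne_zero hp0) (-p.1⁻¹ * p.2))
  · rintro _ ⟨F, hF, rfl⟩ _ ⟨G, hG, rfl⟩ hFG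
    have hFG' : F ≠ G := fun h => hFG (by rw [h])
    have hn := hne F hF G hG hFG'
    have : PreconnectedSpace (Icc (0 : ℝ) 1) := Subtype.preconnectedSpace isPreconnected_Icc
    by_contra hcon
    push Not at hcon
    obtain ⟨⟨a, ha⟩, ⟨b, hb⟩⟩ := hcon
    obtain ⟨x, hx⟩ := intermediate_value_univ₂ (a := b) (b := a) (Φ F).continuous (Φ G).continuous hb ha
    exact hn x hx
  · rintro _ ⟨F, hF, rfl⟩ y y'
    exact (hΦ F hF).1 y y'
  · rintro _ ⟨F, hF, rfl⟩ y
    refine ⟨p.1 * ((Φ F y : ℂ) + (y : ℝ) * Complex.I) + p.2, (hf F hF.1).2 ((hΦ F hF).2 y), ?_⟩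
    simp only
    rw [mul_add, inv_mul_cancel_left₀ hp0]
    ring

/-- PROOF.  `α = b - a` divided by `i`, `u = 0`. -/
theorem d2_segment {a c : ℂ} (h : a ≠ c) : FlatArc (segment ℝ a c) := by
  refine ⟨(c - a) / Complex.I, a, fun _ => 0, ?_, ?_, ?_⟩
  · exact div_ne_zero (sub_ne_zero.2 (Ne.symm h)) Complex.I_ne_zero
  · intro y _ y' _
    simp only [sub_self, abs_zero]
    positivity
  · intro y hy
    rw [segment_eq_image]
    refine ⟨y, hy, ?_⟩
    simp only [pt, Complex.real_smul]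
    push_cast
    field_simp
    ring

end H51L
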