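import Mathlib

/-!
# Lag threshold: definitions
-/

open Filter

namespace H51L

/-- The law of large numbers. -/
def LLN (x : ℕ → Bool) : Prop :=
  Tendsto (fun m : ℕ => (((Finset.range m).filter (fun j => x j = true)).card : ℝ) / (m : ℝ)) atTop
    (nhds (1 / 2 : ℝ))

/-- The Kolmogorov-Loveland rule `f` is run on the sequence `X`: `pos k` is the `k`-th inspected place and
`sel k` tells whether its bit is selected. The run never ends, no place is inspected twice, and infinitely many bits are
selected. The argument of `f` is the list of the bits read so far, in the order of inspection. -/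
structure Run (f : List Bool →. ℕ × Bool) (X : ℕ → Bool) (pos : ℕ → ℕ) (sel : ℕ → Bool) : Prop where
  step : ∀ k : ℕ, f (List.ofFn (fun i : Fin k => X (pos i))) = Part.some (pos k, sel k)
  inj : Function.Injective pos
  inf : Set.Infinite {k : ℕ | sel k = true}

/-- The selected subsequence, in the order of inspection. -/
noncomputable def selSeq (X : ℕ → Bool) (pos : ℕ → ℕ) (sel : ℕ → Bool) : ℕ → Bool :=
  fun j => X (pos (Nat.nth (fun k => sel k = true) j))

/-- `X` is KL-stochastic. -/
def KL (X : ℕ → Bool) : Prop :=
  ∀ f : List Bool →. ℕ × Bool, Partrec f → ∀ pos : ℕ → ℕ, ∀ sel : ℕ → Bool,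
    Run f X pos sel → LLN (selSeq X pos sel)

/-- `B` is computably stochastic (Church random): for every total computable `D`, the bits `B n` such that
`D (B 0, ..., B (n - 1))` is true satisfy, if there are infinitely many, the law of large numbers. -/
def Church (B : ℕ → Bool) : Prop :=
  ∀ D : List Bool → Bool, Computable D → Set.Infinite {n : ℕ | D (List.ofFn fun i : Fin n => B i) = true} →
    LLN fun j => B (Nat.nth (fun n => D (List.ofFn fun i : Fin n => B i) = true) j)

/-- The lag at step `k`: the largest distance by which a place inspected before step `k` exceeds the place `pos k`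
inspected at step `k` (`0` if none does). -/
def lagAt (pos : ℕ → ℕ) (k : ℕ) : ℕ := (Finset.range k).sup fun i => pos i - pos k

/-- **Lag at most `h`**: whenever the place `n` is selected, no place beyond `n + h n` has been inspected before. -/
def LagLe (h : ℕ → ℕ) (pos : ℕ → ℕ) (sel : ℕ → Bool) : Prop :=
  ∀ k : ℕ, sel k = true → lagAt pos k ≤ h (pos k)

/-- **Lag essentially at most `h`**: for every `ε > 0` there is a constant `g` such that, for all large `m`, at most `ε m` of
the first `m` selected places `n` have lag more than `h n + g`. -/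
def LagEss (h : ℕ → ℕ) (pos : ℕ → ℕ) (sel : ℕ → Bool) : Prop :=
  ∀ ε : ℝ, 0 < ε → ∃ g m₀ : ℕ, ∀ m ≥ m₀,
    (((Finset.range m).filter fun j =>
      h (pos (Nat.nth (fun k => sel k = true) j)) + g < lagAt pos (Nat.nth (fun k => sel k = true) j)).card : ℝ) ≤ ε * m

/-- The rule reads the places in increasing order and selects every bit that it reads. -/
def Direct (pos : ℕ → ℕ) (sel : ℕ → Bool) : Prop := StrictMono pos ∧ ∀ k : ℕ, sel k = true

/-- `B` is an infinite sequence selected from `A` by a partial computable rule. -/
def PSel (A B : ℕ → Bool) : Prop :=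
  ∃ f : List Bool →. ℕ × Bool, Partrec f ∧ ∃ (pos : ℕ → ℕ) (sel : ℕ → Bool), Run f A pos sel ∧ B = selSeq A pos sel

/-- `C` is an infinite sequence selected from `B` by a total computable rule whose run on `B` has the property `P`. -/
def TSel (P : (ℕ → ℕ) → (ℕ → Bool) → Prop) (B C : ℕ → Bool) : Prop :=
  ∃ r : List Bool → ℕ × Bool, Computable r ∧ ∃ (pos : ℕ → ℕ) (sel : ℕ → Bool),
    Run (fun w => Part.some (r w)) B pos sel ∧ P pos sel ∧ C = selSeq B pos sel

end H51L
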