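import Pool.Agent.Lib.H51L.D2
import Pool.Agent.Lib.H51R.E1
import Pool.Agent.Lib.H51S.S9

/-!
# H51L, chunk E1: compact sets with flat components
-/

set_option autoImplicit false

namespace H51L

open Set Metric Topology Filter MeasureTheory

/-- Baire.  PROOF.  Let `N = U \ interior {z | DifferentiableAt ℂ f z}` and suppose `z₀ ∈ N`.  `U` is open in the plane, so locally
compact, and `N` is closed in `U`, so `N` is a Baire space; it is the union of the sets `N ∩ A n`, closed in `N`, so some
`N ∩ A n` has an interior point relative to `N`: there is an open set `W ⊆ U` with `W ∩ N ≠ ∅`, `W ∩ N ⊆ A n`.  `f` is differentiable on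
`W \ A n`, so on `W` (`A n` is locally removable), so `W ∩ N = ∅`, contradiction. -/
theorem e1_baire {A : ℕ → Set ℂ} (hA : ∀ n, IsClosed (A n)) (h : ∀ n, H51R.LocRemovable (A n))
    {U : Set ℂ} (hU : IsOpen U) {f : ℂ → ℂ} (hc : ContinuousOn f U) (hi : InjOn f U)
    (hN : U \ interior {z | DifferentiableAt ℂ f z} ⊆ ⋃ n, A n) : DifferentiableOn ℂ f U := by
  set D : Set ℂ := interior {z | DifferentiableAt ℂ f z} with hD
  set N : Set ℂ := U \ D with hNdef
  by_contra hcon
  have hne : N.Nonempty := by
    by_contra hemp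
    rw [not_nonempty_iff_eq_empty] at hemp
    apply hcon
    intro z hz
    have hzD : z ∈ D := by
      by_contra hzD
      have : z ∈ N := ⟨hz, hzD⟩
      rw [hemp] at this
      exact this
    have h1 : z ∈ {z | DifferentiableAt ℂ f z} := interior_subset hzD
    exact DifferentiableAt.differentiableWithinAt h1
  have hlc : IsLocallyClosed N := by
    rw [hNdef, sdiff_eq]
    exact hU.isLocallyClosed.inter isOpen_interior.isClosed_compl.isLocallyClosed
  have : LocallyCompactSpace N := hlc.locallyCompactSpace
  have : Nonempty N := hne.to_subtype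
  obtain ⟨n, x, hx⟩ := nonempty_interior_of_iUnion_of_closed (X := N)
    (f := fun n => (Subtype.val ⁻¹' A n : Set N)) (fun n => (hA n).preimage continuous_subtype_val) (by
      rw [eq_univ_iff_forall]
      intro y
      obtain ⟨n, hn⟩ := mem_iUnion.1 (hN y.2)
      exact mem_iUnion.2 ⟨n, hn⟩)
  obtain ⟨V, hVs, hVo, hxV⟩ := mem_interior.1 hx
  obtain ⟨W', hW'o, hW'⟩ := isOpen_induced_iff.1 hVo
  have hxW : (x : ℂ) ∈ W' := by
    have : x ∈ Subtype.val ⁻¹' W' := by rw [hW']; exact hxV
    exact this
  have hsub : ∀ z, z ∈ W' → z ∈ N → z ∈ A n := by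
    intro z hz hzN
    have h1 : (⟨z, hzN⟩ : N) ∈ V := by rw [← hW']; exact hz
    exact hVs h1
  set W := W' ∩ U with hW
  have hWo : IsOpen W := hW'o.inter hU
  have h1 : DifferentiableOn ℂ f (W \ A n) := by
    intro z hz
    have hzD : z ∈ D := by
      by_contra hzD
      exact hz.2 (hsub z hz.1.1 ⟨hz.1.2, hzD⟩)
    have h1 : z ∈ {z | DifferentiableAt ℂ f z} := interior_subset hzD
    exact DifferentiableAt.differentiableWithinAt h1
  have h2 := h n W hWo f (hc.mono inter_subset_right) (hi.mono inter_subset_right) h1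
  have h3 : (x : ℂ) ∈ D := by
    rw [hD, mem_interior]
    exact ⟨W, fun z hz => h2.differentiableAt (hWo.mem_nhds hz), hWo, hxW, x.2.1⟩
  exact x.2.2 h3

/-- PROOF.  `e1_baire`: `U \ ⋃ n, A n` is open and `f` is differentiable on it. -/
theorem e1_countable {A : ℕ → Set ℂ} (hA : ∀ n, IsClosed (A n)) (h : ∀ n, H51R.LocRemovable (A n))
    (hE : IsClosed (⋃ n, A n)) : H51R.LocRemovable (⋃ n, A n) := by
  intro U hU f hc hi hd
  refine e1_baire hA h hU hc hi fun z hz => ?_
  by_contra hcon
  apply hz.2
  have ho : IsOpen (U \ ⋃ n, A n) := hU.sdiff hE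
  rw [mem_interior]
  exact ⟨_, fun w hw => hd.differentiableAt (ho.mem_nhds hw), ho, hz.1, hcon⟩

theorem e1_mono {E F : Set ℂ} (h : H51R.LocRemovable F) (hEF : E ⊆ F) : H51R.LocRemovable E :=
  fun U hU f hc hi hd => h U hU f hc hi (hd.mono (sdiff_subset_sdiff_right hEF))

theorem e1_closed {A : Set ℂ} (hA : IsClosed A) (z : ℂ) : IsClosed (connectedComponentIn A z) := by
  by_cases hz : z ∈ A
  · rw [connectedComponentIn_eq_image hz]
    exact hA.isClosedEmbedding_subtypeVal.isClosedMap _ isClosed_connectedComponent
  · rw [connectedComponentIn_eq_empty hz]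
    exact isClosed_empty

/-- Compact removable sets with countably many non-degenerate components, each of them locally removable, are locally
removable.  PROOF.  Let `U`, `f` be as in `LocRemovable A`, `N = U \ interior {z | DifferentiableAt ℂ f z}`; `N ⊆ A` (`A` is closed).  If
`z ∈ N` and the component `connectedComponentIn A z` is a point, `H51S.s9_point` shows that `f` is differentiable near `z`, so
`z ∉ N`, contradiction.  So every `z ∈ N` lies in one of the countably many non-degenerate
components, which are closed; `e1_baire` (enumerate them; the empty set is locally removable). -/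
theorem e1_mix {A : Set ℂ} (hA : IsCompact A) (hr : H51R.Removable A)
    (hc : {C | ∃ z ∈ A, C = connectedComponentIn A z ∧ C.Nontrivial}.Countable)
    (hl : ∀ z ∈ A, (connectedComponentIn A z).Nontrivial →
      H51R.LocRemovable (connectedComponentIn A z)) : H51R.LocRemovable A := by
  intro U hU f hcf hi hd
  obtain ⟨B, hB⟩ := (hc.insert ∅).exists_eq_range (insert_nonempty _ _)
  have hBcl : ∀ n, IsClosed (B n) := by
    intro n
    have h1 : B n ∈ insert ∅ {C | ∃ z ∈ A, C = connectedComponentIn A z ∧ C.Nontrivial} := by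
      rw [hB]; exact mem_range_self n
    rcases h1 with h1 | ⟨z, -, h1, -⟩
    · rw [h1]; exact isClosed_empty
    · rw [h1]; exact e1_closed hA.isClosed z
  have hBl : ∀ n, H51R.LocRemovable (B n) := by
    intro n
    have h1 : B n ∈ insert ∅ {C | ∃ z ∈ A, C = connectedComponentIn A z ∧ C.Nontrivial} := by
      rw [hB]; exact mem_range_self n
    rcases h1 with h1 | ⟨z, hz, h1, h2⟩
    · rw [h1]
      intro U' _ f' _ _ hd'
      rwa [sdiff_empty] at hd'
    · rw [h1] at h2 ⊢
      exact hl z hz h2
  refine e1_baire hBcl hBl hU hcf hi fun z hz => ?_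
  have hzA : z ∈ A := by
    by_contra hcon
    apply hz.2
    have ho : IsOpen (U \ A) := hU.sdiff hA.isClosed
    rw [mem_interior]
    exact ⟨_, fun w hw => hd.differentiableAt (ho.mem_nhds hw), ho, hz.1, hcon⟩
  by_cases hs : (connectedComponentIn A z).Subsingleton
  · exfalso
    apply hz.2
    rw [mem_interior_iff_mem_nhds]
    exact H51S.s9_point hA hr hU hcf hi hd hz.1 hs
  · rw [not_subsingleton_iff] at hs
    have h1 : connectedComponentIn A z ∈
        insert ∅ {C | ∃ z ∈ A, C = connectedComponentIn A z ∧ C.Nontrivial} :=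
      Or.inr ⟨z, hzA, rfl, hs⟩
    rw [hB] at h1
    obtain ⟨n, hn⟩ := h1
    exact mem_iUnion.2 ⟨n, hn ▸ mem_connectedComponentIn hzA⟩

/-- PROOF.  The non-degenerate components of `A` are pairwise disjoint and each contains a flat arc, so they are countably many
(`d2_not`); `e1_mix`. -/
theorem e1_flat {A : Set ℂ} (hA : IsCompact A) (hr : H51R.Removable A)
    (hl : ∀ z ∈ A, (connectedComponentIn A z).Nontrivial →
      H51R.LocRemovable (connectedComponentIn A z) ∧ FlatArc (connectedComponentIn A z)) :
    H51R.LocRemovable A := by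
  refine e1_mix hA hr ?_ fun z hz hn => (hl z hz hn).1
  by_contra hcon
  refine d2_not hA hcon ?_ ?_ hr
  · rintro _ ⟨z, hz, rfl, -⟩ _ ⟨w, hw, rfl, -⟩ hne
    rw [Function.onFun, id, id, disjoint_left]
    intro x hx hx'
    exact hne ((connectedComponentIn_eq hx).trans (connectedComponentIn_eq hx').symm)
  · rintro _ ⟨z, hz, rfl, hn⟩
    exact ⟨(hl z hz hn).2, connectedComponentIn_subset A z⟩

/-- The main theorem: the local and the global notion agree for every compact set which is a countable union of compact sets all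
of whose non-degenerate components are locally removable and contain a flat arc.  PROOF.  `A n ⊆ E` is removable, so locally
removable (`e1_flat`); `e1_countable`; the converse is `H51R.e1_loc`. -/
theorem e1_main {E : Set ℂ} (hE : IsCompact E) {A : ℕ → Set ℂ} (hA : ∀ n, IsCompact (A n))
    (hU : E = ⋃ n, A n)
    (hl : ∀ n, ∀ z ∈ A n, (connectedComponentIn (A n) z).Nontrivial →
      H51R.LocRemovable (connectedComponentIn (A n) z) ∧ FlatArc (connectedComponentIn (A n) z)) :
    H51R.Removable E ↔ H51R.LocRemovable E := by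
  refine ⟨fun hr => ?_, H51R.e1_loc⟩
  rw [hU]
  refine e1_countable (fun n => (hA n).isClosed) (fun n => ?_) (hU ▸ hE.isClosed)
  exact e1_flat (hA n) (H51R.e1_mono hr (hU ▸ subset_iUnion A n)) (hl n)

end H51L
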