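import Pool.Agent.Lib.H51L.D0

/-!
# H51L, chunk E2: C¹ arcs are flat somewhere
-/

set_option autoImplicit false

namespace H51L

open Set Metric Topology Filter MeasureTheory

/-- the mean value inequality for the rescaled curve -/
theorem e2_mv {γ γ' : ℝ → ℂ} (hd : ∀ t ∈ Icc (0 : ℝ) 1, HasDerivWithinAt γ (γ' t) (Icc 0 1) t)
    {w : ℂ} (hw : w ≠ 0) {τ : ℝ} (hτ : 0 < τ) (hJ : Icc (1 / 2 - τ) (1 / 2 + τ) ⊆ Icc (0 : ℝ) 1)
    (hb : ∀ t ∈ Icc (1 / 2 - τ) (1 / 2 + τ), ‖γ' t / w - 1‖ ≤ 1 / 50)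
    {s t : ℝ} (hs : s ∈ Icc (1 / 2 - τ) (1 / 2 + τ)) (ht : t ∈ Icc (1 / 2 - τ) (1 / 2 + τ)) :
    ‖(γ t * (Complex.I / (w * τ)) - (t : ℂ) * (Complex.I / τ)) -
      (γ s * (Complex.I / (w * τ)) - (s : ℂ) * (Complex.I / τ))‖ ≤ 1 / (50 * τ) * |t - s| := by
  have hτc : (τ : ℂ) ≠ 0 := by exact_mod_cast hτ.ne'
  have key : ∀ x ∈ Icc (1 / 2 - τ) (1 / 2 + τ),
      HasDerivWithinAt (fun r : ℝ => γ r * (Complex.I / (w * τ)) - (r : ℂ) * (Complex.I / τ))
        (γ' x * (Complex.I / (w * τ)) - 1 * (Complex.I / τ)) (Icc (1 / 2 - τ) (1 / 2 + τ)) x := by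
    intro x hx
    have h1 := ((hd x (hJ hx)).mono hJ).mul_const (Complex.I / (w * τ))
    have h2 : HasDerivWithinAt (fun r : ℝ => (r : ℂ)) 1 (Icc (1 / 2 - τ) (1 / 2 + τ)) x :=
      (Complex.ofRealCLM.hasDerivAt (x := x)).hasDerivWithinAt
    exact h1.sub (h2.mul_const (Complex.I / τ))
  have bd : ∀ x ∈ Icc (1 / 2 - τ) (1 / 2 + τ),
      ‖γ' x * (Complex.I / (w * τ)) - 1 * (Complex.I / τ)‖ ≤ 1 / (50 * τ) := by
    intro x hx
    have h1 : γ' x * (Complex.I / (w * τ)) - 1 * (Complex.I / τ) =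
        (γ' x / w - 1) * (Complex.I / τ) := by
      field_simp
    rw [h1, norm_mul, norm_div, Complex.norm_I, Complex.norm_real, Real.norm_of_nonneg hτ.le]
    calc ‖γ' x / w - 1‖ * (1 / τ) ≤ 1 / 50 * (1 / τ) :=
          mul_le_mul_of_nonneg_right (hb x hx) (by positivity)
      _ = 1 / (50 * τ) := by field_simp
  have := (convex_Icc (1 / 2 - τ) (1 / 2 + τ)).norm_image_sub_le_of_norm_hasDerivWithin_le
    key bd hs ht
  simpa [Real.norm_eq_abs] using this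

/-- PROOF.  `w₀ = γ' (1/2) ≠ 0`; choose `τ ∈ (0, 1/4)` with `‖γ' t / w₀ - 1‖ ≤ 1/50` for `t ∈ J = [1/2 - τ, 1/2 + τ]`.  The curve
`z t = (γ t - γ (1/2 - τ)) * i / (w₀ τ)` on `J` has `z' t = i γ' t / (w₀ τ)`, `‖z' t - i / τ‖ ≤ 1 / (50 τ)`; so by the mean value
inequality applied to `z t - i t / τ`: `‖z t - z s - i (t - s) / τ‖ ≤ |t - s| / (50 τ)`.  So `(z t).im` is strictly increasing,
`(z t).im - (z s).im ≥ (49/50) (t - s) / τ`, from `0` to a value `≥ 98/50 > 1`, and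
`|(z t).re - (z s).re| ≤ (1/50) |t - s| / τ ≤ (1/49) |(z t).im - (z s).im|`.  For `y ∈ [0, 1]` let `t y` be the unique `t ∈ J` with
`(z t).im = y` and `u y = (z (t y)).re`; `α = w₀ τ / i`, `β = γ (1/2 - τ)`. -/
theorem e2_flat {γ γ' : ℝ → ℂ} (hd : ∀ t ∈ Icc (0 : ℝ) 1, HasDerivWithinAt γ (γ' t) (Icc 0 1) t)
    (hc : ContinuousOn γ' (Icc 0 1)) (h0 : ∀ t ∈ Icc (0 : ℝ) 1, γ' t ≠ 0) :
    FlatArc (γ '' Icc 0 1) := by
  have hmid : (1 / 2 : ℝ) ∈ Icc (0 : ℝ) 1 := ⟨by norm_num, by norm_num⟩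
  set w : ℂ := γ' (1 / 2) with hw
  have hw0 : w ≠ 0 := h0 _ hmid
  -- choice of τ
  obtain ⟨τ, hτ, hτ4, hb⟩ : ∃ τ : ℝ, 0 < τ ∧ τ ≤ 1 / 4 ∧
      ∀ t ∈ Icc (1 / 2 - τ) (1 / 2 + τ), ‖γ' t / w - 1‖ ≤ 1 / 50 := by
    have h1 : ContinuousWithinAt (fun t => γ' t / w - 1) (Icc (0 : ℝ) 1) (1 / 2) :=
      ((hc _ hmid).div_const w).sub continuousWithinAt_const
    have h2 : ContinuousAt (fun t => γ' t / w - 1) (1 / 2 : ℝ) :=
      h1.continuousAt (Icc_mem_nhds (by norm_num) (by norm_num))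
    rw [Metric.continuousAt_iff] at h2
    obtain ⟨δ, hδ, h3⟩ := h2 (1 / 50) (by norm_num)
    refine ⟨min (δ / 2) (1 / 4), by positivity, min_le_right _ _, fun t ht => ?_⟩
    have h4 : |t - 1 / 2| ≤ min (δ / 2) (1 / 4) := by
      rw [abs_le]; constructor <;> linarith [ht.1, ht.2]
    have h5 : |t - 1 / 2| < δ := by
      have := min_le_left (δ / 2) (1 / 4 : ℝ)
      linarith
    have h6 := h3 (x := t) (by rw [Real.dist_eq]; exact h5)
    rw [← hw, div_self hw0, sub_self, dist_zero_right] at h6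
    exact h6.le
  have hJ : Icc (1 / 2 - τ) (1 / 2 + τ) ⊆ Icc (0 : ℝ) 1 := by
    intro x hx
    exact ⟨by linarith [hx.1], by linarith [hx.2]⟩
  have hτc : (τ : ℂ) ≠ 0 := by exact_mod_cast hτ.ne'
  set a : ℝ := 1 / 2 - τ with ha
  set c : ℝ := 1 / 2 + τ with hcdef
  have haJ : a ∈ Icc a c := ⟨le_refl _, by linarith⟩
  have hcJ : c ∈ Icc a c := ⟨by linarith, le_refl _⟩
  let z : ℝ → ℂ := fun t => (γ t - γ a) * (Complex.I / (w * τ))
  -- the inequality
  have hz : ∀ s ∈ Icc a c, ∀ t ∈ Icc a c,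
      ‖z t - z s - ((t - s : ℝ) : ℂ) * (Complex.I / τ)‖ ≤ 1 / (50 * τ) * |t - s| := by
    intro s hs t ht
    have := e2_mv hd hw0 hτ hJ hb hs ht
    have e : z t - z s - ((t - s : ℝ) : ℂ) * (Complex.I / τ) =
      (γ t * (Complex.I / (w * τ)) - (t : ℂ) * (Complex.I / τ)) -
      (γ s * (Complex.I / (w * τ)) - (s : ℂ) * (Complex.I / τ)) := by
      simp only [z]; push_cast; ring
    rw [e]; exact this
  have hre0 : ∀ r : ℝ, (((r : ℝ) : ℂ) * (Complex.I / τ)).re = 0 := by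
    intro r
    have : ((r : ℝ) : ℂ) * (Complex.I / τ) = ((r / τ : ℝ) : ℂ) * Complex.I := by
      push_cast; ring
    rw [this]; simp
  have him0 : ∀ r : ℝ, (((r : ℝ) : ℂ) * (Complex.I / τ)).im = r / τ := by
    intro r
    have : ((r : ℝ) : ℂ) * (Complex.I / τ) = ((r / τ : ℝ) : ℂ) * Complex.I := by
      push_cast; ring
    rw [this]; simp
  have hre : ∀ s ∈ Icc a c, ∀ t ∈ Icc a c, |(z t).re - (z s).re| ≤ 1 / 50 * (|t - s| / τ) := by
    intro s hs t ht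
    have h1 := (Complex.abs_re_le_norm _).trans (hz s hs t ht)
    rw [Complex.sub_re, Complex.sub_re, hre0, sub_zero] at h1
    calc _ ≤ _ := h1
      _ = 1 / 50 * (|t - s| / τ) := by field_simp
  have him : ∀ s ∈ Icc a c, ∀ t ∈ Icc a c,
      |(z t).im - (z s).im - (t - s) / τ| ≤ 1 / 50 * (|t - s| / τ) := by
    intro s hs t ht
    have h1 := (Complex.abs_im_le_norm _).trans (hz s hs t ht)
    rw [Complex.sub_im, Complex.sub_im, him0] at h1
    calc _ ≤ _ := h1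
      _ = 1 / 50 * (|t - s| / τ) := by field_simp
  have hza : z a = 0 := by simp [z]
  have hzc : ContinuousOn (fun t => (z t).im) (Icc a c) := by
    refine Complex.continuous_im.comp_continuousOn ?_
    have : ContinuousOn γ (Icc a c) := fun t ht => ((hd t (hJ ht)).continuousWithinAt).mono hJ
    exact (this.sub continuousOn_const).mul continuousOn_const
  have hc1 : 1 ≤ (z c).im := by
    have h1 := him a haJ c hcJ
    have h2 : c - a = 2 * τ := by rw [ha, hcdef]; ring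
    rw [hza, Complex.zero_im, sub_zero, h2, abs_of_pos (by positivity : (0 : ℝ) < 2 * τ)] at h1
    have h3 : 2 * τ / τ = 2 := by field_simp
    rw [h3] at h1
    have := (abs_le.1 h1).1
    linarith
  have hex : ∀ y : ℝ, ∃ t : ℝ, y ∈ Icc (0 : ℝ) 1 → t ∈ Icc a c ∧ (z t).im = y := by
    intro y
    by_cases hy : y ∈ Icc (0 : ℝ) 1
    · have hI := intermediate_value_Icc (show a ≤ c by linarith) hzc
      have hy' : y ∈ Icc (z a).im (z c).im := by
        rw [hza]; exact ⟨by simpa using hy.1, hy.2.trans hc1⟩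
      obtain ⟨t, ht, e⟩ := hI hy'
      exact ⟨t, fun _ => ⟨ht, e⟩⟩
    · exact ⟨0, fun h => absurd h hy⟩
  choose T hT using hex
  refine ⟨w * τ / Complex.I, γ a, fun y => (z (T y)).re, ?_, ?_, ?_⟩
  · exact div_ne_zero (mul_ne_zero hw0 hτc) Complex.I_ne_zero
  · intro y hy y' hy'
    obtain ⟨h1, h2⟩ := hT y hy
    obtain ⟨h1', h2'⟩ := hT y' hy'
    have h3 := hre _ h1' _ h1
    have h4 := him _ h1' _ h1
    rw [h2, h2'] at h4
    have h5 : |T y - T y'| / τ ≤ |y - y'| + 1 / 50 * (|T y - T y'| / τ) := by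
      have h6 : |(T y - T y') / τ| ≤ |y - y'| + |y - y' - (T y - T y') / τ| := by
        have := abs_sub_abs_le_abs_sub ((T y - T y') / τ) (y - y')
        rw [abs_sub_comm ((T y - T y') / τ) (y - y')] at this
        linarith
      rw [abs_div, abs_of_pos hτ] at h6
      linarith
    have h7 : 0 ≤ |y - y'| := abs_nonneg _
    show |(z (T y)).re - (z (T y')).re| ≤ 1 / 20 * |y - y'|
    linarith
  · intro y hy
    obtain ⟨h1, h2⟩ := hT y hy
    refine ⟨T y, hJ h1, ?_⟩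
    have e1 : pt (fun y => (z (T y)).re) y = z (T y) := by
      have h3 := Complex.re_add_im (z (T y))
      rw [h2] at h3
      unfold pt
      exact h3
    rw [e1]
    simp only [z]
    have hI := Complex.I_ne_zero
    field_simp
    ring

end H51L
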