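import Pool.Agent.Lib.H51R.D0

/-!
# H51L, chunk E3: Lipschitz curves are locally removable (Painleve)
-/

set_option autoImplicit false

namespace H51L

open Set Metric Topology Filter MeasureTheory
open scoped Interval

/-- the integral of `f` over the boundary of the rectangle `[a, b] × [s, t]` -/
noncomputable def rectI (f : ℂ → ℂ) (a b s t : ℝ) : ℂ :=
  (∫ x : ℝ in a..b, f (x + s * Complex.I)) - (∫ x : ℝ in a..b, f (x + t * Complex.I)) +
    Complex.I • (∫ y : ℝ in s..t, f (b + y * Complex.I)) -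
    Complex.I • (∫ y : ℝ in s..t, f (a + y * Complex.I))

theorem e3_swap1 (f : ℂ → ℂ) (a b s t : ℝ) : rectI f b a s t = - rectI f a b s t := by
  unfold rectI
  rw [intervalIntegral.integral_symm a b, intervalIntegral.integral_symm a b]
  ring

theorem e3_swap2 (f : ℂ → ℂ) (a b s t : ℝ) : rectI f a b t s = - rectI f a b s t := by
  unfold rectI
  rw [intervalIntegral.integral_symm s t, intervalIntegral.integral_symm s t]
  simp only [smul_neg]
  ring

theorem e3_deg1 (f : ℂ → ℂ) (a s t : ℝ) : rectI f a a s t = 0 := by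
  unfold rectI
  simp

theorem e3_deg2 (f : ℂ → ℂ) (a b s : ℝ) : rectI f a b s s = 0 := by
  unfold rectI
  simp

theorem e3_all {f : ℂ → ℂ} {U : Set ℂ}
    (h : ∀ a b s t : ℝ, a < b → s < t → Icc a b ×ℂ Icc s t ⊆ U → rectI f a b s t = 0)
    (a b s t : ℝ) (hU : [[a, b]] ×ℂ [[s, t]] ⊆ U) : rectI f a b s t = 0 := by
  have key : ∀ a b s t : ℝ, a < b → [[a, b]] ×ℂ [[s, t]] ⊆ U → rectI f a b s t = 0 := by
    intro a b s t hab hU
    rw [uIcc_of_le hab.le] at hU
    rcases lt_trichotomy s t with hst | hst | hst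
    · rw [uIcc_of_le hst.le] at hU
      exact h a b s t hab hst hU
    · rw [hst, e3_deg2]
    · rw [uIcc_of_ge hst.le] at hU
      rw [e3_swap2, h a b t s hab hst hU, neg_zero]
  rcases lt_trichotomy a b with hab | hab | hab
  · exact key a b s t hab hU
  · rw [hab, e3_deg1]
  · rw [e3_swap1, key b a s t hab (by rwa [uIcc_comm b a]), neg_zero]

theorem e3_hint {f : ℂ → ℂ} {a b s t : ℝ} (hf : ContinuousOn f (Icc a b ×ℂ Icc s t)) {y : ℝ}
    (hy : y ∈ Icc s t) {a' b' : ℝ} (ha' : a' ∈ Icc a b) (hb' : b' ∈ Icc a b) :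
    IntervalIntegrable (fun x : ℝ => f (x + y * Complex.I)) volume a' b' := by
  apply ContinuousOn.intervalIntegrable
  refine hf.comp (by fun_prop) ?_
  intro x hx
  rw [Complex.mem_reProdIm]
  have h1 : x ∈ Icc a b := by
    rcases le_total a' b' with h | h
    · rw [uIcc_of_le h] at hx
      exact ⟨ha'.1.trans hx.1, hx.2.trans hb'.2⟩
    · rw [uIcc_of_ge h] at hx
      exact ⟨hb'.1.trans hx.1, hx.2.trans ha'.2⟩
  simpa using ⟨h1, hy⟩

theorem e3_vint {f : ℂ → ℂ} {a b s t : ℝ} (hf : ContinuousOn f (Icc a b ×ℂ Icc s t)) {x : ℝ}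
    (hx : x ∈ Icc a b) {s' t' : ℝ} (hs' : s' ∈ Icc s t) (ht' : t' ∈ Icc s t) :
    IntervalIntegrable (fun y : ℝ => f (x + y * Complex.I)) volume s' t' := by
  apply ContinuousOn.intervalIntegrable
  refine hf.comp (by fun_prop) ?_
  intro y hy
  rw [Complex.mem_reProdIm]
  have h1 : y ∈ Icc s t := by
    rcases le_total s' t' with h | h
    · rw [uIcc_of_le h] at hy
      exact ⟨hs'.1.trans hy.1, hy.2.trans ht'.2⟩
    · rw [uIcc_of_ge h] at hy
      exact ⟨ht'.1.trans hy.1, hy.2.trans hs'.2⟩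
  simpa using ⟨hx, h1⟩

theorem e3_grid {a b : ℝ} (hab : a < b) {n : ℕ} (hn : 0 < n) {j : ℕ} (hj : j ≤ n) :
    a + j * ((b - a) / n) ∈ Icc a b := by
  have hn' : (0 : ℝ) < n := Nat.cast_pos.2 hn
  have h1 : (j : ℝ) ≤ n := Nat.cast_le.2 hj
  have h2 : 0 < (b - a) / n := div_pos (by linarith) hn'
  constructor
  · have : 0 ≤ (j : ℝ) * ((b - a) / n) := by positivity
    linarith
  · have : (j : ℝ) * ((b - a) / n) ≤ n * ((b - a) / n) := mul_le_mul_of_nonneg_right h1 h2.le
    have h3 : (n : ℝ) * ((b - a) / n) = b - a := by field_simp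
    linarith

theorem e3_near {a b x y M : ℝ} (hab : a < b) {n : ℕ} (hn : 0 < n) {i j : ℕ} {A : ℕ}
    (hA : M / (b - a) + 1 ≤ A)
    (h1 : a + i * ((b - a) / n) ≤ x) (h3 : y ≤ a + (j + 1) * ((b - a) / n))
    (hxy : |x - y| ≤ M / n) : i ≤ j + A := by
  have hn' : (0 : ℝ) < n := Nat.cast_pos.2 hn
  have hba : 0 < b - a := by linarith
  have h2 : 0 < (b - a) / n := div_pos hba hn'
  have h4 := (abs_le.1 hxy).2
  have h5 : ((i : ℝ) - j - 1) * ((b - a) / n) ≤ M / n := by nlinarith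
  have h6 : ((i : ℝ) - j - 1) ≤ M / (b - a) := by
    rw [le_div_iff₀ hba]
    have : ((i : ℝ) - j - 1) * (b - a) = ((i : ℝ) - j - 1) * ((b - a) / n) * n := by field_simp
    rw [this]
    calc ((i : ℝ) - j - 1) * ((b - a) / n) * n ≤ M / n * n := by gcongr
      _ = M := by field_simp
  have h7 : (i : ℝ) ≤ j + A := by linarith
  exact_mod_cast h7

/-- Morera.  PROOF.  As in `H51R.d2_line` (`Complex.IsConservativeOn.isExactOn_ball`,
`Complex.wedgeIntegral_add_wedgeIntegral_eq`); a rectangle with corners in arbitrary order reduces to `a ≤ b`, `s ≤ t` by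
`intervalIntegral.integral_symm`; degenerate rectangles have integral `0`. -/
theorem e3_morera {f : ℂ → ℂ} {U : Set ℂ} (hU : IsOpen U) (hc : ContinuousOn f U)
    (h : ∀ a b s t : ℝ, a < b → s < t → Icc a b ×ℂ Icc s t ⊆ U → rectI f a b s t = 0) :
    DifferentiableOn ℂ f U := by
  intro c hcU
  obtain ⟨r, hr, hrU⟩ := Metric.isOpen_iff.1 hU c hcU
  have h1 : Complex.IsConservativeOn f (ball c r) := by
    intro z w hzw
    rw [← add_eq_zero_iff_eq_neg, Complex.wedgeIntegral_add_wedgeIntegral_eq]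
    exact e3_all h z.re w.re z.im w.im (hzw.trans hrU)
  have h2 := h1.isExactOn_ball (hc.mono hrU)
  have h3 := h2.differentiableOn isOpen_ball
  exact ((h3 c (mem_ball_self hr)).differentiableAt (ball_mem_nhds c hr)).differentiableWithinAt

/-- Subdivision into `n * n` rectangles.  PROOF.  `intervalIntegral.sum_integral_adjacent_intervals` and telescoping sums. -/
theorem e3_subdiv {f : ℂ → ℂ} {a b s t : ℝ} (hab : a < b) (hst : s < t)
    (hf : ContinuousOn f (Icc a b ×ℂ Icc s t)) {n : ℕ} (hn : 0 < n) :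
    rectI f a b s t = ∑ j ∈ Finset.range n, ∑ k ∈ Finset.range n,
      rectI f (a + j * ((b - a) / n)) (a + (j + 1) * ((b - a) / n))
        (s + k * ((t - s) / n)) (s + (k + 1) * ((t - s) / n)) := by
  have hn' : (n : ℝ) ≠ 0 := by
    have : n ≠ 0 := hn.ne'
    exact_mod_cast this
  set X : ℕ → ℝ := fun j => a + j * ((b - a) / n) with hX
  set Y : ℕ → ℝ := fun k => s + k * ((t - s) / n) with hY
  have hX0 : X 0 = a := by simp [hX]
  have hXn : X n = b := by
    rw [hX]
    simp only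
    field_simp
    ring
  have hY0 : Y 0 = s := by simp [hY]
  have hYn : Y n = t := by
    rw [hY]
    simp only
    field_simp
    ring
  have hX1 : ∀ j : ℕ, a + ((j : ℝ) + 1) * ((b - a) / n) = X (j + 1) := by
    intro j; rw [hX]; push_cast; ring
  have hY1 : ∀ k : ℕ, s + ((k : ℝ) + 1) * ((t - s) / n) = Y (k + 1) := by
    intro k; rw [hY]; push_cast; ring
  have hXm : ∀ j ≤ n, X j ∈ Icc a b := fun j hj => e3_grid hab hn hj
  have hYm : ∀ k ≤ n, Y k ∈ Icc s t := fun k hk => e3_grid hst hn hk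
  have hH : ∀ y ∈ Icc s t, ∑ j ∈ Finset.range n, ∫ x in X j..X (j + 1), f (x + y * Complex.I) =
      ∫ x in a..b, f (x + y * Complex.I) := by
    intro y hy
    rw [intervalIntegral.sum_integral_adjacent_intervals (f := fun x : ℝ => f (x + y * Complex.I)),
      hX0, hXn]
    intro k hk
    exact e3_hint hf hy (hXm k hk.le) (hXm (k + 1) hk)
  have hV : ∀ x ∈ Icc a b, ∑ k ∈ Finset.range n, ∫ y in Y k..Y (k + 1), f (x + y * Complex.I) =
      ∫ y in s..t, f (x + y * Complex.I) := by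
    intro x hx
    rw [intervalIntegral.sum_integral_adjacent_intervals (f := fun y : ℝ => f (x + y * Complex.I)),
      hY0, hYn]
    intro k hk
    exact e3_vint hf hx (hYm k hk.le) (hYm (k + 1) hk)
  have hterm : ∀ j k : ℕ, rectI f (a + j * ((b - a) / n)) (a + (j + 1) * ((b - a) / n))
        (s + k * ((t - s) / n)) (s + (k + 1) * ((t - s) / n)) =
      ((∫ x in X j..X (j + 1), f (x + (Y k : ℝ) * Complex.I)) -
        (∫ x in X j..X (j + 1), f (x + (Y (k + 1) : ℝ) * Complex.I))) +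
      Complex.I * ((∫ y in Y k..Y (k + 1), f ((X (j + 1) : ℝ) + y * Complex.I)) -
        (∫ y in Y k..Y (k + 1), f ((X j : ℝ) + y * Complex.I))) := by
    intro j k
    rw [hX1, hY1]
    unfold rectI
    simp only [smul_eq_mul]
    ring
  simp only [hterm, Finset.sum_add_distrib]
  have e1 : ∑ j ∈ Finset.range n, ∑ k ∈ Finset.range n,
      ((∫ x in X j..X (j + 1), f (x + (Y k : ℝ) * Complex.I)) -
        (∫ x in X j..X (j + 1), f (x + (Y (k + 1) : ℝ) * Complex.I))) =
      (∫ x in a..b, f (x + (s : ℝ) * Complex.I)) - ∫ x in a..b, f (x + (t : ℝ) * Complex.I) := by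
    have : ∀ j ∈ Finset.range n, ∑ k ∈ Finset.range n,
      ((∫ x in X j..X (j + 1), f (x + (Y k : ℝ) * Complex.I)) -
        (∫ x in X j..X (j + 1), f (x + (Y (k + 1) : ℝ) * Complex.I))) =
        (∫ x in X j..X (j + 1), f (x + (s : ℝ) * Complex.I)) -
        ∫ x in X j..X (j + 1), f (x + (t : ℝ) * Complex.I) := by
      intro j _
      rw [Finset.sum_range_sub' (fun k => ∫ x in X j..X (j + 1), f (x + (Y k : ℝ) * Complex.I)),
        hY0, hYn]
    rw [Finset.sum_congr rfl this, Finset.sum_sub_distrib, hH s ⟨le_rfl, hst.le⟩,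
      hH t ⟨hst.le, le_rfl⟩]
  have e2 : ∑ j ∈ Finset.range n, ∑ k ∈ Finset.range n,
      Complex.I * ((∫ y in Y k..Y (k + 1), f ((X (j + 1) : ℝ) + y * Complex.I)) -
        (∫ y in Y k..Y (k + 1), f ((X j : ℝ) + y * Complex.I))) =
      Complex.I * ((∫ y in s..t, f ((b : ℝ) + y * Complex.I)) -
        ∫ y in s..t, f ((a : ℝ) + y * Complex.I)) := by
    rw [Finset.sum_comm]
    have : ∀ k ∈ Finset.range n, ∑ j ∈ Finset.range n,
      Complex.I * ((∫ y in Y k..Y (k + 1), f ((X (j + 1) : ℝ) + y * Complex.I)) -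
        (∫ y in Y k..Y (k + 1), f ((X j : ℝ) + y * Complex.I))) =
        Complex.I * ((∫ y in Y k..Y (k + 1), f ((b : ℝ) + y * Complex.I)) -
        (∫ y in Y k..Y (k + 1), f ((a : ℝ) + y * Complex.I))) := by
      intro k _
      rw [← Finset.mul_sum,
        Finset.sum_range_sub (fun j => ∫ y in Y k..Y (k + 1), f ((X j : ℝ) + y * Complex.I)),
        hX0, hXn]
    rw [Finset.sum_congr rfl this, ← Finset.mul_sum, Finset.sum_sub_distrib,
      hV b ⟨hab.le, le_rfl⟩, hV a ⟨le_rfl, hab.le⟩]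
  rw [e1, e2]
  unfold rectI
  simp only [smul_eq_mul]
  ring

/-- PROOF.  Subtract the constant `c` (its integral is `0`) and estimate the four integrals. -/
theorem e3_small {f : ℂ → ℂ} {a b s t ε : ℝ} (hab : a < b) (hst : s < t)
    (hf : ContinuousOn f (Icc a b ×ℂ Icc s t)) (c : ℂ) (hε : ∀ z ∈ Icc a b ×ℂ Icc s t, ‖f z - c‖ ≤ ε) :
    ‖rectI f a b s t‖ ≤ 2 * ((b - a) + (t - s)) * ε := by
  have hh : ∀ y ∈ Icc s t, ∃ Z : ℂ, (∫ x : ℝ in a..b, f (x + y * Complex.I)) = Z + (b - a : ℝ) • c ∧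
      ‖Z‖ ≤ ε * (b - a) := by
    intro y hy
    refine ⟨∫ x : ℝ in a..b, (f (x + y * Complex.I) - c), ?_, ?_⟩
    · rw [intervalIntegral.integral_sub (e3_hint hf hy ⟨le_rfl, hab.le⟩ ⟨hab.le, le_rfl⟩)
        intervalIntegrable_const, intervalIntegral.integral_const]
      ring
    · have := intervalIntegral.norm_integral_le_of_norm_le_const
        (a := a) (b := b) (f := fun x : ℝ => f (x + y * Complex.I) - c) (C := ε) (by
          intro x hx
          rw [uIoc_of_le hab.le] at hx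
          apply hε
          rw [Complex.mem_reProdIm]
          simpa using ⟨⟨hx.1.le, hx.2⟩, hy⟩)
      rwa [abs_of_pos (by linarith)] at this
  have hv : ∀ x ∈ Icc a b, ∃ Z : ℂ, (∫ y : ℝ in s..t, f (x + y * Complex.I)) = Z + (t - s : ℝ) • c ∧
      ‖Z‖ ≤ ε * (t - s) := by
    intro x hx
    refine ⟨∫ y : ℝ in s..t, (f (x + y * Complex.I) - c), ?_, ?_⟩
    · rw [intervalIntegral.integral_sub (e3_vint hf hx ⟨le_rfl, hst.le⟩ ⟨hst.le, le_rfl⟩)
        intervalIntegrable_const, intervalIntegral.integral_const]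
      ring
    · have := intervalIntegral.norm_integral_le_of_norm_le_const
        (a := s) (b := t) (f := fun y : ℝ => f (x + y * Complex.I) - c) (C := ε) (by
          intro y hy
          rw [uIoc_of_le hst.le] at hy
          apply hε
          rw [Complex.mem_reProdIm]
          simpa using ⟨hx, ⟨hy.1.le, hy.2⟩⟩)
      rwa [abs_of_pos (by linarith)] at this
  obtain ⟨Z1, h1, h1'⟩ := hh s ⟨le_rfl, hst.le⟩
  obtain ⟨Z2, h2, h2'⟩ := hh t ⟨hst.le, le_rfl⟩
  obtain ⟨Z3, h3, h3'⟩ := hv b ⟨hab.le, le_rfl⟩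
  obtain ⟨Z4, h4, h4'⟩ := hv a ⟨le_rfl, hab.le⟩
  have e : rectI f a b s t = Z1 - Z2 + Complex.I * Z3 - Complex.I * Z4 := by
    unfold rectI
    rw [h1, h2, h3, h4]
    simp only [smul_eq_mul]
    ring
  rw [e]
  calc ‖Z1 - Z2 + Complex.I * Z3 - Complex.I * Z4‖
      ≤ ‖Z1 - Z2 + Complex.I * Z3‖ + ‖Complex.I * Z4‖ := norm_sub_le _ _
    _ ≤ ‖Z1 - Z2‖ + ‖Complex.I * Z3‖ + ‖Complex.I * Z4‖ := by gcongr; exact norm_add_le _ _
    _ ≤ ‖Z1‖ + ‖Z2‖ + ‖Z3‖ + ‖Z4‖ := by
        rw [norm_mul, norm_mul, Complex.norm_I, one_mul, one_mul]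
        gcongr
        exact norm_sub_le _ _
    _ ≤ 2 * ((b - a) + (t - s)) * ε := by linarith

/-- PROOF.  `Complex.integral_boundary_rect_eq_zero_of_differentiableOn`. -/
theorem e3_zero {f : ℂ → ℂ} {a b s t : ℝ} (hab : a < b) (hst : s < t)
    (hf : DifferentiableOn ℂ f (Icc a b ×ℂ Icc s t)) : rectI f a b s t = 0 := by
  have h := Complex.integral_boundary_rect_eq_zero_of_differentiableOn f (⟨a, s⟩ : ℂ) (⟨b, t⟩ : ℂ)
    (by
      show DifferentiableOn ℂ f ([[a, b]] ×ℂ [[s, t]])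
      rw [uIcc_of_le hab.le, uIcc_of_le hst.le]
      exact hf)
  exact h

/-- Counting: at most `C n` of the `n * n` rectangles meet the curve.  PROOF.  Cover `[0, 1]` by `n` intervals of length `1 / n`; the
image of each has diameter at most `M / n`, so it meets at most `(M / (b - a) + 3) * (M / (t - s) + 3)` rectangles. -/
theorem e3_count {γ : ℝ → ℂ} {M : ℝ} (hM : 0 ≤ M)
    (hγ : ∀ x ∈ Icc (0 : ℝ) 1, ∀ y ∈ Icc (0 : ℝ) 1, ‖γ x - γ y‖ ≤ M * |x - y|) {a b s t : ℝ}
    (hab : a < b) (hst : s < t) :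
    ∃ C : ℝ, ∀ n : ℕ, 0 < n → ∀ S : Finset (ℕ × ℕ), S ⊆ Finset.range n ×ˢ Finset.range n →
      (∀ p ∈ S, ((γ '' Icc 0 1) ∩
        Icc (a + p.1 * ((b - a) / n)) (a + (p.1 + 1) * ((b - a) / n)) ×ℂ
          Icc (s + p.2 * ((t - s) / n)) (s + (p.2 + 1) * ((t - s) / n))).Nonempty) →
      (S.card : ℝ) ≤ C * n := by
  obtain ⟨A₀, hA₀⟩ := exists_nat_ge (M / (b - a) + 1)
  obtain ⟨B₀, hB₀⟩ := exists_nat_ge (M / (t - s) + 1)
  refine ⟨2 * ((2 * A₀ + 1) * (2 * B₀ + 1)), ?_⟩
  intro n hn S hS hmeet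
  have hn' : (0 : ℝ) < n := Nat.cast_pos.2 hn
  have hex : ∀ p : ℕ × ℕ, ∃ x : ℝ, p ∈ S → x ∈ Icc (0 : ℝ) 1 ∧
      γ x ∈ Icc (a + p.1 * ((b - a) / n)) (a + (p.1 + 1) * ((b - a) / n)) ×ℂ
          Icc (s + p.2 * ((t - s) / n)) (s + (p.2 + 1) * ((t - s) / n)) := by
    intro p
    by_cases hp : p ∈ S
    · obtain ⟨z, ⟨x, hx, rfl⟩, hz⟩ := hmeet p hp
      exact ⟨x, fun _ => ⟨hx, hz⟩⟩
    · exact ⟨0, fun h => absurd h hp⟩
  choose x hx using hex
  set i : ℕ × ℕ → ℕ := fun p => ⌊(n : ℝ) * x p⌋₊ with hi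
  have hfib : ∀ c ∈ S.image i, (S.filter fun p => i p = c).card ≤ (2 * A₀ + 1) * (2 * B₀ + 1) := by
    intro c hc
    obtain ⟨q, hq, hqc⟩ := Finset.mem_image.1 hc
    have hclose : ∀ p ∈ S, ∀ p' ∈ S, i p = c → i p' = c → ‖γ (x p) - γ (x p')‖ ≤ M / n := by
      intro p hp p' hp' e1 e2
      obtain ⟨h1, -⟩ := hx p hp
      obtain ⟨h2, -⟩ := hx p' hp'
      refine (hγ _ h1 _ h2).trans ?_
      have f1 : (c : ℝ) ≤ n * x p ∧ (n : ℝ) * x p < c + 1 := by
        rw [← e1]
        exact ⟨Nat.floor_le (mul_nonneg hn'.le h1.1), Nat.lt_floor_add_one _⟩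
      have f2 : (c : ℝ) ≤ n * x p' ∧ (n : ℝ) * x p' < c + 1 := by
        rw [← e2]
        exact ⟨Nat.floor_le (mul_nonneg hn'.le h2.1), Nat.lt_floor_add_one _⟩
      have f3 : |x p - x p'| ≤ 1 / n := by
        rw [le_div_iff₀ hn']
        have : |x p - x p'| * n = |n * x p - n * x p'| := by
          rw [← mul_sub, abs_mul, abs_of_pos hn', mul_comm]
        rw [this, abs_le]
        constructor <;> linarith [f1.1, f1.2, f2.1, f2.2]
      calc M * |x p - x p'| ≤ M * (1 / n) := mul_le_mul_of_nonneg_left f3 hM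
        _ = M / n := by ring
    have hsub : (S.filter fun p => i p = c) ⊆
        Finset.Icc (q.1 - A₀) (q.1 + A₀) ×ˢ Finset.Icc (q.2 - B₀) (q.2 + B₀) := by
      intro p hp
      rw [Finset.mem_filter] at hp
      have h1 := (hx p hp.1).2
      have h2 := (hx q hq).2
      rw [Complex.mem_reProdIm] at h1 h2
      have hc1 := hclose p hp.1 q hq hp.2 hqc
      have hre : |(γ (x p)).re - (γ (x q)).re| ≤ M / n := by
        have := (Complex.abs_re_le_norm (γ (x p) - γ (x q))).trans hc1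
        rwa [Complex.sub_re] at this
      have him : |(γ (x p)).im - (γ (x q)).im| ≤ M / n := by
        have := (Complex.abs_im_le_norm (γ (x p) - γ (x q))).trans hc1
        rwa [Complex.sub_im] at this
      have g1 := e3_near hab hn hA₀ h1.1.1 h2.1.2 hre
      have g2 := e3_near hab hn hA₀ h2.1.1 h1.1.2 (by rwa [abs_sub_comm] at hre)
      have g3 := e3_near hst hn hB₀ h1.2.1 h2.2.2 him
      have g4 := e3_near hst hn hB₀ h2.2.1 h1.2.2 (by rwa [abs_sub_comm] at him)
      rw [Finset.mem_product, Finset.mem_Icc, Finset.mem_Icc]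
      omega
    refine (Finset.card_le_card hsub).trans ?_
    rw [Finset.card_product, Nat.card_Icc, Nat.card_Icc]
    exact Nat.mul_le_mul (by omega) (by omega)
  have himg : (S.image i).card ≤ n + 1 := by
    have : S.image i ⊆ Finset.range (n + 1) := by
      intro c hc
      obtain ⟨q, hq, rfl⟩ := Finset.mem_image.1 hc
      rw [Finset.mem_range, Nat.lt_succ_iff]
      have h1 := (hx q hq).1
      rw [hi]
      simp only
      have : (n : ℝ) * x q ≤ n := by
        calc (n : ℝ) * x q ≤ n * 1 := mul_le_mul_of_nonneg_left h1.2 hn'.le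
          _ = n := mul_one _
      calc ⌊(n : ℝ) * x q⌋₊ ≤ ⌊(n : ℝ)⌋₊ := Nat.floor_mono this
        _ = n := Nat.floor_natCast n
    calc (S.image i).card ≤ (Finset.range (n + 1)).card := Finset.card_le_card this
      _ = n + 1 := Finset.card_range _
  have h1 := Finset.card_le_mul_card_image S _ hfib
  have h2 : S.card ≤ ((2 * A₀ + 1) * (2 * B₀ + 1)) * (2 * n) := by
    refine h1.trans (Nat.mul_le_mul le_rfl (himg.trans (by omega)))
  calc (S.card : ℝ) ≤ ((((2 * A₀ + 1) * (2 * B₀ + 1)) * (2 * n) : ℕ) : ℝ) := by exact_mod_cast h2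
    _ = _ := by push_cast; ring

/-- Lipschitz curves are locally removable.  PROOF.  Let `K = γ '' Icc 0 1` (compact), `U`, `f` as in `LocRemovable`.  By
`e3_morera` it is enough that `rectI f a b s t = 0` for `Icc a b ×ℂ Icc s t ⊆ U`.  `f` is uniformly continuous on this compact set.
By `e3_subdiv`, `e3_zero` for the small rectangles which do not meet `K` (`f` is differentiable in a neighbourhood of them), `e3_small`
for the at most `C n` others (`e3_count`): `‖rectI f a b s t‖ ≤ C n * 2 * ((b - a) / n + (t - s) / n) * ε` for `n` large. -/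
theorem e3_curve {γ : ℝ → ℂ} {M : ℝ}
    (hγ : ∀ x ∈ Icc (0 : ℝ) 1, ∀ y ∈ Icc (0 : ℝ) 1, ‖γ x - γ y‖ ≤ M * |x - y|) :
    H51R.LocRemovable (γ '' Icc 0 1) := by
  classical
  have hM : 0 ≤ M := by
    have := hγ 0 ⟨le_rfl, zero_le_one⟩ 1 ⟨zero_le_one, le_rfl⟩
    have h1 := norm_nonneg (γ 0 - γ 1)
    simp only [zero_sub, abs_neg, abs_one, mul_one] at this
    linarith
  intro U hU f hc _ hd
  refine e3_morera hU hc fun a b s t hab hst hR => ?_
  obtain ⟨C₀, hC₀⟩ := e3_count hM hγ hab hst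
  set C := max C₀ 0 with hC
  have hCpos : 0 ≤ C := le_max_right _ _
  set L := (b - a) + (t - s) with hL
  have hLpos : 0 < L := by linarith
  have hcR : ContinuousOn f (Icc a b ×ℂ Icc s t) := hc.mono hR
  have hcomp : IsCompact (Icc a b ×ℂ Icc s t) := isCompact_Icc.reProdIm isCompact_Icc
  have huc := hcomp.uniformContinuousOn_of_continuous hcR
  rw [Metric.uniformContinuousOn_iff] at huc
  rw [← norm_le_zero_iff]
  refine le_of_forall_pos_le_add fun δ hδ => ?_
  rw [zero_add]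
  set ε := δ / (2 * C * L + 1) with hε
  have hden : 0 < 2 * C * L + 1 := by positivity
  have hεpos : 0 < ε := div_pos hδ hden
  obtain ⟨η, hη, hunif⟩ := huc ε hεpos
  obtain ⟨n₀, hn₀⟩ := exists_nat_gt (L / η)
  have hn : 0 < n₀ := by
    have : (0 : ℝ) < n₀ := (div_pos hLpos hη).trans hn₀
    exact_mod_cast this
  set n := n₀ with hnn
  have hn' : (0 : ℝ) < n := Nat.cast_pos.2 hn
  have hLn : L / n < η := by
    rw [div_lt_iff₀ hn']
    rw [div_lt_iff₀ hη] at hn₀
    linarith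
  have hh : 0 < (b - a) / n := div_pos (by linarith) hn'
  have hl : 0 < (t - s) / n := div_pos (by linarith) hn'
  have hsum : (b - a) / n + (t - s) / n = L / n := by rw [hL]; ring
  set Rk : ℕ × ℕ → Set ℂ := fun p =>
    Icc (a + p.1 * ((b - a) / n)) (a + (p.1 + 1) * ((b - a) / n)) ×ℂ
          Icc (s + p.2 * ((t - s) / n)) (s + (p.2 + 1) * ((t - s) / n)) with hRk
  have hRsub : ∀ p ∈ Finset.range n ×ˢ Finset.range n, Rk p ⊆ Icc a b ×ℂ Icc s t := by
    intro p hp z hz
    rw [Finset.mem_product, Finset.mem_range, Finset.mem_range] at hp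
    rw [hRk] at hz
    simp only [Complex.mem_reProdIm] at hz ⊢
    have e1 := (e3_grid hab hn hp.1.le).1
    have e2 := (e3_grid hab hn (show p.1 + 1 ≤ n from hp.1)).2
    have e3 := (e3_grid hst hn hp.2.le).1
    have e4 := (e3_grid hst hn (show p.2 + 1 ≤ n from hp.2)).2
    push_cast at e2 e4
    exact ⟨⟨e1.trans hz.1.1, hz.1.2.trans e2⟩, ⟨e3.trans hz.2.1, hz.2.2.trans e4⟩⟩
  set g : ℕ × ℕ → ℂ := fun p => rectI f (a + p.1 * ((b - a) / n)) (a + (p.1 + 1) * ((b - a) / n))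
        (s + p.2 * ((t - s) / n)) (s + (p.2 + 1) * ((t - s) / n)) with hg
  set S := (Finset.range n ×ˢ Finset.range n).filter fun p => ((γ '' Icc 0 1) ∩ Rk p).Nonempty with hS
  have hlt1 : ∀ p : ℕ × ℕ, a + p.1 * ((b - a) / n) < a + (p.1 + 1) * ((b - a) / n) := by
    intro p; nlinarith
  have hlt2 : ∀ p : ℕ × ℕ, s + p.2 * ((t - s) / n) < s + (p.2 + 1) * ((t - s) / n) := by
    intro p; nlinarith
  have hzero : ∀ p ∈ Finset.range n ×ˢ Finset.range n, p ∉ S → ‖g p‖ = 0 := by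
    intro p hp hpS
    rw [norm_eq_zero, hg]
    refine e3_zero (hlt1 p) (hlt2 p) (hd.mono ?_)
    intro z hz
    refine ⟨hR (hRsub p hp hz), fun hzK => ?_⟩
    apply hpS
    rw [hS, Finset.mem_filter]
    exact ⟨hp, ⟨z, hzK, hz⟩⟩
  have hsmall : ∀ p ∈ S, ‖g p‖ ≤ 2 * (L / n) * ε := by
    intro p hp
    rw [hS, Finset.mem_filter] at hp
    have hcor : (⟨a + p.1 * ((b - a) / n), s + p.2 * ((t - s) / n)⟩ : ℂ) ∈ Rk p := by
      rw [hRk]
      simp only [Complex.mem_reProdIm]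
      exact ⟨⟨le_rfl, (hlt1 p).le⟩, ⟨le_rfl, (hlt2 p).le⟩⟩
    have h1 := e3_small (hlt1 p) (hlt2 p) (hcR.mono (hRsub p hp.1))
      (f ⟨a + p.1 * ((b - a) / n), s + p.2 * ((t - s) / n)⟩) (ε := ε) (by
        intro z hz
        rw [← dist_eq_norm]
        refine (hunif z (hRsub p hp.1 hz) _ (hRsub p hp.1 hcor) ?_).le
        rw [dist_eq_norm]
        refine lt_of_le_of_lt (Complex.norm_le_abs_re_add_abs_im _) ?_
        refine lt_of_le_of_lt ?_ hLn
        rw [← hsum]
        rw [Complex.mem_reProdIm] at hz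
        rw [Complex.sub_re, Complex.sub_im]
        simp only
        rw [abs_of_nonneg (by linarith [hz.1.1]), abs_of_nonneg (by linarith [hz.2.1])]
        have e1 := hz.1.2
        have e2 := hz.2.2
        nlinarith)
    refine h1.trans (le_of_eq ?_)
    rw [← hsum]
    ring
  have hcard : (S.card : ℝ) ≤ C * n := by
    refine (hC₀ n hn S (Finset.filter_subset _ _) ?_).trans ?_
    · intro p hp
      rw [hS, Finset.mem_filter] at hp
      exact hp.2
    · exact mul_le_mul_of_nonneg_right (le_max_left _ _) hn'.le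
  rw [e3_subdiv hab hst hcR hn]
  have e1 : ∑ j ∈ Finset.range n, ∑ k ∈ Finset.range n,
      rectI f (a + j * ((b - a) / n)) (a + (j + 1) * ((b - a) / n))
        (s + k * ((t - s) / n)) (s + (k + 1) * ((t - s) / n)) =
      ∑ p ∈ Finset.range n ×ˢ Finset.range n, g p := by
    rw [Finset.sum_product]
  rw [e1]
  calc ‖∑ p ∈ Finset.range n ×ˢ Finset.range n, g p‖
      ≤ ∑ p ∈ Finset.range n ×ˢ Finset.range n, ‖g p‖ := norm_sum_le _ _
    _ = ∑ p ∈ S, ‖g p‖ := by
        symm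
        exact Finset.sum_subset (Finset.filter_subset _ _) hzero
    _ ≤ ∑ p ∈ S, 2 * (L / n) * ε := Finset.sum_le_sum hsmall
    _ = S.card * (2 * (L / n) * ε) := by rw [Finset.sum_const, nsmul_eq_mul]
    _ ≤ C * n * (2 * (L / n) * ε) := mul_le_mul_of_nonneg_right hcard (by positivity)
    _ = 2 * C * L * ε := by field_simp
    _ ≤ (2 * C * L + 1) * ε := by nlinarith
    _ = δ := by rw [hε]; field_simp

end H51L
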