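import Pool.Agent.Lib.H51L.E1
import Pool.Agent.Lib.H51L.E2
import Pool.Agent.Lib.H51L.E3

/-!
# H51L, chunk E4: components which are regular curves
-/

set_option autoImplicit false

namespace H51L

open Set Metric Topology Filter MeasureTheory

/-- a regular curve: the image of `[0, 1]` under a continuously differentiable map with non-vanishing derivative (self-crossings
allowed) -/
def RegularCurve (C : Set ℂ) : Prop :=
  ∃ γ γ' : ℝ → ℂ, (∀ t ∈ Icc (0 : ℝ) 1, HasDerivWithinAt γ (γ' t) (Icc 0 1) t) ∧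
    ContinuousOn γ' (Icc 0 1) ∧ (∀ t ∈ Icc (0 : ℝ) 1, γ' t ≠ 0) ∧ C = γ '' Icc 0 1

/-- PROOF.  `γ'` is bounded on `[0, 1]`, so `γ` is Lipschitz (`Convex.norm_image_sub_le_of_norm_hasDerivWithin_le`); `e3_curve`. -/
theorem e4_loc {C : Set ℂ} (h : RegularCurve C) : H51R.LocRemovable C := by
  obtain ⟨γ, γ', hd, hc, -, rfl⟩ := h
  obtain ⟨M, hM⟩ := isCompact_Icc.exists_bound_of_continuousOn hc
  refine e3_curve (M := M) fun x hx y hy => ?_
  have h1 := (convex_Icc (0 : ℝ) 1).norm_image_sub_le_of_norm_hasDerivWithin_le hd hM hy hx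
  rwa [Real.norm_eq_abs] at h1

/-- PROOF.  `e2_flat`. -/
theorem e4_flat {C : Set ℂ} (h : RegularCurve C) : FlatArc C := by
  obtain ⟨γ, γ', hd, hc, h0, rfl⟩ := h
  exact e2_flat hd hc h0

theorem e4_flat_mono {C D : Set ℂ} (h : FlatArc C) (hCD : C ⊆ D) : FlatArc D := by
  obtain ⟨α, β, u, h0, h1, h2⟩ := h
  exact ⟨α, β, u, h0, h1, fun y hy => hCD (h2 y hy)⟩

theorem e4_closed {C : Set ℂ} (h : RegularCurve C) : IsClosed C := by
  obtain ⟨γ, γ', hd, -, -, rfl⟩ := h
  have hc : ContinuousOn γ (Icc 0 1) := fun t ht => (hd t ht).continuousWithinAt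
  exact (isCompact_Icc.image_of_continuousOn hc).isClosed

/-- Each component of `A n` is a point, or contains a regular curve and is covered by countably many regular curves.  PROOF.
`e1_main`: let `C` be a non-degenerate component, `C ⊆ ⋃ k, R k`, `R k` regular curves; `C = ⋃ k, C ∩ R k` is locally removable
(`e4_loc`, `e1_mono`, `e1_countable`; components of compact sets are closed, regular curves are compact). -/
theorem e4_main {E : Set ℂ} (hE : IsCompact E) {A : ℕ → Set ℂ} (hA : ∀ n, IsCompact (A n))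
    (hU : E = ⋃ n, A n)
    (hl : ∀ n, ∀ z ∈ A n, connectedComponentIn (A n) z = {z} ∨
      (∃ R, RegularCurve R ∧ R ⊆ connectedComponentIn (A n) z) ∧
        ∃ R : ℕ → Set ℂ, (∀ k, RegularCurve (R k)) ∧ connectedComponentIn (A n) z ⊆ ⋃ k, R k) :
    H51R.Removable E ↔ H51R.LocRemovable E := by
  refine e1_main hE hA hU fun n z hz hn => ?_
  rcases hl n z hz with h | ⟨⟨R, hR, hRC⟩, Rk, hRk, hcov⟩
  · exfalso
    rw [h] at hn
    exact not_nontrivial_singleton hn
  · refine ⟨?_, e4_flat_mono (e4_flat hR) hRC⟩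
    have hCcl : IsClosed (connectedComponentIn (A n) z) := e1_closed (hA n).isClosed z
    have heq : connectedComponentIn (A n) z = ⋃ k, connectedComponentIn (A n) z ∩ Rk k := by
      rw [← inter_iUnion]
      exact (inter_eq_left.2 hcov).symm
    rw [heq]
    refine e1_countable (fun k => hCcl.inter (e4_closed (hRk k)))
      (fun k => e1_mono (e4_loc (hRk k)) inter_subset_right) ?_
    rw [← heq]
    exact hCcl

end H51L
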