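import Pool.Agent.Lib.H51L.E4

/-!
# H51L, chunk E5: reduction to components
-/

set_option autoImplicit false

namespace H51L

open Set Metric Topology Filter MeasureTheory

/-- A removable compact set is locally removable if its non-degenerate components are, and if all but countably many of them
contain a flat arc. -/
theorem e5_flat {A : Set ℂ} (hA : IsCompact A) (hr : H51R.Removable A)
    (hl : ∀ z ∈ A, (connectedComponentIn A z).Nontrivial →
      H51R.LocRemovable (connectedComponentIn A z))
    (hc : {C | ∃ z ∈ A, C = connectedComponentIn A z ∧ C.Nontrivial ∧ ¬FlatArc C}.Countable) :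
    H51R.LocRemovable A := by
  refine e1_mix hA hr ?_ hl
  have h2 : {C | ∃ z ∈ A, C = connectedComponentIn A z ∧ FlatArc C}.Countable := by
    by_contra hcon
    refine d2_not hA hcon ?_ ?_ hr
    · rintro _ ⟨z, hz, rfl, -⟩ _ ⟨w, hw, rfl, -⟩ hne
      rw [Function.onFun, id, id, disjoint_left]
      intro x hx hx'
      exact hne ((connectedComponentIn_eq hx).trans (connectedComponentIn_eq hx').symm)
    · rintro _ ⟨z, hz, rfl, hn⟩
      exact ⟨hn, connectedComponentIn_subset A z⟩
  refine (hc.union h2).mono ?_
  rintro _ ⟨z, hz, rfl, hn⟩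
  by_cases hf : FlatArc (connectedComponentIn A z)
  · exact Or.inr ⟨z, hz, rfl, hf⟩
  · exact Or.inl ⟨z, hz, rfl, hn, hf⟩

/-- Let `E` be a countable union of compact sets `A n`, such that all but countably many non-degenerate components of each
`A n` contain a flat arc.  If the local and the global notion agree for the components of the sets `A n`, they agree for `E`. -/
theorem e5_main {E : Set ℂ} (hE : IsCompact E) {A : ℕ → Set ℂ} (hA : ∀ n, IsCompact (A n))
    (hU : E = ⋃ n, A n)
    (hl : ∀ n, ∀ z ∈ A n, (H51R.Removable (connectedComponentIn (A n) z) ↔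
      H51R.LocRemovable (connectedComponentIn (A n) z)))
    (hc : ∀ n, {C | ∃ z ∈ A n, C = connectedComponentIn (A n) z ∧ C.Nontrivial ∧
      ¬FlatArc C}.Countable) :
    H51R.Removable E ↔ H51R.LocRemovable E := by
  refine ⟨fun hr => ?_, H51R.e1_loc⟩
  rw [hU]
  refine e1_countable (fun n => (hA n).isClosed) (fun n => ?_) (hU ▸ hE.isClosed)
  have hrn : H51R.Removable (A n) := H51R.e1_mono hr (hU ▸ subset_iUnion A n)
  exact e5_flat (hA n) hrn
    (fun z hz _ => (hl n z hz).1 (H51R.e1_mono hrn (connectedComponentIn_subset (A n) z))) (hc n)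

end H51L
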