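import Pool.Agent.Lib.H51L.Sim

/-!
# Lag threshold: second rules of bounded lag
-/

open Filter

namespace H51L

section main

variable {r : List Bool → ℕ × Bool} {B : ℕ → Bool} {pos : ℕ → ℕ} {sel : ℕ → Bool} {g : ℕ}

open Classical in
theorem split_count (hstep : ∀ k, r (pre (fun i => B (pos i)) k) = (pos k, sel k)) (hinj : Function.Injective pos)
    (hlag : ∀ k, sel k = true → ∀ i < k, pos i ≤ pos k + g) (b : Bool) (N : ℕ) :
    ((Finset.range N).filter fun n => (∃ k, pos k = n ∧ sel k = true) ∧ B n = b).card =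
      ∑ t : Fin g → Bool, Nat.count (fun n => sim r g (List.ofFn t) (pre B n) = true ∧
        win B n (b :: List.ofFn t).length = b :: List.ofFn t) N := by
  rw [Finset.card_eq_sum_card_fiberwise (f := fun n => (fun i : Fin g => B (n + 1 + i))) (t := Finset.univ)
    (fun _ _ => Finset.mem_coe.2 (Finset.mem_univ _))]
  refine Finset.sum_congr rfl fun t _ => ?_
  rw [Nat.count_eq_card_filter_range, Finset.filter_filter]
  congr 1
  refine Finset.filter_congr fun n _ => ?_
  have h1 : List.ofFn (fun i : Fin g => B (n + 1 + i)) = win B (n + 1) g := ofFn_eq_pre (fun i => B (n + 1 + i)) g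
  have h2 : (b :: List.ofFn t).length = g + 1 := by simp
  rw [h2, win_cons, List.cons.injEq, ← h1]
  constructor
  · rintro ⟨⟨h3, h4⟩, h5⟩
    refine ⟨?_, h4, by rw [← h5]⟩
    rw [← h5, h1]
    exact (sim_spec hstep hinj hlag n).2 h3
  · rintro ⟨h3, h4, h5⟩
    have h6 : (fun i : Fin g => B (n + 1 + i)) = t := List.ofFn_injective h5
    refine ⟨⟨?_, h4⟩, h6⟩
    rw [← h6, h1] at h3
    exact (sim_spec hstep hinj hlag n).1 h3

open Classical in
theorem balance (hB : Mono B) (hr : Computable r)
    (hstep : ∀ k, r (pre (fun i => B (pos i)) k) = (pos k, sel k)) (hinj : Function.Injective pos)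
    (hlag : ∀ k, sel k = true → ∀ i < k, pos i ≤ pos k + g) (ε : ℝ) (hε : 0 < ε) :
    ∃ C : ℝ, 0 ≤ C ∧ ∀ N : ℕ,
      |(((Finset.range N).filter fun n => (∃ k, pos k = n ∧ sel k = true) ∧ B n = true).card : ℝ) -
        (((Finset.range N).filter fun n => ∃ k, pos k = n ∧ sel k = true).card : ℝ) / 2| ≤
      ε * (((Finset.range N).filter fun n => ∃ k, pos k = n ∧ sel k = true).card : ℝ) + C := by
  set c : ℝ := (1 / 2) ^ (g + 1) with hc
  have hc0 : 0 < c := by positivity
  set δ : ℝ := min (c / 2) (ε * c / 4) with hδ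
  have hδ0 : 0 < δ := lt_min (by positivity) (by positivity)
  have hδ1 : δ ≤ c / 2 := min_le_left _ _
  have hδ2 : δ ≤ ε * c / 4 := min_le_right _ _
  have hex : ∀ (b : Bool) (t : Fin g → Bool), ∃ C : ℝ, ∀ N : ℕ,
      |(Nat.count (fun n => sim r g (List.ofFn t) (pre B n) = true ∧
        win B n (b :: List.ofFn t).length = b :: List.ofFn t) N : ℝ) -
        c * (Nat.count (fun n => sim r g (List.ofFn t) (pre B n) = true) N : ℝ)| ≤
      δ * (Nat.count (fun n => sim r g (List.ofFn t) (pre B n) = true) N : ℝ) + C := by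
    intro b t
    obtain ⟨C, hC⟩ := small_win hB (computable_sim hr g (List.ofFn t)) (b :: List.ofFn t) δ hδ0
    refine ⟨C, fun N => ?_⟩
    have h1 := hC N
    have h2 : (b :: List.ofFn t).length = g + 1 := by simp
    rw [h2] at h1
    rw [h2, hc]
    exact h1
  choose C hC using hex
  have hC0 : ∀ b t, 0 ≤ C b t := by
    intro b t
    have h1 := hC b t 0
    simpa using h1
  refine ⟨(ε + 1) * ∑ t : Fin g → Bool, (C true t + C false t),
    mul_nonneg (by positivity) (Finset.sum_nonneg fun t _ => add_nonneg (hC0 _ _) (hC0 _ _)), fun N => ?_⟩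
  set O := ((Finset.range N).filter fun n => (∃ k, pos k = n ∧ sel k = true) ∧ B n = true).card with hO
  set Z := ((Finset.range N).filter fun n => (∃ k, pos k = n ∧ sel k = true) ∧ B n = false).card with hZ
  set T := ((Finset.range N).filter fun n => ∃ k, pos k = n ∧ sel k = true).card with hT
  have hOZ : T = O + Z := by
    rw [hT, hO, hZ, ← Finset.filter_filter, ← Finset.filter_filter (fun n => ∃ k, pos k = n ∧ sel k = true)]
    have e4 := Finset.card_filter_add_card_filter_not
      (s := (Finset.range N).filter fun n => ∃ k, pos k = n ∧ sel k = true) (fun n => B n = true)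
    simp only [Bool.not_eq_true] at e4
    exact e4.symm
  have hOs := split_count hstep hinj hlag true N
  have hZs := split_count hstep hinj hlag false N
  rw [← hO] at hOs
  rw [← hZ] at hZs
  have hkey : |(O : ℝ) - Z| ≤ ε * O + (ε + 2) * ∑ t : Fin g → Bool, (C true t + C false t) := by
    rw [hOs, hZs]
    push_cast
    rw [← Finset.sum_sub_distrib, Finset.mul_sum, Finset.mul_sum, ← Finset.sum_add_distrib]
    refine (Finset.abs_sum_le_sum_abs _ _).trans (Finset.sum_le_sum fun t _ => ?_)
    have h1 := hC true t N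
    have h2 := hC false t N
    have h3 := hC0 true t
    have h4 := hC0 false t
    set a := (Nat.count (fun n => sim r g (List.ofFn t) (pre B n) = true ∧
        win B n (true :: List.ofFn t).length = true :: List.ofFn t) N : ℝ)
    set b := (Nat.count (fun n => sim r g (List.ofFn t) (pre B n) = true ∧
        win B n (false :: List.ofFn t).length = false :: List.ofFn t) N : ℝ)
    set M := (Nat.count (fun n => sim r g (List.ofFn t) (pre B n) = true) N : ℝ)
    have hM : (0 : ℝ) ≤ M := Nat.cast_nonneg _
    rw [abs_le] at h1 h2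
    have h5 : δ * M ≤ c / 2 * M := mul_le_mul_of_nonneg_right hδ1 hM
    have h6 : c / 2 * M ≤ a + C true t := by
      have : c * M = c / 2 * M + c / 2 * M := by ring
      linarith [h1.1]
    have h7 : δ * M ≤ ε / 2 * (a + C true t) := by
      calc δ * M ≤ ε * c / 4 * M := mul_le_mul_of_nonneg_right hδ2 hM
        _ = ε / 2 * (c / 2 * M) := by ring
        _ ≤ ε / 2 * (a + C true t) := mul_le_mul_of_nonneg_left h6 (by positivity)
    have h8 : 0 ≤ ε * C true t := by positivity
    have h9 : 0 ≤ ε * C false t := by positivity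
    rw [abs_le]
    constructor <;> nlinarith [h1.1, h1.2, h2.1, h2.2]
  have hTr : (T : ℝ) = O + Z := by
    rw [hOZ]
    push_cast
    ring
  have hZ0 : (0 : ℝ) ≤ Z := Nat.cast_nonneg _
  have hO0 : (0 : ℝ) ≤ O := Nat.cast_nonneg _
  have hS0 : (0 : ℝ) ≤ ∑ t : Fin g → Bool, (C true t + C false t) :=
    Finset.sum_nonneg fun t _ => add_nonneg (hC0 _ _) (hC0 _ _)
  have h1 : (O : ℝ) - T / 2 = (O - Z) / 2 := by
    rw [hTr]
    ring
  rw [h1, abs_div, abs_of_pos (by norm_num : (0 : ℝ) < 2), hTr]
  have h2 : 0 ≤ ε * (Z : ℝ) := by positivity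
  have h3 : 0 ≤ ε * (O : ℝ) := by positivity
  have h4 : 0 ≤ ε * ∑ t : Fin g → Bool, (C true t + C false t) := by positivity
  linarith

/-- A total computable rule of bounded lag selects from `B` only sequences with the law of large numbers. -/
theorem lln_of_lag (hB : Mono B) (hr : Computable r) (h : Run (fun w => Part.some (r w)) B pos sel)
    (hlag : ∀ k, sel k = true → ∀ i < k, pos i ≤ pos k + g) : LLN (selSeq B pos sel) := by
  classical
  have hstep : ∀ k, r (pre (fun i => B (pos i)) k) = (pos k, sel k) := by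
    intro k
    have h1 := h.step k
    rw [ofFn_eq_pre (fun i => B (pos i)) k] at h1
    exact Part.some_inj.1 h1
  set q : ℕ → ℕ := fun j => pos (Nat.nth (fun k => sel k = true) j) with hq
  have hnth : StrictMono (Nat.nth (fun k => sel k = true)) := Nat.nth_strictMono h.inf
  have hqi : Function.Injective q := h.inj.comp hnth.injective
  have hqs : ∀ n, (∃ k, pos k = n ∧ sel k = true) ↔ ∃ j, q j = n := by
    intro n
    constructor
    · rintro ⟨k, hk, hs⟩
      refine ⟨Nat.count (fun k => sel k = true) k, ?_⟩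
      simp only [hq]
      rw [Nat.nth_count (p := fun k => sel k = true) hs, hk]
    · rintro ⟨j, hj⟩
      exact ⟨_, hj, Nat.nth_mem_of_infinite h.inf j⟩
  have hql : ∀ i j, i < j → q i ≤ q j + g := by
    intro i j hij
    exact hlag _ (Nat.nth_mem_of_infinite h.inf j) _ (hnth hij)
  show Tendsto (fun m : ℕ => (((Finset.range m).filter (fun j => B (q j) = true)).card : ℝ) / (m : ℝ)) atTop
    (nhds (1 / 2 : ℝ))
  rw [Metric.tendsto_atTop]
  intro δ hδ
  obtain ⟨C, hC0, hC⟩ := balance hB hr hstep h.inj hlag (δ / 2) (by positivity)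
  set K : ℝ := δ / 2 * (g + 1) + C + (g + 1) with hK
  have hK0 : 0 ≤ K := by positivity
  obtain ⟨m0, hm0⟩ := exists_nat_gt (K / (δ / 2))
  refine ⟨max m0 1, fun m hm => ?_⟩
  have hm1 : 1 ≤ m := (le_max_right _ _).trans hm
  have hmpos : (0 : ℝ) < m := by exact_mod_cast hm1
  obtain ⟨i0, hi0, hmax⟩ := Finset.exists_max_image (Finset.range m) q ⟨0, Finset.mem_range.2 (by omega)⟩
  rw [Finset.mem_range] at hi0
  set N := q i0 + 1 with hN
  have hCN := hC N
  set O := ((Finset.range N).filter fun n => (∃ k, pos k = n ∧ sel k = true) ∧ B n = true) with hO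
  set T := ((Finset.range N).filter fun n => ∃ k, pos k = n ∧ sel k = true) with hT
  set F := (Finset.range m).image q with hF
  have hFT : F ⊆ T := by
    intro x hx
    obtain ⟨j, hj, rfl⟩ := Finset.mem_image.1 hx
    rw [hT, Finset.mem_filter, Finset.mem_range]
    exact ⟨Nat.lt_succ_of_le (hmax j hj), (hqs _).2 ⟨j, rfl⟩⟩
  have hTF : T ⊆ F ∪ Finset.Ico (N - (g + 1)) N := by
    intro n hn
    rw [hT, Finset.mem_filter, Finset.mem_range] at hn
    obtain ⟨j, rfl⟩ := (hqs n).1 hn.2
    rw [Finset.mem_union]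
    by_cases hj : j < m
    · left
      exact Finset.mem_image_of_mem _ (Finset.mem_range.2 hj)
    · right
      have h1 := hql i0 j (by omega)
      rw [Finset.mem_Ico]
      omega
  have hFcard : F.card = m := by
    rw [hF, Finset.card_image_of_injective _ hqi, Finset.card_range]
  have hIco : (Finset.Ico (N - (g + 1)) N).card ≤ g + 1 := by
    rw [Nat.card_Ico]
    omega
  have hones : ((Finset.range m).filter (fun j => B (q j) = true)).card = (F.filter fun n => B n = true).card := by
    rw [hF, Finset.filter_image, Finset.card_image_of_injective _ hqi]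
  have c1 : m ≤ T.card := hFcard ▸ Finset.card_le_card hFT
  have c2 : T.card ≤ m + (g + 1) := by
    refine (Finset.card_le_card hTF).trans ((Finset.card_union_le _ _).trans ?_)
    rw [hFcard]
    omega
  have hOT : O = T.filter fun n => B n = true := by
    rw [hO, hT, Finset.filter_filter]
  have c3 : (F.filter fun n => B n = true).card ≤ O.card := by
    rw [hOT]
    exact Finset.card_le_card (Finset.filter_subset_filter _ hFT)
  have c4 : O.card ≤ (F.filter fun n => B n = true).card + (g + 1) := by
    rw [hOT]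
    have h1 : T.filter (fun n => B n = true) ⊆ (F.filter fun n => B n = true) ∪ Finset.Ico (N - (g + 1)) N := by
      intro n hn
      rw [Finset.mem_filter] at hn
      rcases Finset.mem_union.1 (hTF hn.1) with h2 | h2
      · exact Finset.mem_union_left _ (Finset.mem_filter.2 ⟨h2, hn.2⟩)
      · exact Finset.mem_union_right _ h2
    exact (Finset.card_le_card h1).trans ((Finset.card_union_le _ _).trans (by omega))
  rw [hones]
  set x := (F.filter fun n => B n = true).card with hx
  have d1 : (m : ℝ) ≤ T.card := by exact_mod_cast c1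
  have d2 : (T.card : ℝ) ≤ m + (g + 1) := by exact_mod_cast c2
  have d3 : (x : ℝ) ≤ O.card := by exact_mod_cast c3
  have d4 : (O.card : ℝ) ≤ x + (g + 1) := by exact_mod_cast c4
  have d5 : |(x : ℝ) - m / 2| ≤ δ / 2 * m + K := by
    have d6 : δ / 2 * (T.card : ℝ) ≤ δ / 2 * (m + (g + 1)) := mul_le_mul_of_nonneg_left d2 (by positivity)
    have hg0 : (0 : ℝ) ≤ g := Nat.cast_nonneg _
    rw [abs_le] at hCN ⊢
    constructor
    · rw [hK]
      linarith [hCN.1, hCN.2]
    · rw [hK]
      linarith [hCN.1, hCN.2]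
  have d7 : K < δ / 2 * m := by
    have h1 : (m0 : ℝ) ≤ m := by exact_mod_cast (le_max_left _ _).trans hm
    have h2 : K / (δ / 2) < m := lt_of_lt_of_le hm0 h1
    rw [div_lt_iff₀ (by positivity)] at h2
    linarith
  rw [Real.dist_eq]
  have h4 : (x : ℝ) / m - 1 / 2 = (x - (m : ℝ) / 2) / m := by field_simp
  rw [h4, abs_div, abs_of_pos hmpos, div_lt_iff₀ hmpos]
  linarith

end main

/-- **Bounded lag.** -/
theorem closure_of_bounded_lag {A : ℕ → Bool} (hA : KL A) {f : List Bool →. ℕ × Bool} (hf : Partrec f)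
    {pos : ℕ → ℕ} {sel : ℕ → Bool} (h : Run f A pos sel) {r : List Bool → ℕ × Bool} (hr : Computable r)
    {pos' : ℕ → ℕ} {sel' : ℕ → Bool} (h' : Run (fun w => Part.some (r w)) (selSeq A pos sel) pos' sel') {g : ℕ}
    (hlag : ∀ k, sel' k = true → ∀ i < k, pos' i ≤ pos' k + g) :
    LLN (selSeq (selSeq A pos sel) pos' sel') :=
  lln_of_lag (mono_of_KL hA hf h) hr h' hlag

end H51L
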