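import Pool.Agent.Lib.H51L.Defs

/-!
# Lag threshold: the closure under monotone second rules
-/

open Filter

namespace H51L

/-- The prefix of length `n`. -/
def pre (B : ℕ → Bool) (n : ℕ) : List Bool := (List.range n).map B

@[simp] theorem pre_length (B : ℕ → Bool) (n : ℕ) : (pre B n).length = n := by
  unfold pre
  rw [List.length_map, List.length_range]

theorem pre_succ (B : ℕ → Bool) (n : ℕ) : pre B (n + 1) = pre B n ++ [B n] := by
  unfold pre
  rw [List.range_succ, List.map_append]
  rfl

theorem ofFn_eq_pre (B : ℕ → Bool) (n : ℕ) : List.ofFn (fun i : Fin n => B i) = pre B n := by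
  induction n with
  | zero => rfl
  | succ n ih =>
    rw [pre_succ, ← ih, List.ofFn_succ_last]
    rfl

theorem take_pre (B : ℕ → Bool) {n m : ℕ} (h : m ≤ n) : (pre B n).take m = pre B m := by
  unfold pre
  rw [← List.map_take, List.take_range, min_eq_left h]

theorem getD_pre (B : ℕ → Bool) {n m : ℕ} (h : m < n) (b : Bool) : (pre B n).getD m b = B m := by
  unfold pre
  rw [List.getD_eq_getElem?_getD, List.getElem?_map, List.getElem?_range h]
  rfl

/-! ## The part of the bits read that is selected -/

/-- The selected part of the list `w` of bits read by the rule `f`. -/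
def bw (f : List Bool →. ℕ × Bool) (w : List Bool) : Part (List Bool) :=
  Nat.rec (Part.some []) (fun y IH => IH.bind fun acc =>
    (f (w.take y)).map fun nc => bif nc.2 then acc ++ [w.getD y false] else acc) w.length

theorem partrec_bw {f : List Bool →. ℕ × Bool} (hf : Partrec f) : Partrec (bw f) := by
  have h1 : Partrec₂ fun (w : List Bool) (p : ℕ × List Bool) =>
      (f (w.take p.1)).map fun nc : ℕ × Bool => bif nc.2 then p.2 ++ [w.getD p.1 false] else p.2 := by
    have hA : Partrec fun a : List Bool × (ℕ × List Bool) => f (a.1.take a.2.1) :=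
      hf.comp ((Primrec.list_take.comp (Primrec.fst.comp Primrec.snd) Primrec.fst).to_comp)
    refine hA.map ?_
    have hsel : Computable fun q : (List Bool × (ℕ × List Bool)) × (ℕ × Bool) => q.2.2 :=
      (Primrec.snd.comp Primrec.snd).to_comp
    have happ : Primrec fun q : (List Bool × (ℕ × List Bool)) × (ℕ × Bool) =>
        q.1.2.2 ++ [q.1.1.getD q.1.2.1 false] := by
      refine Primrec.list_append.comp (Primrec.snd.comp (Primrec.snd.comp Primrec.fst)) ?_
      refine Primrec.list_cons.comp ?_ (Primrec.const [])
      exact (Primrec.list_getD false).comp (Primrec.fst.comp Primrec.fst)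
        (Primrec.fst.comp (Primrec.snd.comp Primrec.fst))
    exact Computable.cond hsel happ.to_comp ((Primrec.snd.comp (Primrec.snd.comp Primrec.fst)).to_comp)
  exact Partrec.nat_rec Computable.list_length (Computable.const []).partrec h1

theorem bw_run {f : List Bool →. ℕ × Bool} {X : ℕ → Bool} {pos : ℕ → ℕ} {sel : ℕ → Bool}
    (h : Run f X pos sel) (k : ℕ) :
    bw f (pre (fun i => X (pos i)) k) =
      Part.some (pre (selSeq X pos sel) (Nat.count (fun k => sel k = true) k)) := by
  unfold bw
  rw [pre_length]
  have key : ∀ y, y ≤ k → (Nat.rec (motive := fun _ => Part (List Bool)) (Part.some []) (fun y IH => IH.bind fun acc =>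
      (f ((pre (fun i => X (pos i)) k).take y)).map fun nc =>
        bif nc.2 then acc ++ [(pre (fun i => X (pos i)) k).getD y false] else acc) y : Part (List Bool)) =
      Part.some (pre (selSeq X pos sel) (Nat.count (fun k => sel k = true) y)) := by
    intro y
    induction y with
    | zero => intro _; rfl
    | succ y ih =>
      intro hy
      show Part.bind (Nat.rec (motive := fun _ => Part (List Bool)) _ _ y) _ = _
      rw [ih (by omega), Part.bind_some, take_pre _ (by omega : y ≤ k), getD_pre _ (by omega : y < k),
        ← ofFn_eq_pre (fun i => X (pos i)), h.step, Part.map_some, Nat.count_succ]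
      by_cases hs : sel y = true
      · rw [if_pos hs, hs, cond_true, pre_succ]
        have : selSeq X pos sel (Nat.count (fun k => sel k = true) y) = X (pos y) := by
          unfold selSeq
          rw [Nat.nth_count (p := fun k => sel k = true) hs]
        rw [this]
      · rw [if_neg hs]
        rw [Bool.not_eq_true] at hs
        rw [hs, cond_false, add_zero]
  exact key k le_rfl

/-- The bits of `B` at the places `n` with `D (B 0 ... B (n-1))`. -/
def Mono (B : ℕ → Bool) : Prop :=
  ∀ D : List Bool → Bool, Computable D → Set.Infinite {n : ℕ | D (pre B n) = true} →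
    LLN fun j => B (Nat.nth (fun n => D (pre B n) = true) j)

/-- The rule `f` followed by the monotone rule `D`. -/
def subF (f : List Bool →. ℕ × Bool) (D : List Bool → Bool) : List Bool →. ℕ × Bool := fun w =>
  (f w).bind fun nc => (bw f w).map fun b => (nc.1, nc.2 && D b)

theorem partrec_subF {f : List Bool →. ℕ × Bool} (hf : Partrec f) {D : List Bool → Bool} (hD : Computable D) :
    Partrec (subF f D) := by
  refine hf.bind ?_
  have h1 : Partrec fun q : List Bool × (ℕ × Bool) => bw f q.1 := (partrec_bw hf).comp Computable.fst
  refine h1.map ?_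
  have h2 : Computable fun q : (List Bool × (ℕ × Bool)) × List Bool => D q.2 := hD.comp Computable.snd
  exact ((Computable.fst.comp (Computable.snd.comp Computable.fst))).pair
    (Primrec.and.to_comp.comp (Computable.snd.comp (Computable.snd.comp Computable.fst)) h2)

/-- The selection of `f` followed by `D`. -/
def subSel (sel : ℕ → Bool) (D : List Bool → Bool) (B : ℕ → Bool) (k : ℕ) : Bool :=
  sel k && D (pre B (Nat.count (fun k => sel k = true) k))

theorem run_subF {f : List Bool →. ℕ × Bool} {A : ℕ → Bool} {pos : ℕ → ℕ} {sel : ℕ → Bool} (h : Run f A pos sel)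
    {D : List Bool → Bool} (hinf : Set.Infinite {n : ℕ | D (pre (selSeq A pos sel) n) = true}) :
    Run (subF f D) A pos (subSel sel D (selSeq A pos sel)) ∧
      selSeq A pos (subSel sel D (selSeq A pos sel)) =
        fun j => selSeq A pos sel (Nat.nth (fun n => D (pre (selSeq A pos sel) n) = true) j) := by
  set B := selSeq A pos sel with hB
  have hstep : ∀ k : ℕ, subF f D (List.ofFn (fun i : Fin k => A (pos i))) = Part.some (pos k, subSel sel D B k) := by
    intro k
    unfold subF
    rw [h.step k, Part.bind_some, ofFn_eq_pre (fun i => A (pos i)), bw_run h, Part.map_some]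
    rfl
  have hnth : StrictMono (Nat.nth (fun k => sel k = true)) := Nat.nth_strictMono h.inf
  have hcomp : (fun i => subSel sel D B (Nat.nth (fun k => sel k = true) i) = true) = fun n => D (pre B n) = true := by
    funext n
    have h1 : sel (Nat.nth (fun k => sel k = true) n) = true := Nat.nth_mem_of_infinite h.inf n
    unfold subSel
    rw [h1, Bool.true_and, Nat.count_nth_of_infinite h.inf]
  have hinf' : Set.Infinite {k : ℕ | subSel sel D B k = true} := by
    have h1 : (Nat.nth (fun k => sel k = true)) '' {n : ℕ | D (pre B n) = true} ⊆ {k : ℕ | subSel sel D B k = true} := by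
      rintro _ ⟨n, hn, rfl⟩
      exact (congrFun hcomp n).mpr hn
    exact (hinf.image hnth.injective.injOn).mono h1
  refine ⟨⟨hstep, h.inj, hinf'⟩, ?_⟩
  funext j
  have h4 : Nat.nth (fun k => subSel sel D B k = true) j =
      Nat.nth (fun k => sel k = true) (Nat.nth (fun n => D (pre B n) = true) j) := by
    rw [← Nat.nth_comp_of_strictMono (p := fun k => subSel sel D B k = true) hnth]
    · rw [hcomp]
    · intro k hk
      rw [Nat.range_nth_of_infinite h.inf]
      have : subSel sel D B k = true := hk
      unfold subSel at this
      rw [Bool.and_eq_true] at this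
      exact this.1
    · intro hfin
      exact absurd hfin hinf'
  show A (pos (Nat.nth (fun k => subSel sel D B k = true) j)) =
    A (pos (Nat.nth (fun k => sel k = true) (Nat.nth (fun n => D (pre B n) = true) j)))
  rw [h4]

theorem mono_of_KL {A : ℕ → Bool} (hA : KL A) {f : List Bool →. ℕ × Bool} (hf : Partrec f)
    {pos : ℕ → ℕ} {sel : ℕ → Bool} (h : Run f A pos sel) : Mono (selSeq A pos sel) := by
  intro D hD hinf
  obtain ⟨h1, h2⟩ := run_subF h hinf
  have h3 := hA _ (partrec_subF hf hD) pos _ h1
  rwa [h2] at h3

/-- The selected part, for a total rule. -/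
def bwt (r : List Bool → ℕ × Bool) (w : List Bool) : List Bool :=
  Nat.rec [] (fun y acc => bif (r (w.take y)).2 then acc ++ [w.getD y false] else acc) w.length

theorem bw_total (r : List Bool → ℕ × Bool) (w : List Bool) : bw (fun w => Part.some (r w)) w = Part.some (bwt r w) := by
  unfold bw bwt
  induction w.length with
  | zero => rfl
  | succ n ih =>
    show Part.bind (Nat.rec (motive := fun _ => Part (List Bool)) _ _ n) _ = _
    rw [ih, Part.bind_some, Part.map_some]

/-- For a total rule `r`: the rule `r` followed by `D`. -/
def subR (r : List Bool → ℕ × Bool) (D : List Bool → Bool) (w : List Bool) : ℕ × Bool :=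
  ((r w).1, (r w).2 && D (bwt r w))

theorem subF_total (r : List Bool → ℕ × Bool) (D : List Bool → Bool) :
    subF (fun w => Part.some (r w)) D = fun w => Part.some (subR r D w) := by
  funext w
  unfold subF
  rw [Part.bind_some, bw_total, Part.map_some]
  rfl

theorem computable_subR {r : List Bool → ℕ × Bool} (hr : Computable r) {D : List Bool → Bool} (hD : Computable D) :
    Computable (subR r D) := by
  have h := partrec_subF (f := fun w => Part.some (r w)) hr hD
  rw [subF_total] at h
  exact h

end H51L
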