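import Pool.Agent.Lib.H51L.Stage
import Pool.Agent.Lib.H51L.Mono

/-!
# Lag threshold: unbounded lag
-/

open MeasureTheory Set Filter

namespace H51L

open H69K (mu val used markov mgf_le Good FF dl dl_pos dl_anti dl_le)

theorem used3 (x : ℕ) (r : List Bool) :
    ∀ i ∈ used (fun r : List Bool => x + 3 * r.length) r, i < x + 3 * r.length := by
  induction r with
  | nil =>
    intro i hi
    simp [used] at hi
  | cons b r ih =>
    intro i hi
    rw [used, Finset.mem_insert] at hi
    rw [List.length_cons]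
    rcases hi with rfl | hi
    · omega
    · have := ih i hi
      omega

theorem chernoff3 (p : ℕ → unitInterval) (x L : ℕ) (l : ℝ) (hl : |l| ≤ 1) (c : ℝ) :
    mu p {X | c ≤ ∑ i ∈ Finset.range L, (l * (val (X (x + 3 * i)) - (p (x + 3 * i) : ℝ)) - l ^ 2)} ≤
      ENNReal.ofReal (Real.exp (-c)) := by
  classical
  set g : List Bool → ℕ := fun r => x + 3 * r.length with hg
  set φ : List Bool → Bool → ℝ := fun r b =>
    if r.length < L then l * (val b - (p (x + 3 * r.length) : ℝ)) - l ^ 2 else 0 with hφ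
  have hgood : Good p g φ := by
    intro r
    by_cases hr : r.length < L
    · left
      refine ⟨fun h => lt_irrefl _ (used3 x r _ h), ?_⟩
      have h1 := mgf_le (p (x + 3 * r.length)) l hl
      simp only [hφ, hg, if_pos hr, val, if_true, Bool.false_eq_true, if_false]
      exact h1
    · right
      simp only [hφ, if_neg hr, and_self]
  have hsum : ∀ (X : ℕ → Bool) (k : ℕ), k ≤ L → FF φ (H69K.hist g X k) =
      ∑ i ∈ Finset.range k, (l * (val (X (x + 3 * i)) - (p (x + 3 * i) : ℝ)) - l ^ 2) := by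
    intro X k
    induction k with
    | zero =>
      intro _
      simp [H69K.hist, FF]
    | succ k ih =>
      intro hk
      rw [H69K.hist, FF, ih (by omega), Finset.sum_range_succ]
      congr 1
      simp only [hφ, hg, H69K.length_hist]
      rw [if_pos (by omega)]
  have h := markov p g φ hgood L c
  have hset : {X | c ≤ FF φ (H69K.hist g X L)} =
      {X | c ≤ ∑ i ∈ Finset.range L, (l * (val (X (x + 3 * i)) - (p (x + 3 * i) : ℝ)) - l ^ 2)} := by
    ext X
    rw [Set.mem_ofPred_eq, Set.mem_ofPred_eq, hsum X L le_rfl]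
  rw [hset] at h
  exact h

/-- A region of `L` places with probability `1/2 + s δ`: the majority is wrong with a small probability. -/
theorem region (p : ℕ → unitInterval) (x L : ℕ) (s δ : ℝ) (hs : s ^ 2 = 1) (hδ0 : 0 ≤ δ) (hδ1 : δ ≤ 1 / 2)
    (hp : ∀ i < L, (p (x + 3 * i) : ℝ) = 1 / 2 + s * δ) :
    mu p {X | s * ((((Finset.range L).filter fun i => X (x + 3 * i) = true).card : ℝ) - L / 2) ≤ 0} ≤
      ENNReal.ofReal (Real.exp (-(L * (δ ^ 2 / 4)))) := by
  have hl : |-(s * (δ / 2))| ≤ 1 := by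
    have h1 : |s| = 1 := by
      rw [← Real.sqrt_sq_eq_abs, hs, Real.sqrt_one]
    rw [abs_neg, abs_mul, h1, one_mul, abs_of_nonneg (by positivity)]
    linarith
  refine (measure_mono ?_).trans (chernoff3 p x L (-(s * (δ / 2))) hl (L * (δ ^ 2 / 4)))
  intro X hX
  rw [Set.mem_ofPred_eq] at hX ⊢
  have h1 : ∑ i ∈ Finset.range L, (-(s * (δ / 2)) * (val (X (x + 3 * i)) - (p (x + 3 * i) : ℝ)) - (-(s * (δ / 2))) ^ 2) =
      ∑ i ∈ Finset.range L, (-(s * (δ / 2)) * val (X (x + 3 * i)) + (s * (δ / 2) * (1 / 2 + s * δ) - (s * (δ / 2)) ^ 2)) := by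
    refine Finset.sum_congr rfl fun i hi => ?_
    rw [hp i (Finset.mem_range.1 hi)]
    ring
  have h2 : ∑ i ∈ Finset.range L, val (X (x + 3 * i)) =
      (((Finset.range L).filter fun i => X (x + 3 * i) = true).card : ℝ) := by
    rw [Finset.card_filter]
    push_cast
    rfl
  rw [h1, Finset.sum_add_distrib, ← Finset.mul_sum, h2, Finset.sum_const, Finset.card_range, nsmul_eq_mul]
  set N := (((Finset.range L).filter fun i => X (x + 3 * i) = true).card : ℝ) with hN
  have h3 : -(s * (δ / 2)) * N + (L : ℝ) * (s * (δ / 2) * (1 / 2 + s * δ) - (s * (δ / 2)) ^ 2) =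
      -(δ / 2) * (s * (N - L / 2)) + s ^ 2 * (L * (δ ^ 2 / 4)) := by ring
  rw [h3, hs, one_mul]
  have h4 : 0 ≤ -(δ / 2) * (s * (N - L / 2)) := by nlinarith
  linarith

section

variable (H : ℕ → ℕ)

/-- The bias of the place `n`. -/
noncomputable def beta (n : ℕ) : ℝ :=
  if n % 3 = 1 then -dl (kap (cc H) (n / 3)) else if n % 3 = 2 then dl (kap (cc H) (n / 3)) else 0

theorem abs_beta (n : ℕ) : |beta H n| ≤ dl (kap (cc H) (n / 3)) := by
  have h := dl_pos (kap (cc H) (n / 3))
  unfold beta
  split_ifs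
  · rw [abs_neg, abs_of_pos h]
  · rw [abs_of_pos h]
  · rw [abs_zero]
    exact h.le

/-- The probabilities. -/
noncomputable def pp (n : ℕ) : unitInterval :=
  ⟨1 / 2 + beta H n, by
    have h1 := abs_le.1 (abs_beta H n)
    have h2 := dl_le (kap (cc H) (n / 3))
    constructor <;> linarith [h1.1, h1.2]⟩

variable {H}

theorem tendsto_pp (hH : Monotone H) : Tendsto (fun n => (pp H n : ℝ)) atTop (nhds (1 / 2)) := by
  rw [Metric.tendsto_atTop]
  intro ε hε
  obtain ⟨M, hM⟩ : ∃ M, dl M < ε := by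
    obtain ⟨M, hM⟩ := exists_pow_lt_of_lt_one hε (by norm_num : (3 / 4 : ℝ) < 1)
    refine ⟨M, ?_⟩
    unfold dl
    have : (0 : ℝ) < (3 / 4) ^ M := by positivity
    linarith
  refine ⟨3 * cc H M, fun n hn => ?_⟩
  rw [Real.dist_eq]
  show |1 / 2 + beta H n - 1 / 2| < ε
  rw [add_sub_cancel_left]
  have h1 : cc H M ≤ n / 3 := by omega
  have h2 : M ≤ kap (cc H) (n / 3) := by
    have h3 := kap_mono (cc H) h1
    have h4 := kap_cc hH (a := M) (j := 0) (by positivity)
    rw [add_zero] at h4
    omega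
  exact lt_of_le_of_lt ((abs_beta H n).trans (dl_anti h2)) hM

/-- The number of the bits one in the region `b` of stage `a`. -/
def num (H : ℕ → ℕ) (X : ℕ → Bool) (a : ℕ) (b : Bool) : ℕ :=
  ((Finset.range (2 ^ a - 1)).filter fun i => X (3 * (cc H a + 1 + i) + 1 + b.toNat) = true).card

theorem bad_le (hH : Monotone H) (a : ℕ) (b : Bool) :
    mu (pp H) {X | ¬ (b = true ↔ 2 ^ a - 1 < 2 * num H X a b)} ≤ ENNReal.ofReal (32 * (8 / 9) ^ a) := by
  have hL : ((2 ^ a - 1 : ℕ) : ℝ) = (2 : ℝ) ^ a - 1 := by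
    rw [Nat.cast_sub Nat.one_le_two_pow]
    push_cast
    ring
  set s : ℝ := if b then 1 else -1 with hs
  have hs2 : s ^ 2 = 1 := by
    rw [hs]
    split_ifs <;> norm_num
  have hx : ∀ i, 3 * (cc H a + 1) + 1 + b.toNat + 3 * i = 3 * (cc H a + 1 + i) + 1 + b.toNat := fun i => by ring
  have hp : ∀ i < 2 ^ a - 1, (pp H (3 * (cc H a + 1) + 1 + b.toNat + 3 * i) : ℝ) = 1 / 2 + s * dl a := by
    intro i hi
    rw [hx i]
    show 1 / 2 + beta H _ = _
    have hk : kap (cc H) (cc H a + 1 + i) = a := by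
      rw [add_assoc]
      exact kap_cc hH (by omega)
    unfold beta
    cases b with
    | true =>
      have h1 : (3 * (cc H a + 1 + i) + 1 + (true : Bool).toNat) % 3 = 2 := by
        show (3 * (cc H a + 1 + i) + 1 + 1) % 3 = 2
        omega
      have h2 : (3 * (cc H a + 1 + i) + 1 + (true : Bool).toNat) / 3 = cc H a + 1 + i := by
        show (3 * (cc H a + 1 + i) + 1 + 1) / 3 = _
        omega
      rw [h1, h2, hk, hs]
      norm_num
    | false =>
      have h1 : (3 * (cc H a + 1 + i) + 1 + (false : Bool).toNat) % 3 = 1 := by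
        show (3 * (cc H a + 1 + i) + 1 + 0) % 3 = 1
        omega
      have h2 : (3 * (cc H a + 1 + i) + 1 + (false : Bool).toNat) / 3 = cc H a + 1 + i := by
        show (3 * (cc H a + 1 + i) + 1 + 0) / 3 = _
        omega
      rw [h1, h2, hk, hs]
      norm_num
  have h1 := region (pp H) (3 * (cc H a + 1) + 1 + b.toNat) (2 ^ a - 1) s (dl a) hs2 (dl_pos a).le (dl_le a) hp
  have hsub : {X : ℕ → Bool | ¬ (b = true ↔ 2 ^ a - 1 < 2 * num H X a b)} ⊆
      {X | s * ((((Finset.range (2 ^ a - 1)).filter fun i =>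
        X (3 * (cc H a + 1) + 1 + b.toNat + 3 * i) = true).card : ℝ) - ((2 ^ a - 1 : ℕ) : ℝ) / 2) ≤ 0} := by
    intro X hX
    rw [Set.mem_ofPred_eq] at hX ⊢
    have h2 : ((Finset.range (2 ^ a - 1)).filter fun i => X (3 * (cc H a + 1) + 1 + b.toNat + 3 * i) = true).card =
        num H X a b := by
      unfold num
      congr 1
      refine Finset.filter_congr fun i _ => ?_
      rw [hx i]
    rw [h2]
    cases b with
    | true =>
      have h3 : ¬ 2 ^ a - 1 < 2 * num H X a true := fun h => hX ⟨fun _ => h, fun _ => rfl⟩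
      have h4 : ((2 * num H X a true : ℕ) : ℝ) ≤ ((2 ^ a - 1 : ℕ) : ℝ) := by exact_mod_cast not_lt.1 h3
      push_cast only [Nat.cast_mul, Nat.cast_ofNat] at h4
      rw [hs, if_pos rfl]
      linarith
    | false =>
      have h3 : 2 ^ a - 1 < 2 * num H X a false := by
        by_contra h
        exact hX ⟨fun h' => Bool.noConfusion h', fun h' => absurd h' h⟩
      have h4 : ((2 ^ a - 1 : ℕ) : ℝ) ≤ ((2 * num H X a false : ℕ) : ℝ) := by exact_mod_cast h3.le
      push_cast only [Nat.cast_mul, Nat.cast_ofNat] at h4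
      rw [hs, if_neg (by decide)]
      linarith
  refine (measure_mono hsub).trans (h1.trans (ENNReal.ofReal_le_ofReal ?_))
  rw [hL]
  rcases Nat.eq_zero_or_pos a with rfl | hk
  · simp only [pow_zero, sub_self, zero_mul, neg_zero, Real.exp_zero]
    norm_num
  · have h3 : (2 : ℝ) ^ a / 2 ≤ (2 : ℝ) ^ a - 1 := by
      have : (2 : ℝ) ^ 1 ≤ 2 ^ a := pow_le_pow_right₀ (by norm_num) hk
      linarith
    have h4 : ((2 : ℝ) ^ a / 2) * (dl a ^ 2 / 4) = (9 / 8) ^ a / 32 := by
      unfold dl
      have h5 : ((9 : ℝ) / 8) ^ a = 2 ^ a * (3 / 4) ^ a * (3 / 4) ^ a := by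
        rw [← mul_pow, ← mul_pow]
        norm_num
      rw [h5]
      ring
    have h5 : (9 / 8 : ℝ) ^ a / 32 ≤ ((2 : ℝ) ^ a - 1) * (dl a ^ 2 / 4) := by
      rw [← h4]
      exact mul_le_mul_of_nonneg_right h3 (by positivity)
    have h6 : (0 : ℝ) < (9 / 8) ^ a / 32 := by positivity
    calc Real.exp (-(((2 : ℝ) ^ a - 1) * (dl a ^ 2 / 4)))
        ≤ Real.exp (-((9 / 8 : ℝ) ^ a / 32)) := Real.exp_le_exp.2 (by linarith)
      _ = (Real.exp ((9 / 8 : ℝ) ^ a / 32))⁻¹ := Real.exp_neg _
      _ ≤ ((9 / 8 : ℝ) ^ a / 32)⁻¹ := by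
          apply inv_anti₀ h6
          have := Real.add_one_le_exp ((9 / 8 : ℝ) ^ a / 32)
          linarith
      _ = 32 * (8 / 9) ^ a := by
          rw [inv_div]
          have h7 : (8 / 9 : ℝ) ^ a = ((9 / 8 : ℝ) ^ a)⁻¹ := by
            rw [← inv_pow]
            norm_num
          rw [h7]
          rfl

theorem ae_stage (hH : Monotone H) : ∀ᵐ X ∂(mu (pp H)), ∀ᶠ a : ℕ in atTop, ∀ b : Bool,
    (b = true ↔ 2 ^ a - 1 < 2 * num H X a b) := by
  have h1 : ∀ b : Bool, ∀ᵐ X ∂(mu (pp H)), ∀ᶠ a : ℕ in atTop,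
      X ∉ {X | ¬ (b = true ↔ 2 ^ a - 1 < 2 * num H X a b)} := by
    intro b
    apply ae_eventually_notMem
    refine ne_top_of_le_ne_top ?_ (ENNReal.tsum_le_tsum fun a => bad_le hH a b)
    rw [← ENNReal.ofReal_tsum_of_nonneg (fun k => by positivity)]
    · exact ENNReal.ofReal_ne_top
    · exact (summable_geometric_of_lt_one (by norm_num) (by norm_num)).mul_left _
  filter_upwards [h1 true, h1 false] with X hX1 hX2
  filter_upwards [hX1, hX2] with a ha1 ha2 b
  cases b
  · exact not_not.1 ha2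
  · exact not_not.1 ha1

theorem nth_true (j : ℕ) : Nat.nth (fun _ : ℕ => (true : Bool) = true) j = j := by
  have h4 := Nat.nth_count (p := fun _ : ℕ => (true : Bool) = true) (n := j) rfl
  have h5 : Nat.count (fun _ : ℕ => (true : Bool) = true) j = j := by
    clear h4
    induction j with
    | zero => rfl
    | succ n ih =>
      rw [Nat.count_succ, ih]
      simp
  rw [h5] at h4
  exact h4

theorem infinite_univ_true : Set.Infinite {k : ℕ | (fun _ : ℕ => true) k = true} := by
  have : {k : ℕ | (fun _ : ℕ => true) k = true} = Set.univ := by ext; simp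
  rw [this]
  exact Set.infinite_univ

/-- Infinitely many headers are one. -/
theorem inf_header (hH : Monotone H) (hc : Computable H) {X : ℕ → Bool} (hX : KL X) :
    Set.Infinite {a : ℕ | X (3 * cc H a) = true} := by
  have hf : Partrec (fun w : List Bool => (Part.some (3 * cc H w.length, true) : Part (ℕ × Bool))) := by
    have h1 : Computable (fun w : List Bool => (3 * cc H w.length, true)) :=
      Computable.pair (Primrec.nat_mul.to_comp.comp (Computable.const 3)
        ((computable_cc hc).comp Computable.list_length)) (Computable.const true)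
    exact h1.partrec
  have hinj : Function.Injective fun a => 3 * cc H a := by
    intro a b hab
    have h2 : 3 * cc H a = 3 * cc H b := hab
    exact (cc_strictMono hH).injective (by omega)
  have h1 := hX _ hf (fun a => 3 * cc H a) (fun _ => true) ⟨fun k => by simp, hinj, infinite_univ_true⟩
  have h2 : selSeq X (fun a => 3 * cc H a) (fun _ => true) = fun a => X (3 * cc H a) := by
    funext j
    unfold selSeq
    rw [nth_true]
  rw [h2] at h1
  exact H69K.infinite_of_half h1

theorem run_second (hH : Monotone H) (hc : Computable H) {X : ℕ → Bool} (hX : KL X)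
    (hst : ∀ᶠ a : ℕ in atTop, ∀ b : Bool, (b = true ↔ 2 ^ a - 1 < 2 * num H X a b)) :
    Set.Infinite {t : ℕ | H69K.sel2 (fun m => B1 H X (emb H m)) t = true} ∧
    ∃ T, ∀ t ≥ T, H69K.sel2 (fun m => B1 H X (emb H m)) t = true → B1 H X (pos2 H t) = true := by
  obtain ⟨a0, ha0⟩ := eventually_atTop.1 hst
  have hbit : ∀ a ≥ a0, H69K.sel2 (fun m => B1 H X (emb H m)) (2 ^ (a + 1) - 1) = X (3 * cc H a) := by
    intro a ha
    rw [sel2_stage]
    have h1 : ((Finset.range (2 ^ a - 1)).filter fun i => B1 H X (emb H (2 ^ a + 1 + i)) = true).card =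
        num H X a (X (3 * cc H a)) := by
      unfold num
      congr 1
      refine Finset.filter_congr fun i hi => ?_
      rw [Finset.mem_range] at hi
      rw [add_assoc, emb_eq (by omega), ← add_assoc, B1_block hH X hi]
    rw [h1]
    have h2 := ha0 a ha (X (3 * cc H a))
    cases hb : X (3 * cc H a) with
    | true =>
      rw [hb] at h2
      exact decide_eq_true (h2.1 rfl)
    | false =>
      rw [hb] at h2
      exact decide_eq_false fun h => Bool.noConfusion (h2.2 h)
  refine ⟨?_, 2 ^ (a0 + 1) - 1, ?_⟩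
  · have h1 := inf_header hH hc hX
    have h2 : Set.Infinite ({a : ℕ | X (3 * cc H a) = true} \ {a | a < a0}) := h1.sdiff (Set.finite_lt_nat a0)
    refine Set.infinite_of_injOn_mapsTo (f := fun a => 2 ^ (a + 1) - 1) ?_ ?_ h2
    · intro a _ b _ hab
      have h3 : 2 ^ (a + 1) - 1 = 2 ^ (b + 1) - 1 := hab
      have h4 : 1 ≤ 2 ^ (a + 1) := Nat.one_le_two_pow
      have h5 : 1 ≤ 2 ^ (b + 1) := Nat.one_le_two_pow
      have h6 : 2 ^ (a + 1) = 2 ^ (b + 1) := by omega
      have := Nat.pow_right_injective le_rfl h6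
      omega
    · intro a ha
      have h3 : X (3 * cc H a) = true := ha.1
      have h4 : a0 ≤ a := not_lt.1 ha.2
      show H69K.sel2 (fun m => B1 H X (emb H m)) (2 ^ (a + 1) - 1) = true
      rw [hbit a h4, h3]
  · intro t ht hs
    obtain ⟨a, rfl⟩ := sel2_true _ hs
    have h1 : a0 ≤ a := by
      by_contra hcon
      have h2 : 2 ^ (a + 1) < 2 ^ (a0 + 1) := Nat.pow_lt_pow_right (by norm_num) (by omega)
      have h4 : 1 ≤ 2 ^ (a + 1) := Nat.one_le_two_pow
      omega
    rw [hbit a h1] at hs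
    rw [pos2_stage, B1_cc hH, hs]

end

/-- The second rule, with the selection only from step `T` on. -/
def r2T (H : ℕ → ℕ) (T : ℕ) (w : List Bool) : ℕ × Bool := ((r2 H w).1, (r2 H w).2 && decide (T ≤ w.length))

theorem computable_r2T {H : ℕ → ℕ} (hc : Computable H) (T : ℕ) : Computable (r2T H T) := by
  have h1 : Computable fun w : List Bool => decide (T ≤ w.length) :=
    Primrec.nat_le.decide.to_comp.comp (Computable.const T) Computable.list_length
  exact (Computable.fst.comp (computable_r2 hc)).pair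
    (Primrec.and.to_comp.comp (Computable.snd.comp (computable_r2 hc)) h1)

/-- **Unbounded lag.** For every computable, monotone and unbounded `h` there are a KL-stochastic sequence `A`, a total
computable rule that inspects the places of `A` in increasing order and selects all, and a total computable rule of lag at
most `h` that selects from the subsequence selected by the first rule the sequence `1, 1, 1, ...`. -/
theorem failure_of_unbounded_lag {h : ℕ → ℕ} (hc : Computable h) (hm : Monotone h) (hu : ∀ b, ∃ n, b ≤ h n) :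
    ∃ A B : ℕ → Bool, KL A ∧ TSel Direct A B ∧ TSel (LagLe h) B fun _ => true := by
  classical
  have hex : ∀ a : ℕ, ∃ n, decide (2 ^ a ≤ h n) = true := fun a => by
    obtain ⟨n, hn⟩ := hu (2 ^ a)
    exact ⟨n, decide_eq_true hn⟩
  set H : ℕ → ℕ := fun a => Nat.find (hex a) with hHdef
  have hHspec : ∀ a, 2 ^ a ≤ h (H a) := fun a => of_decide_eq_true (Nat.find_spec (hex a))
  have hHc : Computable H := by
    have h0 : Computable₂ fun (a n : ℕ) => decide (2 ^ a ≤ h n) :=
      Primrec.nat_le.decide.to_comp.comp (computable_pw.comp Computable.fst) (hc.comp Computable.snd)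
    have h1 : Partrec fun a : ℕ => Nat.rfind fun n => Part.some (decide (2 ^ a ≤ h n)) := Partrec.rfind h0.partrec₂
    refine h1.of_eq_tot fun a => Nat.mem_rfind.2 ⟨?_, fun {m} hm => ?_⟩
    · rw [Nat.find_spec (hex a)]
      exact Part.mem_some _
    · have h2 := Nat.find_min (hex a) hm
      rw [Bool.not_eq_true] at h2
      rw [h2]
      exact Part.mem_some _
  have hHm : Monotone H := by
    intro a b hab
    refine Nat.find_min' (hex a) (decide_eq_true ?_)
    exact (Nat.pow_le_pow_right (by norm_num) hab).trans (hHspec b)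
  have hae := H69K.ae_KL (pp H) (tendsto_pp hHm)
  obtain ⟨X, hX0, hst⟩ := (hae.and (ae_stage hHm)).exists
  have hX : KL X := fun f hf pos sel hr => hX0 f hf pos sel hr.step hr.inj hr.inf
  obtain ⟨hinf, T, hT⟩ := run_second hHm hHc hX hst
  have hB : selSeq X (pos1 H X) (fun _ => true) = B1 H X := by
    funext j
    unfold selSeq B1
    rw [nth_true]
  set sl : ℕ → Bool := fun t => H69K.sel2 (fun m => B1 H X (emb H m)) t && decide (T ≤ t) with hsl
  have hslt : ∀ t, sl t = true ↔ H69K.sel2 (fun m => B1 H X (emb H m)) t = true ∧ T ≤ t := by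
    intro t
    simp only [hsl, Bool.and_eq_true, decide_eq_true_eq]
  have hinf' : Set.Infinite {t : ℕ | sl t = true} := by
    refine (hinf.sdiff (Set.finite_lt_nat T)).mono ?_
    rintro t ⟨h1, h2⟩
    exact (hslt t).2 ⟨h1, not_lt.1 h2⟩
  refine ⟨X, B1 H X, hX, ⟨fun w => (r1 H w, true), (computable_r1 hHc).pair (Computable.const true),
    pos1 H X, fun _ => true, ?_, ⟨pos1_strictMono X, fun _ => rfl⟩, hB.symm⟩,
    ⟨r2T H T, computable_r2T hHc T, pos2 H, sl, ?_, ?_, ?_⟩⟩
  · refine ⟨fun k => ?_, (pos1_strictMono X).injective, infinite_univ_true⟩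
    show Part.some (r1 H (List.ofFn fun i : Fin k => X (pos1 H X i)), true) = Part.some (pos1 H X k, true)
    rw [run1 hHm]
  · refine ⟨fun k => ?_, pos2_injective hHm, hinf'⟩
    show Part.some (r2T H T (List.ofFn fun i : Fin k => B1 H X (pos2 H i))) = _
    unfold r2T
    rw [run2, List.length_ofFn]
  · intro k hk
    obtain ⟨a, rfl⟩ := sel2_true _ ((hslt k).1 hk).1
    refine Finset.sup_le fun i hi => ?_
    have h1 := pos2_lt hHm (Finset.mem_range.1 hi)
    have h2 : H a ≤ cc H a := Nat.le_add_left _ _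
    have h3 : 2 ^ a ≤ h (cc H a) := (hHspec a).trans (hm h2)
    have h4 : pos2 H i - cc H a ≤ 2 ^ a := by
      rw [Nat.sub_le_iff_le_add, add_comm]
      exact h1.le
    rw [pos2_stage]
    exact h4.trans h3
  · funext j
    have h1 := (hslt _).1 (Nat.nth_mem_of_infinite hinf' j)
    exact (hT _ h1.2 h1.1).symm

end H51L
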