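import Pool.Agent.Lib.H51L.Tight
import Pool.Agent.Lib.H51L.Sharp

/-!
# Lag threshold: the theorem
-/

open Filter

namespace H51L

theorem lagAt_le_iff (pos : ℕ → ℕ) (g k : ℕ) : lagAt pos k ≤ g ↔ Near pos g k := by
  unfold lagAt Near
  rw [Finset.sup_le_iff]
  constructor
  · intro h i hi
    have := h i (Finset.mem_range.2 hi)
    omega
  · intro h i hi
    have := h i (Finset.mem_range.1 hi)
    omega

/-- The sequence of ones does not satisfy the law of large numbers. -/
theorem not_lln_true : ¬ LLN fun _ => true := by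
  intro h
  have h1 : Tendsto (fun m : ℕ => (((Finset.range m).filter (fun _ => (true : Bool) = true)).card : ℝ) / (m : ℝ)) atTop
      (nhds 1) := by
    refine tendsto_const_nhds.congr' ?_
    filter_upwards [eventually_gt_atTop 0] with m hm
    have hm' : (m : ℝ) ≠ 0 := by
      have : (0 : ℝ) < m := by exact_mod_cast hm
      exact this.ne'
    have h2 : (Finset.range m).filter (fun _ => (true : Bool) = true) = Finset.range m := by
      apply Finset.filter_true_of_mem
      intro _ _
      rfl
    rw [h2, Finset.card_range, div_self hm']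
  have h3 := tendsto_nhds_unique h1 h
  norm_num at h3

theorem mono_of_chain {h : ℕ → ℕ} {b : ℕ} (hb : ∀ n, h n ≤ b) {B C : ℕ → Bool} (hB : Mono B)
    (hC : Relation.ReflTransGen (TSel (LagLe h)) B C) : Mono C := by
  induction hC with
  | refl => exact hB
  | tail _ hstep ih =>
    obtain ⟨r, hr, pos, sel, hrun, hlag, rfl⟩ := hstep
    refine mono_of_lag ih hr hrun (g := b) fun k hk => ?_
    exact (lagAt_le_iff pos b k).1 ((hlag k hk).trans (hb _))

theorem church_iff (B : ℕ → Bool) : Church B ↔ Mono B := by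
  unfold Church Mono
  simp only [ofFn_eq_pre]

/-- **The threshold.** -/
theorem threshold (h : ℕ → ℕ) (hc : Computable h) (hm : Monotone h) : List.TFAE [
    ∃ b : ℕ, ∀ n : ℕ, h n ≤ b,
    ∀ B C D : ℕ → Bool, Church B → Relation.ReflTransGen (TSel (LagLe h)) B C → TSel (LagEss h) C D → LLN D,
    ∀ A B C D : ℕ → Bool, KL A → PSel A B → Relation.ReflTransGen (TSel (LagLe h)) B C → TSel (LagEss h) C D → LLN D,
    ∀ A B : ℕ → Bool, KL A → TSel Direct A B → ¬ TSel (LagLe h) B fun _ => true] := by
  tfae_have 1 → 2 := by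
    classical
    rintro ⟨b, hb⟩ B C D hB hC ⟨r, hr, pos', sel', hrun', hess, rfl⟩
    have hC' := mono_of_chain hb ((church_iff B).1 hB) hC
    refine lln_of_tight hC' hr hrun' ?_
    intro ε hε
    obtain ⟨g, m₀, hg⟩ := hess ε hε
    refine ⟨b + g, m₀, fun m hm => le_trans ?_ (hg m hm)⟩
    refine Nat.cast_le.2 (Finset.card_le_card fun j hj => ?_)
    obtain ⟨hj1, h2⟩ := Finset.mem_filter.1 hj
    refine Finset.mem_filter.2 ⟨hj1, ?_⟩
    rw [← lagAt_le_iff, not_le] at h2
    have h3 := hb (pos' (Nat.nth (fun k => sel' k = true) j))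
    omega
  tfae_have 2 → 3 := by
    rintro h2 A B C D hA ⟨f, hf, pos, sel, hrun, rfl⟩ hC hD
    exact h2 _ C D ((church_iff _).2 (mono_of_KL hA hf hrun)) hC hD
  tfae_have 3 → 4 := by
    rintro h2 A B hA ⟨r, hr, pos, sel, hrun, -, rfl⟩ ⟨r', hr', pos', sel', hrun', hlag, hD⟩
    refine not_lln_true (h2 A _ _ _ hA ⟨fun w => Part.some (r w), hr, pos, sel, hrun, rfl⟩ Relation.ReflTransGen.refl
      ⟨r', hr', pos', sel', hrun', ?_, hD⟩)
    intro ε hε
    refine ⟨0, 0, fun m _ => ?_⟩
    have h3 : ((Finset.range m).filter fun j => h (pos' (Nat.nth (fun k => sel' k = true) j)) + 0 <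
        lagAt pos' (Nat.nth (fun k => sel' k = true) j)) = ∅ := by
      rw [Finset.filter_eq_empty_iff]
      intro j _
      have := hlag _ (Nat.nth_mem_of_infinite hrun'.inf j)
      omega
    rw [h3, Finset.card_empty, Nat.cast_zero]
    positivity
  tfae_have 4 → 1 := by
    intro h3
    by_contra hcon
    push Not at hcon
    obtain ⟨A, B, hA, hB, hD⟩ := failure_of_unbounded_lag hc hm fun b => by
      obtain ⟨n, hn⟩ := hcon b
      exact ⟨n, hn.le⟩
    exact h3 A B hA hB hD
  tfae_finish

end H51L
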