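import Pool.Agent.Lib.H51L.Window

/-!
# Lag threshold: the simulation of the second rule
-/

open Filter

namespace H51L

/-- One step of the simulation of the rule `r` on the oracle `v`, with the place `n` unknown. A state is `(h, c)`: `h` is
the list of the bits read, `c = 0`: the simulation runs, `c = 1`: it ended, `n` is not selected, `c = 2`: it ended, `n` is
selected. -/
def simStep (r : List Bool → ℕ × Bool) (g n : ℕ) (v : List Bool) (s : List Bool × ℕ) : List Bool × ℕ :=
  bif decide (s.2 = 0) then
    bif decide ((r s.1).1 = n) then (s.1, bif (r s.1).2 then 2 else 1)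
    else bif decide (n + g < (r s.1).1) then (s.1, 1) else (s.1 ++ [v.getD (r s.1).1 false], 0)
  else s

/-- The simulation after `t` steps. -/
def simIter (r : List Bool → ℕ × Bool) (g n : ℕ) (v : List Bool) (t : ℕ) : List Bool × ℕ :=
  Nat.rec (([], 0) : List Bool × ℕ) (fun _ s => simStep r g n v s) t

/-- The decision: is the place `w.length` selected if the prefix is `w` and the next `g` bits are `τ`. -/
def sim (r : List Bool → ℕ × Bool) (g : ℕ) (τ w : List Bool) : Bool :=
  decide ((simIter r g w.length (w ++ ([false] ++ τ)) (w.length + g + 1)).2 = 2)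

theorem computable_sim {r : List Bool → ℕ × Bool} (hr : Computable r) (g : ℕ) (τ : List Bool) :
    Computable (sim r g τ) := by
  have hv : Primrec fun w : List Bool => w ++ ([false] ++ τ) :=
    Primrec.list_append.comp Primrec.id (Primrec.const _)
  have hstep : Computable₂ fun (w : List Bool) (p : ℕ × (List Bool × ℕ)) =>
      simStep r g w.length (w ++ ([false] ++ τ)) p.2 := by
    have hw : Computable fun q : List Bool × (ℕ × (List Bool × ℕ)) => q.1 := Computable.fst
    have hs : Computable fun q : List Bool × (ℕ × (List Bool × ℕ)) => q.2.2 := Computable.snd.comp Computable.snd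
    have hs1 : Computable fun q : List Bool × (ℕ × (List Bool × ℕ)) => q.2.2.1 := Computable.fst.comp hs
    have hs2 : Computable fun q : List Bool × (ℕ × (List Bool × ℕ)) => q.2.2.2 := Computable.snd.comp hs
    have hr1 : Computable fun q : List Bool × (ℕ × (List Bool × ℕ)) => r q.2.2.1 := hr.comp hs1
    have hr2 : Computable fun q : List Bool × (ℕ × (List Bool × ℕ)) => (r q.2.2.1).1 := Computable.fst.comp hr1
    have hr3 : Computable fun q : List Bool × (ℕ × (List Bool × ℕ)) => (r q.2.2.1).2 := Computable.snd.comp hr1
    have hl : Computable fun q : List Bool × (ℕ × (List Bool × ℕ)) => q.1.length := Computable.list_length.comp hw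
    have heq : Computable₂ fun a b : ℕ => decide (a = b) := (PrimrecRel.decide Primrec.eq).to_comp
    have hlt : Computable₂ fun a b : ℕ => decide (a < b) := (PrimrecRel.decide Primrec.nat_lt).to_comp
    have c1 : Computable fun q : List Bool × (ℕ × (List Bool × ℕ)) => decide (q.2.2.2 = 0) :=
      heq.comp hs2 (Computable.const 0)
    have c2 : Computable fun q : List Bool × (ℕ × (List Bool × ℕ)) => decide ((r q.2.2.1).1 = q.1.length) :=
      heq.comp hr2 hl
    have hadd : Computable fun q : List Bool × (ℕ × (List Bool × ℕ)) => q.1.length + g :=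
      Primrec.nat_add.to_comp.comp hl (Computable.const g)
    have c3 : Computable fun q : List Bool × (ℕ × (List Bool × ℕ)) => decide (q.1.length + g < (r q.2.2.1).1) :=
      hlt.comp hadd hr2
    have hget : Computable fun q : List Bool × (ℕ × (List Bool × ℕ)) =>
        (q.1 ++ ([false] ++ τ)).getD (r q.2.2.1).1 false :=
      (Primrec.list_getD false).to_comp.comp (hv.to_comp.comp hw) hr2
    have happ : Computable fun q : List Bool × (ℕ × (List Bool × ℕ)) =>
        q.2.2.1 ++ [(q.1 ++ ([false] ++ τ)).getD (r q.2.2.1).1 false] :=
      Computable.list_append.comp hs1 (Computable.list_cons.comp hget (Computable.const []))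
    exact Computable.cond c1 (Computable.cond c2 (hs1.pair (Computable.cond hr3 (Computable.const 2) (Computable.const 1)))
      (Computable.cond c3 (hs1.pair (Computable.const 1)) (happ.pair (Computable.const 0)))) hs
  have hiter : Computable fun w : List Bool => simIter r g w.length (w ++ ([false] ++ τ)) (w.length + g + 1) := by
    have hn : Computable fun w : List Bool => w.length + g + 1 :=
      (Primrec.succ.comp (Primrec.nat_add.comp Primrec.list_length (Primrec.const g))).to_comp
    exact Computable.nat_rec hn (Computable.const (([], 0) : List Bool × ℕ)) hstep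
  have heq : Computable₂ fun a b : ℕ => decide (a = b) := (PrimrecRel.decide Primrec.eq).to_comp
  exact heq.comp (Computable.snd.comp hiter) (Computable.const 2)

theorem getD_oracle (B : ℕ → Bool) {n g q : ℕ} (h1 : q ≠ n) (h2 : q ≤ n + g) :
    (pre B n ++ ([false] ++ win B (n + 1) g)).getD q false = B q := by
  rcases lt_or_gt_of_ne h1 with h | h
  · rw [List.getD_append _ _ _ _ (by rw [pre_length]; exact h), getD_pre B h]
  · rw [List.getD_append_right _ _ _ _ (by rw [pre_length]; omega), pre_length,
      List.getD_append_right _ _ _ _ (by rw [List.length_singleton]; omega), List.length_singleton]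
    unfold win
    rw [getD_pre _ (by omega)]
    congr 1
    omega

theorem exists_stop {pos : ℕ → ℕ} (hinj : Function.Injective pos) (n g : ℕ) :
    ∃ t, t ≤ n + g ∧ (pos t = n ∨ n + g < pos t) := by
  by_contra hcon
  push Not at hcon
  have h1 : ((Finset.range (n + g + 1)).image pos) ⊆ (Finset.range (n + g + 1)).erase n := by
    intro x hx
    obtain ⟨t, ht, rfl⟩ := Finset.mem_image.1 hx
    have h2 := hcon t (by have := Finset.mem_range.1 ht; omega)
    rw [Finset.mem_erase, Finset.mem_range]
    exact ⟨h2.1, by omega⟩
  have h2 := Finset.card_le_card h1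
  rw [Finset.card_image_of_injective _ hinj, Finset.card_erase_of_mem (by rw [Finset.mem_range]; omega),
    Finset.card_range] at h2
  omega

section spec

variable {r : List Bool → ℕ × Bool} {B : ℕ → Bool} {pos : ℕ → ℕ} {sel : ℕ → Bool}

theorem simIter_before (hstep : ∀ k, r (pre (fun i => B (pos i)) k) = (pos k, sel k)) {n g : ℕ} (t : ℕ)
    (h : ∀ i < t, pos i ≠ n ∧ pos i ≤ n + g) :
    simIter r g n (pre B n ++ ([false] ++ win B (n + 1) g)) t = (pre (fun i => B (pos i)) t, 0) := by
  induction t with
  | zero => rfl
  | succ t ih =>
    have h1 := h t (Nat.lt_succ_self t)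
    have h2 : simIter r g n (pre B n ++ ([false] ++ win B (n + 1) g)) (t + 1) =
        simStep r g n (pre B n ++ ([false] ++ win B (n + 1) g))
          (simIter r g n (pre B n ++ ([false] ++ win B (n + 1) g)) t) := rfl
    rw [h2, ih fun i hi => h i (by omega)]
    unfold simStep
    simp only [hstep]
    rw [decide_true, cond_true, decide_eq_false h1.1, cond_false, decide_eq_false (by omega), cond_false,
      getD_oracle B h1.1 h1.2, pre_succ]

theorem simIter_after (hstep : ∀ k, r (pre (fun i => B (pos i)) k) = (pos k, sel k)) {n g K : ℕ}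
    (h : ∀ i < K, pos i ≠ n ∧ pos i ≤ n + g) (hK : pos K = n ∨ n + g < pos K) (d : ℕ) :
    (simIter r g n (pre B n ++ ([false] ++ win B (n + 1) g)) (K + 1 + d)).2 =
      if pos K = n ∧ sel K = true then 2 else 1 := by
  induction d with
  | zero =>
    have h2 : simIter r g n (pre B n ++ ([false] ++ win B (n + 1) g)) (K + 1 + 0) =
        simStep r g n (pre B n ++ ([false] ++ win B (n + 1) g))
          (simIter r g n (pre B n ++ ([false] ++ win B (n + 1) g)) K) := rfl
    rw [h2, simIter_before hstep K h]
    unfold simStep
    simp only [hstep]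
    rw [decide_true, cond_true]
    by_cases h3 : pos K = n
    · rw [decide_eq_true h3, cond_true]
      by_cases h4 : sel K = true
      · rw [if_pos ⟨h3, h4⟩, h4, cond_true]
      · rw [if_neg (fun hc => h4 hc.2)]
        rw [Bool.not_eq_true] at h4
        rw [h4, cond_false]
    · rw [if_neg (fun hc => h3 hc.1), decide_eq_false h3, cond_false,
        decide_eq_true (hK.resolve_left h3), cond_true]
  | succ d ih =>
    have h2 : simIter r g n (pre B n ++ ([false] ++ win B (n + 1) g)) (K + 1 + (d + 1)) =
        simStep r g n (pre B n ++ ([false] ++ win B (n + 1) g))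
          (simIter r g n (pre B n ++ ([false] ++ win B (n + 1) g)) (K + 1 + d)) := rfl
    rw [h2]
    unfold simStep
    have h3 : (simIter r g n (pre B n ++ ([false] ++ win B (n + 1) g)) (K + 1 + d)).2 ≠ 0 := by
      rw [ih]
      split_ifs <;> norm_num
    rw [decide_eq_false h3, cond_false, ih]

theorem sim_spec (hstep : ∀ k, r (pre (fun i => B (pos i)) k) = (pos k, sel k)) (hinj : Function.Injective pos)
    {g : ℕ} (hlag : ∀ k, sel k = true → ∀ i < k, pos i ≤ pos k + g) (n : ℕ) :
    sim r g (win B (n + 1) g) (pre B n) = true ↔ ∃ k, pos k = n ∧ sel k = true := by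
  classical
  have hex := exists_stop hinj n g
  have hex' : ∃ t, pos t = n ∨ n + g < pos t := ⟨hex.choose, hex.choose_spec.2⟩
  set K := Nat.find hex' with hKdef
  have hK : pos K = n ∨ n + g < pos K := Nat.find_spec hex'
  have hKle : K ≤ n + g := (Nat.find_le hex.choose_spec.2).trans hex.choose_spec.1
  have hmin : ∀ i < K, pos i ≠ n ∧ pos i ≤ n + g := by
    intro i hi
    have h1 := Nat.find_min hex' hi
    push Not at h1
    exact h1
  have h1 := simIter_after hstep hmin hK (n + g - K)
  have h2 : K + 1 + (n + g - K) = n + g + 1 := by omega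
  rw [h2] at h1
  unfold sim
  rw [pre_length, h1, decide_eq_true_iff]
  constructor
  · intro h
    by_cases h3 : pos K = n ∧ sel K = true
    · exact ⟨K, h3⟩
    · rw [if_neg h3] at h
      exact absurd h (by norm_num)
  · rintro ⟨k, hk, hs⟩
    have h3 : k = K := by
      rcases lt_trichotomy k K with h | h | h
      · exact absurd hk (hmin k h).1
      · exact h
      · have h4 := hlag k hs K h
        rw [hk] at h4
        have h5 : pos K = n := hK.resolve_right (by omega)
        exact hinj (hk.trans h5.symm)
    rw [if_pos (by rw [← h3]; exact ⟨hk, hs⟩)]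

end spec

end H51L
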