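import Mathlib
import Pool.Agent.Lib.H69K.Comp

/-!
# Lag threshold: the stages and the two rules
-/

open Filter

namespace H51L

/-- The largest `k` with `c k ≤ l` (or `0`). -/
def kap (c : ℕ → ℕ) : ℕ → ℕ
  | 0 => 0
  | l + 1 => if c (kap c l + 1) ≤ l + 1 then kap c l + 1 else kap c l

theorem kap_spec {c : ℕ → ℕ} (hc : StrictMono c) (l : ℕ) :
    (kap c l = 0 ∨ c (kap c l) ≤ l) ∧ l < c (kap c l + 1) := by
  induction l with
  | zero =>
    refine ⟨Or.inl rfl, ?_⟩
    have h1 := hc (Nat.lt_succ_self (kap c 0))
    exact lt_of_le_of_lt (Nat.zero_le _) h1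
  | succ l ih =>
    rw [kap]
    split_ifs with h
    · have h1 : c (kap c l + 1) = l + 1 := by omega
      refine ⟨Or.inr h1.le, ?_⟩
      rw [← h1]
      exact hc (Nat.lt_succ_self _)
    · refine ⟨?_, by omega⟩
      rcases ih.1 with h1 | h1
      · exact Or.inl h1
      · exact Or.inr (by omega)

theorem kap_eq {c : ℕ → ℕ} (hc : StrictMono c) {a l : ℕ} (h : c a ≤ l) (h' : l < c (a + 1)) : kap c l = a := by
  obtain ⟨h1, h2⟩ := kap_spec hc l
  rcases lt_trichotomy (kap c l) a with h3 | h3 | h3
  · have := hc.monotone (show kap c l + 1 ≤ a from h3)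
    omega
  · exact h3
  · have h4 := hc.monotone (show a + 1 ≤ kap c l from h3)
    rcases h1 with h1 | h1 <;> omega

theorem kap_mono (c : ℕ → ℕ) : Monotone (kap c) := by
  refine monotone_nat_of_le_succ fun l => ?_
  rw [kap]
  split_ifs <;> omega

theorem computable_kap {c : ℕ → ℕ} (hc : Computable c) : Computable (kap c) := by
  have h1 : Computable fun l : ℕ => (Nat.rec 0 (fun y IH => bif decide (c (IH + 1) ≤ y + 1) then IH + 1 else IH) l : ℕ) := by
    refine Computable.nat_rec (f := fun l : ℕ => l) (g := fun _ => 0)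
      (h := fun _ q => bif decide (c (q.2 + 1) ≤ q.1 + 1) then q.2 + 1 else q.2) Computable.id (Computable.const 0) ?_
    have h2 : Computable fun q : ℕ × (ℕ × ℕ) => q.2.2 := Computable.snd.comp Computable.snd
    have h3 : Computable fun q : ℕ × (ℕ × ℕ) => q.2.2 + 1 := Computable.succ.comp h2
    have h4 : Computable fun q : ℕ × (ℕ × ℕ) => q.2.1 + 1 := Computable.succ.comp (Computable.fst.comp Computable.snd)
    have hle : Computable₂ fun a b : ℕ => decide (a ≤ b) := Primrec.nat_le.decide.to_comp
    exact Computable.cond (hle.comp (hc.comp h3) h4) h3 h2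
  refine h1.of_eq fun l => ?_
  induction l with
  | zero => rfl
  | succ l ih =>
    rw [kap, ← ih]
    show (bif decide _ then _ else _) = _
    rw [Bool.cond_decide]

/-- The powers of two. -/
def pw (a : ℕ) : ℕ := 2 ^ a

theorem pw_strictMono : StrictMono pw := fun _ _ h => Nat.pow_lt_pow_right (by norm_num) h

theorem computable_pw : Computable pw := H69K.primrec_pow2.to_comp

section

variable (H : ℕ → ℕ)

/-- The header of the stage `a` in the selected sequence. -/
def cc (a : ℕ) : ℕ := 2 ^ a + H a

/-- The place of the `m`-th bit that belongs to a stage. -/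
def emb (m : ℕ) : ℕ := m + H (kap pw m)

variable {H}

theorem cc_add (hH : Monotone H) (a : ℕ) : cc H a + 2 ^ a ≤ cc H (a + 1) := by
  unfold cc
  have := hH (show a ≤ a + 1 by omega)
  rw [pow_succ]
  omega

theorem cc_strictMono (hH : Monotone H) : StrictMono (cc H) := by
  refine strictMono_nat_of_lt_succ fun a => ?_
  have h1 := cc_add hH a
  have h2 : 0 < 2 ^ a := by positivity
  omega

theorem computable_cc (hH : Computable H) : Computable (cc H) :=
  Primrec.nat_add.to_comp.comp computable_pw hH

theorem computable_emb (hH : Computable H) : Computable (emb H) :=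
  Primrec.nat_add.to_comp.comp Computable.id (hH.comp (computable_kap computable_pw))

theorem kap_pw {a j : ℕ} (h : j < 2 ^ a) : kap pw (2 ^ a + j) = a := by
  refine kap_eq pw_strictMono (Nat.le_add_right _ _) ?_
  unfold pw
  rw [pow_succ]
  omega

theorem emb_eq {a j : ℕ} (h : j < 2 ^ a) : emb H (2 ^ a + j) = cc H a + j := by
  unfold emb cc
  rw [kap_pw h]
  omega

theorem emb_strictMono (hH : Monotone H) : StrictMono (emb H) := by
  intro m m' h
  unfold emb
  have := hH (kap_mono pw h.le)
  omega

theorem kap_cc (hH : Monotone H) {a j : ℕ} (h : j < 2 ^ a) : kap (cc H) (cc H a + j) = a := by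
  refine kap_eq (cc_strictMono hH) (Nat.le_add_right _ _) ?_
  have := cc_add hH a
  omega

/-! ## The first rule -/

variable (H)

/-- The place `l` of the selected sequence is in the block of a stage. -/
def inBlock (l : ℕ) : Bool := decide (cc H (kap (cc H) l) < l) && decide (l < cc H (kap (cc H) l) + 2 ^ kap (cc H) l)

/-- The first rule: the place. -/
def r1 (w : List Bool) : ℕ :=
  bif inBlock H w.length then 3 * w.length + 1 + (w.getD (cc H (kap (cc H) w.length)) false).toNat else 3 * w.length

/-- The places of the first rule on `X`. -/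
def pos1 (X : ℕ → Bool) (l : ℕ) : ℕ :=
  bif inBlock H l then 3 * l + 1 + (X (3 * cc H (kap (cc H) l))).toNat else 3 * l

/-- The sequence selected by the first rule. -/
def B1 (X : ℕ → Bool) (l : ℕ) : Bool := X (pos1 H X l)

variable {H}

theorem computable_r1 (hc : Computable H) : Computable (r1 H) := by
  have hk : Computable fun w : List Bool => kap (cc H) w.length :=
    (computable_kap (computable_cc hc)).comp Computable.list_length
  have hck : Computable fun w : List Bool => cc H (kap (cc H) w.length) := (computable_cc hc).comp hk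
  have hl : Computable fun w : List Bool => w.length := Computable.list_length
  have hlt : Computable₂ fun a b : ℕ => decide (a < b) := Primrec.nat_lt.decide.to_comp
  have hadd : Computable₂ fun a b : ℕ => a + b := Primrec.nat_add.to_comp
  have hpw : Computable fun w : List Bool => 2 ^ kap (cc H) w.length := H69K.primrec_pow2.to_comp.comp hk
  have hin : Computable fun w : List Bool => inBlock H w.length :=
    Primrec.and.to_comp.comp (hlt.comp hck hl) (hlt.comp hl (hadd.comp hck hpw))
  have h3 : Computable fun w : List Bool => 3 * w.length := (Primrec.nat_mul.comp (Primrec.const 3) Primrec.list_length).to_comp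
  have hget : Computable fun w : List Bool => w.getD (cc H (kap (cc H) w.length)) false :=
    (Primrec.list_getD false).to_comp.comp Computable.id hck
  have htn : Computable fun b : Bool => b.toNat := (Primrec.dom_bool _).to_comp
  exact Computable.cond hin (hadd.comp (Computable.succ.comp h3) (htn.comp hget)) h3

theorem inBlock_cc (hH : Monotone H) (a : ℕ) : inBlock H (cc H a) = false := by
  unfold inBlock
  have h := kap_cc hH (a := a) (j := 0) (by positivity)
  rw [add_zero] at h
  rw [h, decide_eq_false (lt_irrefl _), Bool.false_and]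

theorem inBlock_block (hH : Monotone H) {a i : ℕ} (hi : i < 2 ^ a - 1) : inBlock H (cc H a + 1 + i) = true := by
  unfold inBlock
  have h : kap (cc H) (cc H a + 1 + i) = a := by
    rw [add_assoc]
    exact kap_cc hH (by omega)
  rw [h, decide_eq_true (by omega), decide_eq_true (by omega), Bool.and_self]

theorem pos1_lt (X : ℕ → Bool) (l : ℕ) : 3 * l ≤ pos1 H X l ∧ pos1 H X l < 3 * (l + 1) := by
  unfold pos1
  cases inBlock H l with
  | true =>
    have := Bool.toNat_le (X (3 * cc H (kap (cc H) l)))
    rw [cond_true]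
    omega
  | false =>
    rw [cond_false]
    omega

theorem pos1_strictMono (X : ℕ → Bool) : StrictMono (pos1 H X) := by
  refine strictMono_nat_of_lt_succ fun l => ?_
  exact lt_of_lt_of_le (pos1_lt X l).2 (pos1_lt X (l + 1)).1

theorem B1_cc (hH : Monotone H) (X : ℕ → Bool) (a : ℕ) : B1 H X (cc H a) = X (3 * cc H a) := by
  unfold B1 pos1
  rw [inBlock_cc hH, cond_false]

theorem B1_block (hH : Monotone H) (X : ℕ → Bool) {a i : ℕ} (hi : i < 2 ^ a - 1) :
    B1 H X (cc H a + 1 + i) = X (3 * (cc H a + 1 + i) + 1 + (X (3 * cc H a)).toNat) := by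
  unfold B1 pos1
  have h : kap (cc H) (cc H a + 1 + i) = a := by
    rw [add_assoc]
    exact kap_cc hH (by omega)
  rw [inBlock_block hH hi, cond_true, h]

theorem run1 (hH : Monotone H) (X : ℕ → Bool) (l : ℕ) :
    r1 H (List.ofFn fun i : Fin l => X (pos1 H X i)) = pos1 H X l := by
  unfold r1
  rw [List.length_ofFn]
  cases hb : inBlock H l with
  | false =>
    unfold pos1
    rw [hb, cond_false, cond_false]
  | true =>
    have hlt : cc H (kap (cc H) l) < l := by
      unfold inBlock at hb
      rw [Bool.and_eq_true, decide_eq_true_iff, decide_eq_true_iff] at hb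
      exact hb.1
    rw [cond_true, List.getD_eq_getElem _ _ (by rw [List.length_ofFn]; exact hlt), List.getElem_ofFn]
    have h2 := B1_cc hH X (kap (cc H) l)
    unfold B1 at h2
    show 3 * l + 1 + (X (pos1 H X (cc H (kap (cc H) l)))).toNat = pos1 H X l
    rw [h2]
    unfold pos1
    rw [hb, cond_true]

/-! ## The second rule -/

variable (H)

/-- The second rule. -/
def r2 (w : List Bool) : ℕ × Bool := (emb H (H69K.f2 w).1, (H69K.f2 w).2)

/-- The places of the second rule. -/
def pos2 (t : ℕ) : ℕ := emb H (H69K.pos2 t)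

variable {H}

theorem computable_r2 (hc : Computable H) : Computable (r2 H) :=
  ((computable_emb hc).comp (Computable.fst.comp H69K.primrec_f2.to_comp)).pair
    (Computable.snd.comp H69K.primrec_f2.to_comp)

theorem pos2_injective (hH : Monotone H) : Function.Injective (pos2 H) :=
  (emb_strictMono hH).injective.comp H69K.pos2_injective

theorem run2 (B : ℕ → Bool) (t : ℕ) :
    r2 H (List.ofFn fun i : Fin t => B (pos2 H i)) = (pos2 H t, H69K.sel2 (fun m => B (emb H m)) t) := by
  unfold r2
  have h := H69K.run2 (fun m => B (emb H m)) t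
  have h1 : H69K.f2 (List.ofFn fun i : Fin t => B (pos2 H i)) =
      (H69K.pos2 t, H69K.sel2 (fun m => B (emb H m)) t) := Part.some_inj.1 h
  rw [h1]
  rfl

/-- The decision of the second rule at the end of stage `a`. -/
theorem sel2_stage (Y : ℕ → Bool) (a : ℕ) :
    H69K.sel2 Y (2 ^ (a + 1) - 1) = decide (2 ^ a - 1 <
      2 * ((Finset.range (2 ^ a - 1)).filter fun i => Y (2 ^ a + 1 + i) = true).card) := by
  have h1 : 2 ^ (a + 1) - 1 + 1 = 2 ^ (a + 1) := Nat.sub_add_cancel Nat.one_le_two_pow
  have h2 : 2 ^ (a + 1) / 2 = 2 ^ a := by rw [pow_succ]; omega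
  have h3 : ((Finset.Ico (2 ^ a + 1) (2 ^ (a + 1))).filter (fun i => Y i = true)).card =
      ((Finset.range (2 ^ a - 1)).filter fun i => Y (2 ^ a + 1 + i) = true).card := by
    have h4 : Finset.Ico (2 ^ a + 1) (2 ^ (a + 1)) = (Finset.range (2 ^ a - 1)).image fun i => 2 ^ a + 1 + i := by
      ext x
      rw [Finset.mem_Ico, Finset.mem_image]
      constructor
      · rintro ⟨h5, h6⟩
        refine ⟨x - (2 ^ a + 1), Finset.mem_range.2 ?_, by omega⟩
        rw [pow_succ] at h6
        omega
      · rintro ⟨i, hi, rfl⟩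
        rw [Finset.mem_range] at hi
        rw [pow_succ]
        omega
    rw [h4, Finset.filter_image, Finset.card_image_of_injective _ fun i j h => by
      have h5 : 2 ^ a + 1 + i = 2 ^ a + 1 + j := h
      omega]
  unfold H69K.sel2 H69K.f2
  rw [List.length_ofFn, h1, if_pos (H69K.PP_two_pow _), h2]
  show decide _ = decide _
  rw [H69K.filter_drop_ofFn (fun i => Y (H69K.pos2 i)), H69K.card_block, h3]

theorem sel2_true (Y : ℕ → Bool) {t : ℕ} (h : H69K.sel2 Y t = true) : ∃ a, t = 2 ^ (a + 1) - 1 := by
  have h1 : H69K.PP (t + 1) := by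
    by_contra hcon
    unfold H69K.sel2 H69K.f2 at h
    rw [List.length_ofFn, if_neg hcon] at h
    exact Bool.noConfusion h
  obtain ⟨c, hc⟩ := H69K.PP_iff.1 h1
  rcases c with _ | a
  · exfalso
    have h2 : t = 0 := by
      rw [pow_zero] at hc
      omega
    rw [h2] at h
    have h3 : H69K.sel2 Y 0 = false := by
      unfold H69K.sel2 H69K.f2
      rw [List.length_ofFn]
      have : H69K.PP (0 + 1) := H69K.PP_iff.2 ⟨0, rfl⟩
      rw [if_pos this]
      rfl
    rw [h3] at h
    exact Bool.noConfusion h
  · exact ⟨a, by omega⟩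

theorem pos2_stage (a : ℕ) : pos2 H (2 ^ (a + 1) - 1) = cc H a := by
  unfold pos2
  rw [H69K.pos2_block]
  have h := emb_eq (H := H) (a := a) (j := 0) (by positivity)
  rwa [add_zero, add_zero] at h

/-- The lag of the second rule. -/
theorem pos2_lt (hH : Monotone H) {a t : ℕ} (ht : t < 2 ^ (a + 1) - 1) : pos2 H t < cc H a + 2 ^ a := by
  have h1 : H69K.pos2 t < 2 ^ (a + 1) := by
    unfold H69K.pos2
    split_ifs <;> omega
  have h2 : H69K.pos2 t ≤ 2 ^ a + (2 ^ a - 1) := by
    rw [pow_succ] at h1
    omega
  have h3 := (emb_strictMono hH).monotone h2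
  have h4 : 2 ^ a - 1 < 2 ^ a := by
    have : 0 < 2 ^ a := by positivity
    omega
  rw [emb_eq h4] at h3
  unfold pos2
  omega

end

end H51L
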