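import Pool.Agent.Lib.H51L.Lag

/-!
# Lag threshold: chains of rules of bounded lag, rules of tight lag
-/

open Filter

namespace H51L

section chain

variable {r : List Bool → ℕ × Bool} {B : ℕ → Bool} {pos : ℕ → ℕ} {sel : ℕ → Bool} {g : ℕ}

/-- Bounded lag preserves the property `Mono`. -/
theorem mono_of_lag (hB : Mono B) (hr : Computable r) (h : Run (fun w => Part.some (r w)) B pos sel)
    (hlag : ∀ k, sel k = true → ∀ i < k, pos i ≤ pos k + g) : Mono (selSeq B pos sel) := by
  intro D hD hinf
  obtain ⟨h1, h2⟩ := run_subF h hinf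
  rw [subF_total] at h1
  have h3 := lln_of_lag hB (computable_subR hr hD) h1 (g := g) fun k hk i hi => by
    unfold subSel at hk
    rw [Bool.and_eq_true] at hk
    exact hlag k hk.1 i hi
  rwa [h2] at h3

end chain

/-- The maximum of the places inspected so far. -/
def mx (r : List Bool → ℕ × Bool) (w : List Bool) : ℕ :=
  Nat.rec 0 (fun y IH => max IH (r (w.take y)).1) w.length

theorem computable_mx {r : List Bool → ℕ × Bool} (hr : Computable r) : Computable (mx r) := by
  refine Computable.nat_rec (f := fun w : List Bool => w.length) (g := fun _ => 0)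
    (h := fun w q => max q.2 (r (w.take q.1)).1) Computable.list_length (Computable.const 0) ?_
  have h1 : Computable fun q : List Bool × (ℕ × ℕ) => q.1.take q.2.1 :=
    (Primrec.list_take.comp (Primrec.fst.comp Primrec.snd) Primrec.fst).to_comp
  exact Primrec.nat_max.to_comp.comp (Computable.snd.comp Computable.snd) (Computable.fst.comp (hr.comp h1))

/-- The rule `r`, with the selection only of places of lag `≤ g`. -/
def trunc (r : List Bool → ℕ × Bool) (g : ℕ) (w : List Bool) : ℕ × Bool :=
  ((r w).1, (r w).2 && decide (mx r w ≤ (r w).1 + g))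

theorem computable_trunc {r : List Bool → ℕ × Bool} (hr : Computable r) (g : ℕ) : Computable (trunc r g) := by
  have h1 : Computable fun w => (r w).1 := Computable.fst.comp hr
  have h2 : Computable fun w => decide (mx r w ≤ (r w).1 + g) :=
    Primrec.nat_le.decide.to_comp.comp (computable_mx hr) (Primrec.nat_add.to_comp.comp h1 (Computable.const g))
  exact h1.pair (Primrec.and.to_comp.comp (Computable.snd.comp hr) h2)

/-- No place `> pos k + g` is inspected before step `k`. -/
def Near (pos : ℕ → ℕ) (g k : ℕ) : Prop := ∀ i < k, pos i ≤ pos k + g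

/-- **Tight lag**: for every `ε > 0` there is `g` such that among the first `m` selected places at most `ε m` have lag
`> g`, for all large `m`. -/
def Tight (pos : ℕ → ℕ) (sel : ℕ → Bool) : Prop :=
  open Classical in
  ∀ ε : ℝ, 0 < ε → ∃ g m₀ : ℕ, ∀ m ≥ m₀,
    (((Finset.range m).filter fun j => ¬ Near pos g (Nat.nth (fun k => sel k = true) j)).card : ℝ) ≤ ε * m

section tight

variable {r : List Bool → ℕ × Bool} {B : ℕ → Bool} {pos : ℕ → ℕ} {sel : ℕ → Bool}

theorem mx_run (hstep : ∀ k, r (pre (fun i => B (pos i)) k) = (pos k, sel k)) (c k : ℕ) :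
    mx r (pre (fun i => B (pos i)) k) ≤ c ↔ ∀ i < k, pos i ≤ c := by
  unfold mx
  rw [pre_length]
  have key : ∀ y, y ≤ k → ((Nat.rec 0 (fun y IH => max IH (r ((pre (fun i => B (pos i)) k).take y)).1) y : ℕ) ≤ c ↔
      ∀ i < y, pos i ≤ c) := by
    intro y
    induction y with
    | zero =>
      intro _
      simp
    | succ y ih =>
      intro hy
      show max (Nat.rec (motive := fun _ => ℕ) 0 _ y) _ ≤ c ↔ _
      rw [max_le_iff, ih (by omega), take_pre _ (by omega : y ≤ k), hstep]
      constructor
      · rintro ⟨h1, h2⟩ i hi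
        rcases Nat.lt_succ_iff_lt_or_eq.1 hi with h3 | rfl
        · exact h1 i h3
        · exact h2
      · intro h1
        exact ⟨fun i hi => h1 i (by omega), h1 y (by omega)⟩
  exact key k le_rfl

open Classical in
theorem trunc_run (hstep : ∀ k, r (pre (fun i => B (pos i)) k) = (pos k, sel k)) (g k : ℕ) :
    trunc r g (pre (fun i => B (pos i)) k) = (pos k, sel k && decide (Near pos g k)) := by
  unfold trunc
  rw [hstep]
  have h1 : decide (mx r (pre (fun i => B (pos i)) k) ≤ pos k + g) = decide (Near pos g k) := by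
    rw [decide_eq_decide]
    exact mx_run hstep (pos k + g) k
  simp only [h1]

/-- A total computable rule of tight lag selects from `B` only sequences with the law of large numbers. -/
theorem lln_of_tight (hB : Mono B) (hr : Computable r) (h : Run (fun w => Part.some (r w)) B pos sel)
    (ht : Tight pos sel) : LLN (selSeq B pos sel) := by
  classical
  have hstep : ∀ k, r (pre (fun i => B (pos i)) k) = (pos k, sel k) := by
    intro k
    have h1 := h.step k
    rw [ofFn_eq_pre (fun i => B (pos i)) k] at h1
    exact Part.some_inj.1 h1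
  unfold LLN
  rw [Metric.tendsto_atTop]
  intro δ hδ
  obtain ⟨g, m₀, hg⟩ := ht (min (δ / 4) (1 / 2)) (lt_min (by positivity) (by norm_num))
  set selG : ℕ → Bool := fun k => sel k && decide (Near pos g k) with hselG
  set q : ℕ → ℕ := Nat.nth (fun k => sel k = true) with hq
  have hG : ∀ k, selG k = true ↔ sel k = true ∧ Near pos g k := by
    intro k
    simp only [hselG, Bool.and_eq_true, decide_eq_true_eq]
  have hcount : ∀ (Q : ℕ → Prop) [DecidablePred Q] (m : ℕ), Nat.count (fun k => sel k = true ∧ Q k) (q m) =
      ((Finset.range m).filter fun j => Q (q j)).card := by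
    intro Q _ m
    rw [count_and (fun k => sel k = true) Q, hq, Nat.count_nth_of_infinite h.inf]
  set bad : ℕ → ℕ := fun m => ((Finset.range m).filter fun j => ¬ Near pos g (q j)).card with hbad
  have hgood : ∀ m, Nat.count (fun k => selG k = true) (q m) + bad m = m := by
    intro m
    have h1 : Nat.count (fun k => selG k = true) (q m) = ((Finset.range m).filter fun j => Near pos g (q j)).card := by
      rw [← hcount (fun k => Near pos g k)]
      congr 1
      funext k
      exact propext (hG k)
    rw [h1]
    have h2 := Finset.card_filter_add_card_filter_not (s := Finset.range m) (fun j => Near pos g (q j))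
    rw [Finset.card_range] at h2
    exact h2
  have hbadle : ∀ m ≥ m₀, (bad m : ℝ) ≤ δ / 4 * m ∧ (bad m : ℝ) ≤ 1 / 2 * m := by
    intro m hm
    have h1 := hg m hm
    have h2 : (0 : ℝ) ≤ m := Nat.cast_nonneg m
    exact ⟨h1.trans (mul_le_mul_of_nonneg_right (min_le_left _ _) h2),
      h1.trans (mul_le_mul_of_nonneg_right (min_le_right _ _) h2)⟩
  have hhalf : ∀ m ≥ m₀, (m : ℝ) ≤ 2 * (Nat.count (fun k => selG k = true) (q m) : ℝ) := by
    intro m hm
    have h1 := (hbadle m hm).2
    have h2 : ((Nat.count (fun k => selG k = true) (q m) + bad m : ℕ) : ℝ) = m := by rw [hgood m]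
    push_cast at h2
    linarith
  have hinfG : Set.Infinite {k : ℕ | selG k = true} := by
    intro hfin
    have h1 : ∀ n, Nat.count (fun k => selG k = true) n ≤ hfin.toFinset.card := fun n => Nat.count_le_card hfin n
    have h2 := hhalf (max m₀ (2 * hfin.toFinset.card + 1)) (le_max_left _ _)
    have h3 : (Nat.count (fun k => selG k = true) (q (max m₀ (2 * hfin.toFinset.card + 1))) : ℝ) ≤
        hfin.toFinset.card := by exact_mod_cast h1 _
    have h4 : ((2 * hfin.toFinset.card + 1 : ℕ) : ℝ) ≤ (max m₀ (2 * hfin.toFinset.card + 1) : ℕ) := by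
      exact_mod_cast le_max_right _ _
    push_cast at h4 h2
    linarith
  have hrunG : Run (fun w => Part.some (trunc r g w)) B pos selG := by
    refine ⟨fun k => ?_, h.inj, hinfG⟩
    show Part.some (trunc r g (List.ofFn fun i : Fin k => B (pos i))) = Part.some (pos k, selG k)
    rw [ofFn_eq_pre (fun i => B (pos i)) k, trunc_run hstep]
  have hL := lln_of_lag hB (computable_trunc hr g) hrunG (g := g) fun k hk => ((hG k).1 hk).2
  unfold LLN at hL
  rw [Metric.tendsto_atTop] at hL
  obtain ⟨M0, hM0⟩ := hL (δ / 4) (by positivity)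
  refine ⟨max m₀ (2 * M0 + 1), fun m hm => ?_⟩
  have hm1 : m₀ ≤ m := (le_max_left _ _).trans hm
  have hm2 : 2 * M0 + 1 ≤ m := (le_max_right _ _).trans hm
  have hmpos : (0 : ℝ) < m := by
    have : 0 < m := by omega
    exact_mod_cast this
  set M := Nat.count (fun k => selG k = true) (q m) with hM
  have e1 := hhalf m hm1
  have hMM0 : M0 ≤ M := by
    have h1 : ((2 * M0 + 1 : ℕ) : ℝ) ≤ m := by exact_mod_cast hm2
    push_cast at h1
    have h2 : (2 * M0 : ℝ) ≤ 2 * M := by linarith
    have h3 : (M0 : ℝ) ≤ M := by linarith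
    exact_mod_cast h3
  have hMpos : (0 : ℝ) < M := by linarith
  have e2 := hM0 M hMM0
  rw [Real.dist_eq] at e2
  set x := ((Finset.range M).filter fun j => selSeq B pos selG j = true).card with hx
  have e3 : |(x : ℝ) - M / 2| ≤ δ / 4 * M := by
    have h4 : (x : ℝ) - M / 2 = ((x : ℝ) / M - 1 / 2) * M := by field_simp
    rw [h4, abs_mul, abs_of_pos hMpos]
    exact mul_le_mul_of_nonneg_right e2.le hMpos.le
  have hxx : x = ((Finset.range m).filter fun j => Near pos g (q j) ∧ B (pos (q j)) = true).card := by
    rw [← hcount (fun k => Near pos g k ∧ B (pos k) = true)]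
    have h1 := count_and (fun k => selG k = true) (fun k => B (pos k) = true) (q m)
    rw [hx]
    unfold selSeq
    rw [← h1]
    congr 1
    funext k
    refine propext ?_
    rw [hG k, and_assoc]
  set y := ((Finset.range m).filter fun j => ¬ Near pos g (q j) ∧ B (pos (q j)) = true).card with hy
  have hxy : ((Finset.range m).filter fun j => selSeq B pos sel j = true).card = x + y := by
    have h1 := Finset.card_filter_add_card_filter_not
      (s := (Finset.range m).filter fun j => B (pos (q j)) = true) (fun j => Near pos g (q j))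
    rw [Finset.filter_filter, Finset.filter_filter] at h1
    have h2 : ((Finset.range m).filter fun j => B (pos (q j)) = true ∧ Near pos g (q j)).card = x := by
      rw [hxx]
      congr 1
      exact Finset.filter_congr fun j _ => and_comm
    have h3 : ((Finset.range m).filter fun j => B (pos (q j)) = true ∧ ¬ Near pos g (q j)).card = y := by
      rw [hy]
      congr 1
      exact Finset.filter_congr fun j _ => and_comm
    rw [h2, h3] at h1
    exact h1.symm
  have hyb : y ≤ bad m := by
    rw [hy, hbad]
    refine Finset.card_le_card fun j hj => ?_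
    rw [Finset.mem_filter] at hj ⊢
    exact ⟨hj.1, hj.2.1⟩
  rw [hxy]
  have f1 := (hbadle m hm1).1
  have f2 : (y : ℝ) ≤ bad m := by exact_mod_cast hyb
  have f3 : (0 : ℝ) ≤ y := Nat.cast_nonneg _
  have f4 : (M : ℝ) + bad m = m := by exact_mod_cast hgood m
  have f5 : (0 : ℝ) ≤ bad m := Nat.cast_nonneg _
  have f6 : |((x + y : ℕ) : ℝ) - m / 2| ≤ δ / 2 * m := by
    push_cast
    have h1 : δ / 4 * (M : ℝ) ≤ δ / 4 * m := mul_le_mul_of_nonneg_left (by linarith) (by positivity)
    rw [abs_le] at e3 ⊢
    constructor <;> linarith [e3.1, e3.2]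
  rw [Real.dist_eq]
  have h4 : ((x + y : ℕ) : ℝ) / m - 1 / 2 = (((x + y : ℕ) : ℝ) - (m : ℝ) / 2) / m := by field_simp
  rw [h4, abs_div, abs_of_pos hmpos, div_lt_iff₀ hmpos]
  have : δ / 2 * (m : ℝ) < δ * m := by nlinarith
  linarith

end tight

end H51L
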