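import Pool.Agent.Lib.H51L.Mono

/-!
# Lag threshold: frequencies of windows
-/

open Filter

namespace H51L

theorem count_and (P Q : ℕ → Prop) [DecidablePred P] [DecidablePred Q] (N : ℕ) :
    Nat.count (fun n => P n ∧ Q n) N =
      ((Finset.range (Nat.count P N)).filter (fun j => Q (Nat.nth P j))).card := by
  induction N with
  | zero => simp
  | succ N ih =>
    rw [Nat.count_succ, Nat.count_succ, ih]
    by_cases hP : P N
    · rw [if_pos hP, Finset.range_add_one, Finset.filter_insert, Nat.nth_count hP]
      by_cases hQ : Q N
      · rw [if_pos ⟨hP, hQ⟩, if_pos hQ, Finset.card_insert_of_notMem (by simp)]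
      · rw [if_neg (fun h => hQ h.2), if_neg hQ, add_zero]
    · rw [if_neg hP, if_neg (fun h => hP h.1), add_zero, add_zero]

theorem small_one {B : ℕ → Bool} (hB : Mono B) {D : List Bool → Bool} (hD : Computable D) (ε : ℝ) (hε : 0 < ε) :
    ∃ C : ℝ, ∀ N : ℕ, |(Nat.count (fun n => D (pre B n) = true ∧ B n = true) N : ℝ) -
      (Nat.count (fun n => D (pre B n) = true) N : ℝ) / 2| ≤
      ε * (Nat.count (fun n => D (pre B n) = true) N : ℝ) + C := by
  have hbd : ∀ m : ℕ, ∀ Q : ℕ → Prop, [DecidablePred Q] → |(((Finset.range m).filter Q).card : ℝ) - (m : ℝ) / 2| ≤ m := by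
    intro m Q _
    have h1 : ((Finset.range m).filter Q).card ≤ m := by
      refine (Finset.card_filter_le _ _).trans ?_
      rw [Finset.card_range]
    have h2 : (((Finset.range m).filter Q).card : ℝ) ≤ m := by exact_mod_cast h1
    have h3 : (0 : ℝ) ≤ (((Finset.range m).filter Q).card : ℝ) := Nat.cast_nonneg _
    rw [abs_le]
    constructor <;> linarith
  by_cases hinf : Set.Infinite {n : ℕ | D (pre B n) = true}
  · have h1 := hB D hD hinf
    unfold LLN at h1
    rw [Metric.tendsto_atTop] at h1
    obtain ⟨m0, hm0⟩ := h1 ε hε
    refine ⟨max m0 1, fun N => ?_⟩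
    rw [count_and]
    set m := Nat.count (fun n => D (pre B n) = true) N with hm
    by_cases hmm : max m0 1 ≤ m
    · have hm1 : 1 ≤ m := le_trans (le_max_right _ _) hmm
      have hmpos : (0 : ℝ) < m := by exact_mod_cast hm1
      have h2 := hm0 m (le_trans (le_max_left _ _) hmm)
      rw [Real.dist_eq] at h2
      have h3 : ∀ c : ℝ, |c / m - 1 / 2| < ε → |c - (m : ℝ) / 2| ≤ ε * m := by
        intro c hc
        have h4 : c - (m : ℝ) / 2 = (c / m - 1 / 2) * m := by field_simp
        rw [h4, abs_mul, abs_of_pos hmpos]
        exact mul_le_mul_of_nonneg_right hc.le hmpos.le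
      have h5 := h3 _ h2
      have h6 : (0 : ℝ) ≤ (max m0 1 : ℕ) := Nat.cast_nonneg _
      push_cast at h6
      linarith
    · have h2 := hbd m (fun j => B (Nat.nth (fun n => D (pre B n) = true) j) = true)
      have h3 : (m : ℝ) ≤ (max m0 1 : ℕ) := by exact_mod_cast (not_le.1 hmm).le
      push_cast at h3
      have h4 : 0 ≤ ε * (m : ℝ) := by positivity
      linarith
  · rw [Set.not_infinite] at hinf
    refine ⟨hinf.toFinset.card, fun N => ?_⟩
    rw [count_and]
    set m := Nat.count (fun n => D (pre B n) = true) N with hm
    have h2 := hbd m (fun j => B (Nat.nth (fun n => D (pre B n) = true) j) = true)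
    have h3 : m ≤ hinf.toFinset.card := Nat.count_le_card hinf N
    have h3' : (m : ℝ) ≤ hinf.toFinset.card := by exact_mod_cast h3
    have h4 : 0 ≤ ε * (m : ℝ) := by positivity
    linarith

/-- The window of length `j` at `n`. -/
def win (B : ℕ → Bool) (n j : ℕ) : List Bool := pre (fun i => B (n + i)) j

theorem win_succ (B : ℕ → Bool) (n j : ℕ) : win B n (j + 1) = win B n j ++ [B (n + j)] := pre_succ _ _

theorem win_cons (B : ℕ → Bool) (n j : ℕ) : win B n (j + 1) = B n :: win B (n + 1) j := by
  induction j with
  | zero => rfl
  | succ j ih =>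
    rw [win_succ, ih, win_succ, List.cons_append]
    congr 4
    omega

theorem pre_add (B : ℕ → Bool) (n j : ℕ) : pre B (n + j) = pre B n ++ win B n j := by
  induction j with
  | zero => rw [add_zero]; exact (List.append_nil _).symm
  | succ j ih => rw [← add_assoc, pre_succ, ih, win_succ, List.append_assoc]

/-- The places `m = n + |σ|` with `D (B 0 ... B (n-1))` and with the window `σ` at `n`. -/
def shiftD (σ : List Bool) (D : List Bool → Bool) (w : List Bool) : Bool :=
  decide (σ.length ≤ w.length) && (D (w.take (w.length - σ.length)) && decide (w.drop (w.length - σ.length) = σ))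

theorem computable_shiftD (σ : List Bool) {D : List Bool → Bool} (hD : Computable D) : Computable (shiftD σ D) := by
  have hl : Primrec fun w : List Bool => w.length - σ.length :=
    Primrec.nat_sub.comp Primrec.list_length (Primrec.const _)
  have h1 : Computable fun w : List Bool => decide (σ.length ≤ w.length) :=
    (PrimrecRel.comp Primrec.nat_le (Primrec.const σ.length) Primrec.list_length).decide.to_comp
  have h2 : Computable fun w : List Bool => D (w.take (w.length - σ.length)) :=
    hD.comp (Primrec.list_take.comp hl Primrec.id).to_comp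
  have h3 : Computable fun w : List Bool => decide (w.drop (w.length - σ.length) = σ) :=
    (PrimrecRel.comp Primrec.eq (Primrec.list_drop.comp hl Primrec.id) (Primrec.const σ)).decide.to_comp
  exact Primrec.and.to_comp.comp h1 (Primrec.and.to_comp.comp h2 h3)

theorem shiftD_add (σ : List Bool) (D : List Bool → Bool) (B : ℕ → Bool) (n : ℕ) :
    shiftD σ D (pre B (σ.length + n)) = true ↔ D (pre B n) = true ∧ win B n σ.length = σ := by
  unfold shiftD
  have h1 : σ.length + n = n + σ.length := add_comm _ _
  rw [h1, pre_length, Nat.add_sub_cancel, pre_add, List.take_left' (pre_length B n), List.drop_left' (pre_length B n)]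
  simp

theorem shiftD_lt (σ : List Bool) (D : List Bool → Bool) (B : ℕ → Bool) {n : ℕ} (h : n < σ.length) :
    shiftD σ D (pre B n) = false := by
  unfold shiftD
  rw [pre_length, decide_eq_false (by omega), Bool.false_and]

theorem count_shift (σ : List Bool) (D : List Bool → Bool) (B : ℕ → Bool) (Q : ℕ → Prop) [DecidablePred Q] (N : ℕ) :
    Nat.count (fun m => shiftD σ D (pre B m) = true ∧ Q m) (σ.length + N) =
      Nat.count (fun n => (D (pre B n) = true ∧ win B n σ.length = σ) ∧ Q (σ.length + n)) N := by
  rw [Nat.count_add]
  have h1 : Nat.count (fun m => shiftD σ D (pre B m) = true ∧ Q m) σ.length = 0 := by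
    rw [Nat.count_eq_card_filter_range, Finset.card_eq_zero, Finset.filter_eq_empty_iff]
    intro m hm hcon
    rw [shiftD_lt σ D B (Finset.mem_range.1 hm)] at hcon
    exact Bool.noConfusion hcon.1
  rw [h1, zero_add]
  congr 1
  funext n
  rw [shiftD_add]

theorem count_shift' (σ : List Bool) (D : List Bool → Bool) (B : ℕ → Bool) (N : ℕ) :
    Nat.count (fun m => shiftD σ D (pre B m) = true) (σ.length + N) =
      Nat.count (fun n => D (pre B n) = true ∧ win B n σ.length = σ) N := by
  have h := count_shift σ D B (fun _ => True) N
  simpa only [and_true] using h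

/-- Every window has the right frequency. -/
theorem small_win {B : ℕ → Bool} (hB : Mono B) {D : List Bool → Bool} (hD : Computable D) (σ : List Bool) :
    ∀ ε : ℝ, 0 < ε → ∃ C : ℝ, ∀ N : ℕ,
      |(Nat.count (fun n => D (pre B n) = true ∧ win B n σ.length = σ) N : ℝ) -
        (1 / 2) ^ σ.length * (Nat.count (fun n => D (pre B n) = true) N : ℝ)| ≤
      ε * (Nat.count (fun n => D (pre B n) = true) N : ℝ) + C := by
  induction σ using List.reverseRecOn with
  | nil =>
    intro ε hε
    refine ⟨0, fun N => ?_⟩
    have h1 : Nat.count (fun n => D (pre B n) = true ∧ win B n ([] : List Bool).length = []) N =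
        Nat.count (fun n => D (pre B n) = true) N := by
      congr 1
      funext n
      simp [win, pre]
    rw [h1]
    simp only [List.length_nil, pow_zero, one_mul, sub_self, abs_zero, add_zero]
    positivity
  | append_singleton σ b ih =>
    intro ε hε
    obtain ⟨C1, hC1⟩ := ih (ε / 2) (by positivity)
    obtain ⟨C2, hC2⟩ := small_one hB (computable_shiftD σ hD) (ε / 2) (by positivity)
    refine ⟨C2 + C1 / 2, fun N => ?_⟩
    have h1 := hC1 N
    have h2 := hC2 (σ.length + N)
    rw [count_shift', count_shift σ D B (fun m => B m = true)] at h2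
    set T := Nat.count (fun n => D (pre B n) = true) N with hT
    set P := Nat.count (fun n => D (pre B n) = true ∧ win B n σ.length = σ) N with hP
    set O := Nat.count (fun n => (D (pre B n) = true ∧ win B n σ.length = σ) ∧ B (σ.length + n) = true) N with hO
    have hPT : (P : ℝ) ≤ T := by
      have : P ≤ T := Nat.count_mono_left fun n _ h => h.1
      exact_mod_cast this
    set X := Nat.count (fun n => D (pre B n) = true ∧ win B n (σ ++ [b]).length = σ ++ [b]) N with hX
    have hXO : |(X : ℝ) - (P : ℝ) / 2| = |(O : ℝ) - (P : ℝ) / 2| := by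
      have e1 : ∀ n, (D (pre B n) = true ∧ win B n (σ ++ [b]).length = σ ++ [b]) ↔
          ((D (pre B n) = true ∧ win B n σ.length = σ) ∧ B (σ.length + n) = b) := by
        intro n
        rw [List.length_append, List.length_singleton, win_succ, and_assoc, add_comm σ.length n]
        refine and_congr_right fun _ => ?_
        constructor
        · intro h
          have h3 := List.append_inj' h rfl
          exact ⟨h3.1, by simpa using h3.2⟩
        · rintro ⟨h3, h4⟩
          rw [h3, h4]
      have e2 : X = Nat.count (fun n => (D (pre B n) = true ∧ win B n σ.length = σ) ∧ B (σ.length + n) = b) N := by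
        rw [hX]
        congr 1
        funext n
        exact propext (e1 n)
      cases b with
      | true => rw [e2]
      | false =>
        have e3 : O + X = P := by
          rw [e2, hO, hP, Nat.count_eq_card_filter_range, Nat.count_eq_card_filter_range, Nat.count_eq_card_filter_range,
            ← Finset.filter_filter, ← Finset.filter_filter (fun n => D (pre B n) = true ∧ win B n σ.length = σ)]
          have e4 := Finset.card_filter_add_card_filter_not
            (s := (Finset.range N).filter fun n => D (pre B n) = true ∧ win B n σ.length = σ)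
            (fun n => B (σ.length + n) = true)
          simpa only [Bool.not_eq_true] using e4
        have e5 : (X : ℝ) = P - O := by
          have : ((O + X : ℕ) : ℝ) = P := by rw [e3]
          push_cast at this
          linarith
        rw [e5]
        have e6 : (P : ℝ) - O - (P : ℝ) / 2 = -((O : ℝ) - (P : ℝ) / 2) := by ring
        rw [e6, abs_neg]
    rw [← hXO] at h2
    have hlen : (σ ++ [b]).length = σ.length + 1 := by simp
    have h3 : (1 / 2 : ℝ) ^ (σ ++ [b]).length * (T : ℝ) = ((1 / 2 : ℝ) ^ σ.length * T) / 2 := by
      rw [hlen, pow_succ]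
      ring
    rw [h3]
    have hT0 : (0 : ℝ) ≤ T := Nat.cast_nonneg _
    have h4 : ε / 2 * (P : ℝ) ≤ ε / 2 * T := mul_le_mul_of_nonneg_left hPT (by positivity)
    have h5 : 0 ≤ ε * (T : ℝ) := by positivity
    rw [abs_le] at h1 h2 ⊢
    constructor <;> linarith [h1.1, h1.2, h2.1, h2.2]

end H51L
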